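import Pool.Agent.MP_249f74_an.H17.Cm

/-!
Reflections in confocal quadrics commute.
-/

open MvPolynomial Matrix

namespace Pool.Agent.MP_249f74_an.H17.Cm

variable {C Ω ι : Type} [Field C] [Field Ω] [Algebra C Ω] [Fintype ι] [DecidableEq ι]

/-- The linear part of a covector. -/
def sp {R : Type} (h : Option ι → R) : ι → R := fun i => h (some i)

section Hom

variable {R : Type} [CommRing R]

lemma hat_dot (q : ι → R) (h : Option ι → R) : hat q ⬝ᵥ h = h none + q ⬝ᵥ sp h := by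
  simp [hat, sp, dotProduct, Fintype.sum_option]

lemma vec_dot (v : ι → R) (h : Option ι → R) : vec v ⬝ᵥ h = v ⬝ᵥ sp h := by
  simp [vec, sp, dotProduct, Fintype.sum_option]

lemma hat_add (q u : ι → R) : hat (q + u) = hat q + vec u := by
  ext (_ | i) <;> simp [hat, vec]

lemma vec_smul (t : R) (u : ι → R) : vec (t • u) = t • vec u := by
  ext (_ | i) <;> simp [vec]

lemma vec_add (v u : ι → R) : vec (v + u) = vec v + vec u := by
  ext (_ | i) <;> simp [vec]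

lemma vec_sub (v u : ι → R) : vec (v - u) = vec v - vec u := by
  ext (_ | i) <;> simp [vec]

lemma vec_neg (u : ι → R) : vec (-u) = -vec u := by
  ext (_ | i) <;> simp [vec]

@[simp] lemma sp_add (h k : Option ι → R) : sp (h + k) = sp h + sp k := rfl

@[simp] lemma sp_sub (h k : Option ι → R) : sp (h - k) = sp h - sp k := rfl

@[simp] lemma sp_neg (h : Option ι → R) : sp (-h) = -sp h := rfl

@[simp] lemma sp_smul (t : R) (h : Option ι → R) : sp (t • h) = t • sp h := rfl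

@[simp] lemma sp_vec (v : ι → R) : sp (vec v) = v := rfl

@[simp] lemma sp_hat (v : ι → R) : sp (hat v) = v := rfl

lemma J_mulVec (h : Option ι → R) : J ι R *ᵥ h = vec (sp h) := by
  ext (_ | i) <;> simp [J, vec, sp, mulVec_diagonal]

lemma J_symm : (J ι R).IsSymm := isSymm_diagonal _

lemma J_map {S : Type} [CommRing S] (f : R →+* S) : (J ι R).map f = J ι S := by
  ext a b
  rcases eq_or_ne a b with rfl | h
  · cases a <;> simp [J, vec]
  · simp [J, h]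

lemma symm_dot {n : Type} [Fintype n] {A : Matrix n n R} (hA : A.IsSymm) (X Y : n → R) :
    X ⬝ᵥ A *ᵥ Y = Y ⬝ᵥ A *ᵥ X := by
  rw [dotProduct_mulVec, ← mulVec_transpose, hA.eq, dotProduct_comm]

end Hom

lemma aeval_hat {R : Type} [CommRing R] [Algebra C R] (q : ι → R) (o : Option ι) :
    aeval q (hat (X : ι → MvPolynomial ι C) o) = hat q o := by
  cases o <;> simp [hat]

lemma aeval_quad {R : Type} [CommRing R] [Algebra C R] (A : Matrix (Option ι) (Option ι) C)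
    (q : ι → R) : aeval q (quad A) = hat q ⬝ᵥ A.map (algebraMap C R) *ᵥ hat q := by
  simp [quad, dotProduct, mulVec, aeval_hat]

lemma pderiv_hat (i : ι) (o : Option ι) :
    pderiv i (hat (X : ι → MvPolynomial ι C) o) = (Pi.single (some i) 1 : Option ι → _) o := by
  cases o <;> simp [hat, Pi.single_apply, pderiv_X]

lemma pderiv_quad {A : Matrix (Option ι) (Option ι) C} (hA : A.IsSymm) (i : ι) :
    pderiv i (quad A) = 2 * (A.map MvPolynomial.C *ᵥ hat X) (some i) := by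
  have e : pderiv i (quad A) = Pi.single (some i) 1 ⬝ᵥ (A.map MvPolynomial.C *ᵥ hat X) +
      hat X ⬝ᵥ (A.map MvPolynomial.C *ᵥ Pi.single (some i) 1) := by
    simp only [quad, dotProduct, mulVec, map_sum, Derivation.leibniz, smul_eq_mul, pderiv_hat,
      map_apply, pderiv_C, mul_zero, add_zero, ← Finset.sum_add_distrib]
    exact Finset.sum_congr rfl fun _ _ => by ring
  rw [e, symm_dot (hA.map _) (hat X), single_dotProduct]; ring

lemma grad_quad {A : Matrix (Option ι) (Option ι) C} (hA : A.IsSymm) (q : ι → Ω) :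
    grad (quad A) q = (2 : Ω) • sp (A.map (algebraMap C Ω) *ᵥ hat q) := by
  ext i
  simp [grad, pderiv_quad hA, sp, mulVec, dotProduct, aeval_hat, map_ofNat]

lemma top_quad [CharZero Ω] {B : Matrix (Option ι) (Option ι) C} {b : C} {u : ι → Ω}
    (hd : (b • quad B).totalDegree = 2)
    (h : aeval u (homogeneousComponent (b • quad B).totalDegree (b • quad B)) ≠ 0) :
    vec u ⬝ᵥ B.map (algebraMap C Ω) *ᵥ vec u ≠ 0 := fun h0 => h <| by
  rw [← coeff_line le_rfl 0 u, hd]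
  have e : line (b • quad B) 0 u = Polynomial.C (aeval (0 : ι → Ω) (b • quad B)) +
      Polynomial.C (algebraMap C Ω b * (vec u ⬝ᵥ B.map (algebraMap C Ω) *ᵥ hat 0 +
        hat 0 ⬝ᵥ B.map (algebraMap C Ω) *ᵥ vec u)) * Polynomial.X :=
    Polynomial.funext fun s => by
      rw [eval_line]
      simp only [map_smul, aeval_quad, hat_add, vec_smul, mulVec_add, mulVec_smul, add_dotProduct,
        dotProduct_add, smul_dotProduct, dotProduct_smul, h0, smul_eq_mul, Polynomial.eval_add,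
        Polynomial.eval_mul, Polynomial.eval_C, Polynomial.eval_X]
      simp only [Algebra.smul_def]
      ring
  rw [e, Polynomial.coeff_add, Polynomial.coeff_C_mul, Polynomial.coeff_C, Polynomial.coeff_X]
  simp

lemma half {A B : Matrix (Option ι) (Option ι) Ω} (hB : B.IsSymm)
    (I : ∀ X, B *ᵥ (X - vec (sp (A *ᵥ X))) = A *ᵥ X) {q1 q2 u0 u1 : ι → Ω} {h k : Option ι → Ω}
    {t c : Ω} (eh : h = A *ᵥ hat q1) (ek : k = B *ᵥ hat q2) (h1 : hat q1 ⬝ᵥ h = 0)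
    (h2 : hat q2 ⬝ᵥ k = 0) (hc : c * (sp h ⬝ᵥ sp h) = 2 * (sp h ⬝ᵥ u0)) (e1 : u1 = u0 - c • sp h)
    (e2 : q2 = q1 + t • u1) (hu : vec u0 ⬝ᵥ B *ᵥ vec u0 ≠ 0) :
    1 - t * c ≠ 0 ∧ sp h ⬝ᵥ sp k = t * (sp h ⬝ᵥ u0 - sp k ⬝ᵥ u1) ∧
      ∀ p, p = q1 + (t / (1 - t * c)) • u0 →
        (1 - t * c) • (B *ᵥ hat p) = k - (t * c) • h ∧ hat p ⬝ᵥ B *ᵥ hat p = 0 := by
  have a0 : sp h ⬝ᵥ u1 = -(sp h ⬝ᵥ u0) := by
    rw [e1, dotProduct_sub, dotProduct_smul, smul_eq_mul]; linear_combination -hc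
  have a1 : hat q2 = hat q1 + t • vec u1 := by rw [e2, hat_add, vec_smul]
  have a2 : hat q2 ⬝ᵥ h = -(t * (sp h ⬝ᵥ u0)) := by
    rw [a1, add_dotProduct, h1, smul_dotProduct, vec_dot, dotProduct_comm, a0]; simp
  have a3 : hat q1 ⬝ᵥ k = -(t * (sp k ⬝ᵥ u1)) := by
    rw [a1, add_dotProduct, smul_dotProduct, vec_dot, dotProduct_comm u1] at h2
    simpa [← eq_neg_iff_add_eq_zero] using h2
  have a4 : sp h ⬝ᵥ sp k = t * (sp h ⬝ᵥ u0 - sp k ⬝ᵥ u1) := by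
    have := congrArg (hat q2 ⬝ᵥ ·) (I (hat q1))
    simp only [← eh] at this
    rw [symm_dot hB, ← ek, sub_dotProduct, vec_dot, a2, a3] at this
    linear_combination -this
  obtain ⟨W, hW⟩ : ∃ W, W = (1 - t * c) • hat q1 + t • vec u0 := ⟨_, rfl⟩
  have a5 : W = hat q2 - (t * c) • (hat q1 - vec (sp h)) := by
    rw [hW, a1, e1, vec_sub, vec_smul]; module
  have a6 : B *ᵥ W = k - (t * c) • h := by
    rw [a5, mulVec_sub, mulVec_smul, ← ek, eh, I]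
  have a7 : W ⬝ᵥ B *ᵥ W = 0 := by
    rw [a6, a5]
    simp only [sub_dotProduct, dotProduct_sub, smul_dotProduct, dotProduct_smul, h1, h2, a2, a3,
      vec_dot, a4, smul_eq_mul]
    linear_combination (-(t ^ 2 * c)) * hc
  have a8 : 1 - t * c ≠ 0 := fun h0 => by
    rw [hW, h0, zero_smul, zero_add, mulVec_smul, smul_dotProduct, dotProduct_smul, smul_eq_mul,
      smul_eq_mul, mul_eq_zero, mul_eq_zero, or_iff_left hu, or_self] at a7
    simp [a7] at h0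
  refine ⟨a8, a4, fun p hp => ?_⟩
  have a9 : W = (1 - t * c) • hat p := by
    rw [hW, hp, hat_add, vec_smul, smul_add, smul_smul, mul_div_cancel₀ _ a8]
  rw [a9, mulVec_smul] at a6 a7
  exact ⟨a6, by simpa [a8] using a7⟩

lemma step_quad [CharZero Ω] {A : Matrix (Option ι) (Option ι) C} (hA : A.IsSymm) {a : C}
    (ha : a ≠ 0) {l l' : Li Ω ι} {q : ι → Ω} {h : Option ι → Ω} {s : Ω} (hs : s ≠ 0)
    (e : s • (A.map (algebraMap C Ω) *ᵥ hat q) = h) :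
    Step (a • quad A) l q l' ↔ l.On q ∧ l'.On q ∧ hat q ⬝ᵥ h = 0 ∧ sp h ⬝ᵥ sp h ≠ 0 ∧
      sp h ⬝ᵥ l.u ≠ 0 ∧ l'.u = rf (sp h) l.u := by
  have e' : grad (quad A) q = (2 / s) • sp h := by
    rw [grad_quad hA, ← e, sp_smul, smul_smul, div_mul_cancel₀ _ hs]
  have h2 : 2 / s ≠ 0 := div_ne_zero two_ne_zero hs
  have e0 : aeval q (quad A) = 0 ↔ hat q ⬝ᵥ h = 0 := by simp [aeval_quad, ← e, hs]
  rw [step_smul ha]
  refine ⟨fun ⟨h1, h2', h3, h4, h5, h6⟩ => ⟨h1, h2', e0.1 h3, ?_, ?_, ?_⟩,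
    fun ⟨h1, h2', h3, h4, h5, h6⟩ => ⟨h1, h2', e0.2 h3, ?_, ?_, ?_⟩⟩
  · rw [e'] at h4; exact fun h0 => h4 (by simp [h0])
  · rw [e'] at h5; exact fun h0 => h5 (by simp [h0])
  · rwa [e', smul_rf h2] at h6
  · simp [e', hs, h4]
  · simp [e', hs, h5]
  · rwa [e', smul_rf h2]

lemma Conf.symm {F G : MvPolynomial ι C} (h : Conf F G) : Conf G F := by
  obtain ⟨dF, dG, A, B, a, b, hA, hB, rfl, rfl, e⟩ := h
  have q : ∀ M : Matrix (Option ι) (Option ι) C, quad (-M) = -quad M := fun M => by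
    simp [quad, Matrix.map_neg, neg_mulVec]
  refine ⟨dG, dF, -B, -A, -b, -a, hB.neg, hA.neg, by simp [q], by simp [q], ?_⟩
  have := congrArg transpose e
  rw [transpose_sub, transpose_mul, transpose_mul, hA.eq, hB.eq, J_symm.eq] at this
  simp only [neg_mul, mul_neg, neg_neg, Matrix.mul_assoc, ← this]
  abel

theorem Conf.comm [CharZero Ω] {F G : MvPolynomial ι C} (hFG : Conf F G) : Comm Ω F G := by
  intro l0 l1 l2 q1 q2 g0 g2 s1 s2
  obtain ⟨dF, dG, A, B, a, b, hA, hB, rfl, rfl, e⟩ := hFG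
  have ha : a ≠ 0 := by rintro rfl; simp at dF
  have hb : b ≠ 0 := by rintro rfl; simp at dG
  have t0 := top_quad dG g0.top
  have t2 := top_quad dF g2.top
  obtain ⟨A', hA'⟩ : ∃ A', A' = A.map (algebraMap C Ω) := ⟨_, rfl⟩
  obtain ⟨B', hB'⟩ : ∃ B', B' = B.map (algebraMap C Ω) := ⟨_, rfl⟩
  have sA : A'.IsSymm := hA' ▸ hA.map _
  have sB : B'.IsSymm := hB' ▸ hB.map _
  have e1 : B' - A' = A' * J ι Ω * B' := by
    rw [hA', hB', ← J_map (algebraMap C Ω), ← Matrix.map_mul, ← Matrix.map_mul, ← e,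
      Matrix.map_sub _ (map_sub _)]
  have e2 : B' - A' = B' * J ι Ω * A' := by
    have := congrArg transpose e1
    rwa [transpose_sub, transpose_mul, transpose_mul, sA.eq, sB.eq, J_symm.eq,
      ← Matrix.mul_assoc] at this
  have I1 : ∀ X, B' *ᵥ (X - vec (sp (A' *ᵥ X))) = A' *ᵥ X := fun X => by
    rw [← J_mulVec, mulVec_sub, mulVec_mulVec, mulVec_mulVec, ← e2, sub_mulVec]; abel
  have I2 : ∀ X, (-A') *ᵥ (X - vec (sp ((-B') *ᵥ X))) = (-B') *ᵥ X := fun X => by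
    rw [← J_mulVec, mulVec_sub, mulVec_mulVec, mulVec_mulVec]
    simp only [neg_mul, mul_neg, neg_neg, ← e1, sub_mulVec, neg_mulVec]; abel
  obtain ⟨h, eh⟩ : ∃ h, h = A' *ᵥ hat q1 := ⟨_, rfl⟩
  obtain ⟨k, ek⟩ : ∃ k, k = B' *ᵥ hat q2 := ⟨_, rfl⟩
  obtain ⟨o0, o1, z1, n1, m1, r1⟩ :=
    (step_quad hA ha one_ne_zero (h := h) (by rw [eh, hA', one_smul])).1 s1
  obtain ⟨o1', o2, z2, n2, m2, r2⟩ :=
    (step_quad hB hb one_ne_zero (h := k) (by rw [ek, hB', one_smul])).1 s2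
  obtain ⟨t, ht⟩ := o1.sub o1'
  obtain ⟨c1, hc1⟩ : ∃ c, c = 2 * (sp h ⬝ᵥ l0.u) / (sp h ⬝ᵥ sp h) := ⟨_, rfl⟩
  obtain ⟨c2, hc2⟩ : ∃ c, c = 2 * (sp k ⬝ᵥ l1.u) / (sp k ⬝ᵥ sp k) := ⟨_, rfl⟩
  rw [rf, ← hc1] at r1
  have m3 : sp k ⬝ᵥ l2.u = -(sp k ⬝ᵥ l1.u) := by rw [r2, dot_rf n2]
  rw [rf, ← hc2] at r2
  rw [eq_div_iff n1] at hc1
  rw [eq_div_iff n2] at hc2
  obtain ⟨b1, b2, b3⟩ := half sB I1 eh ek z1 z2 hc1 r1 ht (hB' ▸ t0)
  obtain ⟨b4, -, b5⟩ := half sA.neg I2 (q1 := q2) (q2 := q1) (u0 := l2.u) (u1 := l1.u)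
    (h := -k) (k := -h) (t := -t) (c := c2) (by rw [ek, neg_mulVec]) (by rw [eh, neg_mulVec])
    (by simp [z2]) (by simp [z1]) (by simp [m3, hc2]) (by simp [r2]) (by simp [ht])
    (by simpa [neg_mulVec, hA'] using t2)
  rw [neg_mul, sub_neg_eq_add] at b4 b5
  obtain ⟨p1, hp1⟩ : ∃ p, p = q1 + (t / (1 - t * c1)) • l0.u := ⟨_, rfl⟩
  obtain ⟨p2, hp2⟩ : ∃ p, p = q2 + (-t / (1 + t * c2)) • l2.u := ⟨_, rfl⟩
  obtain ⟨b6, b7⟩ := b3 p1 hp1
  obtain ⟨b8, b9⟩ := b5 p2 hp2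
  obtain ⟨k', ek'⟩ : ∃ k', k' = k - (t * c1) • h := ⟨_, rfl⟩
  obtain ⟨h', eh'⟩ : ∃ h', h' = h + (t * c2) • k := ⟨_, rfl⟩
  have b8' : (1 + t * c2) • (A' *ᵥ hat p2) = h' := by
    rw [neg_mulVec] at b8; rw [eh']; linear_combination (norm := module) -b8
  rw [← ek'] at b6
  have y1 : hat p1 ⬝ᵥ k' = 0 := by rw [← b6, dotProduct_smul, b7, smul_zero]
  have y2 : hat p2 ⬝ᵥ h' = 0 := by
    rw [← b8', dotProduct_smul]; rw [neg_mulVec, dotProduct_neg, neg_eq_zero] at b9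
    rw [b9, smul_zero]
  have on1 : l0.On p1 := hp1 ▸ o0.add _
  have on2 : l2.On p2 := hp2 ▸ o2.add _
  have n3 : sp k' ⬝ᵥ sp k' ≠ 0 := fun h0 => g0.nn p1 on1
    (by rw [map_smul, aeval_quad, ← hB', b7, smul_zero]) (by
      rw [← b6] at h0
      rw [grad_smul, grad_quad hB, ← hB']
      simp [b1] at h0
      simp [h0])
  obtain ⟨D, hD⟩ : ∃ D, D = 1 + t ^ 2 * c1 * c2 := ⟨_, rfl⟩
  have f1 : sp k' ⬝ᵥ sp k' = D * (sp k ⬝ᵥ sp k) := by
    simp only [ek', sp_sub, sp_smul, sub_dotProduct, dotProduct_sub, smul_dotProduct,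
      dotProduct_smul, smul_eq_mul, dotProduct_comm (sp k) (sp h), hD]
    linear_combination (-2 * t * c1) * b2 + t ^ 2 * c1 * hc1 - t ^ 2 * c1 * hc2
  have f2 : sp h' ⬝ᵥ sp h' = D * (sp h ⬝ᵥ sp h) := by
    simp only [eh', sp_add, sp_smul, add_dotProduct, dotProduct_add, smul_dotProduct,
      dotProduct_smul, smul_eq_mul, dotProduct_comm (sp k) (sp h), hD]
    linear_combination (2 * t * c2) * b2 + t ^ 2 * c2 * hc2 - t ^ 2 * c2 * hc1
  have hD0 : D ≠ 0 := left_ne_zero_of_mul (f1 ▸ n3)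
  have f0 : sp k ⬝ᵥ l0.u = sp k ⬝ᵥ l1.u + c1 * (sp h ⬝ᵥ sp k) := by
    rw [r1, dotProduct_sub, dotProduct_smul, dotProduct_comm (sp k) (sp h)]; simp
  have f3 : 2 * (sp k' ⬝ᵥ l0.u) = c2 * (1 - t * c1) * (sp k ⬝ᵥ sp k) := by
    simp only [ek', sp_sub, sp_smul, sub_dotProduct, smul_dotProduct, smul_eq_mul, f0]
    linear_combination 2 * c1 * b2 - (1 - t * c1) * hc2
  have hc10 : c1 ≠ 0 := by rintro rfl; simp [m1] at hc1
  have hc20 : c2 ≠ 0 := by rintro rfl; simp [m2] at hc2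
  obtain ⟨u', hu'⟩ : ∃ u', u' = rf (sp k') l0.u := ⟨_, rfl⟩
  have f4 : u' = l0.u - (c2 * (1 - t * c1) / D) • sp k' := by
    rw [hu', rf, f3, f1, mul_div_mul_right _ _ n2]
  have f7 : sp h' ⬝ᵥ sp k' = -(D * (sp h ⬝ᵥ sp k)) := by
    simp only [eh', ek', sp_add, sp_sub, sp_smul, add_dotProduct, dotProduct_sub, smul_dotProduct,
      dotProduct_smul, smul_eq_mul, dotProduct_comm (sp k) (sp h), hD]
    linear_combination 2 * b2 - t * hc1 + t * hc2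
  have f5 : 2 * (sp h' ⬝ᵥ u') = c1 * (1 + t * c2) * (sp h ⬝ᵥ sp h) := by
    rw [f4, dotProduct_sub, dotProduct_smul, f7, smul_eq_mul, mul_neg, ← mul_assoc _ D,
      div_mul_cancel₀ _ hD0]
    simp only [eh', sp_add, sp_smul, add_dotProduct, smul_dotProduct, smul_eq_mul, f0]
    linear_combination 2 * c2 * b2 - (1 + t * c2) * hc1
  have uu : u' ⬝ᵥ u' = 1 := by rw [hu', rf_dot_rf n3, l0.uu]
  have f6 : l2.u = u' - (c1 * (1 + t * c2) / D) • sp h' := by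
    rw [r2, r1, f4, eh', ek']
    ext i
    simp only [sp_add, sp_sub, sp_smul, Pi.sub_apply, Pi.add_apply, Pi.smul_apply, smul_eq_mul]
    field_simp
    rw [hD]; ring
  refine ⟨p1, mkLi p1 u' uu, p2, (step_quad hB hb b1 (hB' ▸ b6)).2 ⟨on1, on_mkLi _ _ _, y1, n3,
    fun h0 => ?_, hu'⟩, (step_quad hA ha b4 (hA' ▸ b8')).2 ⟨?_, on2, y2, f2 ▸ mul_ne_zero hD0 n1,
    fun h0 => ?_, ?_⟩, ?_⟩
  · rw [h0] at f3; simp [hc20, b1, n2] at f3
  · have : p2 = p1 + (-(D * t / ((1 - t * c1) * (1 + t * c2)))) • u' := by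
      rw [hp2, hp1, ht, r2, r1, f4, ek']
      ext i
      simp only [sp_sub, sp_smul, Pi.sub_apply, Pi.add_apply, Pi.smul_apply, smul_eq_mul]
      field_simp
      rw [hD]; ring
    rw [this]
    exact (on_mkLi p1 u' uu).add _
  · change sp h' ⬝ᵥ u' = 0 at h0
    rw [h0, mul_zero, eq_comm] at f5
    exact mul_ne_zero (mul_ne_zero hc10 b4) n1 f5
  · change l2.u = rf (sp h') u'
    rw [rf, f5, f2, mul_div_mul_right _ _ n1, ← f6]
  · change p1 ⬝ᵥ (l0.u - u') + p2 ⬝ᵥ (u' - l2.u) = q1 ⬝ᵥ (l0.u - l1.u) + q2 ⬝ᵥ (l1.u - l2.u)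
    rw [hat_dot, add_comm, ← eq_neg_iff_add_eq_zero] at y1 y2 z1 z2
    nth_rewrite 1 [f6]
    rw [r2]
    nth_rewrite 1 [r1, f4]
    simp only [sub_sub_cancel, dotProduct_smul, y1, y2, z1, z2, smul_eq_mul]
    simp only [eh', ek', Pi.add_apply, Pi.sub_apply, Pi.smul_apply, smul_eq_mul]
    field_simp
    rw [hD]; ring

end Pool.Agent.MP_249f74_an.H17.Cm
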