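import Mathlib

/-!
Reflections of oriented lines in algebraic hypersurfaces; commuting pairs of mirrors.
-/

open MvPolynomial Matrix

namespace Pool.Agent.MP_249f74_an.H17.Cm

/-- An oriented line with unit direction `u` and foot point `x`. -/
@[ext] structure Li (Ω ι : Type) [Field Ω] [Fintype ι] where
  /-- direction -/
  u : ι → Ω
  /-- foot point -/
  x : ι → Ω
  uu : u ⬝ᵥ u = 1
  xu : x ⬝ᵥ u = 0

variable {C Ω ι : Type} [Field C] [Field Ω] [Algebra C Ω] [Fintype ι] [DecidableEq ι]

/-- The point is on the line. -/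
def Li.On (l : Li Ω ι) (q : ι → Ω) : Prop := q = l.x + (q ⬝ᵥ l.u) • l.u

/-- The gradient at a point. -/
noncomputable def grad (F : MvPolynomial ι C) (q : ι → Ω) : ι → Ω :=
  fun i => aeval q (pderiv i F)

/-- The linear reflection with normal `N`. -/
noncomputable def rf (N u : ι → Ω) : ι → Ω := u - (2 * (N ⬝ᵥ u) / (N ⬝ᵥ N)) • N

/-- The hypersurface `F = 0` reflects `l` to `l'` at `q`. -/
structure Step (F : MvPolynomial ι C) (l : Li Ω ι) (q : ι → Ω) (l' : Li Ω ι) : Prop where
  on : l.On q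
  on' : l'.On q
  zero : aeval q F = 0
  nn : grad F q ⬝ᵥ grad F q ≠ 0
  nu : grad F q ⬝ᵥ l.u ≠ 0
  eq : l'.u = rf (grad F q) l.u

/-- The delay of a reflection. -/
def del (l : Li Ω ι) (q : ι → Ω) (l' : Li Ω ι) : Ω := q ⬝ᵥ (l.u - l'.u)

/-- The line meets the hypersurface only at finite points with non isotropic normals. -/
structure Good (F : MvPolynomial ι C) (l : Li Ω ι) : Prop where
  top : aeval l.u (homogeneousComponent F.totalDegree F) ≠ 0
  nn : ∀ q, l.On q → aeval q F = 0 → grad F q ⬝ᵥ grad F q ≠ 0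

variable (Ω) in
/-- The reflections in the two hypersurfaces can be exchanged. -/
def Comm (F G : MvPolynomial ι C) : Prop :=
  ∀ (l0 l1 l2 : Li Ω ι) (q1 q2 : ι → Ω), Good G l0 → Good F l2 → Step F l0 q1 l1 →
    Step G l1 q2 l2 → ∃ p1 l' p2, Step G l0 p1 l' ∧ Step F l' p2 l2 ∧
      del l0 p1 l' + del l' p2 l2 = del l0 q1 l1 + del l1 q2 l2

/-- Homogeneous coordinates of a point. -/
def hat {R : Type} [One R] (q : ι → R) : Option ι → R := fun o => o.elim 1 q

/-- Homogeneous coordinates of a vector. -/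
def vec {R : Type} [Zero R] (v : ι → R) : Option ι → R := fun o => o.elim 0 v

variable (ι) in
/-- The absolute form. -/
def J (R : Type) [Zero R] [One R] : Matrix (Option ι) (Option ι) R := diagonal (vec fun _ => 1)

/-- The quadric with the matrix `A`. -/
noncomputable def quad (A : Matrix (Option ι) (Option ι) C) : MvPolynomial ι C :=
  hat X ⬝ᵥ (A.map MvPolynomial.C *ᵥ hat X)

/-- Confocal quadrics of any rank. -/
def Conf (F G : MvPolynomial ι C) : Prop :=
  F.totalDegree = 2 ∧ G.totalDegree = 2 ∧ ∃ (A B : Matrix (Option ι) (Option ι) C) (a b : C),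
    A.IsSymm ∧ B.IsSymm ∧ F = a • quad A ∧ G = b • quad B ∧ B - A = A * J ι C * B

/-- The tangent hyperplane as a covector. -/
noncomputable def tg (G : MvPolynomial ι C) : Option ι → MvPolynomial ι C :=
  fun o => o.elim (-∑ i, X i * pderiv i G) fun i => pderiv i G

/-- Warped pairs: the tangent hyperplanes of `G = 0` lie in the row space of `Q`, and the normals
of the level sets of `F` meet the kernel of `Q`. -/
def Warp (F G : MvPolynomial ι C) : Prop :=
  ∃ Q : Matrix (Option ι) (Option ι) C, (∃ i j s t, Q i s * Q j t ≠ Q i t * Q j s) ∧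
    (∀ i j, (Q.map MvPolynomial.C *ᵥ vec fun k => pderiv k F) i *
        (Q.map (MvPolynomial.C (σ := ι)) *ᵥ hat X) j =
      (Q.map MvPolynomial.C *ᵥ vec fun k => pderiv k F) j *
        (Q.map (MvPolynomial.C (σ := ι)) *ᵥ hat X) i) ∧
    ∀ j, G ∣ (tg G ᵥ* (1 - Q).map MvPolynomial.C) j

variable (C) in
/-- Generic lines. -/
def Gen (l : Li Ω ι) : Prop :=
  ∀ a b : ι → Ω, a ⬝ᵥ l.u = 0 → b ⬝ᵥ l.u + l.x ⬝ᵥ a = 0 →
    ∃ θ : Derivation C Ω Ω, (∀ i, θ (l.u i) = a i) ∧ ∀ i, θ (l.x i) = b i

/-- Mirrors: prime equations with non isotropic normals. -/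
structure Mir (F : MvPolynomial ι C) : Prop where
  prime : Prime F
  nn : ¬F ∣ ∑ i, pderiv i F * pderiv i F

section Basic

variable {N u v q p : ι → Ω} {l l' l'' : Li Ω ι} {F G : MvPolynomial ι C}

lemma dot_rf (h : N ⬝ᵥ N ≠ 0) (u : ι → Ω) : N ⬝ᵥ rf N u = -(N ⬝ᵥ u) := by
  simp only [rf, dotProduct_sub, dotProduct_smul, smul_eq_mul]; field_simp; ring

lemma rf_dot_rf (h : N ⬝ᵥ N ≠ 0) (u v : ι → Ω) : rf N u ⬝ᵥ rf N v = u ⬝ᵥ v := by
  simp only [rf, dotProduct_sub, dotProduct_smul, sub_dotProduct, smul_dotProduct, smul_eq_mul,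
    dotProduct_comm u N]
  field_simp; ring

lemma rf_rf (h : N ⬝ᵥ N ≠ 0) (u : ι → Ω) : rf N (rf N u) = u := by
  rw [rf, dot_rf h, rf]; ext i; simp; ring

lemma rf_smul (N u : ι → Ω) (a : Ω) : rf N (a • u) = a • rf N u := by
  ext i; simp [rf]; ring

lemma rf_add (N u v : ι → Ω) : rf N (u + v) = rf N u + rf N v := by
  ext i; simp [rf]; ring

lemma rf_sub (N u v : ι → Ω) : rf N (u - v) = rf N u - rf N v := by
  ext i; simp [rf]; ring

lemma smul_rf {a : Ω} (ha : a ≠ 0) (N u : ι → Ω) : rf (a • N) u = rf N u := by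
  by_cases h : N ⬝ᵥ N = 0
  · simp [rf, h]
  · ext i; simp [rf]; field_simp

lemma rf_of_dot (h : N ⬝ᵥ u = 0) : rf N u = u := by simp [rf, h]

lemma rf_conj (h : N ⬝ᵥ N ≠ 0) (v u : ι → Ω) : rf (rf N v) (rf N u) = rf N (rf v u) := by
  rw [rf, rf_dot_rf h, rf_dot_rf h, ← rf_smul, ← rf_sub]; rfl

lemma dot_rf_comm (N u v : ι → Ω) : rf N u ⬝ᵥ v = u ⬝ᵥ rf N v := by
  simp only [rf, dotProduct_sub, dotProduct_smul, sub_dotProduct, smul_dotProduct, smul_eq_mul,
    dotProduct_comm u N]
  ring

/-- The line through a point. -/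
def mkLi (p u : ι → Ω) (h : u ⬝ᵥ u = 1) : Li Ω ι :=
  ⟨u, p - (p ⬝ᵥ u) • u, h, by simp [h]⟩

lemma on_mkLi (p u : ι → Ω) (h : u ⬝ᵥ u = 1) : (mkLi p u h).On p := by simp [Li.On, mkLi]

lemma Li.On.add (h : l.On q) (t : Ω) : l.On (q + t • l.u) := by
  unfold Li.On at *
  rw [add_dotProduct, smul_dotProduct, l.uu, add_smul, ← add_assoc, ← h]; simp

lemma Li.On.sub (h : l.On q) (h' : l.On p) : ∃ t : Ω, p = q + t • l.u :=
  ⟨p ⬝ᵥ l.u - q ⬝ᵥ l.u, by
    unfold Li.On at *
    rw [sub_smul]; linear_combination (exp := 1) h' - h⟩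

lemma Li.on_x (l : Li Ω ι) : l.On l.x := by simp [Li.On, l.xu]

lemma Li.eq_of_on (h : l.On q) (h' : l'.On q) (e : l.u = l'.u) : l = l' := by
  refine Li.ext e ?_
  unfold Li.On at *
  rw [← e] at h'
  linear_combination (exp := 1) h' - h

lemma Step.symm (h : Step F l q l') : Step F l' q l :=
  ⟨h.on', h.on, h.zero, h.nn, by rw [h.eq, dot_rf h.nn]; exact neg_ne_zero.2 h.nu,
    by rw [h.eq, rf_rf h.nn]⟩

lemma del_symm (l l' : Li Ω ι) (q : ι → Ω) : del l' q l = -del l q l' := by simp [del]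

lemma Step.det (h : Step F l q l') (h' : Step F l q l'') : l' = l'' :=
  Li.eq_of_on h.on' h'.on' (h.eq.trans h'.eq.symm)

/-- Two reflections at the same point cancel. -/
lemma Step.back (h : Step F l q l') (h' : Step F l' q l'') :
    l'' = l ∧ del l q l' + del l' q l'' = 0 := by
  obtain rfl := h'.det h.symm
  exact ⟨rfl, by rw [del_symm l'' l']; ring⟩

lemma Comm.symm (h : Comm Ω F G) : Comm Ω G F := fun l0 l1 l2 q1 q2 g0 g2 s1 s2 => by
  obtain ⟨p1, l', p2, t1, t2, e⟩ := h l2 l1 l0 q2 q1 g2 g0 s2.symm s1.symm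
  refine ⟨p2, l', p1, t2.symm, t1.symm, ?_⟩
  rw [del_symm l' l2, del_symm l0 l', del_symm l1 l2, del_symm l0 l1] at e
  linear_combination -e

lemma grad_smul (a : C) (F : MvPolynomial ι C) (q : ι → Ω) :
    grad (a • F) q = algebraMap C Ω a • grad F q := by
  ext i; simp [grad, Algebra.smul_def]

lemma Step.smul {a : C} (ha : a ≠ 0) (h : Step F l q l') : Step (a • F) l q l' := by
  have ha' : algebraMap C Ω a ≠ 0 := by simpa using ha
  refine ⟨h.on, h.on', by simp [h.zero], ?_, ?_, ?_⟩ <;> rw [grad_smul]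
  · simp [ha, h.nn]
  · simp [ha, h.nu]
  · rw [smul_rf ha', h.eq]

lemma step_smul {a : C} (ha : a ≠ 0) : Step (a • F) l q l' ↔ Step F l q l' :=
  ⟨fun h => by simpa [smul_smul, ha] using h.smul (inv_ne_zero ha), Step.smul ha⟩

/-- The reflected line exists. -/
lemma exists_step (h : l.On q) (h0 : aeval q F = 0) (hn : grad F q ⬝ᵥ grad F q ≠ 0)
    (hu : grad F q ⬝ᵥ l.u ≠ 0) : ∃ l', Step F l q l' :=
  ⟨mkLi q (rf (grad F q) l.u) (by rw [rf_dot_rf hn, l.uu]), h, on_mkLi _ _ _, h0, hn, hu, rfl⟩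

end Basic

section Line

/-- The restriction of a polynomial to a parametrized line. -/
noncomputable def line (F : MvPolynomial ι C) (x u : ι → Ω) : Polynomial Ω :=
  aeval (fun i => Polynomial.C (x i) + Polynomial.C (u i) * Polynomial.X) F

lemma eval_line (F : MvPolynomial ι C) (x u : ι → Ω) (s : Ω) :
    (line F x u).eval s = aeval (x + s • u) F := by
  unfold line
  induction F using MvPolynomial.induction_on with
  | C a => simp
  | add p q hp hq => simp [hp, hq]
  | mul_X p i hp => simp [hp, mul_comm s]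

/-- The chain rule. -/
lemma der_aeval {R : Type} [CommRing R] [Algebra C R] (D : Derivation C R R) (q : ι → R)
    (F : MvPolynomial ι C) : D (aeval q F) = ∑ i, aeval q (pderiv i F) * D (q i) := by
  induction F using MvPolynomial.induction_on with
  | C a => simp
  | add p q hp hq => simp [hp, hq, add_mul, Finset.sum_add_distrib]
  | mul_X p i hp =>
    have e : ∀ j, aeval q (pderiv j (p * X i)) * D (q j) = q i * (aeval q (pderiv j p) * D (q j)) +
        if i = j then aeval q p * D (q j) else 0 := fun j => by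
      by_cases h : i = j
      · subst h; simp; ring
      · simp [h]; ring
    simp only [e, Finset.sum_add_distrib, ← Finset.mul_sum, ← hp, Finset.sum_ite_eq,
      Finset.mem_univ, if_true]
    simp [add_comm]

lemma derivative_line (F : MvPolynomial ι C) (x u : ι → Ω) :
    (line F x u).derivative = ∑ i, line (pderiv i F) x u * Polynomial.C (u i) := by
  have := der_aeval ((Polynomial.derivative' (R := Ω)).restrictScalars C)
    (fun i => Polynomial.C (x i) + Polynomial.C (u i) * Polynomial.X) F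
  simpa [line] using this

lemma eval_derivative_line (F : MvPolynomial ι C) (x u : ι → Ω) (s : Ω) :
    (line F x u).derivative.eval s = grad F (x + s • u) ⬝ᵥ u := by
  simp [derivative_line, Polynomial.eval_finsetSum, eval_line, dotProduct, grad, mul_comm]

lemma line_monomial (m : ι →₀ ℕ) (a : C) (x u : ι → Ω) :
    (line (monomial m a) x u).natDegree ≤ m.degree ∧
      (line (monomial m a) x u).coeff m.degree = aeval u (monomial m a) := by
  have key : ∀ s : Finset ι, (∏ i ∈ s, (Polynomial.C (x i) + Polynomial.C (u i) *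
      Polynomial.X) ^ m i).natDegree ≤ ∑ i ∈ s, m i ∧ (∏ i ∈ s, (Polynomial.C (x i) +
      Polynomial.C (u i) * Polynomial.X) ^ m i).coeff (∑ i ∈ s, m i) = ∏ i ∈ s, u i ^ m i := by
    intro s
    induction s using Finset.induction_on with
    | empty => simp
    | insert i s hi ih =>
      have h1 : (Polynomial.C (x i) + Polynomial.C (u i) * Polynomial.X).natDegree ≤ 1 := by
        compute_degree
      have h2 := Polynomial.natDegree_pow_le_of_le (m i) h1
      have h3 := Polynomial.coeff_pow_of_natDegree_le (m := m i) h1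
      rw [mul_one] at h2 h3
      simp only [Finset.prod_insert hi, Finset.sum_insert hi]
      refine ⟨Polynomial.natDegree_mul_le_of_le h2 ih.1, ?_⟩
      rw [Polynomial.coeff_mul_add_eq_of_natDegree_le h2 ih.1, h3, ih.2]
      simp
  obtain ⟨k1, k2⟩ := key m.support
  simp only [line, aeval_monomial, Finsupp.prod, Finsupp.degree_apply,
    Polynomial.algebraMap_apply, Polynomial.coeff_C_mul, k2, and_true]
  exact (Polynomial.natDegree_C_mul_le _ _).trans k1

lemma coeff_line {F : MvPolynomial ι C} {d : ℕ} (h : F.totalDegree ≤ d) (x u : ι → Ω) :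
    (line F x u).coeff d = aeval u (homogeneousComponent d F) := by
  have e : line F x u = ∑ m ∈ F.support, line (monomial m (coeff m F)) x u := by
    unfold line; rw [← map_sum, ← F.as_sum]
  rw [e, homogeneousComponent_apply, Polynomial.finsetSum_coeff, map_sum, Finset.sum_filter]
  refine Finset.sum_congr rfl fun m hm => ?_
  obtain ⟨h1, h2⟩ := line_monomial m (coeff m F) x u
  split_ifs with hd
  · rw [← hd, h2]
  · refine Polynomial.coeff_eq_zero_of_natDegree_lt (h1.trans_lt (lt_of_le_of_ne ?_ hd))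
    exact le_trans (le_totalDegree hm) h

end Line

end Pool.Agent.MP_249f74_an.H17.Cm
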