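import Pool.Agent.MP_249f74_an.H17.Cm
import Pool.Agent.MP_249f74_an.H88.Rank

/-!
Generic lines.
-/

open MvPolynomial Matrix

namespace Pool.Agent.MP_249f74_an.H17.Cm

variable {C Ω ι : Type} [Field C] [Field Ω] [Algebra C Ω] [Fintype ι] [DecidableEq ι]

/-- The derivative of a vector. -/
def dv (θ : Derivation C Ω Ω) (v : ι → Ω) : ι → Ω := fun i => θ (v i)

lemma dv_add (θ : Derivation C Ω Ω) (p q : ι → Ω) : dv θ (p + q) = dv θ p + dv θ q := by
  ext; simp [dv]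

lemma dv_sub (θ : Derivation C Ω Ω) (p q : ι → Ω) : dv θ (p - q) = dv θ p - dv θ q := by
  ext; simp [dv]

lemma dv_smul (θ : Derivation C Ω Ω) (a : Ω) (q : ι → Ω) :
    dv θ (a • q) = θ a • q + a • dv θ q := by
  ext; simp [dv]; ring

lemma add_dv (θ φ : Derivation C Ω Ω) (q : ι → Ω) : dv (θ + φ) q = dv θ q + dv φ q := by
  ext; simp [dv]

lemma dv_dot (θ : Derivation C Ω Ω) (p q : ι → Ω) :
    θ (p ⬝ᵥ q) = dv θ p ⬝ᵥ q + p ⬝ᵥ dv θ q := by
  simp only [dotProduct, map_sum, Derivation.leibniz, smul_eq_mul, dv, ← Finset.sum_add_distrib]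
  exact Finset.sum_congr rfl fun _ _ => by ring

lemma der_eval (θ : Derivation C Ω Ω) (q : ι → Ω) (F : MvPolynomial ι C) :
    θ (aeval q F) = grad F q ⬝ᵥ dv θ q := der_aeval θ q F

lemma grad_dv {θ : Derivation C Ω Ω} {q : ι → Ω} {F : MvPolynomial ι C} (h : aeval q F = 0) :
    grad F q ⬝ᵥ dv θ q = 0 := by rw [← der_eval, h, map_zero]

lemma dv_grad {θ : Derivation C Ω Ω} {q : ι → Ω} (h : dv θ q = 0) (F : MvPolynomial ι C) :
    dv θ (grad F q) = 0 := by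
  ext i; simp [dv, grad, der_eval, h]

lemma dv_rf {θ : Derivation C Ω Ω} {N : ι → Ω} (h : dv θ N = 0) (u : ι → Ω) :
    dv θ (rf N u) = rf N (dv θ u) := by
  have h2 : θ 2 = 0 := by simpa using θ.map_natCast 2
  have : θ (2 * (N ⬝ᵥ u) / (N ⬝ᵥ N)) = 2 * (N ⬝ᵥ dv θ u) / (N ⬝ᵥ N) := by
    simp [div_eq_mul_inv, Derivation.leibniz_inv, dv_dot, h, h2, mul_comm]
  rw [rf, dv_sub, dv_smul, h, this, rf]; simp

lemma td_zero_of_pderiv {σ : Type} [CharZero C] {P : MvPolynomial σ C}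
    (h : ∀ j, pderiv j P = 0) : P.totalDegree = 0 := by
  classical
  rw [totalDegree_eq_zero_iff]
  intro m hm j
  by_contra h4
  have h5 := coeff_pderiv (i := j) P (m - Finsupp.single j 1)
  have h6 : m - Finsupp.single j 1 + Finsupp.single j 1 = m := by
    apply tsub_add_cancel_of_le
    rw [Finsupp.single_le_iff]; omega
  rw [h, h6, coeff_zero] at h5
  rcases mul_eq_zero.1 h5.symm with h7 | h7
  · exact (mem_support_iff.1 hm) h7
  · exact Nat.cast_add_one_ne_zero _ h7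

variable [CharZero Ω]

/-- A family of polynomials that vanish at a point and is stable under derivatives is zero. -/
lemma eq_zero_of_stable {σ : Type} {y : σ → Ω} (S : MvPolynomial σ C → Prop)
    (h : ∀ P, S P → aeval y P = 0 ∧ ∀ j, S (pderiv j P)) (P : MvPolynomial σ C) (hP : S P) :
    P = 0 := by
  have : CharZero C := (algebraMap C Ω).charZero
  induction hd : P.totalDegree using Nat.strong_induction_on generalizing P with
  | _ d ih =>
  have h1 : P.totalDegree = 0 := td_zero_of_pderiv fun j => by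
    by_contra hn
    exact hn (ih _ (hd ▸ H88.totalDegree_pderiv_lt hn) _ ((h P hP).2 j) rfl)
  have h2 := (h P hP).1
  rw [totalDegree_eq_zero_iff_eq_C] at h1
  rw [h1, aeval_C, map_eq_zero] at h2
  rw [h1, h2, map_zero]

lemma indep_of_dual {σ : Type} [Fintype σ] [DecidableEq σ] {y : σ → Ω}
    (h : ∀ j, ∃ θ : Derivation C Ω Ω, dv θ y = Pi.single j 1) : AlgebraicIndependent C y :=
  algebraicIndependent_iff.2 <| eq_zero_of_stable (y := y) _ fun P hP => ⟨hP, fun j => by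
    obtain ⟨θ, hθ⟩ := h j
    change grad P y j = 0
    simpa [hθ] using grad_dv (θ := θ) hP⟩

lemma unit_dot {u : ι → Ω} (h : u ⬝ᵥ u = 1) (θ : Derivation C Ω Ω) : dv θ u ⬝ᵥ u = 0 := by
  have := dv_dot θ u u
  rw [h, Derivation.map_one_eq_zero, dotProduct_comm u] at this
  linear_combination (-1 / 2 : Ω) * this

lemma top_ne_zero {F : MvPolynomial ι C} (h : F ≠ 0) :
    homogeneousComponent F.totalDegree F ≠ 0 := by
  obtain ⟨m, hm, e⟩ := Finset.exists_mem_eq_sup F.support (support_nonempty.2 h)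
    (fun s => s.sum fun _ e => e)
  intro h0
  have := congrArg (coeff m) h0
  rw [coeff_homogeneousComponent, if_pos (by rw [totalDegree, e]; rfl), coeff_zero] at this
  exact mem_support_iff.1 hm this

variable {l l' : Li Ω ι} {q : ι → Ω} {F G : MvPolynomial ι C}

omit [CharZero Ω] in
lemma Gen.free (h : Gen C l) (hq : l.On q) (a w : ι → Ω) (ha : a ⬝ᵥ l.u = 0) :
    ∃ (θ : Derivation C Ω Ω) (s : Ω), dv θ l.u = a ∧ dv θ q = w + s • l.u := by
  obtain ⟨θ, h1, h2⟩ := h a (w - (q ⬝ᵥ l.u) • a -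
    ((w - (q ⬝ᵥ l.u) • a) ⬝ᵥ l.u + l.x ⬝ᵥ a) • l.u) ha (by simp [l.uu])
  have e1 : dv θ l.u = a := funext h1
  refine ⟨θ, θ (q ⬝ᵥ l.u) - ((w - (q ⬝ᵥ l.u) • a) ⬝ᵥ l.u + l.x ⬝ᵥ a), e1, ?_⟩
  nth_rewrite 1 [hq]
  rw [dv_add, dv_smul, e1, show dv θ l.x = _ from funext h2]
  module

omit [CharZero Ω] in
lemma gen_of_free (hq : l.On q) (h : ∀ a w : ι → Ω, a ⬝ᵥ l.u = 0 →
    ∃ (θ : Derivation C Ω Ω) (s : Ω), dv θ l.u = a ∧ dv θ q = w + s • l.u) : Gen C l := by
  intro a b ha hb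
  obtain ⟨θ, s, h1, h2⟩ := h a (b + (q ⬝ᵥ l.u) • a) ha
  have e := congrArg (dv θ) hq
  rw [dv_add, dv_smul, h1, h2] at e
  have e1 : dv θ l.x = b + (s - θ (q ⬝ᵥ l.u)) • l.u := by
    linear_combination (norm := module) -e
  have e2 := dv_dot θ l.x l.u
  rw [l.xu, map_zero, e1, h1, add_dotProduct, smul_dotProduct, l.uu, smul_eq_mul] at e2
  rw [show s - θ (q ⬝ᵥ l.u) = 0 by linear_combination -e2 - hb, zero_smul, add_zero] at e1
  exact ⟨θ, congrFun h1, congrFun e1⟩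

omit [CharZero Ω] in
/-- A generic line is transversal. -/
lemma Gen.nu (h : Gen C l) (hq : l.On q) (h0 : aeval q F = 0) (hn : grad F q ≠ 0) :
    grad F q ⬝ᵥ l.u ≠ 0 := fun hu => hn <| funext fun i => by
  obtain ⟨θ, s, -, h2⟩ := h.free hq 0 (Pi.single i 1) (by simp)
  simpa [h2, hu] using grad_dv (θ := θ) h0

omit [CharZero Ω] in
/-- The point and the direction move independently. -/
lemma Gen.move (h : Gen C l) (hq : l.On q) (h0 : aeval q F = 0) (hn : grad F q ≠ 0)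
    (a w : ι → Ω) (ha : a ⬝ᵥ l.u = 0) (hw : grad F q ⬝ᵥ w = 0) :
    ∃ θ : Derivation C Ω Ω, dv θ l.u = a ∧ dv θ q = w := by
  obtain ⟨θ, s, h1, h2⟩ := h.free hq a w ha
  have := grad_dv (θ := θ) h0
  rw [h2, dotProduct_add, hw, zero_add, dotProduct_smul, smul_eq_mul, mul_eq_zero,
    or_iff_left (h.nu hq h0 hn)] at this
  exact ⟨θ, h1, by simpa [this] using h2⟩

lemma Gen.step (h : Gen C l) (s : Step F l q l') : Gen C l' := by
  have hn : grad F q ≠ 0 := fun e => s.nn (by simp [e])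
  refine gen_of_free s.on' fun a w ha => ?_
  obtain ⟨θ, -, h2⟩ := h.move s.on s.zero hn 0
    (w + (-(grad F q ⬝ᵥ w / grad F q ⬝ᵥ l'.u)) • l'.u) (by simp) (by simp [s.symm.nu])
  obtain ⟨φ, h3, h4⟩ := h.move s.on s.zero hn (rf (grad F q) (a - dv θ l'.u)) 0 (by
    rw [dot_rf_comm, ← s.eq, sub_dotProduct, ha, unit_dot l'.uu, sub_zero]) (by simp)
  refine ⟨θ + φ, _, ?_, by rw [add_dv, h2, h4, add_zero]⟩
  rw [add_dv]
  nth_rewrite 2 [s.eq]
  rw [dv_rf (dv_grad h4 F), h3, rf_rf s.nn, add_sub_cancel]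

/-- The direction of a generic line. -/
lemma Gen.dir (h : Gen C l) {d : ℕ} (hF : F.IsHomogeneous d) (h0 : aeval l.u F = 0) : F = 0 := by
  refine eq_zero_of_stable (y := l.u) (fun P => (∃ d, P.IsHomogeneous d) ∧ aeval l.u P = 0)
    (fun P ⟨⟨d, h1⟩, h2⟩ => ⟨h2, fun j => ⟨⟨_, h1.pderiv⟩, ?_⟩⟩) F ⟨⟨d, hF⟩, h0⟩
  obtain ⟨θ, -, h3, -⟩ := h.free l.on_x (Pi.single j 1 - l.u j • l.u) 0 (by simp [l.uu])
  have e1 := grad_dv (θ := θ) h2
  have e2 : grad P l.u ⬝ᵥ l.u = 0 := by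
    simpa [h2, grad, dotProduct, mul_comm] using congrArg (aeval l.u) h1.sum_X_mul_pderiv
  change grad P l.u j = 0
  simpa [h3, e2] using e1

lemma Gen.top (h : Gen C l) (hF : F ≠ 0) :
    aeval l.u (homogeneousComponent F.totalDegree F) ≠ 0 := fun h0 =>
  top_ne_zero hF (h.dir (homogeneousComponent_isHomogeneous _ _) h0)

lemma Gen.gen (h : Gen C l) (hq : l.On q) (hF : F ≠ 0) (h0 : aeval q F = 0) : H88.Gen C q := by
  obtain ⟨P, h1, j, h2⟩ : ∃ P : MvPolynomial ι C, aeval q P = 0 ∧ ∃ j, grad P q j ≠ 0 := by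
    by_contra hn
    push Not at hn
    exact hF (eq_zero_of_stable (y := q) _ (fun P hP => ⟨hP, hn P hP⟩) F h0)
  refine ⟨j, indep_of_dual fun i => ?_⟩
  obtain ⟨θ, -, h3⟩ := h.move hq h1 (fun e => h2 (congrFun e j)) 0
    (Pi.single i.1 1 - (grad P q i / grad P q j) • Pi.single j 1) (by simp) (by simp [h2])
  refine ⟨θ, funext fun k => (congrFun h3 k).trans ?_⟩
  simp [Pi.single_apply, k.2, Subtype.ext_iff]

/-- The ideal of a point of a generic line. -/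
lemma Gen.ker (h : Gen C l) (hq : l.On q) (hF : Irreducible F) (h0 : aeval q F = 0)
    (h1 : aeval q G = 0) : F ∣ G :=
  H88.dvd_of_gen (h.gen hq hF.ne_zero h0) hF h0 h1

lemma Gen.good (h : Gen C l) (hF : Mir F) : Good F l :=
  ⟨h.top hF.prime.ne_zero, fun _ hq h0 hn =>
    hF.nn (h.ker hq hF.prime.irreducible h0 (by simpa [grad, dotProduct] using hn))⟩

lemma Gen.exists_step (h : Gen C l) (hF : Mir F) (hq : l.On q) (h0 : aeval q F = 0) :
    ∃ l', Step F l q l' :=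
  have hn := (h.good hF).nn q hq h0
  Cm.exists_step hq h0 hn (h.nu hq h0 fun e => hn (by simp [e]))

/-- The exchange for generic lines. -/
lemma Comm.gen (hc : Comm Ω F G) (hF : Mir F) (hG : Mir G) {l0 l1 l2 : Li Ω ι} {q1 q2 : ι → Ω}
    (h : Gen C l0) (s1 : Step F l0 q1 l1) (s2 : Step G l1 q2 l2) :
    ∃ p1 l' p2, Step G l0 p1 l' ∧ Step F l' p2 l2 ∧
      del l0 p1 l' + del l' p2 l2 = del l0 q1 l1 + del l1 q2 l2 :=
  hc l0 l1 l2 q1 q2 (h.good hG) (((h.step s1).step s2).good hF) s1 s2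

end Pool.Agent.MP_249f74_an.H17.Cm
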