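import Pool.Agent.MP_249f74_an.H17.Spec

/-!
Amalgamation of a differential field with its conjugate.
-/

open TensorProduct

namespace Pool.Agent.MP_249f74_an.H17

namespace Amal

variable {C Ω : Type} [Field C] [Field Ω] [Algebra C Ω]

/-- A derivation which preserves `K` acts on the tensor square over `K`. -/
lemma tens (K : IntermediateField C Ω) (δ : Der C Ω) (h : ∀ f ∈ K, δ f ∈ K) :
    ∃ D : Ω ⊗[K] Ω →+ Ω ⊗[K] Ω, (∀ x y, D (x ⊗ₜ y) = δ x ⊗ₜ y + x ⊗ₜ δ y) ∧
      ∀ a b, D (a * b) = a * D b + b * D a := by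
  let D : Ω ⊗[K] Ω →+ Ω ⊗[K] Ω := liftAddHom
    { toFun := fun x =>
        { toFun := fun y => δ x ⊗ₜ y + x ⊗ₜ δ y
          map_zero' := by simp
          map_add' := fun y y' => by simp only [map_add, tmul_add]; abel }
      map_zero' := by ext; simp
      map_add' := fun x x' => by
        ext
        simp only [map_add, add_tmul, AddMonoidHom.coe_mk, ZeroHom.coe_mk, AddMonoidHom.add_apply]
        abel } fun k x y => by
    have e : ∀ x : Ω, δ (k • x) = k • δ x + (⟨δ k, h _ k.2⟩ : K) • x := fun x => by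
      change δ (k.1 * x) = k.1 * δ x + δ k.1 * x
      rw [δ.leibniz, smul_eq_mul, smul_eq_mul, mul_comm x]
    simp only [AddMonoidHom.coe_mk, ZeroHom.coe_mk, e, add_tmul, tmul_add, smul_tmul]
    abel
  have hD : ∀ x y, D (x ⊗ₜ y) = δ x ⊗ₜ y + x ⊗ₜ δ y := fun _ _ => rfl
  refine ⟨D, hD, fun a b => ?_⟩
  induction a using TensorProduct.induction_on with
  | zero => simp
  | add a a' ha ha' => rw [add_mul, map_add, map_add, ha, ha']; ring
  | tmul x y =>
    induction b using TensorProduct.induction_on with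
    | zero => simp
    | add b b' hb hb' => rw [mul_add, map_add, map_add, hb, hb']; ring
    | tmul x' y' =>
      simp only [Algebra.TensorProduct.tmul_mul_tmul, hD, δ.leibniz, smul_eq_mul, add_tmul,
        tmul_add, mul_add, mul_comm x' x, mul_comm y' y]
      abel

end Amal

theorem am : StmtAM := by
  intro C Ω _ _ _ _ _ _ d K z h0 h1 hz hn
  obtain ⟨τ, t1, t2⟩ := aut_move hn
  let τ' : Ω →ₐ[K] Ω := { τ.toRingEquiv.toRingHom with commutes' := fun k => t1 _ k.2 }
  let φ := Algebra.TensorProduct.productMap (AlgHom.id K Ω) τ'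
  have := RingHom.ker_isPrime φ
  obtain ⟨p, hp, hφ⟩ := Ideal.exists_minimalPrimes_le (I := ⊥) (J := RingHom.ker φ) bot_le
  have := hp.1.1
  let Ω' := AlgebraicClosure (FractionRing ((Ω ⊗[K] Ω) ⧸ p))
  let ψ : Ω ⊗[K] Ω →+* Ω' :=
    ((algebraMap _ Ω').comp (algebraMap _ (FractionRing ((Ω ⊗[K] Ω) ⧸ p)))).comp
      (Ideal.Quotient.mk p)
  have hψ : ∀ a, ψ a = 0 ↔ a ∈ p := fun a => by
    simp only [ψ, RingHom.comp_apply, map_eq_zero, FaithfulSMul.algebraMap_eq_zero_iff,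
      Ideal.Quotient.eq_zero_iff_mem]
  let i : Ω →+* Ω' := ψ.comp Algebra.TensorProduct.includeLeftRingHom
  let j : Ω →+* Ω' :=
    ψ.comp (Algebra.TensorProduct.includeRight (R := K) (A := Ω) (B := Ω)).toRingHom
  have hi : ∀ x, i x = ψ (x ⊗ₜ 1) := fun _ => rfl
  have hj : ∀ x, j x = ψ (1 ⊗ₜ x) := fun _ => rfl
  have hK : ∀ f ∈ K, j f = i f := fun f hf => by
    have := smul_tmul (R := K) (⟨f, hf⟩ : K) (1 : Ω) (1 : Ω)
    simp only [IntermediateField.smul_def, smul_eq_mul, mul_one] at this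
    rw [hi, hj, this]
  have : CharZero Ω' := charZero_of_injective_ringHom i.injective
  let _ : Algebra C Ω' := (i.comp (algebraMap C Ω)).toAlgebra
  let _ : Algebra ℚ (Ω ⊗[K] Ω) :=
    (Algebra.TensorProduct.includeLeftRingHom.comp (algebraMap ℚ Ω)).toAlgebra
  have key : ∀ δ : Der C Ω, (∀ f ∈ K, δ f ∈ K) →
      ∃ δ' : Der C Ω', (∀ f, δ' (i f) = i (δ f)) ∧ ∀ f, δ' (j f) = j (δ f) := fun δ h => by
    obtain ⟨D, e, hD⟩ := Amal.tens K δ h
    obtain ⟨δ', h'⟩ := ext_int ψ (ψ.toAddMonoidHom.comp D)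
      (fun a b => by simp [hD]) fun a ha =>
        (hψ _).2 (minp D hD (I := ⊥) (fun a ha => by simp [Ideal.mem_bot.1 ha]) hp a ((hψ _).1 ha))
    have a : ∀ f, δ' (i f) = i (δ f) := fun f => by simp [hi, h', e]
    exact ⟨toDer δ' fun c => (a _).trans (by simp), a, fun f => by simp [hj, h', e]⟩
  obtain ⟨d0, a0, b0⟩ := key _ h0
  obtain ⟨d1, a1, b1⟩ := key _ h1
  refine ⟨Ω', inferInstance, inferInstance, inferInstance, inferInstance, ⟨d0, d1⟩,
    { i with commutes' := fun _ => rfl },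
    { j with commutes' := fun c => hK _ (K.algebraMap_mem c) }, a0, a1, b0, b1, hK, ?_⟩
  refine (sq_eq_sq_iff_eq_or_eq_neg.1 ?_).resolve_left fun c => t2 ?_
  · exact (map_pow j z 2).symm.trans ((hK _ hz).trans (map_pow i z 2))
  · have := hφ ((hψ (1 ⊗ₜ z - z ⊗ₜ 1)).1 (by rw [map_sub]; exact sub_eq_zero.2 c))
    simpa [φ, τ', sub_eq_zero] using this

end Pool.Agent.MP_249f74_an.H17
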