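import Pool.Agent.MP_249f74_an.H17.Spec
import Pool.Agent.MP_249f74_an.H69.Tangent

/-!
From a smooth billiard to a differential field: generic points and isotropic coordinates.
-/

open Set IntermediateField Module

namespace Pool.Agent.MP_249f74_an.H17

namespace Anal

open H69 (Tan Dir dimH_small_tangent)
open H88 (cl mem_cl_of_root)

section Gen

variable {X : Type*} [NormedAddCommGroup X] [NormedSpace ℝ X] [FiniteDimensional ℝ X]

lemma gen {ι : Type*} [Countable ι] (F : ι → X → ℝ) (hF : ∀ i, Differentiable ℝ (F i))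
    {S : Set X} (hS : ¬ dimH S ≤ 1) :
    ∃ y ∈ S, ∃ v0 v1 : X, (∀ a b : ℝ, a • v0 + b • v1 = 0 → a = 0 ∧ b = 0) ∧
      ∀ i, F i y = 0 → fderiv ℝ (F i) y v0 = 0 ∧ fderiv ℝ (F i) y v1 = 0 := by
  classical
  by_contra hcon
  apply hS
  let Z : Finset ι → Set X := fun t => {y | y ∈ S ∧ ∀ i ∈ t, F i y = 0}
  have hcov : S ⊆ ⋃ t, {y | y ∈ Z t ∧ finrank ℝ (Tan (Z t) y) ≤ 1} := by
    intro y hy
    let T : Finset ι → Submodule ℝ X := fun t =>
      ⨅ i ∈ t, LinearMap.ker (fderiv ℝ (F i) y : X →ₗ[ℝ] ℝ)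
    have hT : ∀ t v, v ∈ T t ↔ ∀ i ∈ t, fderiv ℝ (F i) y v = 0 := fun t v => by simp [T]
    obtain ⟨t, ht, hmin⟩ := (InvImage.wf (fun t => finrank ℝ (T t)) wellFounded_lt).has_min
      {t | ∀ i ∈ t, F i y = 0} ⟨∅, by simp⟩
    refine mem_iUnion.2 ⟨t, ⟨hy, ht⟩, ?_⟩
    have h1 : Tan (Z t) y ≤ T t := fun v hv => (hT t v).2 fun i hi =>
      Dir.eq_zero ⟨_, (hF i y).hasFDerivAt, rfl⟩ (show y ∈ Z t from ⟨hy, ht⟩) hv
        fun x hx => hx.2 i hi
    refine (Submodule.finrank_mono h1).trans ?_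
    by_contra h2
    obtain ⟨e, he⟩ := exists_linearIndependent_of_le_finrank (R := ℝ) (M := T t) (n := 2)
      (by omega)
    refine hcon ⟨y, hy, e 0, e 1, fun a b hab => ?_, fun i hi => ?_⟩
    · have := Fintype.linearIndependent_iff.1 he ![a, b] (by
        rw [Fin.sum_univ_two]; exact Subtype.ext hab)
      exact ⟨this 0, this 1⟩
    · have h3 : T (insert i t) ≤ T t := fun v hv => (hT _ v).2 fun j hj =>
        (hT _ v).1 hv j (Finset.mem_insert_of_mem hj)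
      have h4 : T (insert i t) = T t := Submodule.eq_of_le_of_finrank_le h3 (not_lt.1
        (hmin (insert i t) fun j hj => (Finset.mem_insert.1 hj).elim (fun e => e ▸ hi) (ht j)))
      exact ⟨(hT _ _).1 (h4.ge (e 0).2) i (Finset.mem_insert_self _ _),
        (hT _ _).1 (h4.ge (e 1).2) i (Finset.mem_insert_self _ _)⟩
  refine (dimH_mono hcov).trans ?_
  rw [dimH_iUnion]
  exact iSup_le fun t => by simpa using dimH_small_tangent (Z t) 1

lemma gen2 {ι : Type} [Countable ι] (g : ι → X → ℝ) (hg : ∀ i, Differentiable ℝ (g i))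
    {S : Set X} (hS : ¬ dimH S ≤ 1) :
    ∃ y ∈ S, ∃ v0 v1 : X, (∀ a b : ℝ, a • v0 + b • v1 = 0 → a = 0 ∧ b = 0) ∧
      ∃ δ0 δ1 : Derivation ℤ ℝ ℝ,
        ∀ i, δ0 (g i y) = fderiv ℝ (g i) y v0 ∧ δ1 (g i y) = fderiv ℝ (g i) y v1 := by
  classical
  have : Countable (MvPolynomial ι ℤ) :=
    AddMonoidAlgebra.coeff_injective.countable
  let Φ : MvPolynomial ι ℤ →+* (X → ℝ) := (MvPolynomial.aeval g).toRingHom
  have hX : ∀ i, Φ (MvPolynomial.X i) = g i := fun i => MvPolynomial.aeval_X g i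
  have hΦ : ∀ a, Differentiable ℝ (Φ a) := fun a => by
    induction a using MvPolynomial.induction_on with
    | C c => rw [eq_intCast MvPolynomial.C, map_intCast]; exact differentiable_const _
    | add p q hp hq => rw [map_add]; exact hp.add hq
    | mul_X p i hp => rw [map_mul, hX]; exact hp.mul (hg i)
  obtain ⟨y, hy, v0, v1, hv, h⟩ := gen (fun a => Φ a) hΦ hS
  have key : ∀ v : X, (∀ a, Φ a y = 0 → fderiv ℝ (Φ a) y v = 0) →
      ∃ δ : Derivation ℤ ℝ ℝ, ∀ i, δ (g i y) = fderiv ℝ (g i) y v := fun v hv => by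
    obtain ⟨δ, hδ⟩ := ext_int ((Pi.evalRingHom (fun _ : X => ℝ) y).comp Φ)
      (AddMonoidHom.mk' (fun a => fderiv ℝ (Φ a) y v) fun a b => by
        simp only [map_add]
        rw [fderiv_add (hΦ a y) (hΦ b y)]; rfl)
      (fun a b => by
        simp only [map_mul, AddMonoidHom.mk'_apply]
        rw [fderiv_mul (hΦ a y) (hΦ b y)]; simp) hv
    exact ⟨δ, fun i => by simpa [hX] using hδ (MvPolynomial.X i)⟩
  obtain ⟨δ0, h0⟩ := key v0 fun a ha => (h a ha).1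
  obtain ⟨δ1, h1⟩ := key v1 fun a ha => (h a ha).2
  exact ⟨y, hy, v0, v1, hv, δ0, δ1, fun i => ⟨h0 i, h1 i⟩⟩

end Gen

section Alg

variable {C Ω : Type} [Field C] [Field Ω] [Algebra C Ω] {d : Two C Ω}

/-- Elements of `T` whose differential is a `T`-multiple of `dy`. -/
def Sm (d : Two C Ω) (y : Ω) (T : IntermediateField C Ω) : IntermediateField C Ω :=
  Subalgebra.toIntermediateField
    { carrier := {f | f ∈ T ∧ ∃ g ∈ T, d.Sl y f g}
      mul_mem' := fun {a b} ⟨ha, g, hg, h⟩ ⟨hb, g', hg', h'⟩ => ⟨mul_mem ha hb, a * g' + b * g,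
        add_mem (mul_mem ha hg') (mul_mem hb hg), by
          constructor <;> simp only [Derivation.leibniz, smul_eq_mul, h.1, h.2, h'.1, h'.2] <;>
            ring⟩
      add_mem' := fun {a b} ⟨ha, g, hg, h⟩ ⟨hb, g', hg', h'⟩ => ⟨add_mem ha hb, g + g',
        add_mem hg hg', by
          constructor <;> simp only [map_add, h.1, h.2, h'.1, h'.2] <;> ring⟩
      algebraMap_mem' := fun c => ⟨T.algebraMap_mem c, 0, zero_mem _, by
        constructor <;> simp⟩ }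
    fun a ⟨ha, g, hg, h⟩ => ⟨inv_mem ha, -(a⁻¹ ^ 2) * g,
      mul_mem (neg_mem (pow_mem (inv_mem ha) _)) hg, by
        constructor <;> simp only [Derivation.leibniz_inv, smul_eq_mul, h.1, h.2] <;> ring⟩

lemma stab_adjoin {y : Ω} {G : Set Ω} (h : ∀ f ∈ G, ∃ g ∈ adjoin C G, d.Sl y f g) :
    ∀ f ∈ adjoin C G, ∃ g ∈ adjoin C G, d.Sl y f g := fun _ hf =>
  ((adjoin_le_iff.2 fun a ha => ⟨subset_adjoin _ _ ha, h a ha⟩ :
    adjoin C G ≤ Sm d y (adjoin C G)) hf).2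

lemma mkMir {x y w : Ω} {G : IntermediateField C Ω} (hx : x ∈ G) (hy : y ∈ G)
    (hG : ∀ f ∈ G, ∃ g ∈ G, d.Sl y f g) (w0 : w ≠ 0) (ny : d.d0 y ≠ 0 ∨ d.d1 y ≠ 0)
    (tan : d.Sl y x w) (hc : ∀ f, d.d0 f = 0 → d.d1 f = 0 → f ∈ (⊥ : IntermediateField C Ω))
    (real : y ∈ C⟮x⟯ ↔ x ∈ C⟮y⟯) : ∃ m : Mir d, m.x = x ∧ m.y = y ∧ m.w = w := by
  have uq : ∀ {f g g'}, d.Sl y f g → d.Sl y f g' → g = g' := fun h h' =>
    ny.elim (fun e => mul_left_cancel₀ e (h.1.symm.trans h'.1))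
      fun e => mul_left_cancel₀ e (h.2.symm.trans h'.2)
  let A : Set (IntermediateField C Ω) := {S | x ∈ S ∧ y ∈ S ∧ ∀ f ∈ S, ∃ g ∈ S, d.Sl y f g}
  have hA : G ∈ A := ⟨hx, hy, hG⟩
  have xF : x ∈ sInf A := mem_sInf.2 fun S hS => hS.1
  have yF : y ∈ sInf A := mem_sInf.2 fun S hS => hS.2.1
  have st : ∀ f ∈ sInf A, ∃ g ∈ sInf A, d.Sl y f g := fun f hf => by
    obtain ⟨g, -, hg⟩ := hG f (mem_sInf.1 hf G hA)
    refine ⟨g, mem_sInf.2 fun S hS => ?_, hg⟩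
    obtain ⟨g', h1, h2⟩ := hS.2.2 f (mem_sInf.1 hf S hS)
    exact uq h2 hg ▸ h1
  refine ⟨⟨x, y, w, sInf A, xF, yF, ?_, w0, ny, tan, st, fun f _ => hc f, fun S h1 h2 h3 => ?_,
    real⟩, rfl, rfl, rfl⟩
  · obtain ⟨g, h1, h2⟩ := st x xF
    exact uq h2 tan ▸ h1
  · refine (sInf_le (show S ⊓ sInf A ∈ A from ⟨⟨h1, xF⟩, ⟨h2, yF⟩, fun f hf => ?_⟩)).trans
      inf_le_left
    obtain ⟨g, g1, g2⟩ := st f hf.2
    exact ⟨g, ⟨h3 f hf.1 hf.2 g g1 g2, g1⟩, g2⟩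

lemma exists_tn {f g : Ω} (h : d.J f g = 0) :
    ∃ a b : Ω, ¬ (a = 0 ∧ b = 0) ∧ a * d.d0 f + b * d.d1 f = 0 ∧ a * d.d0 g + b * d.d1 g = 0 := by
  rw [Two.J] at h
  by_cases h1 : d.d0 f = 0 ∧ d.d1 f = 0
  · by_cases h2 : d.d0 g = 0 ∧ d.d1 g = 0
    · exact ⟨1, 0, by simp, by simp [h1.1], by simp [h2.1]⟩
    · exact ⟨d.d1 g, -d.d0 g, fun e => h2 ⟨neg_eq_zero.1 e.2, e.1⟩, by simp [h1.1, h1.2], by ring⟩
  · exact ⟨d.d1 f, -d.d0 f, fun e => h1 ⟨neg_eq_zero.1 e.2, e.1⟩, by ring,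
      by linear_combination -h⟩

/-- The abstract closed configuration has length zero. -/
lemma cfg {n : ℕ} (hP : StmtP n) [CharZero C] [IsAlgClosed C] [CharZero Ω] [IsAlgClosed Ω]
    (x y w z l : Fin (n + 1) → Ω) (G : Fin (n + 1) → IntermediateField C Ω)
    (hx : ∀ k, x k ∈ G k) (hy : ∀ k, y k ∈ G k) (hw : ∀ k, w k ∈ G k)
    (hG : ∀ k, ∀ f ∈ G k, ∃ g ∈ G k, d.Sl (y k) f g) (tan : ∀ k, d.Sl (y k) (x k) (w k))
    (hc : ∀ f, d.d0 f = 0 → d.d1 f = 0 → f ∈ (⊥ : IntermediateField C Ω))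
    (real : ∀ k, y k ∈ C⟮x k⟯ ↔ x k ∈ C⟮y k⟯)
    (ex : ∀ k, x (k + 1) - x k = l k * z k) (ey : ∀ k, (y (k + 1) - y k) * z k = l k)
    (z0 : ∀ k, z k ≠ 0) (l0 : ∀ k, l k ≠ 0) (g0 : ∀ k, w k ≠ z k ^ 2)
    (r : ∀ k, z k * z (k + 1) = w (k + 1))
    (ind : ∀ a b : Ω, (∀ k, a * d.d0 (x k) + b * d.d1 (x k) = 0 ∧
      a * d.d0 (y k) + b * d.d1 (y k) = 0 ∧ a * d.d0 (z k) + b * d.d1 (z k) = 0 ∧
      a * d.d0 (l k) + b * d.d1 (l k) = 0) → a = 0 ∧ b = 0) : ∑ k, l k = 0 := by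
  have g1 : ∀ k, w (k + 1) ≠ z k ^ 2 := fun k h => by
    have e : z (k + 1) = z k := mul_left_cancel₀ (z0 k) (by rw [r, h, sq])
    exact g0 (k + 1) (by rw [h, e])
  have w0 : ∀ k, w k ≠ 0 := fun k => by
    rw [← sub_add_cancel k 1, ← r]; exact mul_ne_zero (z0 _) (z0 _)
  have nd : ∀ k, d.J (y k) (z k) ≠ 0 := fun k h => by
    obtain ⟨a, b, hab, h1, h2⟩ := exists_tn h
    obtain ⟨Z, hZ⟩ : ∃ Z : Der C Ω, ∀ f, Z f = a * d.d0 f + b * d.d1 f :=
      ⟨a • d.d0 + b • d.d1, fun f => by simp⟩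
    have hT : d.Tn Z := ⟨a, b, hZ⟩
    have step : ∀ j, Z (y j) = 0 ∧ Z (z j) = 0 → Z (y (j + 1)) = 0 ∧ Z (z (j + 1)) = 0 := by
      rintro j ⟨e1, e2⟩
      have a1 := congrArg Z (ex j)
      have a2 := congrArg Z (ey j)
      have a3 := congrArg Z (r j)
      obtain ⟨g, -, hg⟩ := hG _ _ (hw (j + 1))
      simp only [map_sub, Derivation.leibniz, smul_eq_mul, hT.sl (tan _), hT.sl hg, e1, e2,
        mul_zero, zero_mul, sub_zero, zero_add, add_zero] at a1 a2 a3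
      have a4 : Z (y (j + 1)) = 0 := (mul_eq_zero.1 (show Z (y (j + 1)) * (w (j + 1) - z j ^ 2) = 0
        by linear_combination a1 - z j * a2)).resolve_right (sub_ne_zero.2 (g1 j))
      rw [a4, zero_mul] at a3
      exact ⟨a4, (mul_eq_zero.1 a3).resolve_left (z0 j)⟩
    have all : ∀ j, Z (y j) = 0 ∧ Z (z j) = 0 := fun j => by
      have : ∀ m, Z (y (k + m)) = 0 ∧ Z (z (k + m)) = 0 := fun m => by
        induction m using Fin.induction with
        | zero => simpa [hZ] using ⟨h1, h2⟩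
        | succ m ih => rw [← Fin.coeSucc_eq_succ, ← add_assoc]; exact step _ ih
      simpa using this (j - k)
    refine hab (ind a b fun j => ?_)
    simp only [← hZ]
    simp [hT.sl (tan j), ← ey j, (all _).1, (all _).2]
  have ny : ∀ k, d.d0 (y k) ≠ 0 ∨ d.d1 (y k) ≠ 0 := fun k => by
    by_contra h
    push Not at h
    exact nd k (by simp [Two.J, h.1, h.2])
  choose m m1 m2 m3 using fun k => mkMir (hx k) (hy k) (hG k) (w0 k) (ny k) (tan k) hc (real k)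
  refine hP C Ω d m z l (fun k => ⟨by rw [m1, m1, ex], by rw [m2, m2, ey], z0 k, l0 k,
    by rw [m3]; exact g0 k, by rw [m3]; exact g1 k, by rw [m2]; exact nd k⟩)
    (fun k => by rw [m3, r]) ?_
  have key : ∀ Z : Der C Ω, (∀ k, Z (x k) = Z (y k) * w k) → Z (∑ k, l k) = 0 := fun Z hZ => by
    have h1 : ∀ k, 2 * Z (l k) = (z (k + 1) + w (k + 1) / z (k + 1)) * Z (y (k + 1)) -
        (z k + w k / z k) * Z (y k) := fun k => by
      have a1 := congrArg Z (ex k)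
      have a2 := congrArg Z (ey k)
      have a3 := ey k
      simp only [map_sub, Derivation.leibniz, smul_eq_mul, hZ, ← r k] at a1 a2
      have := z0 k
      rw [← r k, mul_div_cancel_right₀ _ (z0 _)]
      field_simp
      linear_combination (-1 : Ω) * a1 - z k * a2 + Z (z k) * a3
    have h2 : 2 * Z (∑ k, l k) = 0 := by
      rw [map_sum, Finset.mul_sum, Finset.sum_congr rfl fun k _ => h1 k, Finset.sum_sub_distrib,
        sub_eq_zero]
      exact Equiv.sum_comp (Equiv.addRight 1) fun k => (z k + w k / z k) * Z (y k)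
    simpa using h2
  exact hc _ (key _ fun k => (tan k).1) (key _ fun k => (tan k).2)

end Alg

section Cx

open Complex

/-- The complexification of a derivation of the reals. -/
noncomputable def cx (δ : Derivation ℤ ℝ ℝ) : Derivation ℤ ℂ ℂ :=
  Derivation.mk' (AddMonoidHom.mk' (fun z : ℂ => (⟨δ z.re, δ z.im⟩ : ℂ)) fun a b => by
    apply Complex.ext <;> simp).toIntLinearMap fun a b => by
      apply Complex.ext <;> simp <;> ring

@[simp] lemma cx_re (δ : Derivation ℤ ℝ ℝ) (z : ℂ) : (cx δ z).re = δ z.re := rfl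

@[simp] lemma cx_im (δ : Derivation ℤ ℝ ℝ) (z : ℂ) : (cx δ z).im = δ z.im := rfl

lemma cx_ofReal (δ : Derivation ℤ ℝ ℝ) (r : ℝ) : cx δ r = (δ r : ℝ) := by
  apply Complex.ext <;> simp

lemma cx_I (δ : Derivation ℤ ℝ ℝ) : cx δ I = 0 := by
  apply Complex.ext <;> simp

lemma cx_conj (δ : Derivation ℤ ℝ ℝ) (z : ℂ) :
    cx δ ((starRingEnd ℂ) z) = (starRingEnd ℂ) (cx δ z) := by
  apply Complex.ext <;> simp

/-- The common constants. -/
def Cst (δ0 δ1 : Derivation ℤ ℝ ℝ) : Subfield ℂ where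
  carrier := {c | cx δ0 c = 0 ∧ cx δ1 c = 0}
  mul_mem' ha hb := by simp_all
  one_mem' := by simp
  add_mem' ha hb := by simp_all
  zero_mem' := by simp
  neg_mem' ha := by simp_all
  inv_mem' a ha := by simp_all [Derivation.leibniz_inv]

variable (δ0 δ1 : Derivation ℤ ℝ ℝ)

/-- The two complexified derivations. -/
noncomputable def two : Two (Cst δ0 δ1) ℂ :=
  ⟨toDer (cx δ0) fun c => c.2.1, toDer (cx δ1) fun c => c.2.2⟩

lemma closed : IsAlgClosed (Cst δ0 δ1) :=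
  IsAlgClosed.of_exists_root _ fun p hm hi => by
    obtain ⟨z, hz⟩ := IsAlgClosed.exists_root (p.map (algebraMap (Cst δ0 δ1) ℂ)) (by
      rw [Polynomial.degree_map]; exact (Polynomial.degree_pos_of_irreducible hi).ne')
    have h : z ∈ cl (Cst δ0 δ1) (∅ : Set ℂ) := mem_cl_of_root (hm.map _).ne_zero
      (fun i => by rw [Polynomial.coeff_map]; exact IntermediateField.algebraMap_mem _ _) hz
    refine ⟨⟨z, kill_cl (δ := (two δ0 δ1).d0) (by simp) h,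
      kill_cl (δ := (two δ0 δ1).d1) (by simp) h⟩, ?_⟩
    apply (algebraMap (Cst δ0 δ1) ℂ).injective
    rw [map_zero, ← Polynomial.eval₂_at_apply, ← Polynomial.eval_map]
    exact hz

lemma conj_mem {a b : ℂ} (h : a ∈ (Cst δ0 δ1)⟮b⟯) :
    (starRingEnd ℂ) a ∈ (Cst δ0 δ1)⟮(starRingEnd ℂ) b⟯ := by
  induction h using IntermediateField.adjoin_induction with
  | mem x hx => rw [hx]; exact mem_adjoin_simple_self _ _
  | algebraMap c =>
    exact IntermediateField.algebraMap_mem _ (⟨(starRingEnd ℂ) c, by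
      rw [cx_conj, c.2.1, map_zero], by rw [cx_conj, c.2.2, map_zero]⟩ : Cst δ0 δ1)
  | add x y _ _ hx hy => rw [map_add]; exact add_mem hx hy
  | inv x _ hx => rw [map_inv₀]; exact inv_mem hx
  | mul x y _ _ hx hy => rw [map_mul]; exact mul_mem hx hy

lemma rcfg {n : ℕ} (hP : StmtP n) (p0 p1 u0 u1 t : Fin (n + 1) → ℝ)
    (J : Fin (n + 1) → List (Fin 2) → ℝ)
    (c0 : ∀ k l, δ0 (J k l) = J k (0 :: l) * δ0 (p0 k) + J k (1 :: l) * δ0 (p1 k))
    (c1 : ∀ k l, δ1 (J k l) = J k (0 :: l) * δ1 (p0 k) + J k (1 :: l) * δ1 (p1 k))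
    (hJ : ∀ k, J k [] = 0) (hu : ∀ k, u0 k ^ 2 + u1 k ^ 2 = 1)
    (hn : ∀ k, u0 k * J k [0] + u1 k * J k [1] ≠ 0) (ht : ∀ k, 0 < t k)
    (e0 : ∀ k, p0 (k + 1) = p0 k + t k * u0 k) (e1 : ∀ k, p1 (k + 1) = p1 k + t k * u1 k)
    (r0 : ∀ k, u0 (k + 1) = u0 k - 2 * (u0 k * J (k + 1) [0] + u1 k * J (k + 1) [1]) /
      (J (k + 1) [0] ^ 2 + J (k + 1) [1] ^ 2) * J (k + 1) [0])
    (r1 : ∀ k, u1 (k + 1) = u1 k - 2 * (u0 k * J (k + 1) [0] + u1 k * J (k + 1) [1]) /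
      (J (k + 1) [0] ^ 2 + J (k + 1) [1] ^ 2) * J (k + 1) [1])
    (ind : ∀ a b : ℝ, (∀ k, a * δ0 (p0 k) + b * δ1 (p0 k) = 0 ∧ a * δ0 (p1 k) + b * δ1 (p1 k) = 0 ∧
      a * δ0 (u0 k) + b * δ1 (u0 k) = 0 ∧ a * δ0 (u1 k) + b * δ1 (u1 k) = 0 ∧
      a * δ0 (t k) + b * δ1 (t k) = 0) → a = 0 ∧ b = 0) : False := by
  have := closed δ0 δ1
  have hI : ∀ T : IntermediateField (Cst δ0 δ1) ℂ, I ∈ T := fun T =>
    T.algebraMap_mem ⟨I, cx_I δ0, cx_I δ1⟩
  have hz : ∀ k, ((u0 k : ℂ) + u1 k * I) * (u0 k - u1 k * I) = 1 := fun k => by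
    have := congrArg ((↑) : ℝ → ℂ) (hu k)
    push_cast at this
    linear_combination this - (u1 k : ℂ) ^ 2 * I_sq
  have hν : ∀ k, (J k [0] : ℂ) + J k [1] * I ≠ 0 ∧ (J k [0] : ℂ) - J k [1] * I ≠ 0 := fun k => by
    constructor <;> intro h <;> apply hn k <;> have h1 := congrArg re h <;>
      have h2 := congrArg im h <;> simp at h1 h2 <;> simp [h1, h2]
  obtain ⟨w, hw⟩ : ∃ w : Fin (n + 1) → ℂ,
      ∀ k, w k = -((J k [0] : ℂ) + J k [1] * I) / (J k [0] - J k [1] * I) := ⟨_, fun _ => rfl⟩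
  have tan : ∀ δ : Derivation ℤ ℝ ℝ,
      (∀ k l, δ (J k l) = J k (0 :: l) * δ (p0 k) + J k (1 :: l) * δ (p1 k)) → ∀ k,
      cx δ (p0 k + p1 k * I) = cx δ (p0 k - p1 k * I) * w k ∧
      cx δ (p0 k) = cx δ (p0 k - p1 k * I) * ((w k + 1) / 2) ∧
      cx δ (p1 k) = cx δ (p0 k - p1 k * I) * ((w k - 1) / (2 * I)) ∧
      ∀ l, cx δ (J k l) = cx δ (p0 k - p1 k * I) *
        (J k (0 :: l) * ((w k + 1) / 2) + J k (1 :: l) * ((w k - 1) / (2 * I))) := fun δ h k => by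
    have h1 := congrArg ((↑) : ℝ → ℂ) (h k [])
    rw [hJ, map_zero] at h1
    push_cast at h1
    simp only [map_add, map_sub, Derivation.leibniz, cx_I, cx_ofReal, smul_eq_mul, mul_zero,
      zero_add]
    have a1 : (δ (p0 k) : ℂ) + I * δ (p1 k) = (δ (p0 k) - I * δ (p1 k)) * w k := by
      rw [hw, ← mul_div_assoc, eq_div_iff (hν k).2]
      linear_combination (-2 : ℂ) * h1 - 2 * (δ (p1 k) : ℂ) * J k [1] * I_sq
    have a2 : (δ (p0 k) : ℂ) = (δ (p0 k) - I * δ (p1 k)) * ((w k + 1) / 2) := by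
      linear_combination a1 / 2
    have a3 : (δ (p1 k) : ℂ) = (δ (p0 k) - I * δ (p1 k)) * ((w k - 1) / (2 * I)) := by
      rw [← mul_div_assoc, eq_div_iff (mul_ne_zero two_ne_zero I_ne_zero)]
      linear_combination a1
    refine ⟨a1, a2, a3, fun l => ?_⟩
    rw [h k l]
    push_cast
    linear_combination (J k (0 :: l) : ℂ) * a2 + (J k (1 :: l) : ℂ) * a3
  have t0 := tan δ0 c0
  have t1 := tan δ1 c1
  let G : Fin (n + 1) → Set ℂ := fun k => {(p0 k : ℂ), (p1 k : ℂ)} ∪ range fun l => (J k l : ℂ)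
  have m0 : ∀ k, (p0 k : ℂ) ∈ adjoin (Cst δ0 δ1) (G k) := fun k =>
    subset_adjoin _ _ (Or.inl (Or.inl rfl))
  have m1 : ∀ k, (p1 k : ℂ) ∈ adjoin (Cst δ0 δ1) (G k) := fun k =>
    subset_adjoin _ _ (Or.inl (Or.inr rfl))
  have mJ : ∀ k l, (J k l : ℂ) ∈ adjoin (Cst δ0 δ1) (G k) := fun k l =>
    subset_adjoin _ _ (Or.inr ⟨l, rfl⟩)
  have mw : ∀ k, w k ∈ adjoin (Cst δ0 δ1) (G k) := fun k => by
    rw [hw]
    exact div_mem (neg_mem (add_mem (mJ _ _) (mul_mem (mJ _ _) (hI _))))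
      (sub_mem (mJ _ _) (mul_mem (mJ _ _) (hI _)))
  have m2 : ∀ k, (w k + 1) / 2 ∈ adjoin (Cst δ0 δ1) (G k) := fun k =>
    div_mem (add_mem (mw k) (one_mem _)) (ofNat_mem _ 2)
  have m3 : ∀ k, (w k - 1) / (2 * I) ∈ adjoin (Cst δ0 δ1) (G k) := fun k =>
    div_mem (sub_mem (mw k) (one_mem _)) (mul_mem (ofNat_mem _ 2) (hI _))
  have cj : ∀ a b : ℝ, (starRingEnd ℂ) (a + b * I) = a - b * I ∧
      (starRingEnd ℂ) (a - b * I) = a + b * I := fun a b => by simp [sub_eq_add_neg]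
  have h := cfg (d := two δ0 δ1) hP (fun k => p0 k + p1 k * I) (fun k => p0 k - p1 k * I) w
    (fun k => u0 k + u1 k * I) (fun k => t k) (fun k => adjoin _ (G k))
    (fun k => add_mem (m0 k) (mul_mem (m1 k) (hI _)))
    (fun k => sub_mem (m0 k) (mul_mem (m1 k) (hI _))) mw
    (fun k => stab_adjoin (by
      rintro _ ((rfl | rfl) | ⟨l, rfl⟩)
      · exact ⟨_, m2 k, (t0 k).2.1, (t1 k).2.1⟩
      · exact ⟨_, m3 k, (t0 k).2.2.1, (t1 k).2.2.1⟩
      · exact ⟨_, add_mem (mul_mem (mJ _ _) (m2 k)) (mul_mem (mJ _ _) (m3 k)), (t0 k).2.2.2 l,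
          (t1 k).2.2.2 l⟩))
    (fun k => ⟨(t0 k).1, (t1 k).1⟩) (fun f h0 h1 => mem_bot.2 ⟨⟨f, h0, h1⟩, rfl⟩)
    (fun k => ⟨fun h => by simpa only [(cj _ _).1, (cj _ _).2] using conj_mem δ0 δ1 h,
      fun h => by simpa only [(cj _ _).1, (cj _ _).2] using conj_mem δ0 δ1 h⟩)
    (fun k => by simp only [e0 k, e1 k]; push_cast; ring)
    (fun k => by simp only [e0 k, e1 k]; push_cast; linear_combination (t k : ℂ) * hz k)
    (fun k => left_ne_zero_of_mul_eq_one (hz k)) (fun k => ofReal_ne_zero.2 (ht k).ne')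
    (fun k h => hn k (by
      rw [hw, div_eq_iff (hν k).2] at h
      have h2 := hz k
      apply ofReal_injective
      push_cast
      linear_combination (-1 / 2 : ℂ) * (u0 k - u1 k * I) * h
        - (1 / 2 : ℂ) * (u0 k + u1 k * I) * (J k [0] - J k [1] * I) * h2
        + (u1 k : ℂ) * J k [1] * I_sq))
    (fun k => by
      have h3 : (J (k + 1) [0] : ℂ) ^ 2 + J (k + 1) [1] ^ 2 =
          (J (k + 1) [0] + J (k + 1) [1] * I) * (J (k + 1) [0] - J (k + 1) [1] * I) := by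
        linear_combination (J (k + 1) [1] : ℂ) ^ 2 * I_sq
      have h4 := div_mul_cancel₀ (2 * ((u0 k : ℂ) * J (k + 1) [0] + u1 k * J (k + 1) [1]))
        (mul_ne_zero (hν (k + 1)).1 (hν (k + 1)).2)
      simp only [r0 k, r1 k, hw]
      push_cast
      rw [h3, eq_div_iff (hν (k + 1)).2]
      linear_combination (-((u0 k : ℂ) + u1 k * I)) * h4 -
        ((J (k + 1) [0] : ℂ) + J (k + 1) [1] * I) * hz k -
        2 * ((u0 k : ℂ) + u1 k * I) * u1 k * J (k + 1) [1] * I_sq)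
    (fun a b h => by
      have h1 : ∀ δ : Derivation ℤ ℝ ℝ, ∀ k, (u0 k : ℂ) * δ (u0 k) + u1 k * δ (u1 k) = 0 :=
        fun δ k => by
          have := congrArg δ (hu k)
          simp only [map_add, sq, Derivation.leibniz, smul_eq_mul, Derivation.map_one_eq_zero]
            at this
          exact_mod_cast (by linarith : u0 k * δ (u0 k) + u1 k * δ (u1 k) = 0)
      have h2 : ∀ k, a * δ0 (p0 k) + b * δ1 (p0 k) = 0 ∧ a * δ0 (p1 k) + b * δ1 (p1 k) = 0 ∧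
          a * δ0 (u0 k) + b * δ1 (u0 k) = 0 ∧ a * δ0 (u1 k) + b * δ1 (u1 k) = 0 ∧
          a * δ0 (t k) + b * δ1 (t k) = 0 := fun k => by
        obtain ⟨a1, a2, a3, a4⟩ := h k
        simp only [two, toDer_apply, map_add, map_sub, Derivation.leibniz, cx_I, cx_ofReal,
          smul_eq_mul, mul_zero, zero_add] at a1 a2 a3 a4
        have a5 : a * δ0 (u1 k) + b * δ1 (u1 k) = 0 :=
          (mul_eq_zero.1 (show ((u0 k : ℂ) + u1 k * I) * (a * δ0 (u1 k) + b * δ1 (u1 k)) = 0 by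
            linear_combination (-I * u0 k) * a3 + I * a * h1 δ0 k + I * b * h1 δ1 k +
              u0 k * (a * δ0 (u1 k) + b * δ1 (u1 k)) * I_sq)).resolve_left
            (left_ne_zero_of_mul_eq_one (hz k))
        exact ⟨by linear_combination (a1 + a2) / 2,
          mul_left_cancel₀ I_ne_zero (by linear_combination (a1 - a2) / 2),
          by linear_combination a3 - I * a5, a5, a4⟩
      have h3 : ∀ r s : ℝ, a * r + b * s = 0 → a.re * r + b.re * s = 0 ∧ a.im * r + b.im * s = 0 :=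
        fun r s e => ⟨by simpa using congrArg re e, by simpa using congrArg im e⟩
      have h4 := ind a.re b.re fun k => ⟨(h3 _ _ (h2 k).1).1, (h3 _ _ (h2 k).2.1).1,
        (h3 _ _ (h2 k).2.2.1).1, (h3 _ _ (h2 k).2.2.2.1).1, (h3 _ _ (h2 k).2.2.2.2).1⟩
      have h5 := ind a.im b.im fun k => ⟨(h3 _ _ (h2 k).1).2, (h3 _ _ (h2 k).2.1).2,
        (h3 _ _ (h2 k).2.2.1).2, (h3 _ _ (h2 k).2.2.2.1).2, (h3 _ _ (h2 k).2.2.2.2).2⟩
      exact ⟨Complex.ext h4.1 h5.1, Complex.ext h4.2 h5.2⟩)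
  have h2 : (0 : ℝ) < ∑ k, t k := Finset.sum_pos (fun k _ => ht k) Finset.univ_nonempty
  exact h2.ne' (by exact_mod_cast h)

end Cx

section Fin

/-- Iterated directional derivatives along the coordinate axes. -/
noncomputable def pd (f : EuclideanSpace ℝ (Fin 2) → ℝ) :
    List (Fin 2) → EuclideanSpace ℝ (Fin 2) → ℝ
  | [] => f
  | j :: l => fun x => fderiv ℝ (pd f l) x (EuclideanSpace.single j 1)

variable {f : EuclideanSpace ℝ (Fin 2) → ℝ}

lemma pd_smooth (hf : ContDiff ℝ ((⊤ : ℕ∞) : WithTop ℕ∞) f) (l : List (Fin 2)) :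
    ContDiff ℝ ((⊤ : ℕ∞) : WithTop ℕ∞) (pd f l) := by
  induction l with
  | nil => exact hf
  | cons j l ih =>
    exact (ih.fderiv_right (m := ((⊤ : ℕ∞) : WithTop ℕ∞)) le_rfl).clm_apply contDiff_const

lemma fderiv_pd (l : List (Fin 2)) (x v : EuclideanSpace ℝ (Fin 2)) :
    fderiv ℝ (pd f l) x v = pd f (0 :: l) x * v 0 + pd f (1 :: l) x * v 1 := by
  have : v = v 0 • EuclideanSpace.single 0 1 + v 1 • EuclideanSpace.single 1 1 := by
    ext i; fin_cases i <;> simp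
  conv_lhs => rw [this]
  simp only [map_add, map_smul, smul_eq_mul, pd]
  ring

lemma grad (x : EuclideanSpace ℝ (Fin 2)) (j : Fin 2) : gradient f x j = pd f [j] x := by
  have := InnerProductSpace.toDual_symm_apply (𝕜 := ℝ) (x := EuclideanSpace.single j (1 : ℝ))
    (y := fderiv ℝ f x)
  rw [EuclideanSpace.inner_single_right] at this
  simpa [pd, gradient] using this

lemma per {α : Type*} {n : ℕ} {p : ℕ → α} (h : p (n + 1) = p 0) (k : Fin (n + 1)) :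
    p (k + 1 : Fin (n + 1)) = p (k + 1) := by
  rw [Fin.val_add_one]
  split_ifs with e
  · rw [e, Fin.val_last, h]
  · rfl

end Fin

end Anal

open Anal in
theorem an : StmtAN := by
  intro n hP f hf
  let S : Set ((Fin (n + 1) → EuclideanSpace ℝ (Fin 2)) × (Fin (n + 1) → EuclideanSpace ℝ (Fin 2)) ×
      (Fin (n + 1) → ℝ)) :=
    {q | ∀ k, f (q.1 k) = 0 ∧ ‖q.2.1 k‖ = 1 ∧ inner ℝ (q.2.1 k) (gradient f (q.1 k)) < 0 ∧
      0 < q.2.2 k ∧ q.1 (k + 1) = q.1 k + q.2.2 k • q.2.1 k ∧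
      q.2.1 (k + 1) = q.2.1 k - (2 * inner ℝ (q.2.1 k) (gradient f (q.1 (k + 1))) /
        ‖gradient f (q.1 (k + 1))‖ ^ 2) • gradient f (q.1 (k + 1))}
  let L : ((Fin (n + 1) → EuclideanSpace ℝ (Fin 2)) × (Fin (n + 1) → EuclideanSpace ℝ (Fin 2)) ×
      (Fin (n + 1) → ℝ)) →L[ℝ] EuclideanSpace ℝ (Fin 2) × EuclideanSpace ℝ (Fin 2) :=
    ((ContinuousLinearMap.proj 0).comp (ContinuousLinearMap.fst ℝ _ _)).prod
      ((ContinuousLinearMap.proj 0).comp ((ContinuousLinearMap.fst ℝ _ _).comp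
        (ContinuousLinearMap.snd ℝ _ _)))
  refine (dimH_mono (t := L '' S) ?_).trans ((L.lipschitz.dimH_image_le S).trans ?_)
  · rintro q ⟨p, u, h1, h2, h3, h4, h⟩
    choose t ht using fun k : Fin (n + 1) => (h k k.2).2.2.2.1
    refine ⟨⟨fun k => p k, fun k => u k, t⟩, fun k => ?_, Prod.ext h1 h2⟩
    dsimp only
    rw [per (h3.trans h1.symm), per (h4.trans h2.symm)]
    exact ⟨(h k k.2).1, (h k k.2).2.1, (h k k.2).2.2.1, (ht k).1, (ht k).2, (h k k.2).2.2.2.2⟩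
  by_contra hS
  have hd : ∀ l, Differentiable ℝ (pd f l) := fun l => (pd_smooth hf l).differentiable (by simp)
  obtain ⟨y, hy, v0, v1, hv, δ0, δ1, h⟩ :=
    gen2 (ι := Fin (n + 1) × (List (Fin 2) ⊕ Fin 2 ⊕ Fin 2 ⊕ Unit))
      (fun i q => Sum.elim (fun l => pd f l (q.1 i.1)) (Sum.elim (fun j => q.1 i.1 j)
        (Sum.elim (fun j => q.2.1 i.1 j) fun _ => q.2.2 i.1)) i.2) (by
      rintro ⟨k, l | j | j | j⟩ <;> simp only [Sum.elim_inl, Sum.elim_inr]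
      · exact (hd l).comp (by fun_prop)
      all_goals fun_prop) hS
  have lin : ∀ (A : _ →L[ℝ] ℝ) (v), fderiv ℝ (fun q => A q) y v = A v := fun A v => by
    rw [A.fderiv]
  let P := fun k : Fin (n + 1) => (ContinuousLinearMap.proj k).comp (ContinuousLinearMap.fst ℝ
    (Fin (n + 1) → EuclideanSpace ℝ (Fin 2)) ((Fin (n + 1) → EuclideanSpace ℝ (Fin 2)) ×
      (Fin (n + 1) → ℝ)))
  have hp : ∀ k j, δ0 (y.1 k j) = v0.1 k j ∧ δ1 (y.1 k j) = v1.1 k j := fun k j =>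
    ⟨(h (k, .inr (.inl j))).1.trans (lin ((EuclideanSpace.proj j).comp (P k)) _),
      (h (k, .inr (.inl j))).2.trans (lin ((EuclideanSpace.proj j).comp (P k)) _)⟩
  have hu : ∀ k j, δ0 (y.2.1 k j) = v0.2.1 k j ∧ δ1 (y.2.1 k j) = v1.2.1 k j := fun k j => by
    have := lin ((EuclideanSpace.proj j).comp ((ContinuousLinearMap.proj k).comp
      ((ContinuousLinearMap.fst ℝ _ _).comp (ContinuousLinearMap.snd ℝ _ _))))
    exact ⟨(h (k, .inr (.inr (.inl j)))).1.trans (this _),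
      (h (k, .inr (.inr (.inl j)))).2.trans (this _)⟩
  have ht : ∀ k, δ0 (y.2.2 k) = v0.2.2 k ∧ δ1 (y.2.2 k) = v1.2.2 k := fun k => by
    have := lin ((ContinuousLinearMap.proj k).comp
      ((ContinuousLinearMap.snd ℝ _ _).comp (ContinuousLinearMap.snd ℝ _ _)))
    exact ⟨(h (k, .inr (.inr (.inr ())))).1.trans (this _),
      (h (k, .inr (.inr (.inr ())))).2.trans (this _)⟩
  have hc : ∀ k l v, fderiv ℝ (fun q => pd f l (P k q)) y v =
      pd f (0 :: l) (y.1 k) * v.1 k 0 + pd f (1 :: l) (y.1 k) * v.1 k 1 := fun k l v =>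
    (DFunLike.congr_fun ((hd l _).hasFDerivAt.comp y (P k).hasFDerivAt).fderiv v).trans
      (fderiv_pd l _ _)
  have hi : ∀ a b : EuclideanSpace ℝ (Fin 2),
      inner ℝ a (gradient f b) = a 0 * pd f [0] b + a 1 * pd f [1] b := fun a b => by
    rw [PiLp.inner_apply, Fin.sum_univ_two, grad, grad]
    simp [mul_comm]
  have hn : ∀ a : EuclideanSpace ℝ (Fin 2), ‖a‖ ^ 2 = a 0 ^ 2 + a 1 ^ 2 := fun a => by
    simp [EuclideanSpace.norm_sq_eq]
  refine rcfg δ0 δ1 hP (fun k => y.1 k 0) (fun k => y.1 k 1) (fun k => y.2.1 k 0)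
    (fun k => y.2.1 k 1) y.2.2 (fun k l => pd f l (y.1 k))
    (fun k l => by rw [(hp k 0).1, (hp k 1).1]; exact (h (k, .inl l)).1.trans (hc k l _))
    (fun k l => by rw [(hp k 0).2, (hp k 1).2]; exact (h (k, .inl l)).2.trans (hc k l _))
    (fun k => (hy k).1) (fun k => by rw [← hn, (hy k).2.1, one_pow])
    (fun k => by rw [← hi]; exact (hy k).2.2.1.ne) (fun k => (hy k).2.2.2.1)
    (fun k => by rw [(hy k).2.2.2.2.1]; rfl) (fun k => by rw [(hy k).2.2.2.2.1]; rfl)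
    (fun k => by rw [(hy k).2.2.2.2.2, hi, hn, ← grad, ← grad]; rfl)
    (fun k => by rw [(hy k).2.2.2.2.2, hi, hn, ← grad, ← grad]; rfl)
    fun a b e => hv a b ?_
  simp only [(hp _ _).1, (hp _ _).2, (hu _ _).1, (hu _ _).2, (ht _).1, (ht _).2] at e
  refine Prod.ext (funext fun k => ?_) (Prod.ext (funext fun k => ?_) (funext fun k => ?_))
  · ext j; fin_cases j
    · exact (e k).1
    · exact (e k).2.1
  · ext j; fin_cases j
    · exact (e k).2.2.1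
    · exact (e k).2.2.2.1
  · exact (e k).2.2.2.2

end Pool.Agent.MP_249f74_an.H17
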