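import Pool.Agent.MP_249f74_an.H17.Spec

/-!
Symmetries of mirrors, edges and triples.
-/

open Set IntermediateField

namespace Pool.Agent.MP_249f74_an.H17

open H88 (rk cl subset_cl)

variable {C Ω : Type} [Field C] [Field Ω] [Algebra C Ω] {d : Two C Ω}

namespace Two

lemma J_neg (f g : Ω) : d.J f (-g) = -d.J f g := by simp [J]; ring

lemma J_inv (f g : Ω) : d.J f g⁻¹ = -g⁻¹ ^ 2 * d.J f g := by
  simp only [J, Derivation.leibniz_inv, smul_eq_mul]; ring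

/-- The derivation which kills `y` and sends `f` to one. -/
noncomputable def nb (d : Two C Ω) (y f : Ω) : Der C Ω := (d.J y f)⁻¹ • d.br y

lemma nb_apply (y f g : Ω) : d.nb y f g = (d.J y f)⁻¹ * d.J y g := by simp [nb]

lemma tn_nb (y f : Ω) : d.Tn (d.nb y f) := (tn_br y).smul _

lemma nb_self (y f : Ω) : d.nb y f y = 0 := by rw [nb_apply, J_self, mul_zero]

lemma nb_one {y f : Ω} (h : d.J y f ≠ 0) : d.nb y f f = 1 := by rw [nb_apply, inv_mul_cancel₀ h]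

lemma nb_ne {y f g : Ω} (h : d.J y f ≠ 0) (h' : d.J y g ≠ 0) : d.nb y f g ≠ 0 := by
  rw [nb_apply]; exact mul_ne_zero (inv_ne_zero h) h'

lemma J_ne_symm {f g : Ω} (h : d.J f g ≠ 0) : d.J g f ≠ 0 := by
  rw [J_symm]; exact neg_ne_zero.2 h

lemma Tn.J_eq_zero {Z : Der C Ω} (h : d.Tn Z) {f g k : Ω} (hf : Z f = 0) (hg : Z g = 0)
    (hk : Z k ≠ 0) : d.J f g = 0 := by
  by_contra e
  exact hk (h.eq_zero e hf hg k)

lemma Tn.ne_zero {Z : Der C Ω} (h : d.Tn Z) {f g k : Ω} (hf : Z f = 0) (hk : Z k ≠ 0)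
    (hJ : d.J f g ≠ 0) : Z g ≠ 0 := fun hg => hJ (h.J_eq_zero hf hg hk)

end Two

namespace Mir

/-- Exchange of the two isotropic coordinates. -/
def swap (m : Mir d) : Mir d where
  x := m.y
  y := m.x
  w := m.w⁻¹
  F := m.F
  xF := m.yF
  yF := m.xF
  wF := inv_mem m.wF
  w0 := inv_ne_zero m.w0
  ny := by
    rw [m.tan.1, m.tan.2]
    exact m.ny.imp (mul_ne_zero · m.w0) (mul_ne_zero · m.w0)
  tan := by
    have := m.w0
    constructor
    · rw [m.tan.1]; field_simp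
    · rw [m.tan.2]; field_simp
  stab := fun f hf => by
    have := m.w0
    obtain ⟨g, g1, h1, h2⟩ := m.stab f hf
    refine ⟨g / m.w, div_mem g1 m.wF, ?_, ?_⟩
    · rw [m.tan.1, h1]; field_simp
    · rw [m.tan.2, h2]; field_simp
  const := m.const
  min := fun S hy hx h => by
    have := m.w0
    have hw : m.w⁻¹ ∈ S := h _ hy m.yF _ (inv_mem m.wF)
      ⟨by rw [m.tan.1]; field_simp, by rw [m.tan.2]; field_simp⟩
    refine m.min S hx hy fun f hf hf' g hg hs => ?_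
    have h2 := h f hf hf' _ (div_mem hg m.wF)
      ⟨by rw [m.tan.1, hs.1]; field_simp, by rw [m.tan.2, hs.2]; field_simp⟩
    have := div_mem h2 hw
    rwa [div_inv_eq_mul, div_mul_cancel₀ _ m.w0] at this
  real := m.real.symm

@[simp] lemma swap_x (m : Mir d) : m.swap.x = m.y := rfl
@[simp] lemma swap_y (m : Mir d) : m.swap.y = m.x := rfl
@[simp] lemma swap_w (m : Mir d) : m.swap.w = m.w⁻¹ := rfl
@[simp] lemma swap_F (m : Mir d) : m.swap.F = m.F := rfl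

variable (m : Mir d)

lemma dx {Z : Der C Ω} (hZ : d.Tn Z) : Z m.x = Z m.y * m.w := hZ.sl m.tan

lemma Jx (f : Ω) : d.J m.x f = m.w * d.J m.y f := m.tan.J f

lemma Jx' (f : Ω) : d.J f m.x = m.w * d.J f m.y := by
  rw [d.J_symm, m.Jx, d.J_symm f]; ring

lemma stabx {Z : Der C Ω} (hZ : d.Tn Z) {T : IntermediateField C Ω} (hT : m.F ≤ T)
    (h : Z m.x ∈ T) : ∀ f ∈ m.F, Z f ∈ T := m.swap.stab_of hZ hT h

lemma constx {Z : Der C Ω} (hZ : d.Tn Z) (h : Z m.x ≠ 0) :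
    ∀ f ∈ m.F, Z f = 0 → f ∈ (⊥ : IntermediateField C Ω) := m.swap.const_of hZ h

lemma w_eq {m' : Mir d} (hx : m.x = m'.x) (hy : m.y = m'.y) : m.w = m'.w :=
  m.sl_unique m.tan (hx ▸ hy ▸ m'.tan)

end Mir

namespace Edge

variable {m m' : Mir d} {z l : Ω}

lemma yne (e : Edge m m' z l) : m'.y - m.y ≠ 0 := fun h => e.l0 (by rw [← e.ey, h, zero_mul])

lemma xne (e : Edge m m' z l) : m'.x - m.x ≠ 0 := by rw [e.ex]; exact mul_ne_zero e.l0 e.z0

lemma line (e : Edge m m' z l) : m'.x - m.x = z ^ 2 * (m'.y - m.y) := by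
  rw [e.ex, ← e.ey]; ring

lemma sq_eq (e : Edge m m' z l) : z ^ 2 = (m'.x - m.x) / (m'.y - m.y) := by
  rw [e.line, mul_div_cancel_right₀ _ e.yne]

lemma sq_mem (e : Edge m m' z l) {K : IntermediateField C Ω} (h : m.F ≤ K) (h' : m'.F ≤ K) :
    z ^ 2 ∈ K := by
  rw [e.sq_eq]
  exact div_mem (sub_mem (h' m'.xF) (h m.xF)) (sub_mem (h' m'.yF) (h m.yF))

/-- The derivative of the equation of the line. -/
lemma dline (e : Edge m m' z l) {Z : Der C Ω} (hZ : d.Tn Z) :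
    (m'.w - z ^ 2) * Z m'.y = (m.w - z ^ 2) * Z m.y + (m'.y - m.y) * Z (z ^ 2) := by
  have := congrArg Z e.line
  rw [map_sub, Z.leibniz, map_sub, m.dx hZ, m'.dx hZ] at this
  simp only [smul_eq_mul] at this
  linear_combination this

lemma symm (e : Edge m m' z l) : Edge m' m (-z) l where
  ex := by linear_combination -e.ex
  ey := by linear_combination e.ey
  z0 := neg_ne_zero.2 e.z0
  l0 := e.l0
  g0 := by rw [neg_sq]; exact e.g1
  g1 := by rw [neg_sq]; exact e.g0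
  nd := by
    rw [Two.J_neg, neg_ne_zero]
    intro h
    have h1 := e.dline (Two.tn_br z)
    have h2 : d.br z (z ^ 2) = 0 := by
      rw [Derivation.leibniz_pow, Two.br_apply, Two.J_self]; simp
    rw [h2, Two.br_apply, Two.br_apply, d.J_symm z m'.y, h, d.J_symm z] at h1
    exact mul_ne_zero (sub_ne_zero.2 e.g0) (neg_ne_zero.2 e.nd) (by linear_combination -h1)

lemma nd' (e : Edge m m' z l) : d.J m'.y z ≠ 0 := by
  have := e.symm.nd
  rwa [Two.J_neg, neg_ne_zero] at this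

lemma swap (e : Edge m m' z l) : Edge m.swap m'.swap z⁻¹ l where
  ex := by have := e.z0; simp only [Mir.swap_x]; field_simp; exact e.ey
  ey := by have := e.z0; simp only [Mir.swap_y]; rw [e.ex]; field_simp
  z0 := inv_ne_zero e.z0
  l0 := e.l0
  g0 := by rw [Mir.swap_w, inv_pow]; exact fun h => e.g0 (inv_injective h)
  g1 := by rw [Mir.swap_w, inv_pow]; exact fun h => e.g1 (inv_injective h)
  nd := by
    rw [Mir.swap_y, Two.J_inv, m.Jx]
    exact mul_ne_zero (neg_ne_zero.2 (pow_ne_zero _ (inv_ne_zero e.z0))) (mul_ne_zero m.w0 e.nd)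

lemma congr {n n' : Mir d} (e : Edge m m' z l) (hx : n.x = m.x) (hy : n.y = m.y)
    (hx' : n'.x = m'.x) (hy' : n'.y = m'.y) : Edge n n' z l where
  ex := by rw [hx, hx', e.ex]
  ey := by rw [hy, hy', e.ey]
  z0 := e.z0
  l0 := e.l0
  g0 := by rw [n.w_eq hx hy]; exact e.g0
  g1 := by rw [n'.w_eq hx' hy']; exact e.g1
  nd := by rw [hy]; exact e.nd

variable [CharZero Ω]

lemma nds (e : Edge m m' z l) : d.J m.y (z ^ 2) ≠ 0 := by
  rw [← Two.br_apply, Derivation.leibniz_pow, Two.br_apply]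
  simpa [e.z0] using e.nd

lemma nds' (e : Edge m m' z l) : d.J m'.y (z ^ 2) ≠ 0 := by
  have := e.symm.nds
  rwa [neg_sq] at this

/-- Consecutive mirrors are independent. -/
lemma adj (e : Edge m m' z l) : d.J m.y m'.y ≠ 0 := fun h => by
  have h1 := e.dline (Two.tn_br m.y)
  rw [Two.br_apply, Two.br_apply, Two.br_apply, h, Two.J_self] at h1
  exact mul_ne_zero e.yne e.nds (by linear_combination -h1)

lemma adjx (e : Edge m m' z l) : d.J m.y m'.x ≠ 0 := by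
  rw [m'.Jx']; exact mul_ne_zero m'.w0 e.adj

lemma Jsc (e : Edge m m' z l) : d.J (z ^ 2) (m.x - z ^ 2 * m.y) ≠ 0 := by
  have h : d.J (z ^ 2) (m.x - z ^ 2 * m.y) = -((m.w - z ^ 2) * d.J m.y (z ^ 2)) := by
    rw [← Two.br_apply, map_sub, Derivation.leibniz, m.dx (Two.tn_br _)]
    simp only [Two.br_apply, Two.J_self, smul_eq_mul]
    rw [d.J_symm m.y]; ring
  rw [h]
  exact neg_ne_zero.2 (mul_ne_zero (sub_ne_zero.2 e.g0) e.nds)

end Edge

/-- The orientation is determined by the three vertices. -/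
def Bad (m0 m1 m2 : Mir d) (z : Ω) : Prop := z ∈ m0.F ⊔ m1.F ⊔ m2.F

namespace Tri

variable {m0 m1 m2 : Mir d} {z0 l0 z1 l1 : Ω}

lemma rev (t : Tri m0 m1 m2 z0 l0 z1 l1) : Tri m2 m1 m0 (-z1) l1 (-z0) l0 :=
  ⟨t.e1.symm, t.e0.symm, by linear_combination t.r⟩

lemma swap (t : Tri m0 m1 m2 z0 l0 z1 l1) : Tri m0.swap m1.swap m2.swap z0⁻¹ l0 z1⁻¹ l1 :=
  ⟨t.e0.swap, t.e1.swap, by rw [Mir.swap_w, ← t.r, mul_inv]⟩

lemma z1_eq (t : Tri m0 m1 m2 z0 l0 z1 l1) : z1 = m1.w / z0 := by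
  rw [← t.r, mul_div_cancel_left₀ _ t.e0.z0]

lemma bad1 (t : Tri m0 m1 m2 z0 l0 z1 l1) (b : Bad m0 m1 m2 z0) : Bad m0 m1 m2 z1 := by
  rw [t.z1_eq]
  exact div_mem ((le_sup_right.trans le_sup_left : m1.F ≤ _) m1.wF) b

lemma bad_rev (t : Tri m0 m1 m2 z0 l0 z1 l1) (b : Bad m0 m1 m2 z0) : Bad m2 m1 m0 (-z1) := by
  have := t.bad1 b
  unfold Bad at *
  rw [sup_comm m2.F, sup_assoc, sup_comm m2.F, ← sup_assoc, sup_comm m1.F]
  exact neg_mem this

lemma bad_swap (b : Bad m0 m1 m2 z0) : Bad m0.swap m1.swap m2.swap z0⁻¹ := inv_mem (x := z0) b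

/-- The two segments at a vertex are not parallel. -/
lemma sq_ne [CharZero Ω] (t : Tri m0 m1 m2 z0 l0 z1 l1) : z0 ^ 2 ≠ z1 ^ 2 := fun h => by
  rcases sq_eq_sq_iff_eq_or_eq_neg.1 h with h | h
  · exact t.e1.g0 (by rw [← t.r, h, sq])
  · have h2 : z1 ^ 2 = -m1.w := by rw [← t.r, h]; ring
    refine t.e1.nds ?_
    rw [h2, Two.J_neg, neg_eq_zero, ← Two.br_apply]
    exact m1.kill (Two.tn_br _) (by simp [Two.J_self]) _ m1.wF

end Tri

section Map

variable {Ω' : Type} [Field Ω'] [Algebra C Ω'] {d' : Two C Ω'} {ι : Ω →ₐ[C] Ω'} {S : Set Ω}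

/-- On `S` the embedding `ι` carries the plane of derivations `d` to the plane `d'`. -/
def Comp (d : Two C Ω) (d' : Two C Ω') (ι : Ω →ₐ[C] Ω') (S : Set Ω) : Prop :=
  ∃ p q r t : Ω', p * t - q * r ≠ 0 ∧ ∀ f ∈ S,
    d'.d0 (ι f) = p * ι (d.d0 f) + q * ι (d.d1 f) ∧ d'.d1 (ι f) = r * ι (d.d0 f) + t * ι (d.d1 f)

namespace Comp

lemma sl (h : Comp d d' ι S) {y f g : Ω} (hy : y ∈ S) (hf : f ∈ S) (hs : d.Sl y f g) :
    d'.Sl (ι y) (ι f) (ι g) := by
  obtain ⟨p, q, r, t, -, h⟩ := h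
  constructor
  · rw [(h y hy).1, (h f hf).1, hs.1, hs.2, map_mul, map_mul]; ring
  · rw [(h y hy).2, (h f hf).2, hs.1, hs.2, map_mul, map_mul]; ring

lemma J_ne (h : Comp d d' ι S) {f g : Ω} (hf : f ∈ S) (hg : g ∈ S) (hJ : d.J f g ≠ 0) :
    d'.J (ι f) (ι g) ≠ 0 := by
  obtain ⟨p, q, r, t, h0, h⟩ := h
  have : d'.J (ι f) (ι g) = (p * t - q * r) * ι (d.J f g) := by
    simp only [Two.J, h f hf, h g hg, map_sub, map_mul]; ring
  rw [this]
  exact mul_ne_zero h0 ((_root_.map_ne_zero ι).2 hJ)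

lemma zero (h : Comp d d' ι S) {f : Ω} (hf : f ∈ S) (h0 : d'.d0 (ι f) = 0)
    (h1 : d'.d1 (ι f) = 0) : d.d0 f = 0 ∧ d.d1 f = 0 := by
  obtain ⟨p, q, r, t, hd, h⟩ := h
  rw [(h f hf).1] at h0
  rw [(h f hf).2] at h1
  constructor
  · rw [← _root_.map_eq_zero ι]
    exact (mul_eq_zero.1 (by linear_combination t * h0 - q * h1)).resolve_left hd
  · rw [← _root_.map_eq_zero ι]
    exact (mul_eq_zero.1 (by linear_combination p * h1 - r * h0)).resolve_left hd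

lemma of_comm (h0 : ∀ f, d'.d0 (ι f) = ι (d.d0 f)) (h1 : ∀ f, d'.d1 (ι f) = ι (d.d1 f)) :
    Comp d d' ι S := ⟨1, 0, 0, 1, by simp, fun f _ => by simp [h0, h1]⟩

/-- An embedding which commutes on `S` with a dual basis is compatible. -/
lemma of_dual {ι : Ω →ₐ[C] Ω} {A B : Der C Ω} (hA : d.Tn A) (hB : d.Tn B) {a b : Ω}
    (h1 : A a = 1) (h2 : A b = 0) (h4 : B b = 1)
    (h : ∀ f ∈ S, A (ι f) = ι (A f) ∧ B (ι f) = ι (B f)) : Comp d d ι S := by
  obtain ⟨p, q, hA⟩ := hA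
  obtain ⟨r, t, hB⟩ := hB
  rw [hA] at h1 h2
  rw [hB] at h4
  have e : (p * t - q * r) * d.J a b = 1 := by
    simp only [Two.J]
    linear_combination (r * d.d0 b + t * d.d1 b) * h1 + h4 - (r * d.d0 a + t * d.d1 a) * h2
  have e0 := left_ne_zero_of_mul_eq_one e
  have u0 := right_ne_zero_of_mul_eq_one e
  generalize d.J a b = u at e u0
  refine ⟨(t * ι p - q * ι r) * u, (t * ι q - q * ι t) * u,
    (p * ι r - r * ι p) * u, (p * ι t - r * ι q) * u, ?_, fun f hf => ?_⟩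
  · have e1 : ι p * ι t - ι q * ι r ≠ 0 := by
      simpa using (_root_.map_ne_zero ι).2 e0
    intro e2
    exact mul_ne_zero e1 u0 (by linear_combination e2 - (ι p * ι t - ι q * ι r) * u * e)
  · obtain ⟨k1, k2⟩ := h f hf
    simp only [hA, hB, map_add, map_mul] at k1 k2
    constructor
    · linear_combination u * (t * k1 - q * k2) - d.d0 (ι f) * e
    · linear_combination u * (p * k2 - r * k1) - d.d1 (ι f) * e

end Comp

/-- An automorphism over a stable field commutes with the derivation on the algebraic closure. -/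
lemma comm_cl [CharZero Ω] (g : Ω ≃ₐ[C] Ω) {K : IntermediateField C Ω} (hg : ∀ a ∈ K, g a = a)
    {Z : Der C Ω} (hZ : ∀ a ∈ K, Z a ∈ K) {f : Ω} (hf : f ∈ cl C (K : Set Ω)) :
    Z (g f) = g (Z f) := by
  let Z' : Der C Ω := Derivation.mk'
    (g.symm.toLinearMap ∘ₗ Z.toLinearMap ∘ₗ g.toLinearMap) fun a b => by simp
  have h : (Z' - Z) f = 0 := kill_cl (fun a ha => by
    simp only [Z', Derivation.sub_apply, Derivation.coe_mk', LinearMap.comp_apply,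
      AlgEquiv.toLinearMap_apply, hg a ha, Derivation.coeFn_coe, sub_eq_zero]
    rw [AlgEquiv.symm_apply_eq, hg _ (hZ a ha)]) hf
  simp only [Z', Derivation.sub_apply, Derivation.coe_mk', LinearMap.comp_apply,
    AlgEquiv.toLinearMap_apply, Derivation.coeFn_coe, sub_eq_zero] at h
  rw [← h, AlgEquiv.apply_symm_apply]

/-- Transport of a mirror. -/
def Mir.map (m : Mir d) (h : Comp d d' ι S) (hS : (m.F : Set Ω) ⊆ S) : Mir d' where
  x := ι m.x
  y := ι m.y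
  w := ι m.w
  F := m.F.map ι
  xF := ⟨_, m.xF, rfl⟩
  yF := ⟨_, m.yF, rfl⟩
  wF := ⟨_, m.wF, rfl⟩
  w0 := (_root_.map_ne_zero ι).2 m.w0
  ny := by
    by_contra e
    push Not at e
    have := h.zero (hS m.yF) e.1 e.2
    exact m.ny.elim (· this.1) (· this.2)
  tan := h.sl (hS m.yF) (hS m.xF) m.tan
  stab := by
    rintro _ ⟨f, hf, rfl⟩
    obtain ⟨g, g1, hg⟩ := m.stab f hf
    exact ⟨_, ⟨g, g1, rfl⟩, h.sl (hS m.yF) (hS hf) hg⟩
  const := by
    rintro _ ⟨f, hf, rfl⟩ h0 h1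
    have := h.zero (hS hf) h0 h1
    obtain ⟨c, rfl⟩ := IntermediateField.mem_bot.1 (m.const f hf this.1 this.2)
    exact IntermediateField.mem_bot.2 ⟨c, (ι.commutes c).symm⟩
  min := fun T hx hy hT => IntermediateField.map_le_iff_le_comap.2
    (m.min (T.comap ι) hx hy fun f hf hf' g hg hs =>
      hT _ hf ⟨f, hf', rfl⟩ _ ⟨g, hg, rfl⟩ (h.sl (hS m.yF) (hS hf') hs))
  real := by
    have key : ∀ a b : Ω, ι a ∈ C⟮ι b⟯ ↔ a ∈ C⟮b⟯ := fun a b => by
      rw [← Set.image_singleton, ← IntermediateField.adjoin_map]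
      exact ⟨fun ⟨c, hc, e⟩ => ι.toRingHom.injective e ▸ hc, fun h => ⟨a, h, rfl⟩⟩
    rw [key, key, m.real]

variable {m m' : Mir d} (h : Comp d d' ι S) (hS : (m.F : Set Ω) ⊆ S) (hS' : (m'.F : Set Ω) ⊆ S)

@[simp] lemma Mir.map_x : (m.map h hS).x = ι m.x := rfl
@[simp] lemma Mir.map_y : (m.map h hS).y = ι m.y := rfl
@[simp] lemma Mir.map_w : (m.map h hS).w = ι m.w := rfl
@[simp] lemma Mir.map_F : (m.map h hS).F = m.F.map ι := rfl

lemma Mir.rk_map : rk C ((m.map h hS).F : Set Ω') = rk C (m.F : Set Ω) := H17.rk_map ι _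

lemma Edge.map {z l : Ω} (e : Edge m m' z l) (hz : z ∈ S) :
    Edge (m.map h hS) (m'.map h hS') (ι z) (ι l) where
  ex := by simpa using congrArg ι e.ex
  ey := by simpa using congrArg ι e.ey
  z0 := (_root_.map_ne_zero ι).2 e.z0
  l0 := (_root_.map_ne_zero ι).2 e.l0
  g0 := fun h => e.g0 (ι.toRingHom.injective (by simpa using h))
  g1 := fun h => e.g1 (ι.toRingHom.injective (by simpa using h))
  nd := h.J_ne (hS m.yF) hz e.nd

end Map

/-- Some embedding identifies the first coordinates but not the second ones. -/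
def Phi (m0 m1 : Mir d) : Prop := ∃ τ : Ω →ₐ[C] Ω, τ m1.x = m0.x ∧ τ m1.y ≠ m0.y

/-- One vertex and all first integrals of the pencil of the other do not give the orientation. -/
def StmtL2V : Prop :=
  ∀ (C Ω : Type) [Field C] [CharZero C] [IsAlgClosed C] [Field Ω] [CharZero Ω] [IsAlgClosed Ω]
    [Algebra C Ω] (d : Two C Ω) (m0 m1 : Mir d) (z l : Ω),
    Edge m0 m1 z l → z ∉ Kr (d.br m0.y) ⊔ m1.F

/-- The ends of a bad triple are independent. -/
def StmtCONJ : Prop :=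
  ∀ (C Ω : Type) [Field C] [CharZero C] [IsAlgClosed C] [Field Ω] [CharZero Ω] [IsAlgClosed Ω]
    [Algebra C Ω] (d : Two C Ω) (m0 m1 m2 : Mir d) (z0 l0 z1 l1 : Ω),
    Tri m0 m1 m2 z0 l0 z1 l1 → Bad m0 m1 m2 z0 → d.J m0.y m2.y ≠ 0

/-- A bad triple has isotropic chords. -/
def StmtPHI : Prop :=
  ∀ (C Ω : Type) [Field C] [CharZero C] [IsAlgClosed C] [Field Ω] [CharZero Ω] [IsAlgClosed Ω]
    [Algebra C Ω] (d : Two C Ω) (m0 m1 m2 : Mir d) (z0 l0 z1 l1 : Ω),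
    Tri m0 m1 m2 z0 l0 z1 l1 → Bad m0 m1 m2 z0 → Phi m0 m1

/-- At an isotropic chord the third vertex of a bad triple is at infinity. -/
def StmtOUT : Prop :=
  ∀ (C Ω : Type) [Field C] [CharZero C] [IsAlgClosed C] [Field Ω] [CharZero Ω] [IsAlgClosed Ω]
    [Algebra C Ω] (d : Two C Ω) (m0 m1 : Mir d) (z0 l0 : Ω), Edge m0 m1 z0 l0 → Phi m0 m1 →
    ∃ V : ValuationSubring Ω, (∀ a ∈ m0.F, a ∈ V) ∧ (∀ a ∈ m1.F, a ∈ V) ∧
      V.valuation (z0 ^ 2) < 1 ∧ ∀ (m2 : Mir d) (z1 l1 : Ω),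
        Tri m0 m1 m2 z0 l0 z1 l1 → Bad m0 m1 m2 z0 → m2.x ∉ V

/-- There is no bad triple of algebraic mirrors. -/
def StmtN1 : Prop :=
  ∀ (C Ω : Type) [Field C] [CharZero C] [IsAlgClosed C] [Field Ω] [CharZero Ω] [IsAlgClosed Ω]
    [Algebra C Ω] (d : Two C Ω) (m0 m1 m2 : Mir d) (z0 l0 z1 l1 : Ω),
    Tri m0 m1 m2 z0 l0 z1 l1 → Bad m0 m1 m2 z0 → rk C (m0.F : Set Ω) ≤ 1 →
    rk C (m1.F : Set Ω) ≤ 1 → rk C (m2.F : Set Ω) ≤ 1 → False

/-- Two consecutive bad triples have conjugate ends. -/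
def StmtKEY : Prop :=
  ∀ (C Ω : Type) [Field C] [CharZero C] [IsAlgClosed C] [Field Ω] [CharZero Ω] [IsAlgClosed Ω]
    [Algebra C Ω] (d : Two C Ω) (ma m0 m1 m2 : Mir d) (za la z0 l0 z1 l1 : Ω),
    Tri ma m0 m1 za la z0 l0 → Tri m0 m1 m2 z0 l0 z1 l1 → Bad ma m0 m1 za → Bad m0 m1 m2 z0 →
    d.J ma.y m2.y = 0

end Pool.Agent.MP_249f74_an.H17
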