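import Pool.Agent.MP_249f74_an.H88.Rank
import Pool.Agent.MP_249f74_an.H97.Der

/-!
Derivations of fields: extension, constants, linear disjointness, ranks, Taylor maps.
-/

open Set Polynomial

namespace Pool.Agent.MP_249f74_an.H17

open H88 (rk cl mem_cl coe_cl subset_cl rk_le rk_union rk_insert rk_insert_le mem_cl_of_root)

/-- Derivations of `Ω` over `C`. -/
abbrev Der (C Ω : Type) [Field C] [Field Ω] [Algebra C Ω] := Derivation C Ω Ω

section Ext

lemma lift_nil {K Ω T : Type} [Field K] [Field Ω] [CharZero Ω] [CommRing T] (θ : K →+* T)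
    (g : T →+* Ω) (hg : Function.Surjective g) (hn : IsNilpotent (RingHom.ker g)) :
    ∃ l : Ω →+* T, (∀ x, g (l x) = x) ∧ ∀ k, l (g (θ k)) = θ k := by
  let _ : Algebra K Ω := (g.comp θ).toAlgebra
  let _ : Algebra K T := θ.toAlgebra
  have : CharZero K := RingHom.charZero (g.comp θ)
  obtain ⟨s, hs⟩ := exists_isTranscendenceBasis K Ω
  have := hs.isAlgebraic_field
  have : CharZero (IntermediateField.adjoin K (range ((↑) : s → Ω))) := algebraRat.charZero _
  have : Algebra.FormallySmooth K Ω := .of_algebraicIndependent_of_isSeparable hs.1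
  let g' : T →ₐ[K] Ω := { g with commutes' := fun k => rfl }
  let l := Algebra.FormallySmooth.liftOfSurjective (AlgHom.id K Ω) g' hg hn
  exact ⟨l.toRingHom, fun x =>
    Algebra.FormallySmooth.liftOfSurjective_apply (AlgHom.id K Ω) g' hg hn x, l.commutes⟩

theorem ext_int {A Ω : Type} [CommRing A] [Field Ω] [CharZero Ω] (ψ : A →+* Ω) (D : A →+ Ω)
    (hD : ∀ a b, D (a * b) = ψ a * D b + ψ b * D a) (h0 : ∀ a, ψ a = 0 → D a = 0) :
    ∃ δ : Derivation ℤ Ω Ω, ∀ a, δ (ψ a) = D a := by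
  have D1 : D 1 = 0 := by
    have := hD 1 1
    simp only [mul_one, map_one, one_mul] at this
    linear_combination -this
  obtain ⟨θ, t1, t2⟩ : ∃ θ : A →+* TrivSqZeroExt Ω Ω, (∀ a, (θ a).fst = ψ a) ∧
      ∀ a, (θ a).snd = D a :=
    ⟨{ toFun := fun a => TrivSqZeroExt.inl (ψ a) + TrivSqZeroExt.inr (D a)
       map_one' := by ext <;> simp [D1]
       map_mul' := fun a b => by
        ext
        · simp
        · simp [hD]; ring
       map_zero' := by ext <;> simp
       map_add' := fun a b => by ext <;> simp }, fun a => by simp, fun a => by simp⟩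
  have : IsDomain (A ⧸ RingHom.ker ψ) :=
    (Ideal.Quotient.isDomain_iff_prime _).2 (RingHom.ker_isPrime ψ)
  obtain ⟨θ', t3⟩ : ∃ θ' : A ⧸ RingHom.ker ψ →+* TrivSqZeroExt Ω Ω,
      ∀ a, θ' (Ideal.Quotient.mk _ a) = θ a :=
    ⟨Ideal.Quotient.lift _ θ fun a ha => by
      ext
      · exact (t1 a).trans ha
      · exact (t2 a).trans (h0 a ha), fun a => rfl⟩
  obtain ⟨θ'', t4⟩ : ∃ θ'' : FractionRing (A ⧸ RingHom.ker ψ) →+* TrivSqZeroExt Ω Ω,
      ∀ a, θ'' (algebraMap _ _ a) = θ' a :=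
    ⟨IsLocalization.lift (M := nonZeroDivisors (A ⧸ RingHom.ker ψ)) (g := θ') fun y => by
      obtain ⟨a, ha⟩ := Ideal.Quotient.mk_surjective y.1
      rw [← ha, t3]
      refine TrivSqZeroExt.isUnit_iff_isUnit_fst.2 (Ne.isUnit fun h => ?_)
      exact nonZeroDivisors.coe_ne_zero y
        (ha ▸ Ideal.Quotient.eq_zero_iff_mem.2 ((t1 a).symm.trans h)),
      fun a => IsLocalization.lift_eq _ a⟩
  obtain ⟨l, hl, hl'⟩ := lift_nil θ'' (TrivSqZeroExt.fstHom ℤ Ω Ω).toRingHom
    (fun x => ⟨TrivSqZeroExt.inl x, rfl⟩) ⟨2, by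
      rw [sq, Ideal.zero_eq_bot, eq_bot_iff, Ideal.mul_le]
      intro a ha b hb
      have ha' : a.fst = 0 := ha
      have hb' : b.fst = 0 := hb
      rw [Ideal.mem_bot]
      ext <;> simp [ha', hb']⟩
  have hl2 : ∀ x, (l x).fst = x := hl
  refine ⟨Derivation.mk' (((TrivSqZeroExt.sndHom Ω Ω).toAddMonoidHom.comp
    l.toAddMonoidHom).toIntLinearMap) fun a b => ?_, fun a => ?_⟩
  · change (l (a * b)).snd = a • (l b).snd + b • (l a).snd
    rw [map_mul, TrivSqZeroExt.snd_mul, hl2, hl2, op_smul_eq_smul]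
  · change (l (ψ a)).snd = D a
    have := hl' (algebraMap _ _ (Ideal.Quotient.mk (RingHom.ker ψ) a))
    rw [t4, t3] at this
    rw [← t1, ← t2]
    exact congrArg TrivSqZeroExt.snd this

variable {C Ω : Type} [Field C] [Field Ω] [Algebra C Ω]

/-- A derivation killing `C` is a derivation over `C`. -/
def toDer (δ : Derivation ℤ Ω Ω) (h : ∀ c, δ (algebraMap C Ω c) = 0) : Der C Ω :=
  Derivation.mk'
    { toFun := δ
      map_add' := δ.map_add
      map_smul' := fun c x => by simp [Algebra.smul_def, h] }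
    δ.leibniz

@[simp] lemma toDer_apply (δ : Derivation ℤ Ω Ω) (h : ∀ c, δ (algebraMap C Ω c) = 0) (x : Ω) :
    toDer δ h x = δ x := rfl

theorem ext_der {A : Type} [CommRing A] [Algebra C A] [CharZero Ω] (ψ : A →ₐ[C] Ω) (D : A →+ Ω)
    (hD : ∀ a b, D (a * b) = ψ a * D b + ψ b * D a) (h0 : ∀ a, ψ a = 0 → D a = 0)
    (hC : ∀ c, D (algebraMap C A c) = 0) : ∃ δ : Der C Ω, ∀ a, δ (ψ a) = D a := by
  obtain ⟨δ, h⟩ := ext_int ψ.toRingHom D hD h0
  exact ⟨toDer δ fun c => by rw [← ψ.commutes, ← hC c]; exact h _, h⟩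

/-- Minimal primes over a differential ideal are differential. -/
theorem minp {A : Type} [CommRing A] [Algebra ℚ A] (D : A →+ A)
    (hD : ∀ a b, D (a * b) = a * D b + b * D a) {I p : Ideal A} (hI : ∀ a ∈ I, D a ∈ I)
    (hp : p ∈ I.minimalPrimes) : ∀ a ∈ p, D a ∈ p := by
  intro x hx
  have := hp.1.1
  by_contra hn
  have h1 : ∃ n : ℕ, ∃ s ∉ p, s * x ^ n ∈ I := by
    have h2 := (IsLocalization.AtPrime.radical_map_of_mem_minimalPrimes
      (A := Localization.AtPrime p) p I hp)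
    have h3 : algebraMap A (Localization.AtPrime p) x ∈
        (I.map (algebraMap A (Localization.AtPrime p))).radical :=
      h2 ▸ Ideal.mem_map_of_mem _ hx
    obtain ⟨n, hn⟩ := h3
    rw [← map_pow, IsLocalization.algebraMap_mem_map_algebraMap_iff p.primeCompl] at hn
    obtain ⟨s, hs, h⟩ := hn
    exact ⟨n, s, hs, h⟩
  obtain ⟨n, h1⟩ := h1
  induction n with
  | zero => obtain ⟨s, hs, h⟩ := h1; exact hs (hp.1.2 (by simpa using h))
  | succ n ih =>
    obtain ⟨s, hs, h⟩ := h1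
    have e : ∀ n : ℕ, D (x ^ (n + 1)) = (n + 1 : ℕ) * x ^ n * D x := fun n => by
      induction n with
      | zero => simp
      | succ n ih => rw [pow_succ, hD, ih]; push_cast; ring
    refine ih ⟨s * s * D x, fun h => ?_, ?_⟩
    · rcases this.mem_or_mem h with h | h
      · exact hs ((this.mem_or_mem h).elim id id)
      · exact hn h
    · have h2 := I.sub_mem (I.mul_mem_left s (hI _ h)) (I.mul_mem_left (D s) h)
      have h3 := I.mul_mem_left (algebraMap ℚ A ((n + 1 : ℕ) : ℚ)⁻¹) h2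
      have h4 : algebraMap ℚ A ((n + 1 : ℕ) : ℚ)⁻¹ * (n + 1 : ℕ) = 1 := by
        rw [← map_natCast (algebraMap ℚ A), ← map_mul, inv_mul_cancel₀ (by positivity), map_one]
      convert h3 using 1
      rw [hD, e]
      linear_combination (-(s * s * D x * x ^ n)) * h4

end Ext

section Tay

variable {C R : Type} [Field C] [CharZero C] [CommRing R] [Algebra C R]

/-- The Taylor map of a derivation. -/
noncomputable def tay (δ : Derivation C R R) : R →ₐ[C] PowerSeries R where
  toFun a := PowerSeries.mk fun n => ((n.factorial : C)⁻¹) • δ^[n] a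
  map_one' := by
    ext n
    rcases n with _ | n
    · simp
    · simp [PowerSeries.coeff_one, Function.iterate_succ_apply, Function.iterate_fixed]
  map_mul' a b := by
    ext n
    rw [PowerSeries.coeff_mul, PowerSeries.coeff_mk]
    simp only [PowerSeries.coeff_mk]
    have h : ∀ n : ℕ, ∀ a b : R, δ^[n] (a * b) =
        ∑ p ∈ Finset.HasAntidiagonal.antidiagonal n, (n.choose p.1) • (δ^[p.1] a * δ^[p.2] b) := fun n => by
      induction n with
      | zero => simp
      | succ n ih =>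
        intro a b
        rw [Finset.sum_antidiagonal_choose_succ_nsmul (fun i j => δ^[i] a * δ^[j] b) n,
          Function.iterate_succ_apply', ih, map_sum, ← Finset.sum_add_distrib]
        refine Finset.sum_congr rfl fun p hp => ?_
        rw [← Nat.choose_symm_of_eq_add (Finset.HasAntidiagonal.mem_antidiagonal.1 hp).symm]
        simp only [map_nsmul, Derivation.leibniz, smul_eq_mul, Function.iterate_succ_apply',
          smul_add, mul_comm]
    rw [h, Finset.smul_sum]
    refine Finset.sum_congr rfl fun p hp => ?_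
    rw [smul_mul_smul_comm, ← Nat.cast_smul_eq_nsmul C, smul_smul,
      ← Finset.HasAntidiagonal.mem_antidiagonal.1 hp, Nat.cast_add_choose]
    congr 1
    have h1 : ((p.1 + p.2).factorial : C) ≠ 0 := Nat.cast_ne_zero.2 (Nat.factorial_ne_zero _)
    field_simp
  map_zero' := by ext n; simp [Function.iterate_fixed]
  map_add' a b := by
    ext n
    simp
  commutes' c := by
    ext n
    rcases n with _ | n
    · simp [PowerSeries.algebraMap_apply]
    · simp [PowerSeries.algebraMap_apply, Function.iterate_succ_apply, Function.iterate_fixed]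

lemma coeff_tay (δ : Derivation C R R) (a : R) (n : ℕ) :
    PowerSeries.coeff n (tay δ a) = ((n.factorial : C)⁻¹) • δ^[n] a :=
  PowerSeries.coeff_mk n fun n => ((n.factorial : C)⁻¹) • δ^[n] a

lemma deriv_tay (δ : Derivation C R R) (a : R) :
    PowerSeries.derivative R (tay δ a) = tay δ (δ a) := by
  ext n
  rw [PowerSeries.coeff_derivative, coeff_tay, coeff_tay, Function.iterate_succ_apply,
    mul_comm, ← Nat.cast_succ, ← nsmul_eq_mul, ← Nat.cast_smul_eq_nsmul C, smul_smul,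
    Nat.factorial_succ]
  congr 1
  have h1 : (n.factorial : C) ≠ 0 := Nat.cast_ne_zero.2 (Nat.factorial_ne_zero _)
  have h2 : ((n + 1 : ℕ) : C) ≠ 0 := Nat.cast_ne_zero.2 n.succ_ne_zero
  rw [Nat.cast_mul]
  field_simp

lemma tay_const (δ : Derivation C R R) {a : R} (h : δ a = 0) : tay δ a = PowerSeries.C a := by
  ext n
  rcases n with _ | n
  · simp [coeff_tay]
  · simp [coeff_tay, Function.iterate_succ_apply, h, Function.iterate_fixed]

end Tay

section Cl

variable {C Ω : Type} [Field C] [Field Ω] [Algebra C Ω]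

lemma cl_le {S T : Set Ω} (h : T ⊆ cl C S) : cl C T ≤ cl C S := by
  intro x hx
  rw [← SetLike.mem_coe, coe_cl] at *
  exact Matroid.closure_subset_closure_of_subset_closure h hx

lemma cl_mono {S T : Set Ω} (h : T ⊆ S) : cl C T ≤ cl C S := cl_le (h.trans (subset_cl S))

lemma rk_mono {S T : Set Ω} (h : T ⊆ S) : rk C T ≤ rk C S := rk_le (h.trans (subset_cl S))

lemma sup_le_cl (E F : IntermediateField C Ω) : E ⊔ F ≤ cl C ((E : Set Ω) ∪ F) :=
  sup_le (fun _ h => subset_cl _ (Or.inl h)) fun _ h => subset_cl _ (Or.inr h)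

lemma mem_cl_of_rk {S T : Set Ω} (hS : rk C S ≠ ⊤) (hT : S ⊆ cl C T) (h : rk C T ≤ rk C S) :
    T ⊆ cl C S := fun x hx => by
  by_contra hn
  have h1 : rk C (insert x S) ≤ rk C S := (rk_le (insert_subset (subset_cl _ hx) hT)).trans h
  rw [rk_insert hn] at h1
  exact absurd h1 (not_le.2 ((ENat.lt_add_one_iff hS).2 le_rfl))

lemma exists_finite_cl {S : Set Ω} {x : Ω} (h : x ∈ cl C S) :
    ∃ T ⊆ S, T.Finite ∧ x ∈ cl C T := by
  rw [← SetLike.mem_coe, coe_cl] at h
  obtain ⟨T, h1, h2, -, h3⟩ := Matroid.exists_mem_finite_closure_of_mem_closure h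
  exact ⟨T, h1, h2, by rwa [← SetLike.mem_coe, coe_cl]⟩

lemma rk_finite {S : Set Ω} (h : S.Finite) : rk C S ≠ ⊤ :=
  ne_top_of_le_ne_top h.encard_lt_top.ne (Matroid.eRk_le_encard _ _)

lemma rk_empty : rk C (∅ : Set Ω) = 0 := Matroid.eRk_empty _

lemma mem_bot_of_cl [IsAlgClosed C] {x : Ω} (h : x ∈ cl C (∅ : Set Ω)) :
    x ∈ (⊥ : IntermediateField C Ω) := by
  rw [mem_cl, Algebra.adjoin_empty] at h
  have h2 : IsAlgebraic C x :=
    h.of_ringHom_of_comp_eq (f := (Algebra.botEquiv C Ω).symm.toRingEquiv.toRingHom) (g := RingHom.id Ω)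
      (Algebra.botEquiv C Ω).symm.surjective Function.injective_id rfl
  rw [IntermediateField.mem_bot]
  exact minpoly.mem_range_of_degree_eq_one C x
    (IsAlgClosed.degree_eq_one_of_irreducible C (minpoly.irreducible h2.isIntegral))

lemma mem_cl_iff {E : IntermediateField C Ω} {x : Ω} : x ∈ cl C (E : Set Ω) ↔ IsAlgebraic E x := by
  rw [mem_cl, show Algebra.adjoin C (E : Set Ω) = E.toSubalgebra from Algebra.adjoin_eq _]
  rfl

lemma cl_adjoin (S : Set Ω) : cl C (IntermediateField.adjoin C S : Set Ω) = cl C S :=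
  le_antisymm (cl_le (IntermediateField.adjoin_le_iff.2 (subset_cl S)))
    (cl_mono (IntermediateField.subset_adjoin _ _))

lemma map_mem_cl {Ω' : Type} [Field Ω'] [Algebra C Ω'] (ι : Ω →ₐ[C] Ω') {S : Set Ω} {x : Ω}
    (h : x ∈ cl C S) : ι x ∈ cl C (ι '' S) := by
  obtain ⟨p, p0, hp⟩ := mem_cl.1 h
  refine mem_cl_of_root (p := (p.map (algebraMap _ Ω)).map ι.toRingHom) ?_ (fun i => ?_) ?_
  · exact (Polynomial.map_ne_zero_iff ι.toRingHom.injective).2
      ((Polynomial.map_ne_zero_iff Subtype.val_injective).2 p0)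
  · rw [coeff_map, coeff_map]
    have : ι (p.coeff i) ∈ Algebra.adjoin C (ι '' S) := by
      rw [← AlgHom.map_adjoin]; exact ⟨_, (p.coeff i).2, rfl⟩
    exact (Algebra.adjoin_le (S := (cl C (ι '' S)).toSubalgebra) (subset_cl _)) this
  · rw [eval_map]
    refine (hom_eval₂ _ (RingHom.id Ω) ι.toRingHom x).symm.trans ?_
    rw [eval₂_id, eval_map, ← aeval_def, hp, map_zero]

lemma rk_map {Ω' : Type} [Field Ω'] [Algebra C Ω'] (ι : Ω →ₐ[C] Ω') (S : Set Ω) :
    rk C (ι '' S) = rk C S := by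
  obtain ⟨I, hI⟩ := (AlgebraicIndependent.matroid C Ω).exists_isBasis S (by simp)
  have h1 : (AlgebraicIndependent.matroid C Ω').Indep (ι '' I) := by
    have h : AlgebraicIndependent C (fun a : I => (a : Ω)) := hI.indep
    have := (h.map' (f := ι) ι.toRingHom.injective).to_subtype_range
    rwa [show range (ι ∘ fun a : I => (a : Ω)) = ι '' I by rw [range_comp]; simp] at this
  refine le_antisymm ((rk_le (S := ι '' I) ?_).trans ?_) ?_
  · rintro _ ⟨x, hx, rfl⟩
    exact map_mem_cl ι (by rw [← SetLike.mem_coe, coe_cl]; exact hI.subset_closure hx)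
  · exact (Matroid.eRk_le_encard _ _).trans ((encard_image_le _ _).trans hI.encard_eq_eRk.le)
  · refine hI.encard_eq_eRk.symm.le.trans ?_
    rw [← ι.toRingHom.injective.encard_image]
    exact h1.encard_le_eRk_of_subset (image_mono hI.subset)

/-- The constants of a derivation. -/
def Kr (δ : Der C Ω) : IntermediateField C Ω :=
  Subalgebra.toIntermediateField
    { carrier := {x | δ x = 0}
      mul_mem' := fun {a b} ha hb => by simp_all
      add_mem' := fun {a b} ha hb => by simp_all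
      algebraMap_mem' := fun c => δ.map_algebraMap c }
    fun x (hx : δ x = 0) => show δ x⁻¹ = 0 by simp [δ.leibniz_inv, hx]

@[simp] lemma mem_Kr {δ : Der C Ω} {x : Ω} : x ∈ Kr δ ↔ δ x = 0 := Iff.rfl

/-- Elements of `T` whose derivative lies in `T`. -/
def St (δ : Der C Ω) (T : IntermediateField C Ω) : IntermediateField C Ω :=
  Subalgebra.toIntermediateField
    { carrier := {x | x ∈ T ∧ δ x ∈ T}
      mul_mem' := fun {a b} ha hb => ⟨mul_mem ha.1 hb.1, by
        rw [δ.leibniz]; exact add_mem (mul_mem ha.1 hb.2) (mul_mem hb.1 ha.2)⟩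
      add_mem' := fun {a b} ha hb => ⟨add_mem ha.1 hb.1, by rw [map_add]; exact add_mem ha.2 hb.2⟩
      algebraMap_mem' := fun c => ⟨T.algebraMap_mem c, by rw [δ.map_algebraMap]; exact T.zero_mem⟩ }
    fun x (hx : x ∈ T ∧ δ x ∈ T) => ⟨inv_mem hx.1, by
      rw [δ.leibniz_inv]; exact mul_mem (neg_mem (pow_mem (inv_mem hx.1) _)) hx.2⟩

lemma mem_St {δ : Der C Ω} {T : IntermediateField C Ω} {x : Ω} : x ∈ St δ T ↔ x ∈ T ∧ δ x ∈ T :=
  Iff.rfl

lemma stab_sup {δ : Der C Ω} {E F : IntermediateField C Ω} (hE : ∀ x ∈ E, δ x ∈ E ⊔ F)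
    (hF : ∀ x ∈ F, δ x ∈ E ⊔ F) : ∀ x ∈ E ⊔ F, δ x ∈ E ⊔ F := fun _ hx =>
  ((sup_le (fun y hy => ⟨(le_sup_left : E ≤ E ⊔ F) hy, hE y hy⟩)
    (fun y hy => ⟨(le_sup_right : F ≤ E ⊔ F) hy, hF y hy⟩) : E ⊔ F ≤ St δ (E ⊔ F)) hx).2

lemma der_eval (δ : Der C Ω) (p : Polynomial Ω) (x : Ω) :
    δ (p.eval x) = p.sum (fun i a => δ a * x ^ i) + p.derivative.eval x * δ x := by
  induction p using Polynomial.induction_on' with
  | add p q hp hq =>
    rw [eval_add, map_add, hp, hq, sum_add_index _ _ _ (by simp) (by simp [add_mul])]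
    simp only [derivative_add, eval_add]; ring
  | monomial n a =>
    rw [sum_monomial_index _ _ (by simp)]
    simp [δ.leibniz_pow, derivative_monomial]; ring

lemma exists_simple [CharZero Ω] {E : IntermediateField C Ω} {x : Ω} (h : x ∈ cl C (E : Set Ω)) :
    ∃ p : Polynomial Ω, p.Monic ∧ (∀ i, p.coeff i ∈ E) ∧ p.eval x = 0 ∧ p.derivative.eval x ≠ 0 := by
  have h1 := (mem_cl_iff.1 h).isIntegral
  have : CharZero E := algebraRat.charZero _
  refine ⟨(minpoly E x).map (algebraMap E Ω), (minpoly.monic h1).map _,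
    fun i => by rw [coeff_map]; exact SetLike.coe_mem _, ?_, ?_⟩
  · rw [eval_map, ← aeval_def, minpoly.aeval]
  · rw [derivative_map, eval_map, ← aeval_def]
    exact (minpoly.irreducible h1).separable.aeval_derivative_ne_zero (minpoly.aeval _ _)

lemma kill_cl [CharZero Ω] {δ : Der C Ω} {S : Set Ω} (h : ∀ s ∈ S, δ s = 0) {x : Ω}
    (hx : x ∈ cl C S) : δ x = 0 := by
  obtain ⟨p, -, p1, p2, p3⟩ := exists_simple (E := Kr δ) (cl_mono h hx)
  have := der_eval δ p x
  rw [p2, map_zero, Polynomial.sum, Finset.sum_eq_zero fun i _ => by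
    rw [mem_Kr.1 (p1 i), zero_mul], zero_add] at this
  exact (mul_eq_zero.1 this.symm).resolve_left p3

lemma stab_cl [CharZero Ω] {δ : Der C Ω} {S : Set Ω} (h : ∀ s ∈ S, δ s ∈ cl C S) {x : Ω}
    (hx : x ∈ cl C S) : δ x ∈ cl C S := by
  obtain ⟨p, -, p1, p2, p3⟩ := exists_simple (E := St δ (cl C S))
    (cl_mono (fun s hs => mem_St.2 ⟨subset_cl S hs, h s hs⟩) hx)
  have := der_eval δ p x
  rw [p2, map_zero, eq_comm, add_comm, ← eq_neg_iff_add_eq_zero, mul_comm,
    ← eq_div_iff p3] at this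
  rw [this]
  refine div_mem (neg_mem (sum_mem fun i _ => mul_mem (p1 i).2 (pow_mem hx _))) ?_
  rw [eval_eq_sum_range]
  exact sum_mem fun i _ => mul_mem (by
    rw [coeff_derivative]; exact mul_mem (p1 _).1 (add_mem (natCast_mem _ _) (one_mem _)))
    (pow_mem hx _)

/-- Differential simplicity. -/
lemma simple {δ : Der C Ω} {F : IntermediateField C Ω} (hF : ∀ f ∈ F, δ f ∈ F) (q : Set Ω)
    (h1 : ∀ f ∈ F, ∀ a ∈ q, f * a ∈ q) (h2 : ∀ a ∈ q, δ a ∈ q) {ι : Type} (e : ι → Ω)
    (he : ∀ i, δ (e i) = 0) (s : Finset ι) : ∀ f : ι → Ω, (∀ i, f i ∈ F) → (∃ i ∈ s, f i ≠ 0) →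
      ∑ i ∈ s, f i * e i ∈ q → ∃ c : ι → Ω, (∀ i, c i ∈ F ∧ δ (c i) = 0) ∧ (∃ i ∈ s, c i ≠ 0) ∧
        ∑ i ∈ s, c i * e i ∈ q := by
  classical
  induction s using Finset.strongInduction with
  | H s ih =>
  rintro f hf ⟨j, hj, h0⟩ hq
  have hg : ∀ i, (f j)⁻¹ * f i ∈ F := fun i => mul_mem (inv_mem (hf j)) (hf i)
  have hq' : ∑ i ∈ s, (f j)⁻¹ * f i * e i ∈ q := by
    simpa only [Finset.mul_sum, mul_assoc] using h1 _ (inv_mem (hf j)) _ hq
  by_cases h : ∃ i ∈ s.erase j, δ ((f j)⁻¹ * f i) ≠ 0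
  · obtain ⟨c, c1, ⟨i, hi, c2⟩, c3⟩ := ih _ (Finset.erase_ssubset hj) _ (fun i => hF _ (hg i)) h (by
      have := h2 _ hq'
      rw [map_sum, ← Finset.add_sum_erase _ _ hj, inv_mul_cancel₀ h0, one_mul, he, zero_add] at this
      simpa only [δ.leibniz _ (e _), he, smul_zero, zero_add, smul_eq_mul, mul_comm (e _),
        mul_zero] using this)
    refine ⟨Function.update c j 0, fun i => ?_, ⟨i, Finset.mem_of_mem_erase hi, ?_⟩, ?_⟩
    · rcases eq_or_ne i j with rfl | h
      · simp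
      · simpa [h] using c1 i
    · rwa [Function.update_of_ne (Finset.ne_of_mem_erase hi)]
    · rw [← Finset.add_sum_erase _ _ hj, Function.update_self, zero_mul, zero_add]
      convert c3 using 1
      exact Finset.sum_congr rfl fun i hi => by
        rw [Function.update_of_ne (Finset.ne_of_mem_erase hi)]
  · push Not at h
    refine ⟨fun i => if i ∈ s then (f j)⁻¹ * f i else 0, fun i => ?_, ⟨j, hj, by simp [hj, h0]⟩, ?_⟩
    · dsimp only
      split_ifs with hi
      · refine ⟨hg i, ?_⟩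
        rcases eq_or_ne i j with rfl | h'
        · simp [h0]
        · exact h i (Finset.mem_erase.2 ⟨h', hi⟩)
      · simp
    · convert hq' using 1
      exact Finset.sum_congr rfl fun i hi => by simp [hi]

/-- Linear disjointness of constants. -/
lemma ld {δ : Der C Ω} {F : IntermediateField C Ω} (hF : ∀ f ∈ F, δ f ∈ F)
    (hc : ∀ f ∈ F, δ f = 0 → f ∈ (⊥ : IntermediateField C Ω)) {E : IntermediateField C Ω}
    (hE : ∀ e ∈ E, δ e = 0) : E.toSubalgebra.LinearDisjoint F.toSubalgebra := by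
  let b := Module.Basis.ofVectorSpace C E.toSubalgebra
  refine Subalgebra.LinearDisjoint.of_basis_left _ _ b ?_
  rw [linearIndependent_iff']
  intro s g hg i hi
  by_contra hn
  obtain ⟨c, c1, ⟨j, hj, c2⟩, c3⟩ := simple hF {0} (by simp) (by simp) (fun i => (b i : Ω))
    (fun i => hE _ (b i).2) s (fun i => g i) (fun i => (g i).2)
    ⟨i, hi, fun h => hn (Subtype.ext h)⟩ hg
  choose a ha using fun i => IntermediateField.mem_bot.1 (hc _ (c1 i).1 (c1 i).2)
  refine c2 ?_
  rw [← ha, linearIndependent_iff'.1 b.linearIndependent s a (Subtype.ext ?_) j hj, map_zero]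
  refine Eq.trans ?_ (mem_singleton_iff.1 c3)
  simp [← ha, Algebra.smul_def]

lemma indep_Kr {δ : Der C Ω} {F : IntermediateField C Ω} (hF : ∀ f ∈ F, δ f ∈ F)
    (hc : ∀ f ∈ F, δ f = 0 → f ∈ (⊥ : IntermediateField C Ω)) {E : IntermediateField C Ω}
    (hE : ∀ e ∈ E, δ e = 0) {ι : Type} {y : ι → Ω} (hy : ∀ i, y i ∈ F)
    (h : AlgebraicIndependent C y) : AlgebraicIndependent E y := by
  have h1 := (ld hF hc hE).linearIndependent_right_of_flat
    (b := fun m : ι →₀ ℕ => (⟨m.prod fun i k => y i ^ k,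
      prod_mem fun i _ => pow_mem (hy i) _⟩ : F.toSubalgebra)) ?_
  · rw [algebraicIndependent_iff]
    intro p hp
    ext m
    by_cases hm : m ∈ p.support
    · rw [MvPolynomial.aeval_def, MvPolynomial.eval₂_eq] at hp
      exact congrArg Subtype.val (linearIndependent_iff'.1 h1 p.support (fun m => p.coeff m) hp m hm)
    · simp [MvPolynomial.notMem_support_iff.1 hm]
  · refine LinearIndependent.of_comp F.toSubalgebra.val.toLinearMap ?_
    have := (MvPolynomial.basisMonomials ι C).linearIndependent.map'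
      (MvPolynomial.aeval y).toLinearMap (LinearMap.ker_eq_bot.2 h)
    have e : (MvPolynomial.aeval y).toLinearMap ∘ (MvPolynomial.basisMonomials ι C) =
        fun m : ι →₀ ℕ => m.prod fun i k => y i ^ k := by
      ext m
      simp [MvPolynomial.aeval_monomial]
    rw [e] at this
    exact this

/-- Additivity of the rank. -/
lemma rk_add {δ : Der C Ω} {F : IntermediateField C Ω} (hF : ∀ f ∈ F, δ f ∈ F)
    (hc : ∀ f ∈ F, δ f = 0 → f ∈ (⊥ : IntermediateField C Ω)) {S T : Set Ω}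
    (hS : ∀ e ∈ S, δ e = 0) (hT : T ⊆ F) : rk C (S ∪ T) = rk C S + rk C T := by
  refine le_antisymm (rk_union _ _) ?_
  obtain ⟨I, hI⟩ := (AlgebraicIndependent.matroid C Ω).exists_isBasis S (by simp)
  obtain ⟨J, hJ⟩ := (AlgebraicIndependent.matroid C Ω).exists_isBasis T (by simp)
  have h1 : AlgebraicIndependent C (fun a : I => (a : Ω)) := hI.indep
  have h2 : AlgebraicIndependent (Kr δ) (fun a : J => (a : Ω)) :=
    indep_Kr hF hc (fun _ h => h) (fun a => hT (hJ.subset a.2)) hJ.indep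
  have h4 := h1.sumElim_of_tower (by
    rintro _ ⟨a, rfl⟩; exact ⟨⟨a, hS _ (hI.subset a.2)⟩, rfl⟩) h2
  have h5 := h4.to_subtype_range
  have e : range (Sum.elim (fun a : J => (a : Ω)) (fun a : I => (a : Ω))) = I ∪ J := by
    rw [Sum.elim_range, union_comm, Subtype.range_coe, Subtype.range_coe]
  rw [e] at h5
  have h6 : Disjoint I J := disjoint_left.2 fun a a1 a2 =>
    Sum.inl_ne_inr (h4.injective (a₁ := .inl ⟨a, a2⟩) (a₂ := .inr ⟨a, a1⟩) rfl)
  rw [rk, rk, rk, ← hI.encard_eq_eRk, ← hJ.encard_eq_eRk, ← encard_union_eq h6]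
  exact Matroid.Indep.encard_le_eRk_of_subset (M := AlgebraicIndependent.matroid C Ω) h5
    (union_subset_union hI.subset hJ.subset)

end Cl

section Aut

variable {M Ω : Type} [Field M] [Field Ω] [Algebra M Ω] [IsAlgClosed Ω] [CharZero Ω]

omit [CharZero Ω] in
lemma ext_aut (N : IntermediateField M Ω) (σ : N ≃ₐ[M] N) :
    ∃ τ : Ω ≃ₐ[M] Ω, ∀ x : N, τ x = σ x := by
  obtain ⟨s, hs⟩ := exists_isTranscendenceBasis N Ω
  have := IsAlgClosed.isAlgClosure_of_transcendence_basis _ hs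
  let e := (hs.1.aevalEquiv.symm.toRingEquiv.trans (MvPolynomial.mapEquiv s σ.toRingEquiv)).trans
    hs.1.aevalEquiv.toRingEquiv
  have h : ∀ x : N, IsAlgClosure.equivOfEquiv Ω Ω e x = σ x := fun x => by
    have := IsAlgClosure.equivOfEquiv_algebraMap Ω Ω e (algebraMap N _ x)
    refine this.trans ?_
    simp only [e, RingEquiv.trans_apply, AlgEquiv.coe_ringEquiv, AlgEquiv.commutes]
    simp
  exact ⟨{ IsAlgClosure.equivOfEquiv Ω Ω e with
    commutes' := fun c => (h (algebraMap M N c)).trans (by rw [σ.commutes]; rfl) }, h⟩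

omit [CharZero Ω] in
lemma aut_root {x y : Ω} (hx : IsAlgebraic M x) (hy : aeval y (minpoly M x) = 0) :
    ∃ τ : Ω ≃ₐ[M] Ω, τ x = y := by
  let N := algebraicClosure M Ω
  have hy' : IsAlgebraic M y := ⟨_, minpoly.ne_zero hx.isIntegral, hy⟩
  let x' : N := ⟨x, mem_algebraicClosure_iff.2 hx⟩
  let y' : N := ⟨y, mem_algebraicClosure_iff.2 hy'⟩
  obtain ⟨σ, hσ⟩ := minpoly.exists_algEquiv_of_root' (K := M) (L := N) (x := y') (y := x')
    (Algebra.IsAlgebraic.isAlgebraic _) (by
      rw [IntermediateField.minpoly_eq]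
      exact Subtype.ext ((IntermediateField.aeval_coe _ y' _).symm.trans hy))
  obtain ⟨τ, hτ⟩ := ext_aut N σ
  exact ⟨τ, (hτ x').trans (by rw [hσ])⟩

lemma aut_alg {x : Ω} (hx : IsAlgebraic M x) (h : x ∉ range (algebraMap M Ω)) :
    ∃ τ : Ω ≃ₐ[M] Ω, τ x ≠ x := by
  have : CharZero M := RingHom.charZero (algebraMap M Ω)
  have h1 := (minpoly.two_le_natDegree_iff hx.isIntegral).2 h
  have h2 := card_rootSet_eq_natDegree (K := Ω) (minpoly.irreducible hx.isIntegral).separable
    (IsAlgClosed.splits _)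
  obtain ⟨y, hy⟩ := Fintype.exists_ne_of_one_lt_card (α := (minpoly M x).rootSet Ω) (by omega)
    ⟨x, mem_rootSet.2 ⟨minpoly.ne_zero hx.isIntegral, minpoly.aeval _ _⟩⟩
  obtain ⟨τ, hτ⟩ := aut_root hx (mem_rootSet.1 y.2).2
  exact ⟨τ, fun e => hy (Subtype.ext (hτ.symm.trans e))⟩

omit [IsAlgClosed Ω] [CharZero Ω] in
/-- A transcendental element is not a square. -/
lemma nsq {t z : Ω} {e : M} (ht : Transcendental M t) (he : e ≠ 0)
    (hz : z ^ 2 = algebraMap M Ω e * t) : z ∉ IntermediateField.adjoin M {t} := fun h => by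
  obtain ⟨p, q, hpq⟩ := (IntermediateField.mem_adjoin_simple_iff M z).1 h
  have t0 : t ≠ 0 := fun h => ht (h ▸ isAlgebraic_zero)
  have z0 : z ≠ 0 := fun h => by simp [h, he, t0] at hz
  have q0 : aeval t q ≠ 0 := fun h => z0 (by simp [hpq, h])
  have p0 : p ≠ 0 := fun h => z0 (by simp [hpq, h])
  have h1 : p ^ 2 = Polynomial.C e * X * q ^ 2 := transcendental_iff_injective.1 ht (by
    simp only [map_pow, map_mul, aeval_C, aeval_X, ← hz, hpq]; field_simp)
  have q1 : q ≠ 0 := fun h => q0 (by simp [h])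
  have h2 := congrArg natDegree h1
  rw [natDegree_mul (by simp [he]) (by simp [q1]), natDegree_C_mul_X _ he, natDegree_pow,
    natDegree_pow] at h2
  omega

end Aut

section Aut2

variable {C Ω : Type} [Field C] [Field Ω] [Algebra C Ω] [IsAlgClosed Ω] [CharZero Ω]

/-- An element outside a subfield is moved by an automorphism over that subfield. -/
lemma aut_move {M : IntermediateField C Ω} {x : Ω} (h : x ∉ M) :
    ∃ τ : Ω ≃ₐ[C] Ω, (∀ a ∈ M, τ a = a) ∧ τ x ≠ x := by
  by_cases hx : IsAlgebraic M x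
  · obtain ⟨τ, hτ⟩ := aut_alg hx (by rintro ⟨a, rfl⟩; exact h a.2)
    exact ⟨τ.restrictScalars C, fun a ha => τ.commutes ⟨a, ha⟩, hτ⟩
  · let N := IntermediateField.adjoin M {x ^ 2}
    have h1 : x ∉ N := nsq (e := 1) (Transcendental.pow hx two_pos) one_ne_zero (by simp)
    have h2 : IsAlgebraic N x := IsAlgebraic.of_pow two_pos
      (isAlgebraic_algebraMap (⟨_, IntermediateField.mem_adjoin_simple_self _ _⟩ : N))
    obtain ⟨τ, hτ⟩ := aut_alg h2 (by rintro ⟨a, ha⟩; exact h1 (ha ▸ a.2))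
    exact ⟨(τ.restrictScalars M).restrictScalars C,
      fun a ha => (τ.restrictScalars M).commutes ⟨a, ha⟩, hτ⟩

end Aut2

end Pool.Agent.MP_249f74_an.H17
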