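import Pool.Agent.MP_249f74_an.H17.CmWarp
import Pool.Agent.MP_249f74_an.H17.CmGen

/-!
Constructors for confocal and warped pairs.
-/

open MvPolynomial Matrix

namespace Pool.Agent.MP_249f74_an.H17.Cm

variable {C Ω ι : Type} [Field C] [Field Ω] [Algebra C Ω] [Fintype ι] [DecidableEq ι]
  {F G : MvPolynomial ι C}

lemma dot_vec_pderiv (K : Option ι → C) (F : MvPolynomial ι C) :
    ((fun o => MvPolynomial.C (K o)) ⬝ᵥ vec fun k => pderiv k F) = dir (sp K) F := by
  rw [dotProduct_comm, vec_dot, dir_apply]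
  exact Finset.sum_congr rfl fun _ _ => mul_comm _ _

/-- A warped pair from a space `D` of covectors. -/
theorem Warp.of_sub (D : Submodule C (Option ι → C))
    (h2 : ∃ K ∈ D, ∃ K' ∈ D, ∃ s t, K s * K' t ≠ K t * K' s)
    (ha : ∀ K ∈ D, ∀ K' ∈ D, aff K * dir (sp K') F = aff K' * dir (sp K) F)
    (hb : ∀ Y : Option ι → C, (∀ K ∈ D, K ⬝ᵥ Y = 0) →
      G ∣ tg G ⬝ᵥ fun o => MvPolynomial.C (Y o)) : Warp F G := by
  obtain ⟨π, h1, h3⟩ : ∃ π : (Option ι → C) →ₗ[C] Option ι → C, (∀ v, π v ∈ D) ∧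
      ∀ v ∈ D, π v = v := by
    obtain ⟨D', hD⟩ := D.exists_isCompl
    exact ⟨D.subtype ∘ₗ D.projectionOnto D' hD, fun v => Subtype.property _, fun v hv =>
      congrArg Subtype.val (Submodule.projectionOnto_apply_left hD ⟨v, hv⟩)⟩
  let Q : Matrix (Option ι) (Option ι) C := of fun i => π (Pi.single i 1)
  have hQ : ∀ K ∈ D, K ᵥ* Q = K := fun K hK => by
    have e : K = ∑ i, K i • Pi.single i 1 := by ext j; simp [Pi.single_apply]
    rw [← h3 K hK]
    nth_rewrite 2 [e]
    rw [h3 K hK, map_sum]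
    ext j; simp [Q, vecMul, dotProduct]
  refine ⟨Q, ?_, fun i j => ?_, fun j => hb (fun i => (1 - Q) i j) fun K hK => ?_⟩
  · by_contra hn
    push Not at hn
    obtain ⟨K, hK, K', hK', s, t, h⟩ := h2
    rw [← hQ K hK, ← hQ K' hK'] at h
    refine h ?_
    simp only [vecMul, dotProduct, Finset.sum_mul_sum]
    exact Finset.sum_congr rfl fun i _ => Finset.sum_congr rfl fun j _ => by
      linear_combination K i * K' j * hn i j s t
  · have := ha _ (h1 (Pi.single j 1)) _ (h1 (Pi.single i 1))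
    rw [← dot_vec_pderiv, ← dot_vec_pderiv, aff, aff, dotProduct_comm (hat X),
      dotProduct_comm (hat X), mul_comm, mul_comm (_ ⬝ᵥ hat X)] at this
    exact this
  · have := congrFun (vecMul_sub 1 Q K) j
    rw [hQ K hK, vecMul_one, sub_self] at this
    exact this

lemma aff_add (h k : Option ι → C) : aff (h + k) = aff h + aff k := by
  simp [aff, dotProduct, mul_add, Finset.sum_add_distrib]

lemma aff_smul (c : C) (h : Option ι → C) : aff (c • h) = MvPolynomial.C c * aff h := by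
  simp only [aff, dotProduct, Finset.mul_sum, Pi.smul_apply, smul_eq_mul, map_mul]
  exact Finset.sum_congr rfl fun _ _ => by ring

lemma aff_eq_zero {h : Option ι → C} (e : aff h = 0) : h = 0 := funext fun o => by
  cases o with
  | none => simpa [aff_eq] using congrArg (aeval (0 : ι → C)) e
  | some i => simpa [pderiv_aff] using congrArg (pderiv i) e

lemma td_aff_dir (h : Option ι → C) (v : ι → C) (F : MvPolynomial ι C) :
    (aff h * dir v F).totalDegree ≤ F.totalDegree := by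
  rw [dir_apply, Finset.mul_sum]
  refine totalDegree_finsetSum_le fun i _ => ?_
  by_cases e : pderiv i F = 0
  · simp [e]
  · have h1 := H88.totalDegree_pderiv_lt e
    have h2 := totalDegree_mul (aff h) (MvPolynomial.C (v i) * pderiv i F)
    have h3 := totalDegree_mul (MvPolynomial.C (v i)) (pderiv i F)
    have h4 := td_aff_le h
    rw [totalDegree_C] at h3
    omega

/-- Rotations from a space of dimension at least three that are tangent to `F = 0` kill `F`. -/
lemma rot_eq {D : Submodule C (Option ι → C)} (h3 : 3 ≤ Module.finrank C D)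
    (ha : ∀ K ∈ D, ∀ K' ∈ D, F ∣ aff K * dir (sp K') F - aff K' * dir (sp K) F) :
    ∀ K ∈ D, ∀ K' ∈ D, aff K * dir (sp K') F = aff K' * dir (sp K) F := by
  rcases eq_or_ne F 0 with rfl | hF
  · simp
  have hc : ∀ K ∈ D, ∀ K' ∈ D, ∃ c, aff K * dir (sp K') F - aff K' * dir (sp K) F =
      MvPolynomial.C c * F := fun K hK K' hK' => eq_C_mul (ha K hK K' hK')
    ((totalDegree_sub _ _).trans (max_le (td_aff_dir _ _ _) (td_aff_dir _ _ _)))
  intro K hK K' hK'
  obtain ⟨L, hL, hn⟩ : ∃ L ∈ D, L ∉ Submodule.span C (Set.range ![K, K']) := by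
    by_contra hn
    push Not at hn
    have := (Submodule.finrank_mono (show D ≤ _ from hn)).trans (finrank_range_le_card ![K, K'])
    simp only [Fintype.card_fin] at this
    omega
  obtain ⟨c, e⟩ := hc K hK K' hK'
  obtain ⟨c1, e1⟩ := hc K' hK' L hL
  obtain ⟨c2, e2⟩ := hc L hL K hK
  have e3 : aff (c • L + c1 • K + c2 • K') * F = 0 := by
    rw [aff_add, aff_add, aff_smul, aff_smul, aff_smul]
    linear_combination -(aff L * e + aff K * e1 + aff K' * e2)
  have e4 := aff_eq_zero ((mul_eq_zero.1 e3).resolve_right hF)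
  have : c = 0 := by
    by_contra hc0
    refine hn ?_
    have : L = (-(c1 / c)) • K + (-(c2 / c)) • K' := by
      ext o
      have := congrFun e4 o
      simp only [Pi.add_apply, Pi.smul_apply, smul_eq_mul, Pi.zero_apply] at this ⊢
      field_simp
      linear_combination this
    rw [this]
    exact add_mem (Submodule.smul_mem _ _ (Submodule.subset_span ⟨0, rfl⟩))
      (Submodule.smul_mem _ _ (Submodule.subset_span ⟨1, rfl⟩))
  rwa [this, map_zero, zero_mul, sub_eq_zero] at e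

/-- A warped pair from a space of dimension at least three. -/
theorem Warp.of_dvd (D : Submodule C (Option ι → C)) (h3 : 3 ≤ Module.finrank C D)
    (ha : ∀ K ∈ D, ∀ K' ∈ D, F ∣ aff K * dir (sp K') F - aff K' * dir (sp K) F)
    (hb : ∀ Y : Option ι → C, (∀ K ∈ D, K ⬝ᵥ Y = 0) →
      G ∣ tg G ⬝ᵥ fun o => MvPolynomial.C (Y o)) : Warp F G := by
  refine Warp.of_sub D ?_ (rot_eq h3 ha) hb
  by_contra hn
  push Not at hn
  obtain ⟨K, hK, h0⟩ : ∃ K ∈ D, K ≠ 0 := by
    by_contra h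
    push Not at h
    rw [(Submodule.eq_bot_iff D).2 h] at h3
    simp at h3
  obtain ⟨s, hs⟩ := Function.ne_iff.1 h0
  have : D ≤ Submodule.span C (Set.range ![K]) := fun L hL => by
    have : L = (L s / K s) • K := funext fun t => by
      rw [Pi.smul_apply, smul_eq_mul, div_mul_eq_mul_div, eq_div_iff hs]
      linear_combination hn K hK L hL s t
    rw [this]
    exact Submodule.smul_mem _ _ (Submodule.subset_span ⟨0, rfl⟩)
  have := (Submodule.finrank_mono this).trans (finrank_range_le_card ![K])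
  simp only [Fintype.card_fin] at this
  omega

/-- The same with hypotheses at generic points. -/
theorem Warp.of_pts (D : Submodule C (Option ι → C)) (h3 : 3 ≤ Module.finrank C D)
    {q y : ι → Ω} (kq : ∀ W : MvPolynomial ι C, aeval q W = 0 → F ∣ W)
    (ky : ∀ W : MvPolynomial ι C, aeval y W = 0 → G ∣ W)
    (ha : ∀ K ∈ D, ∀ K' ∈ D, (hat q ⬝ᵥ fun o => algebraMap C Ω (K o)) *
        (grad F q ⬝ᵥ fun i => algebraMap C Ω (K' (some i))) =
      (hat q ⬝ᵥ fun o => algebraMap C Ω (K' o)) *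
        (grad F q ⬝ᵥ fun i => algebraMap C Ω (K (some i))))
    (hb : ∀ Y : Option ι → C, (∀ K ∈ D, K ⬝ᵥ Y = 0) → (grad G y ⬝ᵥ
      fun i => algebraMap C Ω (Y (some i)) - algebraMap C Ω (Y none) * y i) = 0) : Warp F G := by
  refine Warp.of_dvd D h3 (fun K hK K' hK' => kq _ ?_) fun Y hY => ky _ ?_
  · rw [map_sub, map_mul, map_mul, aeval_aff, aeval_aff, aeval_dir, aeval_dir, sub_eq_zero]
    exact ha K hK K' hK'
  · rw [← hb Y hY]
    simp only [dotProduct, map_add, map_sum, map_mul, aeval_tg, aeval_C, Fintype.sum_option,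
      Option.elim,
      mul_sub, Finset.sum_sub_distrib, neg_mul, Finset.sum_mul]
    rw [neg_add_eq_sub]
    congr 1
    exact Finset.sum_congr rfl fun _ _ => by ring

lemma td_quad (A : Matrix (Option ι) (Option ι) C) : (quad A).totalDegree ≤ 2 := by
  have h : ∀ o, (hat (X : ι → MvPolynomial ι C) o).totalDegree ≤ 1 := fun o => by
    cases o <;> simp [hat]
  simp only [quad, dotProduct, mulVec, map_apply]
  refine totalDegree_finsetSum_le fun o _ => (totalDegree_mul _ _).trans ?_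
  have : (∑ p, MvPolynomial.C (A o p) * hat (X : ι → MvPolynomial ι C) p).totalDegree ≤ 1 :=
    totalDegree_finsetSum_le fun p _ => (totalDegree_mul _ _).trans (by simpa using h p)
  exact Nat.add_le_add (h o) this

lemma quad_eq_zero [CharZero C] {A : Matrix (Option ι) (Option ι) C} (hA : A.IsSymm)
    (h : quad A = 0) : A = 0 := by
  have h1 : ∀ i, A (some i) = 0 := fun i => aff_eq_zero <| by
    have := pderiv_quad hA i
    rw [h, map_zero, eq_comm, mul_eq_zero, or_iff_right two_ne_zero] at this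
    rw [aff, dotProduct_comm]; exact this
  have h2 := aeval_quad A (0 : ι → C)
  ext (_ | i) (_ | j)
  · simpa [h, hat_dot, mulVec, dotProduct_comm _ (hat _)] using h2.symm
  · rw [← hA.apply, h1]; rfl
  · rw [h1]; rfl
  · rw [h1]; rfl

lemma eq_smul_quad [CharZero C] {A : Matrix (Option ι) (Option ι) C} (hA : A.IsSymm) (h0 : A ≠ 0)
    (hd : F ∣ quad A) (h2 : 2 ≤ F.totalDegree) : F.totalDegree = 2 ∧ ∃ a : C, F = a • quad A := by
  have h1 : quad A ≠ 0 := fun h => h0 (quad_eq_zero hA h)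
  refine ⟨le_antisymm ((totalDegree_le_of_dvd_of_isDomain hd h1).trans (td_quad A)) h2, ?_⟩
  obtain ⟨c, hc⟩ := eq_C_mul hd ((td_quad A).trans h2)
  have : c ≠ 0 := by rintro rfl; simp [h1] at hc
  exact ⟨c⁻¹, by rw [hc, ← smul_eq_C_mul, smul_smul, inv_mul_cancel₀ this, one_smul]⟩

/-- A confocal pair from the resolvent identity. -/
theorem Conf.of_mat [CharZero C] {A B : Matrix (Option ι) (Option ι) C} (hA : A.IsSymm)
    (hB : B.IsSymm) (a0 : A ≠ 0) (b0 : B ≠ 0) (e : B - A = A * J ι C * B) (hF : F ∣ quad A)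
    (hG : G ∣ quad B) (dF : 2 ≤ F.totalDegree) (dG : 2 ≤ G.totalDegree) : Conf F G := by
  obtain ⟨h1, a, h2⟩ := eq_smul_quad hA a0 hF dF
  obtain ⟨h3, b, h4⟩ := eq_smul_quad hB b0 hG dG
  exact ⟨h1, h3, A, B, a, b, hA, hB, h2, h4, e⟩

lemma dual_aux {m : Type} [Fintype m] [DecidableEq m] (P : Matrix m (Option ι) C)
    {a : Matrix m m C} (ua : IsUnit a.det) {q : ι → Ω} {t : m → Ω} {s : Ω} (s0 : s ≠ 0)
    (h : a.map (algebraMap C Ω) *ᵥ t = s • (P.map (algebraMap C Ω) *ᵥ hat q))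
    (t0 : t ᵥ* P.map (algebraMap C Ω) ≠ 0) (h0 : t ⬝ᵥ P.map (algebraMap C Ω) *ᵥ hat q = 0) :
    Pᵀ * a⁻¹ * P ≠ 0 ∧ aeval q (quad (Pᵀ * a⁻¹ * P)) = 0 := by
  have e : s • ((Pᵀ * a⁻¹ * P).map (algebraMap C Ω) *ᵥ hat q) = t ᵥ* P.map (algebraMap C Ω) := by
    rw [Matrix.map_mul, ← mulVec_mulVec, ← mulVec_smul, ← h, mulVec_mulVec, ← Matrix.map_mul,
      Matrix.mul_assoc, nonsing_inv_mul _ ua, Matrix.mul_one, transpose_map, mulVec_transpose]
  refine ⟨fun h1 => t0 (by rw [← e, h1]; simp), ?_⟩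
  rw [aeval_quad, ← mul_right_inj' s0, mul_zero, ← smul_eq_mul, ← dotProduct_smul, e,
    dotProduct_comm, ← dotProduct_mulVec, h0]

/-- A confocal pair from two dual quadrics on the row space of `P`. -/
theorem Conf.of_dual [CharZero C] {m : Type} [Fintype m] [DecidableEq m]
    (P : Matrix m (Option ι) C) {a b : Matrix m m C} (ha : a.IsSymm)
    (hab : a - b = P * J ι C * Pᵀ) (ua : IsUnit a.det) (ub : IsUnit b.det) {q y : ι → Ω}
    (kq : ∀ W : MvPolynomial ι C, aeval q W = 0 → F ∣ W)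
    (ky : ∀ W : MvPolynomial ι C, aeval y W = 0 → G ∣ W) (dF : 2 ≤ F.totalDegree)
    (dG : 2 ≤ G.totalDegree) {t t' : m → Ω} {s s' : Ω} (s0 : s ≠ 0) (s0' : s' ≠ 0)
    (h : a.map (algebraMap C Ω) *ᵥ t = s • (P.map (algebraMap C Ω) *ᵥ hat q))
    (h' : b.map (algebraMap C Ω) *ᵥ t' = s' • (P.map (algebraMap C Ω) *ᵥ hat y))
    (t0 : t ᵥ* P.map (algebraMap C Ω) ≠ 0) (t0' : t' ᵥ* P.map (algebraMap C Ω) ≠ 0)
    (h0 : t ⬝ᵥ P.map (algebraMap C Ω) *ᵥ hat q = 0)
    (h0' : t' ⬝ᵥ P.map (algebraMap C Ω) *ᵥ hat y = 0) : Conf F G := by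
  have hb : b.IsSymm := by
    rw [show b = a - P * J ι C * Pᵀ by rw [← hab, sub_sub_cancel]]
    refine ha.sub ?_
    rw [IsSymm, transpose_mul, transpose_mul, transpose_transpose, J_symm.eq, Matrix.mul_assoc]
  have sy : ∀ {a : Matrix m m C}, a.IsSymm → (Pᵀ * a⁻¹ * P).IsSymm := fun ha => by
    rw [IsSymm, transpose_mul, transpose_mul, transpose_transpose, transpose_nonsing_inv, ha.eq,
      Matrix.mul_assoc]
  obtain ⟨a1, a2⟩ := dual_aux P ua s0 h t0 h0
  obtain ⟨b1, b2⟩ := dual_aux P ub s0' h' t0' h0'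
  refine Conf.of_mat (sy ha) (sy hb) a1 b1 ?_ (kq _ a2) (ky _ b2) dF dG
  have : b⁻¹ - a⁻¹ = a⁻¹ * (P * J ι C * Pᵀ) * b⁻¹ := by
    rw [← hab, Matrix.mul_sub, Matrix.sub_mul, nonsing_inv_mul _ ua, Matrix.one_mul,
      Matrix.mul_assoc, mul_nonsing_inv _ ub, Matrix.mul_one]
  rw [← Matrix.sub_mul, ← Matrix.mul_sub, this]
  simp only [Matrix.mul_assoc]

end Pool.Agent.MP_249f74_an.H17.Cm
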