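import Pool.Agent.MP_249f74_an.H17.CmBer
import Pool.Agent.MP_249f74_an.H96.Calc

/-!
Hypersurfaces whose normals are eigenvectors of the tangent cones of a quadric.
-/

open MvPolynomial Matrix

namespace Pool.Agent.MP_249f74_an.H17.Cm

variable {C Ω ι : Type} [Field C] [Field Ω] [Algebra C Ω] [Fintype ι] [DecidableEq ι]
  {F G : MvPolynomial ι C}

/-- The tangent hyperplane at a point. -/
noncomputable def tv (F : MvPolynomial ι C) (q : ι → Ω) : Option ι → Ω :=
  fun o => aeval q (tg F o)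

lemma sp_tv (F : MvPolynomial ι C) (q : ι → Ω) : sp (tv F q) = grad F q := rfl

lemma hat_tv (F : MvPolynomial ι C) (q x : ι → Ω) : hat x ⬝ᵥ tv F q = grad F q ⬝ᵥ (x - q) := by
  rw [hat_dot, sp_tv, tv, aeval_tg]; simp [dotProduct_comm (grad F q)]; ring

lemma exists_gen_pt (hG : Prime G) : ∃ (K : Type) (_ : Field K) (_ : Algebra C K) (y : ι → K),
    ∀ P : MvPolynomial ι C, aeval y P = 0 ↔ G ∣ P := by
  have : (Ideal.span {G}).IsPrime := (Ideal.span_singleton_prime hG.ne_zero).2 hG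
  let B := MvPolynomial ι C ⧸ Ideal.span {G}
  let φ := (IsScalarTower.toAlgHom C B (FractionRing B)).comp (Ideal.Quotient.mkₐ C _)
  refine ⟨FractionRing B, inferInstance, inferInstance, fun i => φ (X i), fun P => ?_⟩
  rw [← comp_aeval_apply, aeval_X_left_apply, ← Ideal.mem_span_singleton,
    ← Ideal.Quotient.eq_zero_iff_mem]
  exact map_eq_zero_iff _ (IsFractionRing.injective B _)

lemma cst [IsAlgClosed C] [CharZero Ω] {a : Ω} (ha : ∀ θ : Derivation C Ω Ω, θ a = 0) :
    ∃ c, algebraMap C Ω c = a := by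
  have h1 : IsAlgebraic _ a := H96.mem_cl_of_kil (S := ∅) fun θ _ => ha θ
  rw [Algebra.adjoin_empty] at h1
  have h2 : IsAlgebraic C a := h1.restrictScalars C
  exact minpoly.mem_range_of_degree_eq_one C a
    (IsAlgClosed.degree_eq_one_of_irreducible C (minpoly.irreducible h2.isIntegral))

lemma eq_zero_of_dual {a : Ω} (h : ∀ f : Ω →ₗ[C] C, f a = 0) : a = 0 :=
  (Module.forall_dual_apply_eq_zero_iff C a).1 h

lemma dual_dot {n : Type} [Fintype n] (f : Ω →ₗ[C] C) (h : n → Ω) (Y : n → C) :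
    f (h ⬝ᵥ fun o => algebraMap C Ω (Y o)) = (fun o => f (h o)) ⬝ᵥ Y := by
  simp only [dotProduct, map_sum]
  exact Finset.sum_congr rfl fun o _ => by rw [mul_comm, ← Algebra.smul_def, map_smul]; simp [mul_comm]

lemma mem_of_ann {n : Type} [Fintype n] [DecidableEq n] {D : Submodule C (n → C)} {v : n → C}
    (h : ∀ Y : n → C, (∀ K ∈ D, K ⬝ᵥ Y = 0) → v ⬝ᵥ Y = 0) : v ∈ D := by
  by_contra hn
  obtain ⟨f, h1, h2⟩ := D.exists_dual_map_eq_bot_of_notMem hn inferInstance
  have e : ∀ w : n → C, f w = w ⬝ᵥ fun i => f (Pi.single i 1) := fun w => by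
    rw [LinearMap.pi_apply_eq_sum_univ f w]
    refine Finset.sum_congr rfl fun i _ => ?_
    rw [smul_eq_mul]; congr 2; ext j; simp [Pi.single_apply, eq_comm]
  refine h1 ((e v).trans (h _ fun K hK => (e K).symm.trans ?_))
  exact (Submodule.mem_bot C).1 (h2 ▸ Submodule.mem_map_of_mem hK)

lemma decomp {n : Type} [Fintype n] [DecidableEq n] {D : Submodule C (n → C)} {h : n → Ω}
    (hD : ∀ f : Ω →ₗ[C] C, (fun o => f (h o)) ∈ D) :
    ∃ (K : Fin (Module.finrank C D) → n → C) (α : Fin (Module.finrank C D) → Ω),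
      (∀ a, K a ∈ D) ∧ ∀ o, h o = ∑ a, α a * algebraMap C Ω (K a o) := by
  obtain ⟨D', hc⟩ := D.exists_isCompl
  let b := Module.finBasis C D
  let π := D.projectionOnto D' hc
  refine ⟨fun a => b a, fun a => h ⬝ᵥ fun o => algebraMap C Ω (b.repr (π (Pi.single o 1)) a),
    fun a => (b a).2, fun o => sub_eq_zero.1 (eq_zero_of_dual (C := C) fun f => ?_)⟩
  have e1 : π (fun o => f (h o)) = ⟨_, hD f⟩ := Submodule.projectionOnto_apply_left hc ⟨_, hD f⟩
  have e2 : ∀ a, (fun o => f (h o)) ⬝ᵥ (fun o => b.repr (π (Pi.single o 1)) a) =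
      b.repr ⟨_, hD f⟩ a := fun a => by
    rw [← e1, LinearMap.pi_apply_eq_sum_univ π, map_sum, Finsupp.finsetSum_apply]
    refine Finset.sum_congr rfl fun i _ => ?_
    beta_reduce
    rw [map_smul, Finsupp.smul_apply, smul_eq_mul,
      show (Pi.single i 1 : n → C) = fun j => if i = j then 1 else 0 by
        ext j; simp [Pi.single_apply, eq_comm]]
  have e3 := congrFun (congrArg Subtype.val (b.sum_repr ⟨_, hD f⟩)) o
  simp only [map_sub, map_sum, mul_comm _ (algebraMap C Ω _), ← Algebra.smul_def, map_smul,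
    dual_dot, e2]
  rw [sub_eq_zero]
  refine e3.symm.trans ?_
  rw [Submodule.coe_sum, Finset.sum_apply]
  exact Finset.sum_congr rfl fun _ _ => mul_comm _ _

lemma aff_zero {q : ι → Ω} (hq : ∀ P : MvPolynomial ι C, aeval q P = 0 → F ∣ P)
    (dF : 2 ≤ F.totalDegree) {K : Option ι → C}
    (h : (hat q ⬝ᵥ fun o => algebraMap C Ω (K o)) = 0) : K = 0 := by
  by_contra hn
  have := (totalDegree_le_of_dvd_of_isDomain (hq _ (by rwa [aeval_aff]))
    fun e => hn (aff_eq_zero e)).trans (td_aff_le K)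
  omega

lemma der_hat (θ : Derivation C Ω Ω) (q : ι → Ω) : dv θ (hat q) = vec (dv θ q) := by
  ext (_ | i) <;> simp [dv, hat, vec]

/-- The tangent hyperplanes of a hypersurface that is not a hyperplane span at least a net. -/
lemma three_le [IsAlgClosed C] [CharZero Ω] {q : ι → Ω}
    (hq : ∀ P : MvPolynomial ι C, aeval q P = 0 ↔ F ∣ P) (dF : 2 ≤ F.totalDegree)
    (hN : grad F q ≠ 0) {D : Submodule C (Option ι → C)}
    (hD : ∀ f : Ω →ₗ[C] C, (fun o => f (tv F q o)) ∈ D) : 3 ≤ Module.finrank C D := by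
  by_contra hn
  obtain ⟨K, K', α, β, e⟩ : ∃ (K K' : Option ι → C) (α β : Ω), tv F q =
      α • (fun o => algebraMap C Ω (K o)) + β • fun o => algebraMap C Ω (K' o) := by
    obtain ⟨K, α, -, e⟩ := decomp hD
    generalize Module.finrank C D = r at *
    obtain rfl | rfl | rfl : r = 0 ∨ r = 1 ∨ r = 2 := by omega
    · exact ⟨0, 0, 0, 0, funext fun o => by simp [e o]⟩
    · exact ⟨K 0, 0, α 0, 0, funext fun o => by simp [e o]⟩
    · exact ⟨K 0, K 1, α 0, α 1, funext fun o => by simp [e o]⟩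
  have z := fun K => aff_zero (K := K) (fun P => (hq P).1) dF
  have h0 : tv F q ≠ 0 := fun h => hN (by rw [← sp_tv, h]; rfl)
  have h1 : hat q ⬝ᵥ tv F q = 0 := by simp [hat_tv]
  have one : ∀ (K : Option ι → C) (α : Ω), tv F q ≠ α • fun o => algebraMap C Ω (K o) :=
    fun K α e => by
      rw [e, dotProduct_smul, smul_eq_mul, mul_eq_zero] at h1
      rcases h1 with rfl | h1
      · exact h0 (by simpa using e)
      · exact h0 (by rw [e, z K h1]; ext; simp)
  have a0 : (hat q ⬝ᵥ fun o => algebraMap C Ω (K o)) ≠ 0 := fun h =>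
    one K' β (by rw [e, z K h]; ext; simp)
  have b0 : β ≠ 0 := fun h => one K α (by simp [e, h])
  obtain ⟨c, hc⟩ := cst (C := C) (a := (hat q ⬝ᵥ fun o => algebraMap C Ω (K' o)) /
    hat q ⬝ᵥ fun o => algebraMap C Ω (K o)) fun θ => by
      have h2 : vec (dv θ q) ⬝ᵥ tv F q = 0 := by
        rw [vec_dot, sp_tv, dotProduct_comm, grad_dv ((hq F).2 dvd_rfl)]
      have h3 : ∀ K : Option ι → C, dv θ (fun o => algebraMap C Ω (K o)) = 0 := fun K => by
        ext; simp [dv]
      rw [e] at h1 h2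
      simp only [dotProduct_add, dotProduct_smul, smul_eq_mul] at h1 h2
      rw [Derivation.leibniz_div]
      simp only [dv_dot, h3, der_hat, dotProduct_zero, add_zero, smul_eq_mul]
      refine mul_eq_zero_of_right _ (mul_left_cancel₀ b0 ?_)
      linear_combination (hat q ⬝ᵥ fun o => algebraMap C Ω (K o)) * h2 -
        (vec (dv θ q) ⬝ᵥ fun o => algebraMap C Ω (K o)) * h1
  have := z (K' - c • K) (by
    rw [eq_div_iff a0] at hc
    rw [← sub_eq_zero.2 hc.symm, ← smul_eq_mul, ← dotProduct_smul, ← dotProduct_sub]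
    congr 1; ext; simp [Algebra.smul_def])
  refine one K (α + β * algebraMap C Ω c) ?_
  rw [e, sub_eq_zero.1 this]
  ext; simp; ring

lemma tg_quad {A : Matrix (Option ι) (Option ι) C} (hA : A.IsSymm) (Y : Option ι → C) :
    (tg (quad A) ⬝ᵥ fun o => MvPolynomial.C (Y o)) =
      2 * aff (A *ᵥ Y) - 2 * MvPolynomial.C (Y none) * quad A := by
  have e : aff (A *ᵥ Y) = (fun o => MvPolynomial.C (Y o)) ⬝ᵥ A.map MvPolynomial.C *ᵥ hat X := by
    rw [symm_dot (hA.map _), aff]
    congr 1; ext1 o; exact RingHom.map_mulVec _ A Y o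
  unfold tg
  simp only [e, pderiv_quad hA]
  rw [quad, hat_dot]
  simp only [dotProduct, Fintype.sum_option, Option.elim, sp, mul_add,
    Finset.mul_sum, neg_mul, Finset.sum_mul]
  rw [add_sub_add_comm, ← mul_assoc, sub_self, zero_add, neg_add_eq_sub]
  congr 1 <;> exact Finset.sum_congr rfl fun _ _ => by ring

lemma dir_quad {A : Matrix (Option ι) (Option ι) C} (hA : A.IsSymm) (v : ι → C) :
    dir v (quad A) = 2 * aff (A *ᵥ vec v) := by
  have := tg_quad hA (vec v)
  rw [dotProduct_comm, show (fun o => MvPolynomial.C (vec v o)) = vec fun i => MvPolynomial.C (v i)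
    by ext1 (_ | i) <;> simp [vec], vec_dot] at this
  rw [dir_apply]
  exact this.trans (by simp [vec])

lemma quad_smul (c : C) (A : Matrix (Option ι) (Option ι) C) : quad (c • A) = c • quad A := by
  simp only [quad, dotProduct, mulVec, map_apply, Matrix.smul_apply, smul_eq_mul, map_mul,
    smul_eq_C_mul, Finset.mul_sum]
  exact Finset.sum_congr rfl fun _ _ => Finset.sum_congr rfl fun _ _ => by ring

lemma tg_smul (b : C) (G : MvPolynomial ι C) : tg (b • G) = b • tg G := by
  ext1 (_ | i) <;> simp [tg, Finset.smul_sum]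

/-- A prime quadric has rank at least three. -/
lemma three_le_rank [IsAlgClosed C] [CharZero C] {A : Matrix (Option ι) (Option ι) C}
    (hA : A.IsSymm) {b : C} (hG : Prime (b • quad A)) (dG : 2 ≤ (b • quad A).totalDegree) :
    3 ≤ Module.finrank C (LinearMap.range A.mulVecLin) := by
  obtain ⟨K, _, _, y, hy⟩ := exists_gen_pt hG
  have : CharZero K := charZero_of_injective_algebraMap (algebraMap C K).injective
  refine three_le hy dG (fun h => ?_) fun f => mem_of_ann fun Y hY => ?_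
  · have : ∀ i, pderiv i (b • quad A) = 0 := fun i => by_contra fun e =>
      absurd (totalDegree_le_of_dvd_of_isDomain ((hy _).1 (congrFun h i)) e)
        (H88.totalDegree_pderiv_lt e).not_ge
    have := td_zero_of_pderiv this
    omega
  · have h1 : A *ᵥ Y = 0 := funext fun o => by
      have := hY _ ⟨Pi.single o 1, rfl⟩
      rwa [mulVecLin_apply, dotProduct_comm, symm_dot hA, single_one_dotProduct] at this
    have h2 : aeval y (tg (b • quad A) ⬝ᵥ fun o => MvPolynomial.C (Y o)) = 0 := (hy _).2 <| by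
      rw [tg_smul, smul_dotProduct, tg_quad hA, h1]
      exact ⟨-(2 * MvPolynomial.C (Y none)), by simp [aff, mul_comm]⟩
    rw [← dual_dot, ← map_zero f, ← h2]
    simp [dotProduct, tv]

theorem berq [IsAlgClosed C] [CharZero Ω] {A : Matrix (Option ι) (Option ι) C} (hA : A.IsSymm)
    {b : C} (eG : G = b • quad A) (hG : Prime G) (dG : 2 ≤ G.totalDegree) (dF : 2 ≤ F.totalDegree)
    {q : ι → Ω} (hq : ∀ P : MvPolynomial ι C, aeval q P = 0 ↔ F ∣ P)
    (nn : grad F q ⬝ᵥ grad F q ≠ 0) {κ μ : Ω}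
    (e : A.map (algebraMap C Ω) *ᵥ (vec (grad F q) - κ • hat q) = μ • tv F q) :
    Conf F G ∨ Warp F G ∨ Warp G F := by
  have : CharZero C := (algebraMap C Ω).charZero
  subst eG
  have N0 : grad F q ≠ 0 := fun h => nn (by simp [h])
  have sA : (A.map (algebraMap C Ω)).IsSymm := hA.map _
  have mv : ∀ (M : Matrix (Option ι) (Option ι) C) (v : Option ι → C),
      (fun o => algebraMap C Ω ((M *ᵥ v) o)) =
        M.map (algebraMap C Ω) *ᵥ fun o => algebraMap C Ω (v o) := fun M v =>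
    funext (RingHom.map_mulVec _ M v)
  rcases eq_or_ne μ 0 with rfl | μ0
  · refine Or.inr (Or.inl (Warp.of_dvd _ (three_le_rank hA hG dG) ?_ fun Y hY => ?_))
    · rintro _ ⟨v, rfl⟩ _ ⟨w, rfl⟩
      have h : ∀ v : Option ι → C, (grad F q ⬝ᵥ fun i => algebraMap C Ω (sp (A *ᵥ v) i)) =
          κ * hat q ⬝ᵥ fun o => algebraMap C Ω ((A *ᵥ v) o) := fun v => by
        have := congrArg ((fun o => algebraMap C Ω (v o)) ⬝ᵥ ·) e
        simp only [zero_smul, dotProduct_zero] at this
        rw [symm_dot sA, ← mv, sub_dotProduct, vec_dot, smul_dotProduct, sub_eq_zero] at this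
        exact this
      refine (hq _).1 ?_
      simp only [map_sub, map_mul, aeval_aff, aeval_dir, mulVecLin_apply, h]
      ring
    · have h1 : A *ᵥ Y = 0 := funext fun o => by
        have := hY _ ⟨Pi.single o 1, rfl⟩
        rwa [mulVecLin_apply, dotProduct_comm, symm_dot hA, single_one_dotProduct] at this
      rw [tg_smul, smul_dotProduct, tg_quad hA, h1]
      exact ⟨-(2 * MvPolynomial.C (Y none)), by simp [aff, mul_comm]⟩
  have h1 : hat q ⬝ᵥ tv F q = 0 := by simp [hat_tv]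
  obtain ⟨m, rfl⟩ := cst (C := C) (a := μ) fun θ => by
    obtain ⟨Z, hZ⟩ : ∃ Z, Z = vec (grad F q) - κ • hat q := ⟨_, rfl⟩
    rw [← hZ] at e
    have h2 : Z ⬝ᵥ tv F q = grad F q ⬝ᵥ grad F q := by
      rw [hZ, sub_dotProduct, smul_dotProduct, h1, vec_dot, sp_tv]; simp
    have h3 : dv θ Z ⬝ᵥ tv F q = dv θ (grad F q) ⬝ᵥ grad F q := by
      have : dv θ (vec (grad F q)) = vec (dv θ (grad F q)) := by
        ext (_ | i) <;> simp [dv, vec]
      rw [hZ, dv_sub, dv_smul, this, der_hat]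
      simp [h1, vec_dot, sp_tv, dotProduct_comm (dv θ q), grad_dv ((hq F).2 dvd_rfl)]
    have h4 : dv θ (A.map (algebraMap C Ω) *ᵥ Z) = A.map (algebraMap C Ω) *ᵥ dv θ Z := by
      ext o; simp [dv, mulVec, dotProduct]
    have h5 := dv_dot θ Z (A.map (algebraMap C Ω) *ᵥ Z)
    rw [h4, symm_dot sA Z (dv θ Z), e, dotProduct_smul, dotProduct_smul, h2, h3, smul_eq_mul,
      Derivation.leibniz, dv_dot, dotProduct_comm (grad F q)] at h5
    simp only [smul_eq_mul] at h5
    exact (mul_eq_zero.1 (by linear_combination h5)).resolve_left nn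
  have m0 : m ≠ 0 := fun h => μ0 (by simp [h])
  obtain ⟨M, hM⟩ : ∃ M, M = m • (1 : Matrix (Option ι) (Option ι) C) - A * J ι C := ⟨_, rfl⟩
  have eM : M.map (algebraMap C Ω) *ᵥ tv F q = -κ • A.map (algebraMap C Ω) *ᵥ hat q := by
    have : (m • (1 : Matrix (Option ι) (Option ι) C)).map (algebraMap C Ω) =
        algebraMap C Ω m • 1 := by
      ext i j; simp [one_apply, apply_ite (algebraMap C Ω)]
    rw [hM, Matrix.map_sub _ (map_sub _), this, Matrix.map_mul, J_map, sub_mulVec, ← mulVec_mulVec,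
      J_mulVec, sp_tv, smul_mulVec, one_mulVec, ← e, mulVec_sub, mulVec_smul]
    module
  rcases eq_or_ne κ 0 with rfl | κ0
  · have hD : ∀ f : Ω →ₗ[C] C, (fun o => f (tv F q o)) ∈ LinearMap.ker M.mulVecLin := fun f => by
      refine funext fun o => ?_
      have := congrArg f (congrFun eM o)
      rw [mulVec, dotProduct_comm] at this
      simpa [mulVec, dotProduct_comm (M o), ← dual_dot] using this
    have hK : ∀ K ∈ LinearMap.ker M.mulVecLin, dir (sp K) (b • quad A) =
        MvPolynomial.C (2 * b * m) * aff K := fun K hK => by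
      have : M *ᵥ K = 0 := hK
      rw [hM, sub_mulVec, ← mulVec_mulVec, J_mulVec, smul_mulVec, one_mulVec, sub_eq_zero] at this
      rw [Derivation.map_smul, dir_quad hA, ← this, aff_smul, smul_eq_C_mul]
      simp only [map_mul, map_ofNat]; ring
    refine Or.inr (Or.inr (Warp.of_dvd _ (three_le hq dF N0 hD) (fun K h K' h' => ?_)
      fun Y hY => (hq _).1 ?_))
    · rw [hK K h, hK K' h']; exact ⟨0, by ring⟩
    · refine eq_zero_of_dual (C := C) fun f => ?_
      rw [← hY _ (hD f), ← dual_dot]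
      simp [dotProduct, tv]
  have uM : IsUnit M.det := Ne.isUnit fun h => by
    obtain ⟨w, w0, hw⟩ := exists_vecMul_eq_zero_iff.2 h
    have h2 : A *ᵥ w = 0 := aff_zero (fun P => (hq P).1) dF <| by
      have := congrArg ((fun o => algebraMap C Ω (w o)) ⬝ᵥ ·) eM
      simp only [dotProduct_mulVec] at this
      rw [show (fun o => algebraMap C Ω (w o)) ᵥ* M.map (algebraMap C Ω) = 0 from funext fun o =>
        (RingHom.map_vecMul (algebraMap C Ω) M w o).symm.trans (by simp [hw])] at this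
      rw [mv, symm_dot sA]
      simpa [κ0] using this
    rw [hM, vecMul_sub, ← vecMul_vecMul, ← mulVec_transpose A, hA.eq, h2] at hw
    simp [vecMul_smul, m0, w0] at hw
  have c1 : M * (M⁻¹ * A) = A := by rw [← Matrix.mul_assoc, mul_nonsing_inv _ uM, Matrix.one_mul]
  have c2 : (M⁻¹ * A).IsSymm := by
    have h2 : A * Mᵀ = M * A := by
      rw [hM, transpose_sub, transpose_mul, hA.eq, J_symm.eq]
      simp [Matrix.mul_sub, Matrix.sub_mul, Matrix.mul_assoc]
    rw [IsSymm, transpose_mul, hA.eq, transpose_nonsing_inv]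
    nth_rewrite 1 [← c1]
    nth_rewrite 1 [← Matrix.one_mul (M * _), ← nonsing_inv_mul _ uM]
    rw [c1, Matrix.mul_assoc M⁻¹, ← h2, Matrix.mul_assoc, Matrix.mul_assoc,
      mul_nonsing_inv _ (by rwa [det_transpose]), Matrix.mul_one]
  have A0 : A ≠ 0 := by rintro rfl; simp [quad] at dG
  have b0 : b ≠ 0 := by rintro rfl; simp at dG
  refine Or.inl (Conf.symm (Conf.of_mat (A := m⁻¹ • A) (hA.smul _) c2 (by simp [m0, A0])
    (fun h => A0 (by rw [← c1, h, Matrix.mul_zero])) ?_ ⟨MvPolynomial.C (b⁻¹ * m⁻¹), ?_⟩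
    ((hq _).1 ?_) dG dF))
  · rw [hM, Matrix.sub_mul, Matrix.smul_mul, Matrix.one_mul, ← hM, sub_eq_iff_eq_add'] at c1
    rw [Matrix.smul_mul, Matrix.smul_mul, sub_eq_iff_eq_add, ← smul_add, ← c1, inv_smul_smul₀ m0]
  · rw [quad_smul, mul_comm, ← smul_eq_C_mul, smul_smul, mul_right_comm, inv_mul_cancel₀ b0,
      one_mul]
  · have : (M⁻¹ * A).map (algebraMap C Ω) *ᵥ hat q = -κ⁻¹ • tv F q := by
      have h2 := congrArg (M⁻¹.map (algebraMap C Ω) *ᵥ ·) eM
      simp only [mulVec_smul, mulVec_mulVec, ← Matrix.map_mul, nonsing_inv_mul _ uM] at h2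
      rw [Matrix.map_one _ (map_zero _) (map_one _), one_mulVec] at h2
      rw [h2, smul_smul]; simp [κ0]
    rw [aeval_quad, this, dotProduct_smul, h1, smul_zero]

end Pool.Agent.MP_249f74_an.H17.Cm
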