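import Pool.Agent.MP_249f74_an.H17.CmWarp
import Pool.Agent.MP_249f74_an.H96A.Defs

/-!
The section of a mirror passes a commuting mirror.
-/

open MvPolynomial Matrix

namespace Pool.Agent.MP_249f74_an.H17.Cm

variable {C Ω ι : Type} [Field C] [Field Ω] [Algebra C Ω] [Fintype ι] [DecidableEq ι]

/-- The top form at a direction. -/
noncomputable def top (G : MvPolynomial ι C) (u : ι → Ω) : Ω :=
  aeval u (homogeneousComponent G.totalDegree G)

variable (Ω) in
/-- A projectivity maps the points of `G = 0` on the line reflected in `F = 0` to the points on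
the incoming line. -/
def Pass (F G : MvPolynomial ι C) : Prop :=
  ∀ q u : ι → Ω, aeval q F = 0 → grad F q ⬝ᵥ grad F q ≠ 0 → top G u ≠ 0 →
    top G (rf (grad F q) u) ≠ 0 → ∃ γ : Ω,
      (∀ K : IntermediateField C Ω, (∀ i, q i ∈ K) → (∀ i, u i ∈ K) → γ ∈ K) ∧
      ∀ t : Ω, aeval (q + t • rf (grad F q) u) G = 0 →
        1 - γ * t ≠ 0 ∧ aeval (q + (t / (1 - γ * t)) • u) G = 0

lemma aeval_mem {K : IntermediateField C Ω} {q : ι → Ω} (h : ∀ i, q i ∈ K)
    (F : MvPolynomial ι C) : aeval q F ∈ K := by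
  induction F using MvPolynomial.induction_on with
  | C a => simp
  | add p q hp hq => simpa using add_mem hp hq
  | mul_X p i hp => simpa using mul_mem hp (h i)

lemma dot_mem {n : Type} [Fintype n] {K : IntermediateField C Ω} {p q : n → Ω} (hp : ∀ j, p j ∈ K)
    (hq : ∀ j, q j ∈ K) : p ⬝ᵥ q ∈ K := sum_mem fun j _ => mul_mem (hp j) (hq j)

variable [CharZero Ω] {F G : MvPolynomial ι C}

lemma top_eq_zero {x u : ι → Ω} (h : ∀ s : Ω, aeval (x + s • u) G = 0) : top G u = 0 := by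
  rw [top, ← coeff_line le_rfl x, show line G x u = 0 from
    Polynomial.funext fun s => by rw [eval_line, h, Polynomial.eval_zero], Polynomial.coeff_zero]

theorem Conf.pass (hFG : Conf F G) : Pass Ω F G := by
  intro q u z1 n1 t0 _
  obtain ⟨dF, dG, A, B, a, b, hA, hB, rfl, rfl, e⟩ := hFG
  have ha : a ≠ 0 := by rintro rfl; simp at dF
  have hb : b ≠ 0 := by rintro rfl; simp at dG
  obtain ⟨A', hA'⟩ : ∃ A', A' = A.map (algebraMap C Ω) := ⟨_, rfl⟩
  obtain ⟨B', hB'⟩ : ∃ B', B' = B.map (algebraMap C Ω) := ⟨_, rfl⟩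
  have sA : A'.IsSymm := hA' ▸ hA.map _
  have sB : B'.IsSymm := hB' ▸ hB.map _
  have e1 : B' - A' = A' * J ι Ω * B' := by
    rw [hA', hB', ← J_map (algebraMap C Ω), ← Matrix.map_mul, ← Matrix.map_mul, ← e,
      Matrix.map_sub _ (map_sub _)]
  have e2 : B' - A' = B' * J ι Ω * A' := by
    have := congrArg transpose e1
    rwa [transpose_sub, transpose_mul, transpose_mul, sA.eq, sB.eq, J_symm.eq,
      ← Matrix.mul_assoc] at this
  have I1 : ∀ X, B' *ᵥ (X - vec (sp (A' *ᵥ X))) = A' *ᵥ X := fun X => by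
    rw [← J_mulVec, mulVec_sub, mulVec_mulVec, mulVec_mulVec, ← e2, sub_mulVec]; abel
  obtain ⟨h, eh⟩ : ∃ h, h = A' *ᵥ hat q := ⟨_, rfl⟩
  have g : grad (a • quad A) q = (algebraMap C Ω a * 2) • sp h := by
    rw [grad_smul, grad_quad hA, smul_smul, eh, hA']
  have g0 : algebraMap C Ω a * 2 ≠ 0 := by simp [ha]
  have n2 : sp h ⬝ᵥ sp h ≠ 0 := fun h0 => n1 (by simp [g, h0])
  refine ⟨2 * (sp h ⬝ᵥ u) / (sp h ⬝ᵥ sp h), fun K h1 h2 => ?_, fun t ht => ?_⟩
  · have : ∀ i, sp h i ∈ K := fun i => by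
      rw [eh, hA']
      exact dot_mem (fun j => K.algebraMap_mem _) fun j => by
        cases j <;> simp [hat, h1, one_mem]
    exact div_mem (mul_mem (by simp) (dot_mem this h2)) (dot_mem this this)
  · rw [g, smul_rf g0] at ht
    obtain ⟨b1, -, b3⟩ := half sB I1 eh rfl (by simpa [aeval_quad, ha, eh, hA'] using z1)
      (by simpa [aeval_quad, hb, hB', rf] using ht) (div_mul_cancel₀ _ n2) rfl rfl
      (hB' ▸ top_quad dG t0)
    rw [mul_comm _ t]
    exact ⟨b1, by rw [map_smul, aeval_quad, ← hB', (b3 _ rfl).2, smul_zero]⟩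

omit [CharZero Ω] in
lemma warp_a {Q : Matrix (Option ι) (Option ι) C}
    (ha : ∀ i j, (Q.map MvPolynomial.C *ᵥ vec fun k => pderiv k F) i *
        (Q.map (MvPolynomial.C (σ := ι)) *ᵥ hat X) j =
      (Q.map MvPolynomial.C *ᵥ vec fun k => pderiv k F) j *
        (Q.map (MvPolynomial.C (σ := ι)) *ᵥ hat X) i) (x : ι → Ω) (i j : Option ι) :
    (Q.map (algebraMap C Ω) *ᵥ vec (grad F x)) i * (Q.map (algebraMap C Ω) *ᵥ hat x) j =
      (Q.map (algebraMap C Ω) *ᵥ vec (grad F x)) j * (Q.map (algebraMap C Ω) *ᵥ hat x) i := by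
  simpa [mulVec, dotProduct, Fintype.sum_option, vec, hat, grad] using congrArg (aeval x) (ha i j)

lemma warp_b {Q : Matrix (Option ι) (Option ι) C}
    (hb : ∀ j, G ∣ (tg G ᵥ* (1 - Q).map MvPolynomial.C) j) {Y : Option ι → Ω}
    (y1 : Q.map (algebraMap C Ω) *ᵥ Y = 0) {x : ι → Ω} (hx : aeval x G = 0) (s : Ω) :
    aeval (x + s • (sp Y - Y none • x)) G = 0 := by
  have y2 : map (algebraMap C Ω) G ∣ tg (map (algebraMap C Ω) G) ⬝ᵥ
      fun o => MvPolynomial.C (Y o) := by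
    have e : (fun o => MvPolynomial.C (Y o)) = ((1 - Q.map (algebraMap C Ω)).map
        (MvPolynomial.C (σ := ι))) *ᵥ fun o => MvPolynomial.C (Y o) := by
      ext1 o
      have := RingHom.map_mulVec (MvPolynomial.C (σ := ι)) (1 - Q.map (algebraMap C Ω)) Y o
      rw [sub_mulVec, y1, one_mulVec, sub_zero] at this
      exact this
    rw [e, dotProduct_mulVec]
    refine Finset.dvd_sum fun j _ => Dvd.dvd.mul_right ?_ _
    convert map_dvd (map (algebraMap C Ω)) (hb j)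
    have : ∀ o, tg (map (algebraMap C Ω) G) o = map (algebraMap C Ω) (tg G o) := fun o => by
      cases o <;> simp [tg, pderiv_map]
    simp [vecMul, dotProduct, this, one_apply]
  rw [← aeval_map_algebraMap Ω, ← eval_line,
    (fibre y2 (q := x) (by rw [aeval_map_algebraMap, hx])).1, Polynomial.eval_zero]

/-- The first hypersurface is symmetric in the tangent hyperplanes of the second one. -/
lemma Warp.inv (hFG : Warp F G) {q : ι → Ω} (h0 : aeval q G = 0)
    (nn : grad G q ⬝ᵥ grad G q ≠ 0) (x : ι → Ω) :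
    aeval (q + rf (grad G q) (x - q)) F = aeval x F := by
  obtain ⟨Q, ⟨i0, j0, s0, t0, hQ⟩, ha, hb⟩ := hFG
  have a1 := warp_a (Ω := Ω) ha
  obtain ⟨Q', hQ'⟩ : ∃ Q', Q' = Q.map (algebraMap C Ω) := ⟨_, rfl⟩
  obtain ⟨N, hN⟩ : ∃ N, N = grad G q := ⟨_, rfl⟩
  obtain ⟨h, hh⟩ : ∃ h : Option ι → Ω, h = fun o => o.elim (-(q ⬝ᵥ N)) N := ⟨_, rfl⟩
  rw [← hQ'] at a1
  rw [← hN] at nn ⊢
  have sh : sp h = N := by rw [hh]; rfl
  have hx : ∀ x, hat x ⬝ᵥ h = N ⬝ᵥ (x - q) := fun x => by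
    rw [hat_dot, sh, hh]; simp [dotProduct_comm N]; ring
  have b1 : h ᵥ* Q' = h := by
    ext j
    obtain ⟨W, hW⟩ := hb j
    have := congrArg (aeval q) hW
    rw [map_mul, h0, zero_mul] at this
    simp only [vecMul, dotProduct, map_sum, map_mul, aeval_tg, ← hN, map_apply, aeval_C,
      Matrix.sub_apply,
      map_sub, mul_sub, Finset.sum_sub_distrib, one_apply, apply_ite (algebraMap C Ω), map_one,
      map_zero, mul_ite, mul_one, mul_zero, Finset.sum_ite_eq', Finset.mem_univ, if_true] at this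
    rw [hh, hQ']
    exact (sub_eq_zero.1 this).symm
  have a2 : ∀ x j, (grad F x ⬝ᵥ N) * (Q' *ᵥ hat x) j =
      (Q' *ᵥ vec (grad F x)) j * (hat x ⬝ᵥ h) := fun x j => by
    rw [← sh, ← vec_dot, ← b1, dotProduct_comm, dotProduct_comm (hat x), ← dotProduct_mulVec,
      ← dotProduct_mulVec]
    simp only [dotProduct, Finset.sum_mul, Finset.mul_sum]
    exact Finset.sum_congr rfl fun i _ => by linear_combination h i * a1 x i j
  obtain ⟨j, hj⟩ : ∃ j, ∀ c : Ω, Q' j ≠ c • h := by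
    by_contra hn
    push Not at hn
    obtain ⟨c, hc⟩ := hn i0
    obtain ⟨c', hc'⟩ := hn j0
    refine hQ ((algebraMap C Ω).injective ?_)
    have e : ∀ i s, algebraMap C Ω (Q i s) = Q' i s := fun i s => by rw [hQ']; rfl
    simp only [map_mul, e, hc, hc', Pi.smul_apply, smul_eq_mul]
    ring
  have := inv_refl (F := F) (sh ▸ nn) hj (fun x => by
    have := a2 x j
    rw [mulVec, mulVec, dotProduct_comm (Q' j), dotProduct_comm (Q' j), vec_dot] at this
    rw [sh]; linear_combination this) x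
  rw [← this, sh, hx, rf]
  congr 2; abel

theorem Warp.pass' (hFG : Warp F G) : Pass Ω G F := fun q u h0 nn _ _ =>
  ⟨0, fun K _ _ => zero_mem K, fun t ht => ⟨by simp, by
    rw [← hFG.inv h0 nn, add_sub_cancel_left, rf_smul]; simpa using ht⟩⟩

theorem Warp.pass (hFG : Warp F G) : Pass Ω F G := by
  intro q u z1 n1 t0 t1
  obtain ⟨Q, -, ha, hb⟩ := hFG
  by_cases h0 : Q.map (algebraMap C Ω) *ᵥ hat q = 0
  · refine ⟨0, fun K _ _ => zero_mem K, fun t ht => ⟨by simp, ?_⟩⟩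
    rcases eq_or_ne t 0 with rfl | ht0
    · simpa using ht
    refine (t1 (top_eq_zero (x := q + t • rf (grad F q) u) fun s => ?_)).elim
    rw [← warp_b hb h0 ht (-(s / t))]
    congr 2
    ext i
    simp [hat]
    field_simp
  obtain ⟨j, hj⟩ := Function.ne_iff.1 h0
  obtain ⟨κ, hκ⟩ : ∃ κ, κ = (Q.map (algebraMap C Ω) *ᵥ vec (grad F q)) j /
    (Q.map (algebraMap C Ω) *ᵥ hat q) j := ⟨_, rfl⟩
  obtain ⟨β, hβ⟩ : ∃ β, β = 2 * (grad F q ⬝ᵥ u) / (grad F q ⬝ᵥ grad F q) := ⟨_, rfl⟩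
  refine ⟨β * κ, fun K h1 h2 => ?_, fun t ht => ?_⟩
  · have g : ∀ i, grad F q i ∈ K := fun i => aeval_mem h1 _
    rw [hβ, hκ]
    refine mul_mem (div_mem (mul_mem (by simp) (dot_mem g h2)) (dot_mem g g))
      (div_mem (dot_mem (fun j => K.algebraMap_mem _) fun j => ?_)
        (dot_mem (fun j => K.algebraMap_mem _) fun j => ?_)) <;>
      cases j <;> simp [hat, vec, h1, g, one_mem, zero_mem]
  have y1 : Q.map (algebraMap C Ω) *ᵥ (vec (grad F q) - κ • hat q) = 0 := by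
    ext i
    rw [mulVec_sub, mulVec_smul, hκ]
    simp only [Pi.sub_apply, Pi.smul_apply, smul_eq_mul, Pi.zero_apply]
    rw [div_mul_eq_mul_div, ← warp_a ha, mul_div_cancel_right₀ _ hj, sub_self]
  have f3 := warp_b hb y1 ht
  rw [rf, ← hβ] at f3
  have μ0 : 1 - β * κ * t ≠ 0 := fun h0 => t0 <| top_eq_zero
    (x := q + t • (u - β • grad F q)) fun s => by
      rcases eq_or_ne β 0 with rfl | hβ0
      · simp at h0
      rw [← f3 (s * β)]
      congr 2
      ext i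
      simp [hat, vec]
      linear_combination (s * (u i - β * grad F q i)) * h0
  refine ⟨μ0, ?_⟩
  rw [← f3 (t / (1 - β * κ * t) * β)]
  congr 2
  have := mul_div_cancel₀ t μ0
  ext i
  simp [hat, vec]
  linear_combination (u i - β * grad F q i) * this

omit [CharZero Ω] in
/-- Equivariant injections preserve signs. -/
lemma sg_eq {σ : Ω ≃ₐ[C] Ω} {P Q : Finset Ω} (φ : Ω → Ω) (h1 : ∀ a ∈ P, φ a ∈ Q)
    (h2 : Set.InjOn φ P) (h3 : Q.card ≤ P.card) (h4 : ∀ a, σ a ∈ P ↔ a ∈ P)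
    (h5 : ∀ a, σ a ∈ Q ↔ a ∈ Q) (h6 : ∀ a ∈ P, φ (σ a) = σ (φ a)) :
    H96A.sg σ P = H96A.sg σ Q := by
  classical
  unfold H96A.sg
  rw [dif_pos (by exact h4), dif_pos (by exact h5)]
  have hb : Function.Bijective fun a : P => (⟨φ a, h1 a a.2⟩ : Q) :=
    ⟨fun a b e => Subtype.ext (h2 a.2 b.2 (congrArg Subtype.val e)), fun b => by
      obtain ⟨a, ha, e⟩ := Finset.surjOn_of_injOn_of_card_le φ h1 h2 h3 b.2
      exact ⟨⟨a, ha⟩, Subtype.ext e⟩⟩
  refine Equiv.Perm.sign_eq_sign_of_equiv _ _ (Equiv.ofBijective _ hb) fun a => ?_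
  exact Subtype.ext (h6 a a.2)

/-- The signs of the two sections agree. The vertex has the parameters `t` and `t'`. -/
theorem Pass.sg (h : Pass Ω F G) {x u x' u' q : ι → Ω} {t t' : Ω} (hq : q = x + t • u)
    (hq' : q = x' + t' • u') (h0 : aeval q F = 0) (hn : grad F q ⬝ᵥ grad F q ≠ 0)
    (hu : u' = rf (grad F q) u) (t0 : top G u ≠ 0) (t1 : top G u' ≠ 0) {P P' : Finset Ω}
    (hP : ∀ s, s ∈ P ↔ aeval (x + s • u) G = 0) (hP' : ∀ s, s ∈ P' ↔ aeval (x' + s • u') G = 0)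
    {σ : Ω ≃ₐ[C] Ω} (sx : ∀ i, σ (x i) = x i) (su : ∀ i, σ (u i) = u i) (st : σ t = t)
    (st' : σ t' = t') : H96A.sg σ P = H96A.sg σ P' := by
  let K : IntermediateField C Ω :=
    (AlgHom.equalizer (σ : Ω →ₐ[C] Ω) (AlgHom.id C Ω)).toIntermediateField
      fun a (ha : σ a = a) => show σ a⁻¹ = a⁻¹ by rw [map_inv₀, ha]
  have mK : ∀ a, a ∈ K ↔ σ a = a := fun a => Iff.rfl
  have kq : ∀ i, q i ∈ K := fun i => by simp [mK, hq, sx, su, st]
  have ku : ∀ i, u i ∈ K := su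
  have g : ∀ i, grad F q i ∈ K := fun i => aeval_mem kq _
  have ku' : ∀ i, u' i ∈ K := fun i => by
    rw [hu]
    exact sub_mem (ku i) (mul_mem (div_mem (mul_mem (by simp) (dot_mem g ku)) (dot_mem g g)) (g i))
  have kx' : ∀ i, σ (x' i) = x' i := fun i => by
    have := (mK _).1 (kq i)
    simpa [hq', st', (mK _).1 (ku' i)] using this
  have stb : ∀ {x u : ι → Ω} {P : Finset Ω}, (∀ s, s ∈ P ↔ aeval (x + s • u) G = 0) →
      (∀ i, σ (x i) = x i) → (∀ i, σ (u i) = u i) → ∀ a, σ a ∈ P ↔ a ∈ P := by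
    intro x u P hP sx su a
    have e : σ (aeval (x + a • u) G) = aeval (x + σ a • u) G := by
      refine (comp_aeval_apply _ (σ : Ω →ₐ[C] Ω) G).trans ?_
      congr 2
      ext i; simp [sx, su]
    rw [hP, hP, ← e, map_eq_zero_iff σ σ.injective]
  have inj : ∀ {γ t t' : Ω} {P : Finset Ω}, (∀ s ∈ P, 1 - γ * (s - t') ≠ 0) →
      Set.InjOn (fun s => t + (s - t') / (1 - γ * (s - t'))) P := fun hs a ha b hb e => by
    have := (div_eq_div_iff (hs a ha) (hs b hb)).1 (add_left_cancel e)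
    linear_combination this
  have key : ∀ {x u x' u' : ι → Ω} {t t' : Ω} {P P' : Finset Ω}, q = x + t • u →
      q = x' + t' • u' → u' = rf (grad F q) u → top G u ≠ 0 → top G u' ≠ 0 →
      (∀ s, s ∈ P ↔ aeval (x + s • u) G = 0) → (∀ s, s ∈ P' ↔ aeval (x' + s • u') G = 0) →
      (∀ i, u i ∈ K) → ∃ γ, σ γ = γ ∧ ∀ s ∈ P', 1 - γ * (s - t') ≠ 0 ∧
        t + (s - t') / (1 - γ * (s - t')) ∈ P := by
    intro x u x' u' t t' P P' hq hq' hu t0 t1 hP hP' ku
    obtain ⟨γ, h1, h2⟩ := h q u h0 hn t0 (hu ▸ t1)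
    refine ⟨γ, h1 K kq ku, fun s hs => ?_⟩
    obtain ⟨h3, h4⟩ := h2 (s - t') (by
      rw [← (hP' s).1 hs, ← hu, hq', add_assoc, ← add_smul, add_sub_cancel])
    exact ⟨h3, (hP _).2 (by rw [← h4, hq, add_smul, add_assoc])⟩
  obtain ⟨γ, a1, a2⟩ := key hq hq' hu t0 t1 hP hP' ku
  obtain ⟨γ', -, a4⟩ := key hq' hq (by rw [hu, rf_rf hn]) t1 t0 hP' hP ku'
  exact (sg_eq _ (fun s hs => (a2 s hs).2) (inj fun s hs => (a2 s hs).1)
    (Finset.card_le_card_of_injOn _ (fun s hs => (a4 s hs).2) (inj fun s hs => (a4 s hs).1))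
    (stb hP' kx' ku') (stb hP sx su) fun a _ => by simp [a1, st, st']).symm

end Pool.Agent.MP_249f74_an.H17.Cm
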