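import Pool.Agent.MP_249f74_an.H17.CmSys
import Pool.Agent.MP_249f74_an.H17.CmBer
import Pool.Agent.MP_249f74_an.H32.Bas

/-!
Chains in one mirror do not close up.
-/

open MvPolynomial Matrix

namespace Pool.Agent.MP_249f74_an.H17.Cm

open H32 (sys pos pt)

section Sp

variable {C B Ω R : Type} [Field C] [CommRing B] [Field Ω] [CommRing R] [Algebra C B]
  [Algebra C Ω] [Algebra C R] (φ : B →ₐ[C] Ω) (ψ : B →ₐ[C] R)

/-- Specialization of fractions. -/
def Spc (a : Ω) (b : R) : Prop := ∃ P Q, IsUnit (ψ Q) ∧ a * φ Q = φ P ∧ b * ψ Q = ψ P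

variable {φ ψ} {a a' : Ω} {b b' : R}

lemma spc_base (P : B) : Spc φ ψ (φ P) (ψ P) := ⟨P, 1, by simp, by simp, by simp⟩

lemma spc_alg (c : C) : Spc φ ψ (algebraMap C Ω c) (algebraMap C R c) := by
  simpa using spc_base (φ := φ) (ψ := ψ) (algebraMap C B c)

lemma Spc.add (h : Spc φ ψ a b) (h' : Spc φ ψ a' b') : Spc φ ψ (a + a') (b + b') := by
  obtain ⟨P, Q, h1, h2, h3⟩ := h
  obtain ⟨P', Q', h4, h5, h6⟩ := h'
  refine ⟨P * Q' + P' * Q, Q * Q', by simpa using ⟨h1, h4⟩, ?_, ?_⟩ <;>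
    simp only [map_add, map_mul, ← h2, ← h3, ← h5, ← h6] <;> ring

lemma Spc.mul (h : Spc φ ψ a b) (h' : Spc φ ψ a' b') : Spc φ ψ (a * a') (b * b') := by
  obtain ⟨P, Q, h1, h2, h3⟩ := h
  obtain ⟨P', Q', h4, h5, h6⟩ := h'
  refine ⟨P * P', Q * Q', by simpa using ⟨h1, h4⟩, ?_, ?_⟩ <;>
    simp only [map_mul, ← h2, ← h3, ← h5, ← h6] <;> ring

lemma Spc.neg (h : Spc φ ψ a b) : Spc φ ψ (-a) (-b) := by
  simpa using (spc_alg (-1)).mul h

lemma Spc.sub (h : Spc φ ψ a b) (h' : Spc φ ψ a' b') : Spc φ ψ (a - a') (b - b') := by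
  simpa [sub_eq_add_neg] using h.add h'.neg

lemma spc_two : Spc φ ψ 2 2 := by simpa [map_ofNat] using spc_alg (φ := φ) (ψ := ψ) 2

lemma Spc.aeval {σ : Type} {x : σ → Ω} {y : σ → R} (h : ∀ i, Spc φ ψ (x i) (y i))
    (W : MvPolynomial σ C) : Spc φ ψ (aeval x W) (aeval y W) := by
  induction W using MvPolynomial.induction_on with
  | C c => simpa using spc_alg c
  | add p q hp hq => simpa using hp.add hq
  | mul_X p i hp => simpa using hp.mul (h i)

lemma Spc.dot {σ : Type} [Fintype σ] {x x' : σ → Ω} {y y' : σ → R}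
    (h : ∀ i, Spc φ ψ (x i) (y i)) (h' : ∀ i, Spc φ ψ (x' i) (y' i)) :
    Spc φ ψ (x ⬝ᵥ x') (y ⬝ᵥ y') := by
  classical
  unfold dotProduct
  induction (Finset.univ : Finset σ) using Finset.induction_on with
  | empty => simpa using spc_alg (φ := φ) (ψ := ψ) 0
  | insert i s hi ih => simpa [hi] using ((h i).mul (h' i)).add ih

lemma Spc.uniq (hk : ∀ P, φ P = 0 → ψ P = 0) (h : Spc φ ψ a b) (h' : Spc φ ψ a b') : b = b' := by
  obtain ⟨P, Q, h1, h2, h3⟩ := h.sub h'
  rw [sub_self, zero_mul] at h2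
  rw [hk P h2.symm, h1.mul_left_eq_zero] at h3
  exact sub_eq_zero.1 h3

lemma Spc.inv [Nontrivial R] (hk : ∀ P, φ P = 0 → ψ P = 0) (h : Spc φ ψ a b) (e : b * b' = 1) :
    Spc φ ψ a⁻¹ b' := by
  obtain ⟨P, Q, h1, h2, h3⟩ := h
  have hP : IsUnit (ψ P) := h3 ▸ (IsUnit.of_mul_eq_one _ e).mul h1
  have a0 : a ≠ 0 := by
    rintro rfl
    rw [zero_mul] at h2
    exact hP.ne_zero (hk P h2.symm)
  exact ⟨Q, P, hP, by rw [← h2, inv_mul_cancel_left₀ a0], by
    rw [← h3]; linear_combination ψ Q * e⟩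

end Sp

variable {k C Ω ι : Type} [Field k] [Algebra k ℝ] [Field C] [Algebra k C] [Field Ω] [CharZero Ω]
  [Algebra C Ω] [Fintype ι] [DecidableEq ι]

/-- At a point of a generic edge the direction moves freely. -/
lemma move_dir {l : ι ⊕ ι → Ω} (hl : H42.Gen C l) {F : MvPolynomial ι C} {t : Ω}
    (h0 : aeval (pt l t) F = 0) (hu : grad F (pt l t) ⬝ᵥ H32.dir l ≠ 0) (a w : ι → Ω)
    (hw : grad F (pt l t) ⬝ᵥ w = 0) :
    ∃ θ : Derivation C Ω Ω, dv θ (pt l t) = w ∧ dv θ (H32.dir l) = a := by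
  obtain ⟨θ, -, h⟩ := H96.ext_indep ⊥ (H96.indep_bot (H32.gen_iff.1 hl)) 0
    (Sum.elim (w - t • a) a)
  have e1 : dv θ (H32.dir l) = a := funext fun i => h (.inr i)
  have e2 : dv θ (pt l t) = w + θ t • H32.dir l := by
    rw [pt, dv_add, dv_smul, e1, show dv θ (pos l) = w - t • a from funext fun i => h (.inl i)]
    abel
  have := grad_dv (θ := θ) h0
  rw [e2, dotProduct_add, hw, zero_add, dotProduct_smul, smul_eq_mul, mul_eq_zero,
    or_iff_left hu] at this
  exact ⟨θ, by simpa [this] using e2, e1⟩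

/-- The direction is independent of the point. -/
lemma pen_zero {q u : ι → Ω} (h : ∀ a, ∃ θ : Derivation C Ω Ω, dv θ q = 0 ∧ dv θ u = a)
    {W : MvPolynomial (ι ⊕ ι) C} (hW : aeval (Sum.elim q u) W = 0) {R : Type} [CommRing R]
    [Algebra C R] [Algebra Ω R] [IsScalarTower C Ω R] (v : ι → R) :
    aeval (Sum.elim (fun i => algebraMap Ω R (q i)) v) W = 0 := by
  let p : MvPolynomial (ι ⊕ ι) C →ₐ[C] MvPolynomial ι Ω :=
    aeval (Sum.elim (fun i => MvPolynomial.C (q i)) X)
  have e : ∀ {R : Type} [CommRing R] [Algebra C R] [Algebra Ω R] [IsScalarTower C Ω R] (v : ι → R)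
      (W : MvPolynomial (ι ⊕ ι) C),
      aeval v (p W) = aeval (Sum.elim (fun i => algebraMap Ω R (q i)) v) W := by
    intro R _ _ _ _ v W
    refine (comp_aeval_apply _ ((aeval v).restrictScalars C) W).trans ?_
    congr 2
    ext (i | i) <;> simp
  have := eq_zero_of_stable (C := Ω) (y := u)
    (fun P => ∃ W, aeval (Sum.elim q u) W = 0 ∧ P = p W) (by
      rintro _ ⟨W, h1, rfl⟩
      refine ⟨(e u W).trans h1, fun j => ⟨pderiv (.inr j) W, ?_, ?_⟩⟩
      · obtain ⟨θ, h2, h3⟩ := h (Pi.single j 1)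
        have := der_aeval θ (Sum.elim q u) W
        rw [h1, map_zero, Fintype.sum_sum_type] at this
        simpa [show ∀ i, θ (q i) = 0 from congrFun h2, show ∀ i, θ (u i) = _ from congrFun h3,
          Pi.single_apply] using this.symm
      · have := der_aeval ((pderiv j : Derivation Ω (MvPolynomial ι Ω) _).restrictScalars C)
          (Sum.elim (fun i => MvPolynomial.C (q i)) X) W
        simpa [Fintype.sum_sum_type, pderiv_X, Pi.single_apply] using this) _ ⟨W, hW, rfl⟩
  rw [← e, this, map_zero]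

omit [CharZero Ω] in
lemma line_two {F : MvPolynomial ι C} (hF : F.totalDegree = 2) (q u : ι → Ω) :
    line F q u = Polynomial.C (aeval q F) + Polynomial.C (grad F q ⬝ᵥ u) * Polynomial.X +
      Polynomial.C (top F u) * Polynomial.X ^ 2 := by
  have h0 : (line F q u).coeff 0 = aeval q F := by
    rw [Polynomial.coeff_zero_eq_eval_zero, eval_line]; simp
  have h1 : (line F q u).coeff 1 = grad F q ⬝ᵥ u := by
    have := eval_derivative_line F q u 0
    rw [← Polynomial.coeff_zero_eq_eval_zero, Polynomial.coeff_derivative] at this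
    simpa using this
  have h2 : (line F q u).coeff 2 = top F u := by rw [top, hF, coeff_line hF.le]
  rw [← h0, ← h1, ← h2]
  ext (_ | _ | _ | n)
  · simp
  · simp
  · simp
  · rw [coeff_line (by omega), homogeneousComponent_eq_zero _ _ (by omega)]
    simp

omit [CharZero Ω] in
lemma aeval_two {F : MvPolynomial ι C} (hF : F.totalDegree = 2) (q u : ι → Ω) (s : Ω) :
    aeval (q + s • u) F = aeval q F + grad F q ⬝ᵥ u * s + top F u * s ^ 2 := by
  rw [← eval_line, line_two hF]
  generalize aeval q F = a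
  simp

omit [CharZero Ω] in
lemma grad_two {F : MvPolynomial ι C} (hF : F.totalDegree = 2) (q u : ι → Ω) (s : Ω) :
    grad F (q + s • u) ⬝ᵥ u = grad F q ⬝ᵥ u + 2 * top F u * s := by
  rw [← eval_derivative_line, line_two hF]
  generalize aeval q F = a
  simp; ring

/-- A quadric is not contained in its tangent hyperplane. -/
lemma exists_tan [IsAlgClosed C] {F : MvPolynomial ι C} (hF : F.totalDegree = 2) {q : ι → Ω}
    (hq : ∀ P : MvPolynomial ι C, aeval q P = 0 ↔ F ∣ P) (hN : grad F q ≠ 0) :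
    ∃ u, grad F q ⬝ᵥ u = 0 ∧ top F u ≠ 0 := by
  by_contra hn
  push Not at hn
  have h0 := (hq F).2 dvd_rfl
  obtain ⟨j, hj⟩ := Function.ne_iff.1 hN
  replace hj : grad F q j ≠ 0 := hj
  have cst : ∀ a : Ω, (∀ θ : Derivation C Ω Ω, θ a = 0) → ∃ c, algebraMap C Ω c = a := fun a ha => by
    have h1 : IsAlgebraic _ a := H96.mem_cl_of_kil (S := ∅) fun θ _ => ha θ
    rw [Algebra.adjoin_empty] at h1
    have h2 : IsAlgebraic C a := h1.restrictScalars C
    exact minpoly.mem_range_of_degree_eq_one C a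
      (IsAlgClosed.degree_eq_one_of_irreducible C (minpoly.irreducible h2.isIntegral))
  have h1 : ∀ (θ : Derivation C Ω Ω) v, grad F q ⬝ᵥ v = 0 → dv θ (grad F q) ⬝ᵥ v = 0 := by
    intro θ v hv
    obtain ⟨w, hw⟩ : ∃ w, w = dv θ q := ⟨_, rfl⟩
    have w0 : grad F q ⬝ᵥ w = 0 := hw ▸ grad_dv h0
    have e1 : line (dir v (map (algebraMap C Ω) F)) q w = 0 := Polynomial.funext fun s => by
      have e2 : line F (q + s • w) v = 0 := Polynomial.funext fun r => by
        have h3 : grad F q ⬝ᵥ (s • w + r • v) = 0 := by simp [w0, hv]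
        have := aeval_two hF q (s • w + r • v) 1
        rw [h0, h3, hn _ h3, one_smul, ← add_assoc] at this
        simpa [eval_line] using this
      have := eval_derivative_line F (q + s • w) v 0
      rw [eval_line, aeval_dir, grad_map]
      simpa [e2] using this.symm
    have e3 := eval_derivative_line (dir v (map (algebraMap C Ω) F)) q w 0
    rw [e1, zero_smul, add_zero, map_zero, Polynomial.eval_zero] at e3
    rw [e3, hw]
    simp only [dotProduct, dv, grad, der_aeval, dir_apply, map_sum, pderiv_C_mul, map_mul, aeval_C,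
      pderiv_map, aeval_map_algebraMap, Finset.sum_mul]
    rw [Finset.sum_comm]
    exact Finset.sum_congr rfl fun _ _ => Finset.sum_congr rfl fun _ _ => by simp; ring
  choose c hc using fun i => cst (grad F q i / grad F q j) fun θ => by
    have := h1 θ (Pi.single i (grad F q j) - Pi.single j (grad F q i)) (by simp [mul_comm])
    simp only [dotProduct_sub, dotProduct_single, dv] at this
    rw [Derivation.leibniz_div]
    simp only [smul_eq_mul]
    linear_combination (grad F q j)⁻¹ ^ 2 * this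
  obtain ⟨d, hd⟩ := cst (∑ i, q i * algebraMap C Ω (c i)) fun θ => by
    have := grad_dv (θ := θ) h0
    simp only [map_sum, Derivation.leibniz, Derivation.map_algebraMap, smul_eq_mul, mul_zero,
      zero_add]
    simp only [hc, div_mul_eq_mul_div, ← Finset.sum_div]
    exact div_eq_zero_iff.2 (Or.inl this)
  have h2 : (aff fun o => o.elim (-d) c) ≠ 0 := fun e => by
    have := hc j
    rw [show c j = 0 from congrFun (aff_eq_zero e) (some j), div_self hj] at this
    simp at this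
  have := (totalDegree_le_of_dvd_of_isDomain ((hq _).1 (by simp [aff_eq, hd])) h2).trans
    (td_aff_le _)
  omega

theorem sys_end [IsAlgClosed C] [Nontrivial ι] : (sys k C Ω ι).END := by
  rintro m L t n hn hm ⟨st, nb⟩ g0 ⟨sd, b, sp⟩
  change ∀ i, _ → _ → H32.St m (L i) (t i) (L (i + 1)) at st
  have last : ∃ μ : Ω, pt (L (n - 1)) (t (n - 1)) =
      pt (L (-n)) (t (-n)) + μ • H32.dir (L (-n)) := by
    have := (st (n - 1) (by omega) (by omega)).pt_eq
    rw [sub_add_cancel] at this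
    exact ⟨b + t (n - 1) - t (-n), by rw [← this, pt, sp, sd, pt, pt]; module⟩
  obtain ⟨μ, hμ⟩ := last
  rcases hm with rfl | hq
  · have s := st (-1) le_rfl (by omega)
    have h1 := nb (-1) le_rfl (by omega)
    norm_num at s h1 hμ
    have s' := s.symm
    obtain ⟨i, j, hij⟩ := exists_pair_ne ι
    have e1 : (t 0 - t (-1)) • H32.dir (L 0) = μ • H32.dir (L (-1)) := by
      rw [← s.pt_eq, pt, pt] at hμ
      linear_combination (norm := module) hμ
    have t0 : t 0 - t (-1) ≠ 0 := sub_ne_zero.2 (Ne.symm h1)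
    have e2 := congrArg (grad m.f (pt (L 0) (t (-1))) ⬝ᵥ ·) e1
    simp only [s'.dir_eq, dotProduct_smul, dot_rf s'.nn, smul_eq_mul, mul_neg, ← neg_mul] at e2
    have e3 := mul_right_cancel₀ s'.nu e2
    refine s'.nn (show _ = _ from ?_)
    suffices grad m.f (pt (L 0) (t (-1))) = 0 by simp [this]
    ext i
    obtain ⟨j, hj⟩ := exists_ne i
    have e4 : ∀ i, 2 * H32.dir (L 0) i = 2 * (grad m.f (pt (L 0) (t (-1))) ⬝ᵥ H32.dir (L 0)) /
        (grad m.f (pt (L 0) (t (-1))) ⬝ᵥ grad m.f (pt (L 0) (t (-1)))) *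
        grad m.f (pt (L 0) (t (-1))) i := fun i => by
      have := congrFun e1 i
      rw [s'.dir_eq, show μ = -(t 0 - t (-1)) by rw [e3, neg_neg], rf] at this
      simp only [Pi.smul_apply, Pi.sub_apply, smul_eq_mul] at this
      exact mul_left_cancel₀ t0 (by linear_combination this)
    have := pen_zero (fun a => move_dir g0 s'.zero s'.nu a 0 (by simp))
      (W := rename Sum.inl (pderiv i m.f) * X (.inr j) - rename Sum.inl (pderiv j m.f) * X (.inr i))
      (by
        simp only [map_sub, map_mul, aeval_rename, aeval_X, Sum.elim_comp_inl, Sum.elim_inr]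
        have h2 := e4 i
        have h3 := e4 j
        simp only [grad] at h2 h3
        linear_combination (1 / 2 : Ω) * (aeval (pt (L 0) (t (-1))) (pderiv i m.f) * h3 -
          aeval (pt (L 0) (t (-1))) (pderiv j m.f) * h2)) (R := Ω) (Pi.single j 1)
    simpa [aeval_rename, grad, hj.symm] using this
  have gen : ∀ i, -n ≤ i → i ≤ n → H42.Gen C (L i) := fun i h1 h2 => by
    induction i using Int.induction_on with
    | zero => exact g0
    | succ i ih => exact (st i (by omega) (by omega)).gen (ih (by omega) (by omega))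
    | pred i ih =>
      have := (st (-i - 1) h1 (by omega)).symm
      rw [sub_add_cancel] at this
      exact this.gen (ih (by omega) (by omega))
  replace hq : m.f.totalDegree = 2 := hq
  have s0 := st (-n) le_rfl (by omega)
  obtain ⟨q, eq⟩ : ∃ q, q = pt (L (-n)) (t (-n)) := ⟨_, rfl⟩
  obtain ⟨u, eu⟩ : ∃ u, u = H32.dir (L (-n)) := ⟨_, rfl⟩
  have on := H32.gen_on (gen (-n) le_rfl (by omega)) s0.zero
  have nn := s0.nn
  have mv := fun a => move_dir (gen (-n) le_rfl (by omega)) s0.zero s0.nu a 0 (by simp)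
  rw [← eq] at on nn mv hμ
  rw [← eu] at mv hμ
  obtain ⟨v, hv, hκ⟩ := exists_tan hq on on.grad_ne
  let z : ι ⊕ ι → DualNumber Ω := Sum.elim (fun i => algebraMap Ω _ (q i)) fun i =>
    TrivSqZeroExt.inl (v i) + TrivSqZeroExt.inr (grad m.f q i / (grad m.f q ⬝ᵥ grad m.f q))
  let φ : MvPolynomial (ι ⊕ ι) C →ₐ[C] Ω := aeval (Sum.elim q u)
  let ψ : MvPolynomial (ι ⊕ ι) C →ₐ[C] DualNumber Ω := aeval z
  have hk : ∀ P, φ P = 0 → ψ P = 0 := fun P h => pen_zero mv h _
  have fst : ∀ (y : ι → DualNumber Ω) (W : MvPolynomial ι C),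
      (aeval y W).fst = aeval (fun i => (y i).fst) W := fun y W =>
    comp_aeval_apply _ ((TrivSqZeroExt.fstHom Ω Ω Ω).restrictScalars C) W
  have inv : ∀ {a : Ω} {b : DualNumber Ω}, Spc φ ψ a b → b.fst ≠ 0 →
      ∃ b' : DualNumber Ω, Spc φ ψ a⁻¹ b' ∧ b'.fst = b.fst⁻¹ := fun {a b} h hb => by
    obtain ⟨w, rfl⟩ := TrivSqZeroExt.isUnit_iff_isUnit_fst.2 hb.isUnit
    refine ⟨_, h.inv hk w.mul_inv, eq_inv_of_mul_eq_one_right ?_⟩
    rw [← TrivSqZeroExt.fst_mul, w.mul_inv, TrivSqZeroExt.fst_one]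
  have sq : ∀ i, Spc φ ψ (q i) (z (.inl i)) := fun i => by
    simpa [φ, ψ] using spc_base (φ := φ) (ψ := ψ) (X (.inl i))
  have su : ∀ i, Spc φ ψ (u i) (z (.inr i)) := fun i => by
    simpa [φ, ψ] using spc_base (φ := φ) (ψ := ψ) (X (.inr i))
  have sJ : Spc φ ψ (grad m.f q ⬝ᵥ u) (TrivSqZeroExt.inr 1) := by
    have e : ∀ i, aeval (fun i => z (.inl i)) (pderiv i m.f) =
        TrivSqZeroExt.inl (grad m.f q i) := fun i =>
      (comp_aeval_apply q (IsScalarTower.toAlgHom C Ω (DualNumber Ω)) _).symm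
    have h := Spc.dot (fun i => Spc.aeval sq (pderiv i m.f)) su
    rwa [show ((fun i => aeval (fun i => z (.inl i)) (pderiv i m.f)) ⬝ᵥ fun i => z (.inr i)) =
      TrivSqZeroExt.inr 1 from TrivSqZeroExt.ext ?_ ?_] at h
    · simp only [e]
      simpa [dotProduct, z, TrivSqZeroExt.fst_sum] using hv
    · simp only [e]
      simp [dotProduct, z, TrivSqZeroExt.snd_sum, ← mul_div_assoc, ← Finset.sum_div]
      exact nn
  have mov : ∀ {w : ι → Ω} {w' : ι → DualNumber Ω}, (∀ i, Spc φ ψ (w i) (w' i)) →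
      (∀ i, (w' i).fst = v i) → Spc φ ψ ((grad m.f q ⬝ᵥ u) * (top m.f w)⁻¹)
        (TrivSqZeroExt.inr (top m.f v)⁻¹) := fun {w w'} h1 h2 => by
    have h3 : (aeval w' (homogeneousComponent m.f.totalDegree m.f)).fst = top m.f v := by
      simp only [fst, h2, top]
    obtain ⟨b', h4, h5⟩ := inv (Spc.aeval h1 _) (h3 ▸ hκ)
    have h := sJ.mul h4
    rwa [show TrivSqZeroExt.inr 1 * b' = TrivSqZeroExt.inr (top m.f v)⁻¹ from
      TrivSqZeroExt.ext (by simp) (by simp [h5, h3])] at h
  have key : ∀ j : ℕ, -n + j < n → grad m.f (pt (L (-n + j)) (t (-n + j))) ⬝ᵥ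
      H32.dir (L (-n + j)) = grad m.f q ⬝ᵥ u ∧
      (∀ i, Spc φ ψ (pt (L (-n + j)) (t (-n + j)) i)
        (TrivSqZeroExt.inl (q i) + TrivSqZeroExt.inr (j * (top m.f v)⁻¹ * v i))) ∧
      ∃ w' : ι → DualNumber Ω, (∀ i, Spc φ ψ (H32.dir (L (-n + j)) i) (w' i)) ∧
        ∀ i, (w' i).fst = v i := by
    intro j
    induction j with
    | zero =>
      simp only [Nat.cast_zero, add_zero, ← eq, ← eu]
      exact fun _ => ⟨trivial, fun i => by simpa [z, TrivSqZeroExt.algebraMap_eq_inl] using sq i,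
        _, su, fun i => by simp [z]⟩
    | succ j ih =>
      intro hj
      obtain ⟨a1, a2, w', a3, a4⟩ := ih (by omega)
      rw [Nat.cast_succ, ← add_assoc] at hj ⊢
      have s := st (-n + j) (by omega) (by omega)
      have s' := st (-n + j + 1) (by omega) hj
      have t0 := sub_ne_zero.2 (nb (-n + j) (by omega) hj).symm
      have g := fun i => Spc.aeval a2 (pderiv i m.f)
      obtain ⟨b', b1, -⟩ := inv (Spc.dot g g) (by
        simpa [dotProduct, TrivSqZeroExt.fst_sum, fst, grad] using nn)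
      have b2 : ∀ i, Spc φ ψ (H32.dir (L (-n + j + 1)) i) _ := fun i => by
        rw [s.dir_eq, rf, a1, div_eq_mul_inv]
        exact (a3 i).sub (((spc_two.mul sJ).mul b1).mul (g i))
      have e1 : pt (L (-n + j + 1)) (t (-n + j + 1)) = pt (L (-n + j)) (t (-n + j)) +
          (t (-n + j + 1) - t (-n + j)) • H32.dir (L (-n + j + 1)) := by
        rw [← s.pt_eq, pt, pt]; module
      have e2 : grad m.f (pt (L (-n + j)) (t (-n + j))) ⬝ᵥ H32.dir (L (-n + j + 1)) =
          -(grad m.f q ⬝ᵥ u) := by rw [s.dir_eq, dot_rf s.nn, a1]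
      have e3 := s'.zero
      rw [e1, aeval_two hq, s.zero, e2] at e3
      have e4 : top m.f (H32.dir (L (-n + j + 1))) * (t (-n + j + 1) - t (-n + j)) =
          grad m.f q ⬝ᵥ u := mul_right_cancel₀ t0 (by linear_combination e3)
      have b3 := mov b2 fun i => by simp [a4]
      rw [← (eq_mul_inv_iff_mul_eq₀ (top_gen (gen _ (by omega) hj.le) m.prime.ne_zero)).2
        ((mul_comm _ _).trans e4)] at b3
      refine ⟨by rw [e1, grad_two hq, e2]; linear_combination 2 * e4, fun i => ?_, _, b2,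
        fun i => by simp [a4]⟩
      have h := (a2 i).add (b3.mul (b2 i))
      rw [e1]
      refine Eq.mp (congrArg (Spc φ ψ _) (TrivSqZeroExt.ext ?_ ?_)) h
      · simp
      · simp [a4]; ring
  obtain ⟨j, hj⟩ : ∃ j : ℕ, -n + j = n - 1 := ⟨(2 * n - 1).toNat, by omega⟩
  obtain ⟨-, a2, -⟩ := key j (by omega)
  rw [hj, hμ] at a2
  have e3 := (st (n - 1) (by omega) (by omega)).zero
  rw [hμ, aeval_two hq, on.zero] at e3
  obtain ⟨i, hi⟩ : ∃ i, v i ≠ 0 := Function.ne_iff.1 fun e : v = 0 =>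
    hκ (top_eq_zero (x := q) fun s => by simpa [e] using on.zero)
  have j0 : 0 < j := by omega
  rcases eq_or_ne μ 0 with rfl | h0
  · have := congrArg TrivSqZeroExt.snd (Spc.uniq hk (by simpa using a2 i) (sq i))
    simp [z, hκ, hi, j0.ne', TrivSqZeroExt.algebraMap_eq_inl] at this
  · have e4 : μ = -(grad m.f q ⬝ᵥ u * (top m.f u)⁻¹) := by
      have := top_gen (gen (-n) le_rfl (by omega)) m.prime.ne_zero
      rw [← eu] at this
      field_simp
      exact mul_right_cancel₀ h0 (by linear_combination e3)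
    have b3 := (mov su fun i => by simp [z]).neg
    rw [← e4] at b3
    have := congrArg TrivSqZeroExt.snd (Spc.uniq hk (a2 i) ((sq i).add (b3.mul (su i))))
    simp [z, TrivSqZeroExt.algebraMap_eq_inl] at this
    refine mul_ne_zero (mul_ne_zero (Nat.cast_add_one_ne_zero j) (inv_ne_zero hκ)) hi ?_
    linear_combination this

end Pool.Agent.MP_249f74_an.H17.Cm
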