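import Pool.Agent.MP_249f74_an.H18.Spec
import Pool.Agent.MP_249f74_an.H27.Tan
import Pool.Agent.MP_249f74_an.H65.Inv
import Pool.Agent.MP_249f74_an.H40.Tay

/-!
A good tangent direction gives an invariant component of the tangent complex.
-/

open MvPolynomial Matrix Set

namespace Pool.Agent.MP_249f74_an.H17.Cm

open H32 (edge pt pos dir St Tl)
open H42 (Cur)
open H65 (Lin Pc pen lin mkD Sq)
open H18 (TP Cls Hs)
open H88 (cl rk subset_cl)

variable {k C K Ω ι : Type} [Field k] [Algebra k ℝ] [Field C] [Algebra k C] [Field K] [Field Ω]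
  [Algebra C K] [Algebra K Ω] [Algebra C Ω] [IsScalarTower C K Ω] [Fintype ι]

/-- The equation of the tangent complex generates the ideal of a generic tangent edge. -/
lemma tp_ker [CharZero C] {m : H32.Mir k C ι} {P : MvPolynomial (ι ⊕ ι) C} (hP : TP m P)
    {l : ι ⊕ ι → Ω} (hl : Tl m l) (F : MvPolynomial (ι ⊕ ι) C) : H42.ev l F = 0 ↔ P ∣ F :=
  H32.ker_of_rk hP.prime (hP.tn.tl hP.lin hl) (H32.cur_iff_rk.1 hl.1).ge F

/-- Generic zeros of the equation of the tangent complex are tangent edges. -/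
lemma tp_tl [CharZero C] [IsAlgClosed Ω] {m : H32.Mir k C ι} {P : MvPolynomial (ι ⊕ ι) C}
    (hP : TP m P) {l l' : ι ⊕ ι → Ω} (hl : Tl m l) (hc : Cur C l') (h0 : H42.ev l' P = 0) :
    Tl m l' := by
  obtain ⟨σ, rfl⟩ := H42.conj (l := l) (l' := l') fun F => (tp_ker hP hl F).trans
    (H32.ker_of_rk hP.prime h0 (H32.cur_iff_rk.1 hc).ge F).symm
  obtain ⟨t, ht⟩ := H27.tl_iff.1 hl
  exact H27.tl_iff.2 ⟨_, ht.map σ⟩

/-- A generic edge through a generic point. -/
lemma pc_of_ind {m : H32.Mir k C ι} {q : ι → K} (hq : m.On q) {y : Option ι → Ω}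
    (hy : AlgebraicIndependent K y) : Pc m q (fun i => y (some i)) (y none) := by
  classical
  have h1 : AlgebraicIndependent K fun i => y (some i) := hy.comp _ (Option.some_injective _)
  refine ⟨hq, h1, H32.gen_iff_rk.2 ?_⟩
  have h2 : m.On fun i => algebraMap K Ω (q i) := fun p => by
    rw [H65.aeval_alg, map_eq_zero, hq]
  have h5 := H32.st_edge (m := m) (t := y none)
    (l := edge (fun i => algebraMap K Ω (q i)) (fun i => y (some i)) (y none))
    (by simpa using h2.zero) (by simpa using h2.nn) fun h => hq.grad_ne (H65.lin_eq_zero (by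
      rw [H32.pt_edge, H32.dir_edge, H65.Pc.grad_alg] at h
      rw [← map_eq_zero_iff _ h1, H65.aeval_lin]
      exact h))
  have h6 := h2.rk
  obtain ⟨n, hn⟩ := ENat.ne_top_iff_exists.1 (H32.rk_ne_top (C := C) fun i => algebraMap K Ω (q i))
  obtain ⟨J, hJ, h7⟩ := (H88.le_rk_iff _ n).1 hn.le
  have h8 := H32.gen_iff_rk.1 (H32.gen_iff.2 (h7.sumElim_of_tower
    (by rintro _ ⟨i, rfl⟩; exact ⟨_, rfl⟩) hy))
  have h9 := fun i => subset_cl (k := C) _ (mem_range_self
    (f := edge (fun i => algebraMap K Ω (q i)) (fun i => y (some i)) (y none)) i)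
  have h10 := H32.mem_cl_of_pts h5.mem
  refine le_trans ?_ (h8.trans (H88.rk_le ?_))
  · rw [← hn] at h6
    rw [Fintype.card_sum, Fintype.card_sum, Fintype.card_coe, hJ, Fintype.card_option]
    push_cast
    rw [add_assoc, add_comm 1, h6]
  · rintro _ ⟨(_ | i) | i, rfl⟩
    · exact h10
    · exact h9 (Sum.inr i)
    · simpa using H32.pt_mem_cl h9 h10 i

lemma lin_right {A Q : MvPolynomial (ι ⊕ ι) C} (h : Lin (A * Q)) (hA : Lin A) (A0 : A ≠ 0) :
    Lin Q := by
  have : ∀ i, X (Sum.inr i) * pderiv (Sum.inl i) (A * Q) =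
      A * (X (Sum.inr i) * pderiv (Sum.inl i) Q) + Q * (X (Sum.inr i) * pderiv (Sum.inl i) A) :=
    fun i => by rw [Derivation.leibniz, smul_eq_mul, smul_eq_mul]; ring
  rw [Lin] at *
  simp only [this, Finset.sum_add_distrib, ← Finset.mul_sum, hA, mul_zero, add_zero] at h
  exact (mul_eq_zero.1 h).resolve_left A0

lemma lin_pow {A : MvPolynomial (ι ⊕ ι) C} (hA : Lin A) (n : ℕ) : Lin (A ^ n) := by
  induction n with
  | zero => simp [Lin]
  | succ n ih => exact pow_succ A n ▸ ih.mul hA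

/-- The flow along the lines of the pencil at a generic point. -/
lemma ex_flow [CharZero K] {m : H32.Mir k C ι} {q : ι → K} (hq : m.On q) :
    ∃ (g : MvPolynomial ι K) (c : K) (D : Derivation C (MvPolynomial ι K) (MvPolynomial ι K)),
      lin (grad m.f q) = MvPolynomial.C c * g ∧ c ≠ 0 ∧
      (∀ F : MvPolynomial (ι ⊕ ι) C, Lin F → ∃ s, Sq D g s ∧ s 0 = pen q F) ∧
      ∀ u : ι → K, grad m.f q ⬝ᵥ u = 0 → c * aeval u (D g) = Hs m.f q u u := by
  classical
  obtain ⟨e, h0⟩ := Function.ne_iff.1 hq.grad_ne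
  have h0 : grad m.f q e ≠ 0 := h0
  obtain ⟨w, hw⟩ : ∃ w, w = fun i => grad m.f q i / grad m.f q e := ⟨_, rfl⟩
  have h1 := fun j => H65.ex_tan hq (v := fun i => (if i = j then 1 else 0) -
    if i = e then w j else 0) (by simp [hw, mul_sub, mul_div_cancel₀ _ h0])
  choose d hd using h1
  have h2 : ∀ i, mkD d X 0 (MvPolynomial.C (q i)) = X i - if i = e then lin w else 0 := fun i => by
    rw [H65.mkD_C']
    by_cases h : i = e <;> simp [lin, hd, h, sub_mul, Finset.sum_sub_distrib, apply_ite]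
  have h3 : ∀ F : MvPolynomial (ι ⊕ ι) C, Lin F →
      mkD d X 0 (pen q F) = -lin w * pen q (pderiv (Sum.inl e) F) := fun F h => by
    rw [pen, H65.chain_ev]
    simp only [h2, H65.mkD_X, mul_sub, Finset.sum_sub_distrib, h.ev]
    simp [mul_comm]
  have h4 : lin (grad m.f q) = MvPolynomial.C (grad m.f q e) * lin w := by
    rw [← H65.lin_mul]
    simp only [hw, mul_div_cancel₀ _ h0]
  refine ⟨lin w, _, mkD d X 0, h4, h0, fun F hF =>
    ⟨fun i => pen q ((pderiv (Sum.inl e))^[i] F), fun i => ?_, rfl⟩, fun u hu => ?_⟩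
  · simp only [Function.iterate_succ_apply']
    refine h3 _ ?_
    induction i with
    | zero => exact hF
    | succ i ih => rw [Function.iterate_succ_apply']; exact ih.pderiv e
  · have h5 : aeval u (lin w) = 0 := by
      have := congrArg (aeval u) h4
      rw [H65.aeval_lin, map_mul, aeval_C] at this
      exact (mul_eq_zero.1 (this.symm.trans hu)).resolve_left h0
    have h6 : ∀ i, aeval u (mkD d X 0 (MvPolynomial.C (grad m.f q i))) =
        ∑ j, aeval q (pderiv j (pderiv i m.f)) * u j := fun i => by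
      have := H65.chain (mkD d X 0) (fun i => MvPolynomial.C (q i)) (pderiv i m.f)
      have h8 : ∀ p : MvPolynomial ι C, aeval (fun i => (MvPolynomial.C (q i) : MvPolynomial ι K)) p
        = MvPolynomial.C (aeval q p) := aeval_algebraMap_apply (MvPolynomial ι K) q
      simp only [h8, h2] at this
      rw [grad, this, map_sum]
      refine Finset.sum_congr rfl fun j _ => ?_
      rw [map_mul, aeval_C, map_sub, aeval_X, apply_ite (aeval u), h5, map_zero, ite_self, sub_zero]
      rfl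
    have h7 := congrArg (fun a => aeval u (mkD d X 0 a)) h4
    simp only [Derivation.leibniz, smul_eq_mul, map_add, map_mul, h5, zero_mul, add_zero,
      aeval_C] at h7
    rw [lin, map_sum, map_sum] at h7
    refine h7.symm.trans (Finset.sum_congr rfl fun i _ => ?_)
    simp only [Derivation.leibniz, smul_eq_mul, map_mul, H65.mkD_X, Pi.zero_apply,
      mul_zero, zero_add, aeval_X, h6, Finset.mul_sum]
    exact Finset.sum_congr rfl fun j _ => by ring

theorem good [IsAlgClosed C] [CharZero C] [DecidableEq ι] : H18.GOOD k C ι := by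
  intro m m' H P _ hne hH hP hb
  simp only [H18.Bad, not_forall] at hb
  obtain ⟨B, _, _, q, u, hq, hu, h0, hh⟩ := hb
  have : CharZero B := charZero_of_injective_algebraMap (algebraMap C B).injective
  let Ω := AlgebraicClosure (FractionRing (MvPolynomial (Option ι) B))
  have : CharZero Ω := charZero_of_injective_algebraMap (algebraMap B Ω).injective
  have hy : AlgebraicIndependent B fun o => algebraMap (MvPolynomial (Option ι) B) Ω (X o) :=
    (MvPolynomial.algebraicIndependent_X (Option ι) B).map'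
      (f := IsScalarTower.toAlgHom B (MvPolynomial (Option ι) B) Ω)
      ((algebraMap (FractionRing (MvPolynomial (Option ι) B)) Ω).injective.comp
        (IsFractionRing.injective _ _))
  have pc := pc_of_ind hq hy
  generalize (algebraMap (MvPolynomial (Option ι) B) Ω (X none)) = t at pc
  generalize (fun i => algebraMap (MvPolynomial (Option ι) B) Ω (X (some i))) = y at pc
  obtain ⟨l0, hl0⟩ := H27.tl_ex pc.gen m'
  obtain ⟨a, Q, hQ, rfl⟩ := WfDvdMonoid.max_power_factor hH.ne hP.prime.irreducible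
  have a0 : a ≠ 0 := by
    rintro rfl
    exact hQ (by simpa using (tp_ker hP hl0 _).1 (hH.tn.tl hH.lin hl0))
  have l1 := lin_pow hP.lin a
  have l2 := lin_right hH.lin l1 (pow_ne_zero _ hP.prime.ne_zero)
  have h1 : ∀ ψ, Prime ψ → ψ ∣ pen q P → ¬ ψ ∣ lin (grad m.f q) := fun ψ hψ e1 e2 => by
    have e3 := (hψ.associated_of_dvd pc.g_prime e2).symm.dvd.trans e1
    have e4 := H27.tg_of_gen (m := m) (t := t) pc.gen (by simpa using pc.on'.zero)
    obtain ⟨s, e5⟩ := H27.tl_iff.1 (tp_tl hP hl0 e4.cur (by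
      obtain ⟨E, hE⟩ := e3
      have e6 := e4.tan
      rw [hP.lin.edge, H32.pt_edge, ← H65.aeval_pen, hE, map_mul, H65.aeval_lin]
      rw [H32.pt_edge, H32.dir_edge, H32.pt_edge] at e6
      exact mul_eq_zero_of_left (by rw [← e6, H65.Pc.grad_alg]; rfl) _))
    exact hne (e4.uniq e5).1
  have h2 : IsRelPrime (pen q (P ^ a)) (pen q Q) := by
    refine (UniqueFactorizationMonoid.isRelPrime_iff_no_prime_factors
      (pc.pen_ne l1 (pow_ne_zero _ hP.prime.ne_zero))).2 fun ψ e1 e2 hψ => hQ ?_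
    rw [map_pow] at e1
    have e3 := hψ.dvd_of_dvd_pow e1
    obtain ⟨v, s, -, e4, -, -, -, e5⟩ := pc.cur hψ (h1 ψ hψ e3)
    exact (H32.ker_of_rk hP.prime (by rw [hP.lin.edge, ← H65.aeval_pen, e4]; exact e3) e5 Q).1
      (by rw [l2.edge, ← H65.aeval_pen, e4]; exact e2)
  have h3 : H65.rf (grad m.f q) (pen q (P ^ a * Q)) = pen q (P ^ a * Q) := pc.ind (by
    rw [H65.aeval_rf, H65.aeval_pen, H65.aeval_pen, ← H65.Pc.grad_alg]
    exact hH.iv Ω _ _ pc.on'.zero pc.on'.nn)
  obtain ⟨g, c, D, g1, c0, g2, g3⟩ := ex_flow hq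
  obtain ⟨s1, s2, s3⟩ := g2 _ l1
  obtain ⟨t1, t2, t3⟩ := g2 _ l2
  have g4 : aeval u g = 0 := by
    have := congrArg (aeval u) g1
    rw [H65.aeval_lin, map_mul, aeval_C] at this
    exact (mul_eq_zero.1 (this.symm.trans hu)).resolve_left c0
  have : (RingHom.ker (aeval u : MvPolynomial ι B →ₐ[B] B)).IsPrime := RingHom.ker_isPrime _
  obtain ⟨r, r1, r2⟩ := H40.ug_abs (p := RingHom.ker (aeval u : MvPolynomial ι B →ₐ[B] B))
    (D := D) (g := g) g4 (fun e => hh (by rw [← g3 u hu, RingHom.mem_ker.1 e, mul_zero]))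
    (H65.rf (grad m.f q)).toRingHom
    (fun x => (Dvd.intro_left _ g1.symm).trans (H65.Gr.rf_sub x))
    (mul_left_cancel₀ (C_ne_zero.2 c0) (by
      have := H65.rf_lin pc.nn
      rw [g1, map_mul, H65.rf, aeval_C] at this
      exact this.trans (mul_neg _ _).symm)) s2 t2 (by rw [s3, t3, ← map_mul (pen q)]; exact h3)
    fun x hx => by rw [s3, t3] at *; exact h2.dvd_of_dvd_mul_right hx
  obtain ⟨ψ, hψ, p1, p2⟩ := H32.exists_prime (l := u) (pc.pen_ne hP.lin hP.prime.ne_zero)
    ((H65.aeval_pen q u P).trans h0)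
  have p3 : ψ ∣ H65.rf (grad m.f q) (pen q P) := by
    rw [s3, map_pow, map_pow] at r2
    exact hψ.dvd_of_dvd_pow ((hψ.dvd_or_dvd ((p1.trans (dvd_pow_self _ a0)).trans r2)).resolve_left
      fun ⟨z, hz⟩ => r1 (by rw [RingHom.mem_ker, hz, map_mul]; exact mul_eq_zero_of_left p2 _))
  obtain ⟨v, s, -, e1, -, -, e2, e3⟩ := pc.cur hψ (h1 ψ hψ p1)
  have e4 : H42.ev (edge (fun i => algebraMap B Ω (q i)) v s) P = 0 := by
    rw [hP.lin.edge, ← H65.aeval_pen, e1]; exact p1
  have e5 := H32.cur_iff_rk.2 (le_antisymm (H32.rk_lt hP.prime.ne_zero e4) e3)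
  exact ⟨Ω, inferInstance, inferInstance, inferInstance, _, _, _, tp_tl hP hl0 e5 e4, e2,
    tp_tl hP hl0 (e2.cur e5) (by rw [hP.lin.edge, ← H65.aeval_pen, ← H65.aeval_rf, e1]; exact p3)⟩

end Pool.Agent.MP_249f74_an.H17.Cm
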