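import Pool.Agent.MP_249f74_an.H17.CmGen

/-!
Normal form of paths of reflections.
-/

open MvPolynomial Matrix

namespace Pool.Agent.MP_249f74_an.H17.Cm

section Abs

variable {M E P : Type} (St : M → E → P → E → Prop)

/-- Paths of length `n` from `l` to `l'`. -/
structure Pa (l l' : E) (n : ℕ) (m : ℕ → M) (L : ℕ → E) (p : ℕ → P) : Prop where
  st : ∀ i, i < n → St (m i) (L i) (p i) (L (i + 1))
  l0 : L 0 = l
  ln : L n = l'

/-- Equal letters that are separated only by letters that commute with them are adjacent. -/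
def Red (Cm : M → M → Prop) (n : ℕ) (m : ℕ → M) : Prop :=
  ∀ i j, i < j → j < n → m i = m j → (∀ k, i < k → k < j → Cm (m i) (m k)) → j = i + 1

variable {St} {ok : E → Prop} {Cm : M → M → Prop} {l l' : E} {n : ℕ} {m : ℕ → M} {L : ℕ → E}
  {p : ℕ → P}

lemma Pa.good (hok : ∀ m l p l', ok l → St m l p l' → ok l') (h : Pa St l l' n m L p) (h0 : ok l) :
    ∀ i, i ≤ n → ok (L i)
  | 0, _ => h.l0 ▸ h0
  | i + 1, hi => hok _ _ _ _ (h.good hok h0 i (by omega)) (h.st i hi)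

lemma Pa.shorten (h : Pa St l l' (n + 2) m L p) {i : ℕ} (hi : i ≤ n) (he : L (i + 2) = L i) :
    Pa St l l' n (fun j => if j < i then m j else m (j + 2))
      (fun j => if j < i then L j else L (j + 2)) (fun j => if j < i then p j else p (j + 2)) := by
  refine ⟨fun j hj => ?_, ?_, by simp [hi.not_gt, h.ln]⟩
  · by_cases h1 : j < i
    · simp only [if_pos h1]
      by_cases h2 : j + 1 < i
      · rw [if_pos h2]; exact h.st j (by omega)
      · obtain rfl : i = j + 1 := by omega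
        rw [if_neg h2, he]; exact h.st j (by omega)
    · simp only [if_neg h1, if_neg (show ¬j + 1 < i by omega)]
      exact h.st (j + 2) (by omega)
  · by_cases h1 : 0 < i
    · simp [h1, h.l0]
    · obtain rfl : i = 0 := by omega
      simpa [he] using h.l0

lemma Pa.pull (hok : ∀ m l p l', ok l → St m l p l' → ok l')
    (swap : ∀ m m' l0 p l1 p' l2, ok l0 → Cm m m' → St m l0 p l1 → St m' l1 p' l2 →
      ∃ r l r', St m' l0 r l ∧ St m l r' l2) (h0 : ok l) {i : ℕ} (d : ℕ) :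
    ∀ {m : ℕ → M} {L : ℕ → E} {p : ℕ → P}, Pa St l l' n m L p → i + d < n →
      (∀ k, i ≤ k → k < i + d → Cm (m k) (m (i + d))) →
      ∃ m' L' p', Pa St l l' n m' L' p' ∧ (∀ k, k < i → m' k = m k) ∧ m' i = m (i + d) := by
  induction d with
  | zero => exact fun h _ _ => ⟨_, _, _, h, fun _ _ => rfl, rfl⟩
  | succ d ih =>
    intro m L p h hd hc
    rw [← Nat.add_assoc] at hd hc ⊢
    obtain ⟨r, τ, r', a, b⟩ := swap _ _ _ _ _ _ _ (h.good hok h0 (i + d) (by omega))
      (hc (i + d) (by omega) (by omega)) (h.st (i + d) (by omega)) (h.st (i + d + 1) hd)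
    have h' : Pa St l l' n (fun j => if j = i + d then m (i + d + 1) else
        if j = i + d + 1 then m (i + d) else m j) (fun j => if j = i + d + 1 then τ else L j)
        (fun j => if j = i + d then r else if j = i + d + 1 then r' else p j) := by
      refine ⟨fun j hj => ?_, by simp [h.l0], by simp [show n ≠ i + d + 1 by omega, h.ln]⟩
      by_cases h1 : j = i + d
      · subst h1; simpa using a
      · by_cases h2 : j = i + d + 1
        · subst h2; simpa using b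
        · simpa [h1, h2] using h.st j hj
    obtain ⟨m', L', p', h1, h2, h3⟩ := ih h' (by omega) fun k h1 h2 => by
      simpa [h2.ne, show k ≠ i + d + 1 by omega] using hc k h1 (by omega)
    refine ⟨m', L', p', h1, fun k hk => ?_, by simpa using h3⟩
    simp [h2 k hk, show k ≠ i + d by omega, show k ≠ i + d + 1 by omega]

lemma Pa.red (hok : ∀ m l p l', ok l → St m l p l' → ok l') (cs : ∀ m m', Cm m m' → Cm m' m)
    (ci : ∀ m, ¬Cm m m)
    (swap : ∀ m m' l0 p l1 p' l2, ok l0 → Cm m m' → St m l0 p l1 → St m' l1 p' l2 →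
      ∃ r l r', St m' l0 r l ∧ St m l r' l2) (h0 : ok l) (h : Pa St l l' n m L p) :
    ∃ m' L' p', Pa St l l' n m' L' p' ∧ Red Cm n m' := by
  have wf : WellFounded (Pi.Lex (· < ·) fun {_ : Fin n} => (WellOrderingRel : M → M → Prop)) :=
    Pi.Lex.wellFounded _ fun _ => IsWellFounded.wf
  obtain ⟨w, ⟨m, L, p, h, rfl⟩, hw⟩ := wf.has_min
    {w | ∃ m L p, Pa St l l' n m L p ∧ w = fun i : Fin n => m i} ⟨_, m, L, p, h, rfl⟩
  refine ⟨m, L, p, h, fun i j hij hj e hc => ?_⟩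
  have key : ∀ i d, i + d < n → (∀ k, i ≤ k → k < i + d → Cm (m k) (m (i + d))) →
      ¬WellOrderingRel (m (i + d)) (m i) := fun i d h1 h2 h3 => by
    obtain ⟨m', L', p', h4, h5, h6⟩ := h.pull hok swap h0 d h1 h2
    exact hw _ ⟨m', L', p', h4, rfl⟩ ⟨⟨i, by omega⟩, fun k hk => h5 k hk, h6 ▸ h3⟩
  by_contra hn
  have c1 := hc (i + 1) (by omega) (by omega)
  rcases trichotomous_of WellOrderingRel (m (i + 1)) (m i) with h1 | h1 | h1
  · exact key i 1 (by omega) (fun k h2 h3 => by rwa [show k = i by omega]) h1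
  · exact ci _ (h1 ▸ c1)
  · obtain ⟨d, rfl⟩ : ∃ d, j = i + 1 + d := ⟨j - (i + 1), by omega⟩
    exact key (i + 1) d hj (fun k h2 h3 => e ▸ cs _ _ (hc k h2 h3)) (e ▸ h1)

/-- Every path can be replaced by a reduced path without backtracking. -/
theorem Pa.sort (hok : ∀ m l p l', ok l → St m l p l' → ok l') (cs : ∀ m m', Cm m m' → Cm m' m)
    (ci : ∀ m, ¬Cm m m)
    (swap : ∀ m m' l0 p l1 p' l2, ok l0 → Cm m m' → St m l0 p l1 → St m' l1 p' l2 →
      ∃ r l r', St m' l0 r l ∧ St m l r' l2)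
    (back : ∀ m m' l0 p l1 l2, ok l0 → St m l0 p l1 → St m' l1 p l2 → l2 = l0) (h0 : ok l)
    (h : Pa St l l' n m L p) : ∃ n' m' L' p', n' ≤ n ∧ Pa St l l' n' m' L' p' ∧
      (∀ i, i + 1 < n' → p' i ≠ p' (i + 1)) ∧ Red Cm n' m' := by
  induction n using Nat.strong_induction_on generalizing m L p with
  | _ n ih =>
  obtain ⟨m, L, p, h, hr⟩ := h.red hok cs ci swap h0
  by_cases hb : ∀ i, i + 1 < n → p i ≠ p (i + 1)
  · exact ⟨n, m, L, p, le_rfl, h, hb, hr⟩
  push Not at hb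
  obtain ⟨i, hi, e⟩ := hb
  obtain ⟨n, rfl⟩ : ∃ k, n = k + 2 := ⟨n - 2, by omega⟩
  obtain ⟨n', m', L', p', h1, h2⟩ := ih n (by omega) (h.shorten (i := i) (by omega)
    (back _ _ _ _ _ _ (h.good hok h0 i (by omega)) (h.st i (by omega)) (e ▸ h.st (i + 1) hi)))
  exact ⟨n', m', L', p', by omega, h2⟩

end Abs

variable {C Ω ι : Type} [Field C] [Field Ω] [CharZero Ω] [Algebra C Ω] [Fintype ι]
  [DecidableEq ι]

/-- Two mirrors through a point of a generic line coincide. -/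
lemma Gen.eq_smul {F G : MvPolynomial ι C} {l : Li Ω ι} {q : ι → Ω} (h : Gen C l) (hq : l.On q)
    (hF : Irreducible F) (hG : Irreducible G) (h0 : aeval q F = 0) (h1 : aeval q G = 0) :
    ∃ a : C, a ≠ 0 ∧ G = a • F := by
  obtain ⟨u, rfl⟩ := hF.associated_of_dvd hG (h.ker hq hF h0 h1)
  obtain ⟨a, ha, e⟩ := isUnit_iff_eq_C_of_isReduced.1 u.isUnit
  exact ⟨a, ha.ne_zero, by rw [e, smul_eq_C_mul, mul_comm]⟩

/-- The total delay of a path. -/
def tot (n : ℕ) (L : ℕ → Li Ω ι) (q : ℕ → ι → Ω) : Ω :=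
  ∑ i ∈ Finset.range n, del (L i) (q i) (L (i + 1))

/-- Normal form of a path of reflections of a generic line. -/
theorem sort {M : Type} (f : M → MvPolynomial ι C) (hf : ∀ m, Mir (f m)) {Cm : M → M → Prop}
    (cs : ∀ m m', Cm m m' → Cm m' m) (ci : ∀ m, ¬Cm m m)
    (cc : ∀ m m', Cm m m' → Comm Ω (f m) (f m')) {l l' : Li Ω ι} {n : ℕ} {m : ℕ → M}
    {L : ℕ → Li Ω ι} {q : ℕ → ι → Ω} (h0 : Gen C l) (h : Pa (fun m => Step (f m)) l l' n m L q) :
    ∃ n' m' L' q', n' ≤ n ∧ Pa (fun m => Step (f m)) l l' n' m' L' q' ∧ tot n' L' q' = tot n L q ∧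
      (∀ i, i + 1 < n' → q' i ≠ q' (i + 1)) ∧ Red Cm n' m' := by
  let St : M → Li Ω ι × Ω → (ι → Ω) → Li Ω ι × Ω → Prop := fun m a p b =>
    Step (f m) a.1 p b.1 ∧ b.2 = a.2 + del a.1 p b.1
  have h1 : Pa St (l, 0) (l', tot n L q) n m (fun i => (L i, tot i L q)) q :=
    ⟨fun i hi => ⟨h.st i hi, Finset.sum_range_succ _ _⟩, by simp [h.l0, tot], by rw [h.ln]⟩
  obtain ⟨n', m', L', q', a1, a2, a3, a4⟩ := Pa.sort (ok := fun a => Gen C a.1)
    (fun _ _ _ _ g s => g.step s.1) cs ci (fun m m' l0 p l1 p' l2 g c s1 s2 => by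
      obtain ⟨r, τ, r', t1, t2, e⟩ := (cc m m' c).gen (hf m) (hf m') g s1.1 s2.1
      exact ⟨r, (τ, l0.2 + del l0.1 r τ), r', ⟨t1, rfl⟩, t2, by
        rw [s2.2, s1.2, add_assoc, add_assoc, e]⟩)
    (fun m m' l0 p l1 l2 g s1 s2 => by
      obtain ⟨a, ha, e⟩ := g.eq_smul s1.1.on (hf m).prime.irreducible (hf m').prime.irreducible
        s1.1.zero s2.1.zero
      obtain ⟨e1, e2⟩ := s1.1.back ((step_smul ha).1 (e ▸ s2.1))
      exact Prod.ext e1 (by rw [s2.2, s1.2, add_assoc, e2, add_zero])) h0 h1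
  have a5 : ∀ i, i ≤ n' → (L' i).2 = tot i (fun i => (L' i).1) q' := fun i hi => by
    induction i with
    | zero => simp [a2.l0, tot]
    | succ i ih => rw [(a2.st i hi).2, ih (by omega), tot, tot, Finset.sum_range_succ]
  exact ⟨n', m', fun i => (L' i).1, q', a1, ⟨fun i hi => (a2.st i hi).1, by simp [a2.l0],
    by simp [a2.ln]⟩, by rw [← a5 n' le_rfl, a2.ln], a3, a4⟩

end Pool.Agent.MP_249f74_an.H17.Cm
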