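import Pool.Agent.MP_249f74_an.H17.CmPass
import Pool.Agent.MP_249f74_an.H17.CmGen
import Pool.Agent.MP_249f74_an.H32.Mod

/-!
Commuting mirrors in the system of real mirrors.
-/

open MvPolynomial Matrix

namespace Pool.Agent.MP_249f74_an.H17.Cm

open H32 (sys pos pt)

variable {k C Ω ι : Type} [Field k] [Algebra k ℝ] [Field C] [Algebra k C] [Field Ω] [CharZero Ω]
  [Algebra C Ω] [Fintype ι] [DecidableEq ι]

lemma top_gen {l : ι ⊕ ι → Ω} (h : H42.Gen C l) {G : MvPolynomial ι C} (hG : G ≠ 0) :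
    top G (H32.dir l) ≠ 0 := fun h0 => top_ne_zero hG <|
  rename_injective _ Sum.inr_injective <| (h _ <| by
    rw [H42.ev, aeval_rename]; exact h0).trans (map_zero _).symm

lemma mem_pts_gen {l : ι ⊕ ι → Ω} (h : H42.Gen C l) (m : H32.Mir k C ι) (s : Ω) :
    s ∈ H32.Pts m l ↔ aeval (pos l + s • H32.dir l) m.f = 0 :=
  H32.mem_pts.trans (and_iff_right fun e => top_gen h m.prime.ne_zero <| by
    rw [top, ← coeff_line le_rfl (pos l)]
    exact (congrArg (Polynomial.coeff · _) e).trans (Polynomial.coeff_zero _))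

lemma cm_pass {m m' : H32.Mir k C ι} (h : H32.Cm m m') : Pass Ω m.f m'.f :=
  h.2.elim Conf.pass fun h => h.elim Warp.pass Warp.pass'

lemma cm_comm {m m' : H32.Mir k C ι} (h : H32.Cm m m') : Comm Ω m.f m'.f :=
  h.2.elim Conf.comm fun h => h.elim Warp.comm fun h => h.comm.symm

lemma cm_symm {m m' : H32.Mir k C ι} (h : H32.Cm m m') : H32.Cm m' m :=
  ⟨h.1.symm, h.2.imp Conf.symm Or.symm⟩

theorem pass (hB : (sys k C Ω ι).Bas) : (sys k C Ω ι).PASS := by
  intro m m' l t l' hc hl hs σ hσ ht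
  have hl' := hB.gen _ _ _ _ hs hl
  exact (cm_pass hc).sg (q := pt l t) rfl hs.pt_eq.symm hs.zero hs.nn hs.dir_eq
    (top_gen hl m'.prime.ne_zero) (top_gen hl' m'.prime.ne_zero) (mem_pts_gen hl m')
    (mem_pts_gen hl' m') (fun i => hσ _ ⟨_, rfl⟩) (fun i => hσ _ ⟨_, rfl⟩) ht ht

end Pool.Agent.MP_249f74_an.H17.Cm
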