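import Pool.Agent.MP_249f74_an.H17.CmConf
import Pool.Agent.MP_249f74_an.H88.Rank

/-!
Warped pairs of mirrors commute.
-/

open MvPolynomial Matrix

namespace Pool.Agent.MP_249f74_an.H17.Cm

variable {C Ω ι : Type} [Field C] [Field Ω] [Algebra C Ω] [Fintype ι] [DecidableEq ι]

/-- An affine function. -/
noncomputable def aff (h : Option ι → C) : MvPolynomial ι C :=
  hat X ⬝ᵥ fun o => MvPolynomial.C (h o)

/-- A directional derivative. -/
noncomputable def dir (v : ι → C) : Derivation C (MvPolynomial ι C) (MvPolynomial ι C) :=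
  ∑ i, (MvPolynomial.C (v i) : MvPolynomial ι C) • pderiv i

lemma dir_apply (v : ι → C) (F : MvPolynomial ι C) :
    dir v F = ∑ i, MvPolynomial.C (v i) * pderiv i F := by
  have := map_sum (Derivation.coeFnAddMonoidHom (R := C) (A := MvPolynomial ι C)
    (M := MvPolynomial ι C)) (fun i => (MvPolynomial.C (v i) : MvPolynomial ι C) • pderiv i)
    Finset.univ
  refine (congrFun this F).trans ?_
  simp

lemma aff_eq (h : Option ι → C) :
    aff h = MvPolynomial.C (h none) + ∑ i, X i * MvPolynomial.C (h (some i)) := by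
  rw [aff, hat_dot]; rfl

lemma aeval_aff {R : Type} [CommRing R] [Algebra C R] (h : Option ι → C) (x : ι → R) :
    aeval x (aff h) = hat x ⬝ᵥ fun o => algebraMap C R (h o) := by
  simp [aff, dotProduct, aeval_hat]

lemma pderiv_aff (h : Option ι → C) (i : ι) : pderiv i (aff h) = MvPolynomial.C (h (some i)) := by
  simp [aff_eq, pderiv_X, Pi.single_apply]

lemma dir_aff (v : ι → C) (h : Option ι → C) : dir v (aff h) = MvPolynomial.C (v ⬝ᵥ sp h) := by
  simp [dir_apply, pderiv_aff, dotProduct, sp]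

lemma dir_X (v : ι → C) (i : ι) : dir v (X i) = MvPolynomial.C (v i) := by
  simp [dir_apply, pderiv_X, Pi.single_apply]

lemma dir_comm (v w : ι → C) (F : MvPolynomial ι C) : dir v (dir w F) = dir w (dir v F) := by
  have : ⁅dir v, dir w⁆ = 0 := derivation_ext fun i => by
    simp [Derivation.commutator_apply, dir_X, derivation_C]
  have := DFunLike.congr_fun this F
  rwa [Derivation.commutator_apply, Derivation.zero_apply, sub_eq_zero] at this

lemma pderiv_comm (i j : ι) (F : MvPolynomial ι C) :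
    pderiv i (pderiv j F) = pderiv j (pderiv i F) := by
  have := dir_comm (Pi.single i 1) (Pi.single j 1) F
  simpa [dir_apply, Pi.single_apply, apply_ite MvPolynomial.C] using this

lemma aeval_dir (v : ι → C) (F : MvPolynomial ι C) (x : ι → Ω) :
    aeval x (dir v F) = grad F x ⬝ᵥ fun i => algebraMap C Ω (v i) := by
  simp [dir_apply, grad, dotProduct, mul_comm]

lemma td_X_pderiv (i j : ι) (F : MvPolynomial ι C) :
    (X j * pderiv i F).totalDegree ≤ F.totalDegree := by
  by_cases h : pderiv i F = 0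
  · simp [h]
  · have := H88.totalDegree_pderiv_lt h
    have h2 := totalDegree_mul (X j) (pderiv i F)
    rw [totalDegree_X] at h2
    omega

lemma td_C_pderiv (a : C) (i : ι) (F : MvPolynomial ι C) :
    (MvPolynomial.C a * pderiv i F).totalDegree ≤ F.totalDegree := by
  by_cases h : pderiv i F = 0
  · simp [h]
  · have := H88.totalDegree_pderiv_lt h
    have h2 := totalDegree_mul (MvPolynomial.C a) (pderiv i F)
    rw [totalDegree_C] at h2
    omega

lemma td_dir (v : ι → C) (F : MvPolynomial ι C) : (dir v F).totalDegree ≤ F.totalDegree := by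
  rw [dir_apply]; exact totalDegree_finsetSum_le fun i _ => td_C_pderiv _ _ _

lemma td_aff_le (h : Option ι → C) : (aff h).totalDegree ≤ 1 := by
  rw [aff_eq]
  refine (totalDegree_add _ _).trans (max_le (by simp) (totalDegree_finsetSum_le fun i _ => ?_))
  exact (totalDegree_mul _ _).trans (by simp)

lemma td_aff {h : Option ι → C} (hh : sp h ≠ 0) : (aff h).totalDegree = 1 := by
  refine le_antisymm (td_aff_le h) (Nat.one_le_iff_ne_zero.2 fun h0 => hh (funext fun i => ?_))
  have := pderiv_aff h i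
  rw [totalDegree_eq_zero_iff_eq_C.1 h0, pderiv_C, eq_comm, C_eq_zero] at this
  exact this

lemma prime_aff {h : Option ι → C} (hh : sp h ≠ 0) : Prime (aff h) := by
  refine (irreducible_of_totalDegree_eq_one (td_aff hh) fun x hx => ?_).prime
  refine Ne.isUnit fun h0 => ?_
  have : aff h = 0 := MvPolynomial.ext _ _ fun m => by simpa [h0] using hx m
  simpa [this] using td_aff hh

lemma eq_C_mul {G W : MvPolynomial ι C} (h : G ∣ W) (hd : W.totalDegree ≤ G.totalDegree) :
    ∃ c, W = MvPolynomial.C c * G := by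
  obtain ⟨V, rfl⟩ := h
  rcases eq_or_ne G 0 with rfl | hG
  · exact ⟨0, by simp⟩
  rcases eq_or_ne V 0 with rfl | hV
  · exact ⟨0, by simp⟩
  rw [totalDegree_mul_of_isDomain hG hV] at hd
  exact ⟨_, by rw [mul_comm, ← (totalDegree_eq_zero_iff_eq_C (p := V)).1 (by omega)]⟩

lemma line_mul (F G : MvPolynomial ι C) (x u : ι → Ω) :
    line (F * G) x u = line F x u * line G x u := map_mul _ _ _

lemma line_dir (F : MvPolynomial ι Ω) (x u : ι → Ω) :
    line (dir u F) x u = (line F x u).derivative := by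
  rw [derivative_line, dir_apply]
  simp only [line, map_sum, map_mul, aeval_C, Polynomial.algebraMap_eq]
  exact Finset.sum_congr rfl fun _ _ => mul_comm _ _

lemma grad_map (G : MvPolynomial ι C) (x : ι → Ω) :
    grad (map (algebraMap C Ω) G) x = grad G x := by
  ext i; simp [grad, pderiv_map, aeval_map_algebraMap]

variable [CharZero Ω]

lemma inv_even {h k : Option ι → Ω} (hh : sp h ⬝ᵥ sp h ≠ 0) (hk : ∀ c : Ω, k ≠ c • h)
    {x : ι → Ω} (hx : hat x ⬝ᵥ h = 0) (F : MvPolynomial ι Ω)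
    (hF : aff k * dir (sp h) F = aff h * dir (sp k) F) :
    (line F x (sp h)).comp (-Polynomial.X) = line F x (sp h) := by
  have h0 : sp h ≠ 0 := fun e => hh (by simp [e])
  have hp := prime_aff h0
  have nd : ¬aff h ∣ aff k := fun hd => by
    obtain ⟨c, hc⟩ := eq_C_mul hd (td_aff h0 ▸ td_aff_le k)
    refine hk c (funext fun o => ?_)
    cases o with
    | none => simpa [aff_eq] using congrArg (aeval (0 : ι → Ω)) hc
    | some i =>
      have := congrArg (pderiv i) hc
      rw [pderiv_C_mul, pderiv_aff, pderiv_aff, ← map_mul] at this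
      exact C_injective _ _ this
  induction hd : F.totalDegree using Nat.strong_induction_on generalizing F with
  | _ d ih =>
  obtain ⟨L, hL⟩ := (hp.dvd_or_dvd (Dvd.intro _ hF.symm)).resolve_left nd
  have hL' : dir (sp k) F = aff k * L :=
    mul_left_cancel₀ hp.ne_zero (by rw [← hF, hL]; ring)
  have hL2 : aff k * dir (sp h) L = aff h * dir (sp k) L := by
    have := dir_comm (sp h) (sp k) F
    rw [hL, hL', Derivation.leibniz, Derivation.leibniz, dir_aff, dir_aff,
      dotProduct_comm (sp k)] at this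
    exact add_right_cancel this
  have ev : (line L x (sp h)).comp (-Polynomial.X) = line L x (sp h) := by
    rcases eq_or_ne L 0 with rfl | hL0
    · simp [line]
    · refine ih _ ?_ L hL2 rfl
      have := td_dir (sp h) F
      rw [hL, totalDegree_mul_of_isDomain hp.ne_zero hL0, td_aff h0] at this
      omega
  have e1 : line (aff h) x (sp h) = Polynomial.C (sp h ⬝ᵥ sp h) * Polynomial.X :=
    Polynomial.funext fun s => by
      have : (fun o => algebraMap Ω Ω (h o)) = h := rfl
      rw [eval_line, aeval_aff, this, hat_add, add_dotProduct, hx, vec_dot, smul_dotProduct]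
      simp only [Polynomial.eval_mul, Polynomial.eval_C, Polynomial.eval_X, smul_eq_mul]
      ring
  have e2 : ((line F x (sp h)).comp (-Polynomial.X) - line F x (sp h)).derivative = 0 := by
    rw [map_sub, Polynomial.derivative_comp, ← line_dir, hL, line_mul, Polynomial.mul_comp, ev, e1]
    simp
  have e3 := Polynomial.eq_C_of_derivative_eq_zero e2
  rw [Polynomial.coeff_zero_eq_eval_zero] at e3
  simpa [Polynomial.eval_comp, sub_eq_zero] using e3

lemma inv_refl {h k : Option ι → Ω} (hh : sp h ⬝ᵥ sp h ≠ 0) (hk : ∀ c : Ω, k ≠ c • h)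
    {F : MvPolynomial ι C} (hF : ∀ x, (hat x ⬝ᵥ k) * (grad F x ⬝ᵥ sp h) =
      (hat x ⬝ᵥ h) * (grad F x ⬝ᵥ sp k)) (x : ι → Ω) :
    aeval (x - (2 * (hat x ⬝ᵥ h) / (sp h ⬝ᵥ sp h)) • sp h) F = aeval x F := by
  obtain ⟨s, hs⟩ : ∃ s, s = (hat x ⬝ᵥ h) / (sp h ⬝ᵥ sp h) := ⟨_, rfl⟩
  have e := inv_even hh hk (x := x - s • sp h) (by
    rw [sub_eq_add_neg, hat_add, add_dotProduct, vec_dot, neg_dotProduct, smul_dotProduct, hs,
      smul_eq_mul, div_mul_cancel₀ _ hh, add_neg_cancel]) (map (algebraMap C Ω) F)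
    (MvPolynomial.funext fun y => by
      simp only [← aeval_eq_eval, map_mul, aeval_aff, aeval_dir, grad_map]
      exact hF y)
  have := congrArg (Polynomial.eval s) e
  rw [Polynomial.eval_comp, eval_line, eval_line, aeval_map_algebraMap,
    aeval_map_algebraMap] at this
  rw [mul_div_assoc, ← hs]
  convert this using 2
  · simp [two_mul, add_smul, sub_eq_add_neg, add_assoc]
  · simp

lemma ode {p : Polynomial Ω} {y c : Ω} (h : (1 - Polynomial.C y * Polynomial.X) * p.derivative =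
    Polynomial.C c * p) (h0 : p.eval 0 = 0) : p = 0 := by
  have key : ∀ j, p.coeff j = 0 := fun j => by
    induction j with
    | zero => rwa [Polynomial.coeff_zero_eq_eval_zero]
    | succ j ih =>
      have := congrArg (Polynomial.coeff · j) h
      simp only [sub_mul, one_mul, mul_assoc, Polynomial.coeff_sub, Polynomial.coeff_C_mul,
        Polynomial.coeff_derivative, ih, mul_zero] at this
      have e : (Polynomial.X * p.derivative).coeff j = 0 := by
        cases j with
        | zero => simp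
        | succ i => rw [Polynomial.coeff_X_mul, Polynomial.coeff_derivative, ih, zero_mul]
      rw [e, mul_zero, sub_zero] at this
      exact (mul_eq_zero.1 this).resolve_right (Nat.cast_add_one_ne_zero j)
  exact Polynomial.ext fun j => by simp [key j]

omit [CharZero Ω] in
lemma line_eta (G : MvPolynomial ι Ω) (Y : Option ι → Ω) (q : ι → Ω) :
    line (tg G ⬝ᵥ fun o => MvPolynomial.C (Y o)) q (sp Y - Y none • q) =
      (1 - Polynomial.C (Y none) * Polynomial.X) * (line G q (sp Y - Y none • q)).derivative := by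
  rw [derivative_line, Finset.mul_sum]
  simp only [line, tg, dotProduct, Fintype.sum_option, Option.elim, map_add, map_mul, map_neg,
    map_sum, aeval_X, aeval_C, Finset.sum_mul, neg_mul, ← Finset.sum_neg_distrib,
    ← Finset.sum_add_distrib]
  refine Finset.sum_congr rfl fun i _ => ?_
  simp [sp]; ring

omit [CharZero Ω] in
lemma pderiv_eta (G : MvPolynomial ι Ω) (Y : Option ι → Ω) (j : ι) :
    (tg (pderiv j G) ⬝ᵥ fun o => MvPolynomial.C (Y o)) =
      pderiv j (tg G ⬝ᵥ fun o => MvPolynomial.C (Y o)) + MvPolynomial.C (Y none) * pderiv j G := by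
  simp [tg, dotProduct, Fintype.sum_option, pderiv_comm j, pderiv_X, Pi.single_apply,
    Finset.sum_add_distrib, mul_comm (MvPolynomial.C _)]
  ring

/-- Lines of the Gauss fibres. -/
lemma fibre {G : MvPolynomial ι Ω} {Y : Option ι → Ω}
    (h : G ∣ tg G ⬝ᵥ fun o => MvPolynomial.C (Y o)) {q : ι → Ω} (h0 : aeval q G = 0) :
    line G q (sp Y - Y none • q) = 0 ∧ ∀ (s : Ω) (i j : ι),
      grad G q j * grad G (q + s • (sp Y - Y none • q)) i =
        grad G q i * grad G (q + s • (sp Y - Y none • q)) j := by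
  obtain ⟨c, hc⟩ := eq_C_mul h (by
    simp only [tg, dotProduct, Fintype.sum_option, Option.elim]
    refine (totalDegree_add _ _).trans (max_le ((totalDegree_mul _ _).trans ?_)
      (totalDegree_finsetSum_le fun i _ => mul_comm (pderiv i G) _ ▸ td_C_pderiv _ _ _))
    rw [totalDegree_C, totalDegree_neg]
    exact totalDegree_finsetSum_le fun i _ => td_X_pderiv _ _ _)
  have lC : ∀ (a : Ω) (u : ι → Ω), line (MvPolynomial.C a) q u = Polynomial.C a := fun a u => by
    simp [line]
  refine ⟨ode (y := Y none) (c := c) (by rw [← line_eta, hc, line_mul, lC])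
    (by simpa [eval_line] using h0), fun s i j => ?_⟩
  have e : ∀ j, (1 - Polynomial.C (Y none) * Polynomial.X) *
      (line (pderiv j G) q (sp Y - Y none • q)).derivative =
      Polynomial.C (c + Y none) * line (pderiv j G) q (sp Y - Y none • q) := fun j => by
    rw [← line_eta, pderiv_eta, hc, pderiv_C_mul, ← add_mul, ← map_add, line_mul, lC]
  have := ode (p := Polynomial.C (grad G q j) * line (pderiv i G) q (sp Y - Y none • q) -
    Polynomial.C (grad G q i) * line (pderiv j G) q (sp Y - Y none • q)) (y := Y none)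
    (c := c + Y none) (by
      simp only [map_sub, Polynomial.derivative_C_mul]
      linear_combination Polynomial.C (grad G q j) * e i - Polynomial.C (grad G q i) * e j)
    (by simp [eval_line, grad, mul_comm])
  simpa [eval_line, grad, sub_eq_zero] using congrArg (Polynomial.eval s) this

/-- The gradient of a reflected polynomial. -/
lemma grad_refl {F F' : MvPolynomial ι C} {N z : ι → Ω} (hN : N ⬝ᵥ N ≠ 0)
    (h : ∀ x, aeval (z + rf N (x - z)) F' = aeval x F) (x : ι → Ω) :
    grad F' (z + rf N (x - z)) = rf N (grad F x) := by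
  have key : ∀ w, grad F' (z + rf N (x - z)) ⬝ᵥ rf N w = grad F x ⬝ᵥ w := fun w => by
    have e : line F' (z + rf N (x - z)) (rf N w) = line F x w := Polynomial.funext fun s => by
      rw [eval_line, eval_line, ← h, ← rf_smul, add_assoc, ← rf_add, add_sub_right_comm]
    have e1 := eval_derivative_line F' (z + rf N (x - z)) (rf N w) 0
    rw [e, eval_derivative_line] at e1
    simpa using e1.symm
  ext i
  have := key (rf N (Pi.single i 1))
  rw [rf_rf hN, ← dot_rf_comm] at this
  simpa using this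

/-- Exchange with the reflection in a hyperplane. -/
lemma swap_hyp {F F' : MvPolynomial ι C} {l0 l1 l2 : Li Ω ι} {q1 q2 p1 N : ι → Ω}
    (s1 : Step F l0 q1 l1) (hN : N ⬝ᵥ N ≠ 0) (o1 : l1.On q2) (o2 : l2.On q2)
    (r2 : l2.u = rf N l1.u) (o0 : l0.On p1) (hp : N ⬝ᵥ (p1 - q2) = 0)
    (h : ∀ x, aeval (q2 + rf N (x - q2)) F' = aeval x F) :
    ∃ l' p2, l'.On p1 ∧ l'.u = rf N l0.u ∧ Step F' l' p2 l2 ∧
      del l0 p1 l' + del l' p2 l2 = del l0 q1 l1 + del l1 q2 l2 := by
  have uu : rf N l0.u ⬝ᵥ rf N l0.u = 1 := by rw [rf_dot_rf hN, l0.uu]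
  obtain ⟨t, ht⟩ := o1.sub s1.on'
  obtain ⟨τ, hτ⟩ := o0.sub s1.on
  have e1 : q2 + rf N (q1 - q2) = p1 + τ • rf N l0.u := by
    rw [hτ, add_sub_right_comm, rf_add, rf_of_dot hp, rf_smul]; abel
  have e2 : q2 + rf N (q1 - q2) = q2 + t • l2.u := by
    rw [r2, ← rf_smul, ht, add_sub_cancel_left]
  refine ⟨mkLi p1 _ uu, q2 + rf N (q1 - q2), on_mkLi _ _ _, rfl, ⟨?_, e2 ▸ o2.add t,
    (h q1).trans s1.zero, ?_, ?_, ?_⟩, ?_⟩
  · rw [e1]; exact (on_mkLi p1 _ uu).add τ
  · rw [grad_refl hN h, rf_dot_rf hN]; exact s1.nn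
  · rw [grad_refl hN h]; change rf N _ ⬝ᵥ rf N l0.u ≠ 0; rw [rf_dot_rf hN]; exact s1.nu
  · rw [grad_refl hN h]; change _ = rf _ (rf N l0.u); rw [rf_conj hN, r2, s1.eq]
  · change p1 ⬝ᵥ (l0.u - rf N l0.u) + _ ⬝ᵥ (rf N l0.u - l2.u) = q1 ⬝ᵥ (l0.u - l1.u) +
      q2 ⬝ᵥ (l1.u - l2.u)
    have a1 : (p1 - q2) ⬝ᵥ (l0.u - rf N l0.u) = 0 := by
      rw [dotProduct_sub, ← dot_rf_comm, rf_of_dot hp, sub_self]
    have a2 : rf N (q1 - q2) ⬝ᵥ (rf N l0.u - l2.u) = (q1 - q2) ⬝ᵥ (l0.u - l1.u) := by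
      rw [r2, ← rf_sub, rf_dot_rf hN]
    rw [add_dotProduct, a2]
    simp only [sub_dotProduct, dotProduct_sub] at a1 ⊢
    linear_combination a1

omit [CharZero Ω] in
lemma aeval_tg (G : MvPolynomial ι C) (q : ι → Ω) (o : Option ι) :
    aeval q (tg G o) = o.elim (-(q ⬝ᵥ grad G q)) (grad G q) := by
  cases o <;> simp [tg, grad, dotProduct]

theorem Warp.comm {F G : MvPolynomial ι C} (hFG : Warp F G) : Comm Ω F G := by
  intro l0 l1 l2 q1 q2 g0 _ s1 s2
  obtain ⟨Q, ⟨i0, j0, s0, t0, hQ⟩, ha, hb⟩ := hFG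
  obtain ⟨Q', hQ'⟩ : ∃ Q', Q' = Q.map (algebraMap C Ω) := ⟨_, rfl⟩
  obtain ⟨N, hN⟩ : ∃ N, N = grad G q2 := ⟨_, rfl⟩
  obtain ⟨h, hh⟩ : ∃ h : Option ι → Ω, h = fun o => o.elim (-(q2 ⬝ᵥ N)) N := ⟨_, rfl⟩
  have nn : N ⬝ᵥ N ≠ 0 := hN ▸ s2.nn
  have nu : N ⬝ᵥ l1.u ≠ 0 := hN ▸ s2.nu
  have sh : sp h = N := by rw [hh]; rfl
  have hx : ∀ x, hat x ⬝ᵥ h = N ⬝ᵥ (x - q2) := fun x => by
    rw [hat_dot, sh, hh]; simp [dotProduct_comm N]; ring
  have a1 : ∀ x i j, (Q' *ᵥ vec (grad F x)) i * (Q' *ᵥ hat x) j =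
      (Q' *ᵥ vec (grad F x)) j * (Q' *ᵥ hat x) i := fun x i j => by
    simpa [hQ', mulVec, dotProduct, Fintype.sum_option, vec, hat, grad] using
      congrArg (aeval x) (ha i j)
  have b1 : h ᵥ* Q' = h := by
    ext j
    obtain ⟨W, hW⟩ := hb j
    have := congrArg (aeval q2) hW
    rw [map_mul, s2.zero, zero_mul] at this
    simp only [vecMul, dotProduct, map_sum, map_mul, aeval_tg, ← hN, map_apply, aeval_C,
      Matrix.sub_apply,
      map_sub, mul_sub, Finset.sum_sub_distrib, one_apply, apply_ite (algebraMap C Ω), map_one,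
      map_zero, mul_ite, mul_one, mul_zero, Finset.sum_ite_eq', Finset.mem_univ, if_true] at this
    rw [hh, hQ']
    exact (sub_eq_zero.1 this).symm
  have a2 : ∀ x j, (grad F x ⬝ᵥ N) * (Q' *ᵥ hat x) j =
      (Q' *ᵥ vec (grad F x)) j * (hat x ⬝ᵥ h) := fun x j => by
    rw [← sh, ← vec_dot, ← b1, dotProduct_comm, dotProduct_comm (hat x), ← dotProduct_mulVec,
      ← dotProduct_mulVec]
    simp only [dotProduct, Finset.sum_mul, Finset.mul_sum]
    exact Finset.sum_congr rfl fun i _ => by linear_combination h i * a1 x i j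
  obtain ⟨j, hj⟩ : ∃ j, ∀ c : Ω, Q' j ≠ c • h := by
    by_contra hn
    push Not at hn
    obtain ⟨c, hc⟩ := hn i0
    obtain ⟨c', hc'⟩ := hn j0
    refine hQ ((algebraMap C Ω).injective ?_)
    have e : ∀ i s, algebraMap C Ω (Q i s) = Q' i s := fun i s => by rw [hQ']; rfl
    simp only [map_mul, e, hc, hc', Pi.smul_apply, smul_eq_mul]
    ring
  have inv : ∀ x, aeval (q2 + rf N (x - q2)) F = aeval x F := fun x => by
    have := inv_refl (F := F) (sh ▸ nn) hj (fun x => by
      have := a2 x j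
      rw [mulVec, mulVec, dotProduct_comm (Q' j), dotProduct_comm (Q' j), vec_dot] at this
      rw [sh]; linear_combination this) x
    rw [← this, sh, hx, rf]
    congr 2; abel
  obtain ⟨t, ht⟩ := s1.on'.sub s2.on
  obtain ⟨β, hβ⟩ : ∃ β, β = 2 * (grad F q1 ⬝ᵥ l0.u) / (grad F q1 ⬝ᵥ grad F q1) := ⟨_, rfl⟩
  have β0 : β ≠ 0 := hβ ▸ div_ne_zero (mul_ne_zero two_ne_zero s1.nu) s1.nn
  have r1 : l0.u = l1.u + β • grad F q1 := by rw [s1.eq, rf, ← hβ, sub_add_cancel]
  suffices ∃ p1, l0.On p1 ∧ aeval p1 G = 0 ∧ N ⬝ᵥ (p1 - q2) = 0 ∧ N ⬝ᵥ l0.u ≠ 0 ∧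
      ∀ i j, N j * grad G p1 i = N i * grad G p1 j by
    obtain ⟨p1, c1, c2, c3, c4, c5⟩ := this
    obtain ⟨l', p2, d1, d2, d3, d4⟩ :=
      swap_hyp s1 nn s2.on s2.on' (hN ▸ s2.eq) c1 c3 inv
    have e : grad G p1 = ((N ⬝ᵥ grad G p1) / (N ⬝ᵥ N)) • N := by
      ext i
      rw [Pi.smul_apply, smul_eq_mul, div_mul_eq_mul_div, eq_div_iff nn]
      simp only [dotProduct, Finset.sum_mul, Finset.mul_sum]
      exact Finset.sum_congr rfl fun j _ => by linear_combination N j * c5 i j
    have n1 := g0.nn p1 c1 c2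
    have n2 : (N ⬝ᵥ grad G p1) / (N ⬝ᵥ N) ≠ 0 := fun h0 => n1 (by rw [e, h0]; simp)
    exact ⟨p1, l', p2, ⟨c1, d1, c2, n1, by rw [e, smul_dotProduct]; exact mul_ne_zero n2 c4,
      by rw [e, smul_rf n2, d2]⟩, d3, d4⟩
  rcases eq_or_ne t 0 with rfl | ht0
  · rw [zero_smul, add_zero] at ht
    subst ht
    refine ⟨q2, s1.on, s2.zero, by simp, ?_, fun i j => by rw [hN, mul_comm]⟩
    have e := grad_refl nn inv q2
    rw [sub_self, rf_of_dot (dotProduct_zero _), add_zero] at e
    have e' := dot_rf nn (grad F q2)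
    rw [← e, self_eq_neg] at e'
    rwa [r1, dotProduct_add, dotProduct_smul, e', smul_zero, add_zero]
  have x1 : hat q1 ⬝ᵥ h = -(t * (N ⬝ᵥ l1.u)) := by rw [hx, ht]; simp
  obtain ⟨κ, hκ⟩ : ∃ κ, κ = (grad F q1 ⬝ᵥ N) / (hat q1 ⬝ᵥ h) := ⟨_, rfl⟩
  have x0 : hat q1 ⬝ᵥ h ≠ 0 := by rw [x1]; simp [ht0, nu]
  obtain ⟨Y, hY⟩ : ∃ Y, Y = vec (grad F q1) - κ • hat q1 := ⟨_, rfl⟩
  have y1 : Q' *ᵥ Y = 0 := by
    ext j
    rw [hY, mulVec_sub, mulVec_smul, hκ]
    simp only [Pi.sub_apply, Pi.smul_apply, smul_eq_mul, Pi.zero_apply]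
    rw [div_mul_eq_mul_div, a2, mul_div_cancel_right₀ _ x0, sub_self]
  have y2 : map (algebraMap C Ω) G ∣ tg (map (algebraMap C Ω) G) ⬝ᵥ
      fun o => MvPolynomial.C (Y o) := by
    have e : (fun o => MvPolynomial.C (Y o)) = ((1 - Q').map (MvPolynomial.C (σ := ι))) *ᵥ
        fun o => MvPolynomial.C (Y o) := by
      ext1 o
      have := RingHom.map_mulVec (MvPolynomial.C (σ := ι)) (1 - Q') Y o
      rw [sub_mulVec, y1, one_mulVec, sub_zero] at this
      exact this
    rw [e, dotProduct_mulVec]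
    refine Finset.dvd_sum fun j _ => Dvd.dvd.mul_right ?_ _
    convert map_dvd (map (algebraMap C Ω)) (hb j)
    have : ∀ o, tg (map (algebraMap C Ω) G) o = map (algebraMap C Ω) (tg G o) := fun o => by
      cases o <;> simp [tg, pderiv_map]
    simp [vecMul, dotProduct, this, hQ', one_apply]
  obtain ⟨f1, f2⟩ := fibre y2 (q := q2) (by rw [aeval_map_algebraMap, s2.zero])
  have η : sp Y - Y none • q2 = grad F q1 + (κ * t) • l1.u := by
    rw [hY, ht]; ext i; simp [vec, hat]; ring
  simp only [grad_map, η, ← hN] at f1 f2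
  have f3 : ∀ s : Ω, aeval (q2 + s • (grad F q1 + (κ * t) • l1.u)) G = 0 := fun s => by
    rw [← aeval_map_algebraMap Ω, ← eval_line, f1, Polynomial.eval_zero]
  have f4 : N ⬝ᵥ grad F q1 = -(κ * t * (N ⬝ᵥ l1.u)) := by
    rw [dotProduct_comm, eq_div_iff x0] at hκ
    rw [← hκ, x1]; ring
  have μ0 : 1 - β * κ * t ≠ 0 := fun h0 => g0.top <| by
    rw [← coeff_line le_rfl q2]
    suffices line G q2 l0.u = 0 by simp [this]
    refine Polynomial.funext fun s => ?_
    rw [eval_line, Polynomial.eval_zero, ← f3 (s * β), r1]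
    congr 2
    ext i
    simp only [Pi.add_apply, Pi.smul_apply, smul_eq_mul]
    linear_combination (s * l1.u i) * h0
  have e : q2 + (t / (1 - β * κ * t) * β) • (grad F q1 + (κ * t) • l1.u) =
      q1 + (t / (1 - β * κ * t)) • l0.u := by
    have := mul_div_cancel₀ t μ0
    rw [ht, r1]
    ext i
    simp only [Pi.add_apply, Pi.smul_apply, smul_eq_mul]
    linear_combination (-l1.u i) * this
  refine ⟨_, e ▸ s1.on.add _, f3 _, by simp [f4], ?_, f2 _⟩
  rw [r1, dotProduct_add, dotProduct_smul, f4, smul_eq_mul]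
  exact fun h0 => mul_ne_zero μ0 nu (by linear_combination h0)

end Pool.Agent.MP_249f74_an.H17.Cm
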