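import Pool.Agent.MP_249f74_an.H17.Base

/-!
Two-parameter families of planar billiard trajectories in a differential field, in isotropic
coordinates.
-/

open Set IntermediateField

namespace Pool.Agent.MP_249f74_an.H17

open H88 (rk cl)

/-- A pair of derivations. -/
structure Two (C Ω : Type) [Field C] [Field Ω] [Algebra C Ω] where
  /-- first derivation -/
  d0 : Der C Ω
  /-- second derivation -/
  d1 : Der C Ω

variable {C Ω : Type} [Field C] [Field Ω] [Algebra C Ω]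

namespace Two

variable (d : Two C Ω)

/-- The derivation `g ↦ J f g`. -/
def br (f : Ω) : Der C Ω := d.d0 f • d.d1 - d.d1 f • d.d0

/-- The Jacobian. -/
def J (f g : Ω) : Ω := d.d0 f * d.d1 g - d.d1 f * d.d0 g

/-- `df = g dy`. -/
def Sl (y f g : Ω) : Prop := d.d0 f = d.d0 y * g ∧ d.d1 f = d.d1 y * g

/-- `Z` is a combination of the two derivations. -/
def Tn (Z : Der C Ω) : Prop := ∃ a b : Ω, ∀ f, Z f = a * d.d0 f + b * d.d1 f

@[simp] lemma br_apply (f g : Ω) : d.br f g = d.J f g := by simp [br, J]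

lemma J_self (f : Ω) : d.J f f = 0 := by simp [J, mul_comm]

lemma J_symm (f g : Ω) : d.J f g = -d.J g f := by simp [J]; ring

variable {d}

lemma tn_br (f : Ω) : d.Tn (d.br f) := ⟨-d.d1 f, d.d0 f, fun g => by simp [J]; ring⟩

lemma Tn.smul {Z : Der C Ω} (h : d.Tn Z) (c : Ω) : d.Tn (c • Z) := by
  obtain ⟨a, b, h⟩ := h
  exact ⟨c * a, c * b, fun f => by simp [h]; ring⟩

lemma Tn.add {Z Z' : Der C Ω} (h : d.Tn Z) (h' : d.Tn Z') : d.Tn (Z + Z') := by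
  obtain ⟨a, b, h⟩ := h
  obtain ⟨a', b', h'⟩ := h'
  exact ⟨a + a', b + b', fun f => by simp [h, h']; ring⟩

lemma Tn.sub {Z Z' : Der C Ω} (h : d.Tn Z) (h' : d.Tn Z') : d.Tn (Z - Z') := by
  obtain ⟨a, b, h⟩ := h
  obtain ⟨a', b', h'⟩ := h'
  exact ⟨a - a', b - b', fun f => by simp [h, h']; ring⟩

lemma Tn.sl {Z : Der C Ω} (h : d.Tn Z) {y f g : Ω} (hs : d.Sl y f g) : Z f = Z y * g := by
  obtain ⟨a, b, h⟩ := h
  rw [h, h, hs.1, hs.2]; ring

/-- The basic two-dimensional identity. -/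
lemma Tn.cyc {Z : Der C Ω} (h : d.Tn Z) (f g k : Ω) :
    d.J f g * Z k + d.J g k * Z f + d.J k f * Z g = 0 := by
  obtain ⟨a, b, h⟩ := h
  simp only [h, J]; ring

lemma Tn.eq_zero {Z : Der C Ω} (h : d.Tn Z) {f g : Ω} (hJ : d.J f g ≠ 0) (hf : Z f = 0)
    (hg : Z g = 0) (k : Ω) : Z k = 0 := by
  have := h.cyc f g k
  rw [hf, hg, mul_zero, mul_zero, add_zero, add_zero] at this
  exact (mul_eq_zero.1 this).resolve_left hJ

lemma Sl.J {y f g : Ω} (h : d.Sl y f g) (k : Ω) : d.J f k = g * d.J y k := by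
  simp only [Two.J, h.1, h.2]; ring

end Two

/-- A point `(x, y)` of a mirror with tangent `dx = w dy` and the field `F` of its jets. -/
structure Mir (d : Two C Ω) where
  /-- first isotropic coordinate -/
  x : Ω
  /-- second isotropic coordinate -/
  y : Ω
  /-- slope -/
  w : Ω
  /-- field of jets -/
  F : IntermediateField C Ω
  xF : x ∈ F
  yF : y ∈ F
  wF : w ∈ F
  w0 : w ≠ 0
  ny : d.d0 y ≠ 0 ∨ d.d1 y ≠ 0
  tan : d.Sl y x w
  stab : ∀ f ∈ F, ∃ g ∈ F, d.Sl y f g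
  const : ∀ f ∈ F, d.d0 f = 0 → d.d1 f = 0 → f ∈ (⊥ : IntermediateField C Ω)
  min : ∀ S : IntermediateField C Ω, x ∈ S → y ∈ S →
    (∀ f ∈ S, f ∈ F → ∀ g ∈ F, d.Sl y f g → g ∈ S) → F ≤ S
  real : y ∈ C⟮x⟯ ↔ x ∈ C⟮y⟯

variable {d : Two C Ω}

/-- The segment from `m` to `m'` has direction `(z, 1 / z)` and length `l`. -/
structure Edge (m m' : Mir d) (z l : Ω) : Prop where
  ex : m'.x - m.x = l * z
  ey : (m'.y - m.y) * z = l
  z0 : z ≠ 0
  l0 : l ≠ 0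
  g0 : m.w ≠ z ^ 2
  g1 : m'.w ≠ z ^ 2
  nd : d.J m.y z ≠ 0

/-- Two consecutive segments with the law of reflection. -/
structure Tri (m0 m1 m2 : Mir d) (z0 l0 z1 l1 : Ω) : Prop where
  e0 : Edge m0 m1 z0 l0
  e1 : Edge m1 m2 z1 l1
  r : z0 * z1 = m1.w

/-- The point lies on the line `x = c + s y` and is not a point of tangency. -/
def OnL (m : Mir d) (s c : Ω) : Prop := m.x = c + s * m.y ∧ m.w ≠ s

/-- A valuation which is discrete on `E` with uniformizer `π`, a transversal derivation `δ` and a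
tangent derivation `P`. -/
structure Frame (V : ValuationSubring Ω) (E : IntermediateField C Ω) (π : Ω) (δ P : Der C Ω) :
    Prop where
  hC : ∀ c, algebraMap C Ω c ∈ V
  πE : π ∈ E
  π0 : π ≠ 0
  π1 : V.valuation π < 1
  disc : ∀ f ∈ E, f ≠ 0 → ∃ m : ℤ, V.valuation f = V.valuation π ^ m
  dO : ∀ f ∈ E, f ∈ V → δ f ∈ V
  dπ : V.valuation (δ π) = 1
  mon : ∀ f ∈ E, V.valuation (P f) ≤ V.valuation f

namespace Mir

variable (m : Mir d)

lemma sl_unique {f g g' : Ω} (h : d.Sl m.y f g) (h' : d.Sl m.y f g') : g = g' :=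
  m.ny.elim (fun e => mul_left_cancel₀ e (h.1.symm.trans h'.1))
    fun e => mul_left_cancel₀ e (h.2.symm.trans h'.2)

lemma kill {Z : Der C Ω} (hZ : d.Tn Z) (h : Z m.y = 0) : ∀ f ∈ m.F, Z f = 0 := fun f hf => by
  obtain ⟨g, -, hg⟩ := m.stab f hf
  rw [hZ.sl hg, h, zero_mul]

lemma sl_of {Z : Der C Ω} (hZ : d.Tn Z) (h : Z m.y = 1) {f : Ω} (hf : f ∈ m.F) :
    Z f ∈ m.F ∧ d.Sl m.y f (Z f) := by
  obtain ⟨g, g1, hg⟩ := m.stab f hf
  rw [hZ.sl hg, h, one_mul]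
  exact ⟨g1, hg⟩

lemma stab_of {Z : Der C Ω} (hZ : d.Tn Z) {T : IntermediateField C Ω} (hT : m.F ≤ T)
    (h : Z m.y ∈ T) : ∀ f ∈ m.F, Z f ∈ T := fun f hf => by
  obtain ⟨g, g1, hg⟩ := m.stab f hf
  rw [hZ.sl hg]
  exact mul_mem h (hT g1)

lemma const_of {Z : Der C Ω} (hZ : d.Tn Z) (h : Z m.y ≠ 0) :
    ∀ f ∈ m.F, Z f = 0 → f ∈ (⊥ : IntermediateField C Ω) := fun f hf h0 => by
  obtain ⟨g, -, hg⟩ := m.stab f hf
  rw [hZ.sl hg] at h0
  obtain rfl := (mul_eq_zero.1 h0).resolve_left h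
  exact m.const f hf (by rw [hg.1, mul_zero]) (by rw [hg.2, mul_zero])

lemma le_of {Z : Der C Ω} (hZ : d.Tn Z) (h : Z m.y ≠ 0) {S : IntermediateField C Ω}
    (hx : m.x ∈ S) (hy : m.y ∈ S) (hS : ∀ f ∈ S, Z f ∈ S) : m.F ≤ S :=
  m.min S hx hy fun f hf _ g _ hg => by
    have := div_mem (hS f hf) (hS _ hy)
    rwa [hZ.sl hg, mul_div_cancel_left₀ _ h] at this

end Mir

end Pool.Agent.MP_249f74_an.H17
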