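import Pool.Agent.MP_249f74_an.H17.Spec

/-!
The order along a divisor of a product, by means of the Taylor map.
-/

open Set PowerSeries

namespace Pool.Agent.MP_249f74_an.H17

namespace FR

variable {C Ω : Type} [Field C] [Field Ω] [Algebra C Ω]

theorem val_core (A : Subalgebra C Ω) {κ : Type} [Field κ] (T : A →+* κ⟦X⟧)
    (hT : Function.Injective T) {π : A} (hπ : T π = -X) :
    ∃ V : ValuationSubring Ω, V.valuation π < 1 ∧
      ∀ a b : A, V.valuation a ≤ V.valuation b ↔ T b ∣ T a := by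
  let O : Subring Ω :=
    { carrier := {x | ∃ a b : A, b ≠ 0 ∧ x * b = a ∧ T b ∣ T a}
      mul_mem' := by
        rintro x y ⟨a, b, h1, h2, h3⟩ ⟨a', b', h1', h2', h3'⟩
        exact ⟨a * a', b * b', mul_ne_zero h1 h1', by push_cast; rw [← h2, ← h2']; ring,
          by rw [map_mul, map_mul]; exact mul_dvd_mul h3 h3'⟩
      one_mem' := ⟨1, 1, one_ne_zero, one_mul _, dvd_rfl⟩
      add_mem' := by
        rintro x y ⟨a, b, h1, h2, h3⟩ ⟨a', b', h1', h2', h3'⟩
        refine ⟨a * b' + b * a', b * b', mul_ne_zero h1 h1', by push_cast; rw [← h2, ← h2']; ring, ?_⟩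
        rw [map_add, map_mul, map_mul, map_mul]
        exact dvd_add (mul_dvd_mul h3 dvd_rfl) (mul_dvd_mul dvd_rfl h3')
      zero_mem' := ⟨0, 1, one_ne_zero, zero_mul _, by simp⟩
      neg_mem' := by
        rintro x ⟨a, b, h1, h2, h3⟩
        exact ⟨-a, b, h1, by push_cast; rw [← h2]; ring, by simpa using h3⟩ }
  have hO : ∀ a : A, (a : Ω) ∈ O := fun a => ⟨a, 1, one_ne_zero, mul_one _, by simp⟩
  obtain ⟨V, h1, h2⟩ := Ideal.image_subset_nonunits_valuationSubring (A := O)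
    (Ideal.span {⟨π, hO π⟩}) (by
      rw [Ne, Ideal.span_singleton_eq_top, isUnit_iff_exists_inv]
      rintro ⟨⟨x, a, b, h1, h2, c, h3⟩, hx⟩
      have h4 : π * a = b := Subtype.ext (by
        have : (π : Ω) * x = 1 := congrArg Subtype.val hx
        push_cast; rw [← h2, ← mul_assoc, this, one_mul])
      have h5 : T b * (-X * c) = T b * 1 := by
        rw [mul_left_comm, ← h3, ← hπ, ← map_mul, h4, mul_one]
      simpa using congrArg constantCoeff
        (mul_left_cancel₀ ((map_ne_zero_iff T hT).2 h1) h5))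
  have h3 : V.valuation π < 1 := (V.mem_nonunits_iff).1
    (h2 ⟨⟨π, hO π⟩, Ideal.mem_span_singleton_self _, rfl⟩)
  have h4 : ∀ a b : A, T b ∣ T a → V.valuation a ≤ V.valuation b := fun a b h => by
    rcases eq_or_ne b 0 with rfl | hb
    · rw [map_zero, zero_dvd_iff, map_eq_zero_iff T hT] at h
      rw [h]
    · have hb' : (b : Ω) ≠ 0 := fun e => hb (Subtype.ext e)
      have := (V.valuation_le_one_iff _).2 (h1 (⟨a, b, hb, div_mul_cancel₀ _ hb', h⟩ :
        (a : Ω) / b ∈ O))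
      rwa [map_div₀, div_le_one₀ ((Valuation.pos_iff _).2 hb')] at this
  refine ⟨V, h3, fun a b => ⟨fun h => by_contra fun hn => ?_, h4 a b⟩⟩
  obtain ⟨c, hc⟩ := (ValuationRing.dvd_total (T a) (T b)).resolve_right hn
  obtain ⟨c, rfl⟩ : X ∣ c := X_dvd_iff.2 (by_contra fun h0 => hn (by
    rw [hc, IsUnit.mul_right_dvd (isUnit_iff_constantCoeff.2 (Ne.isUnit h0))]))
  have ha : (a : Ω) ≠ 0 := fun e => hn (by rw [show a = 0 from Subtype.ext e]; simp)
  have := h4 b (a * π) ⟨-c, by rw [hc, map_mul, hπ]; ring⟩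
  rw [Subalgebra.coe_mul, map_mul] at this
  exact absurd (h.trans this) (not_le.2 (mul_lt_of_lt_one_right ((Valuation.pos_iff _).2 ha) h3))

/-- Restriction of a derivation to a stable subalgebra. -/
def res (A : Subalgebra C Ω) (δ : Der C Ω) (h : ∀ a ∈ A, δ a ∈ A) : Derivation C A A :=
  Derivation.mk'
    { toFun := fun a => ⟨δ a, h a a.2⟩
      map_add' := fun a b => Subtype.ext (by simp)
      map_smul' := fun c a => Subtype.ext (by simp) }
    fun a b => Subtype.ext (by simp)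

@[simp] lemma coe_res (A : Subalgebra C Ω) (δ : Der C Ω) (h : ∀ a ∈ A, δ a ∈ A) (a : A) :
    (res A δ h a : Ω) = δ a := rfl

lemma coe_iter (A : Subalgebra C Ω) (δ : Der C Ω) (h : ∀ a ∈ A, δ a ∈ A) (n : ℕ) (a : A) :
    ((res A δ h)^[n] a : Ω) = δ^[n] a :=
  Function.Semiconj.iterate_right (f := Subtype.val) (fun _ => rfl) n a

/-- The ring generated by two subfields. -/
abbrev AA (E F : IntermediateField C Ω) : Subalgebra C Ω := E.toSubalgebra ⊔ F.toSubalgebra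

variable {E F : IntermediateField C Ω}

lemma inl {a : Ω} (h : a ∈ E) : a ∈ AA E F := Algebra.mem_sup_left h

lemma inr {a : Ω} (h : a ∈ F) : a ∈ AA E F := Algebra.mem_sup_right h

lemma ind {p : AA E F → Prop} (hm : ∀ a (ha : a ∈ E) b (hb : b ∈ F), p (⟨a, inl ha⟩ * ⟨b, inr hb⟩))
    (ha : ∀ x y, p x → p y → p (x + y)) (a : AA E F) : p a := by
  have h : (a : Ω) ∈ Subalgebra.toSubmodule E.toSubalgebra * Subalgebra.toSubmodule F.toSubalgebra :=
    Subalgebra.mul_toSubmodule E.toSubalgebra F.toSubalgebra ▸ a.2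
  exact (Submodule.mul_induction_on (C := fun x => ∃ h : x ∈ AA E F, p ⟨x, h⟩) h
    (fun a h1 b h2 => ⟨_, hm a h1 b h2⟩) fun _ _ ⟨_, h1⟩ ⟨_, h2⟩ => ⟨_, ha _ _ h1 h2⟩).2

lemma stab {P : Der C Ω} (hE : ∀ a ∈ E, P a ∈ E) (hF : ∀ a ∈ F, P a ∈ F) :
    ∀ a ∈ AA E F, P a ∈ AA E F := fun a ha =>
  ind (p := fun a => P a ∈ AA E F) (fun a h1 b h2 => by
    simpa using add_mem (mul_mem (inl h1) (inr (hF b h2))) (mul_mem (inr h2) (inl (hE a h1))))
    (fun x y h1 h2 => by simpa using add_mem h1 h2) ⟨a, ha⟩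

lemma frac {x : Ω} (hx : x ∈ E ⊔ F) : ∃ a b : AA E F, (b : Ω) ≠ 0 ∧ x = a / b := by
  rw [IntermediateField.sup_def, IntermediateField.mem_adjoin_iff_div, Algebra.adjoin_union,
    show Algebra.adjoin C (E : Set Ω) = E.toSubalgebra from Algebra.adjoin_eq _,
    show Algebra.adjoin C (F : Set Ω) = F.toSubalgebra from Algebra.adjoin_eq _] at hx
  obtain ⟨a, ha, b, hb, rfl⟩ := hx
  rcases eq_or_ne b 0 with rfl | h
  · exact ⟨0, 1, one_ne_zero, by simp⟩
  · exact ⟨⟨a, ha⟩, ⟨b, hb⟩, h, rfl⟩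

lemma inj {δ : Der C Ω} (hE : ∀ a ∈ E, δ a = 0) (hF : ∀ a ∈ F, δ a ∈ F)
    (hc : ∀ a ∈ F, δ a = 0 → a ∈ (⊥ : IntermediateField C Ω)) (hA : ∀ a ∈ AA E F, δ a ∈ AA E F)
    {R : Type} [CommRing R] [Nontrivial R] (T : AA E F →+* R)
    (hT : ∀ a, T a = 0 → T (res _ δ hA a) = 0) : Function.Injective T := by
  let b := Module.Basis.ofVectorSpace C E
  have h1 : ∀ a : AA E F, (a : Ω) ∈ Submodule.span F (range fun i => (b i : Ω)) :=
    ind (fun x hx y hy => by
      have h := Submodule.mem_map_of_mem (f := E.val.toLinearMap) (b.mem_span ⟨x, hx⟩)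
      rw [Submodule.map_span, ← range_comp] at h
      have := Submodule.smul_mem _ (⟨y, hy⟩ : F) (Submodule.span_subset_span C F _ h)
      simpa [IntermediateField.smul_def, mul_comm, Function.comp_def] using this) fun x y h1 h2 => add_mem h1 h2
  refine (injective_iff_map_eq_zero T).2 fun a h0 => by_contra fun hn => ?_
  obtain ⟨g, hg⟩ := Finsupp.mem_span_range_iff_exists_finsupp.1 (h1 a)
  obtain ⟨c, c1, ⟨i, hi, c2⟩, hx, c3⟩ := simple hF {x | ∃ h : x ∈ AA E F, T ⟨x, h⟩ = 0}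
    (fun f hf x ⟨hx, h⟩ => ⟨mul_mem (inr hf) hx, by
      rw [← mul_zero (T ⟨f, inr hf⟩), ← h, ← map_mul]; rfl⟩)
    (fun x ⟨hx, h⟩ => ⟨hA x hx, hT _ h⟩) (fun i => (b i : Ω)) (fun i => hE _ (b i).2) g.support
    (fun i => g i) (fun i => (g i).2) (by
      by_contra h
      push Not at h
      exact hn (Subtype.ext (hg ▸ Finset.sum_eq_zero fun i hi => by
        simp [IntermediateField.smul_def, h i hi])))
    ⟨(hg.symm ▸ a.2 : g.sum (fun i a => a • (b i : Ω)) ∈ _), h0 ▸ congrArg T (Subtype.ext hg)⟩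
  choose u hu using fun i => IntermediateField.mem_bot.1 (hc _ (c1 i).1 (c1 i).2)
  have e1 : ∑ i ∈ g.support, c i * b i = (∑ i ∈ g.support, u i • b i : E) := by
    simp [← hu, Algebra.smul_def]
  refine c2 ?_
  rw [← hu, linearIndependent_iff'.1 b.linearIndependent _ u (by_contra fun h => ?_) i hi, map_zero]
  generalize ∑ i ∈ g.support, u i • b i = w at e1 h
  have : T ⟨w, inl w.2⟩ * T ⟨w⁻¹, inl (inv_mem w.2)⟩ = 1 := by
    rw [← map_mul, ← map_one T]
    exact congrArg T (Subtype.ext (mul_inv_cancel₀ fun e => h (Subtype.ext e)))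
  rw [show T ⟨w, inl w.2⟩ = 0 from c3 ▸ congrArg T (Subtype.ext e1.symm), zero_mul] at this
  exact zero_ne_one this

variable [CharZero C]

/-- The Taylor map with values in a residue field. -/
noncomputable def TT {A κ : Type} [CommRing A] [Algebra C A] [Field κ] (ψ : A →+* κ)
    (D : Derivation C A A) : A →+* κ⟦X⟧ := (PowerSeries.map ψ).comp (tay D).toRingHom

section TT

variable {A κ : Type} [CommRing A] [Algebra C A] [Field κ] (ψ : A →+* κ) (D : Derivation C A A)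

lemma coeff_TT (a : A) (n : ℕ) : coeff n (TT ψ D a) = ψ ((n.factorial : C)⁻¹ • D^[n] a) := by
  rw [← coeff_tay]; rfl

lemma const_TT (a : A) : constantCoeff (TT ψ D a) = ψ a := by
  rw [← coeff_zero_eq_constantCoeff_apply, coeff_TT]; simp

lemma TT_D (a : A) : TT ψ D (D a) = derivative κ (TT ψ D a) := by
  ext n
  simp [TT, ← deriv_tay, coeff_derivative]

lemma TT_const {a : A} (h : D a = 0) : TT ψ D a = PowerSeries.C (ψ a) := by
  simp [TT, tay_const D h]

lemma TT_X {a : A} (h : D a = 1) (h0 : ψ a = 0) : TT ψ D a = X := by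
  have : CharZero κ := charZero_of_injective_ringHom (ψ.comp (algebraMap C A)).injective
  exact derivative.ext (by rw [← TT_D, h]; simp) (by rw [const_TT, h0]; simp)

lemma dvd_TT (a : A) (n : ℕ) : X ^ n ∣ TT ψ D a ↔ ∀ m < n, ψ (D^[m] a) = 0 := by
  simp only [X_pow_dvd_iff, coeff_TT, Algebra.smul_def, map_mul]
  refine forall₂_congr fun m _ => mul_eq_zero_iff_left ?_
  exact (map_ne_zero (ψ.comp (algebraMap C A))).2 (inv_ne_zero (by exact_mod_cast m.factorial_ne_zero))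

end TT

theorem core {δ P : Der C Ω} (hE : ∀ a ∈ E, δ a = 0) (hF : ∀ a ∈ F, δ a ∈ F)
    (hc : ∀ a ∈ F, δ a = 0 → a ∈ (⊥ : IntermediateField C Ω)) (hA : ∀ a ∈ AA E F, δ a ∈ AA E F)
    (hP : ∀ a ∈ AA E F, P a ∈ AA E F) (hm : ∀ a : AA E F, δ (P a) = P (δ a))
    {κ : Type} [Field κ] (ψ : AA E F →+* κ) (hψ : ∀ a, ψ a = 0 → ψ (res _ P hP a) = 0)
    {π : AA E F} (h0 : ψ π = 0) (h1 : δ π = -1) :
    ∃ V : ValuationSubring Ω, Frame V (E ⊔ F) π δ P ∧ (∀ a ∈ E, a ∈ V) ∧ (∀ a ∈ F, a ∈ V) ∧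
      (∀ a : AA E F, ψ a ≠ 0 → V.valuation a = 1) ∧ ∀ (a : AA E F) (n : ℕ),
        X ^ n ∣ TT ψ (res _ δ hA) a → V.valuation a ≤ V.valuation π ^ n := by
  set T := TT ψ (res _ δ hA)
  have hπ : T π = -X := by
    rw [← TT_X ψ (res _ δ hA) (a := -π) (Subtype.ext (by simp [h1])) (by simp [h0]), map_neg,
      neg_neg]
  have hT := inj hE hF hc hA T fun a h => by rw [TT_D, h, map_zero]
  obtain ⟨V, v1, hV⟩ := val_core _ T hT hπ
  have hX : ∀ (a : AA E F) (n : ℕ), V.valuation a ≤ V.valuation π ^ n ↔ X ^ n ∣ T a := fun a n => by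
    rw [← map_pow, ← Subalgebra.coe_pow, hV, map_pow, hπ,
      ((Associated.refl (X : κ⟦X⟧)).neg_left.pow_pow).dvd_iff_dvd_left]
  have hO : ∀ a : AA E F, (a : Ω) ∈ V := fun a =>
    (V.valuation_le_one_iff _).1 (by simpa using (hX a 0).2 (by simp))
  have hn : ∀ a : AA E F, (a : Ω) ≠ 0 → ∃ n : ℕ, V.valuation a = V.valuation π ^ n := fun a ha => by
    obtain ⟨n, h⟩ := IsDiscreteValuationRing.associated_pow_irreducible
      ((map_ne_zero_iff T hT).2 fun e => ha (congrArg Subtype.val e)) X_prime.irreducible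
    refine ⟨n, le_antisymm ((hX a n).2 h.symm.dvd) ?_⟩
    rw [← map_pow, ← Subalgebra.coe_pow, hV, map_pow, hπ]
    exact (h.trans ((Associated.refl (X : κ⟦X⟧)).neg_right.pow_pow)).dvd
  have π0 : (π : Ω) ≠ 0 := fun e => by simp [e] at h1
  have hmon : ∀ a : AA E F, V.valuation (P a) ≤ V.valuation a := fun a => by
    rcases eq_or_ne (a : Ω) 0 with h | h
    · simp [h]
    obtain ⟨n, h⟩ := hn a h
    refine h ▸ (hX (res _ P hP a) n).2 ((dvd_TT ..).2 fun m hm' => ?_)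
    have : Function.Commute (res _ P hP) (res _ δ hA) := fun a => Subtype.ext (hm a).symm
    rw [← this.iterate_right m]
    exact hψ _ ((dvd_TT ..).1 ((hX a n).1 h.le) m hm')
  have hd : ∀ (Z : Der C Ω) (a b : Ω), b ≠ 0 → Z (a / b) = (b * Z a - a * Z b) / (b * b) :=
    fun Z a b hb => by rw [Z.leibniz_div]; simp only [smul_eq_mul]; field_simp
  refine ⟨V, ⟨fun c => hO (algebraMap C _ c), IntermediateField.le_sup_toSubalgebra E F π.2, π0, v1,
    fun x hx x0 => ?_, fun x hx hxV => ?_, by simp [h1], fun x hx => ?_⟩,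
    fun a h => hO ⟨a, inl h⟩, fun a h => hO ⟨a, inr h⟩, fun a h => ?_, fun a n => (hX a n).2⟩
  · obtain ⟨a, b, hb, rfl⟩ := frac hx
    obtain ⟨n, h⟩ := hn a fun e => x0 (by simp [e])
    obtain ⟨m, h'⟩ := hn b hb
    exact ⟨n - m, by rw [map_div₀, h, h', zpow_sub₀ (by simpa using π0)]; simp⟩
  · obtain ⟨a, b, hb, rfl⟩ := frac hx
    rw [← V.valuation_le_one_iff, map_div₀, div_le_one₀ ((Valuation.pos_iff _).2 hb), hV] at hxV
    obtain ⟨c, hc⟩ := hxV
    rw [hd _ _ _ hb, ← V.valuation_le_one_iff, map_div₀,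
      div_le_one₀ ((Valuation.pos_iff _).2 (mul_ne_zero hb hb))]
    refine (hV (b * res _ δ hA a - a * res _ δ hA b) (b * b)).2 ⟨derivative κ c, ?_⟩
    rw [map_sub, map_mul, map_mul, map_mul, TT_D, TT_D]
    simp only [T] at hc
    simp only [T, hc, Derivation.leibniz, smul_eq_mul]
    ring
  · obtain ⟨a, b, hb, rfl⟩ := frac hx
    have hb' := (Valuation.pos_iff V.valuation).2 hb
    rw [hd _ _ _ hb, map_div₀, map_div₀, map_mul, ← div_div, div_le_div_iff_of_pos_right hb',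
      div_le_iff₀ hb']
    refine Valuation.map_sub_le _ ?_ ?_ <;> rw [map_mul]
    · rw [mul_comm]; exact mul_le_mul_left (hmon a) _
    · exact mul_le_mul_right (hmon b) _
  · refine le_antisymm ((V.valuation_le_one_iff _).2 (hO a)) ?_
    have := (hV 1 a).2 (isUnit_iff_constantCoeff.2 (Ne.isUnit (by rwa [const_TT]))).dvd
    simpa using this

omit [CharZero C] in
lemma exists_phi {δ : Der C Ω} (hE : ∀ a ∈ E, δ a = 0) (hF : ∀ a ∈ F, δ a ∈ F)
    (hc : ∀ a ∈ F, δ a = 0 → a ∈ (⊥ : IntermediateField C Ω)) (j : Ω →ₐ[C] Ω) :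
    ∃ φ : AA E F →+* Ω, (∀ a h, φ ⟨a, inl h⟩ = a) ∧ ∀ a h, φ ⟨a, inr h⟩ = j a := by
  have H := ld hF hc hE
  let φ := (Algebra.TensorProduct.productMap E.toSubalgebra.val (j.comp F.toSubalgebra.val)).comp
    H.mulMap.symm.toAlgHom
  have h : ∀ (a : E.toSubalgebra) (b : F.toSubalgebra) h, φ ⟨a * b, h⟩ = a * j b := fun a b h => by
    rw [show (⟨a * b, h⟩ : AA E F) = H.mulMap (a ⊗ₜ b) from rfl]
    simp [φ]
    rfl
  exact ⟨φ, fun a ha => by simpa using h ⟨a, ha⟩ 1 (by simpa using inl ha),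
    fun a ha => by simpa using h 1 ⟨a, ha⟩ (by simpa using inr ha)⟩

omit [CharZero C] in
lemma comm {δ P : Der C Ω} (hE : ∀ a ∈ E, δ a = 0) (hF : ∀ a ∈ F, δ a ∈ F)
    (pE : ∀ a ∈ E, P a ∈ E) (pF : ∀ a ∈ F, P a = δ a) : ∀ a : AA E F, δ (P a) = P (δ a) :=
  ind (fun a ha b hb => by
    simp [hE a ha, pF b hb, hE _ (pE a ha), pF _ (hF b hb), mul_comm]) fun x y h1 h2 => by simp [h1, h2]

end FR

open FR

theorem fr0 : StmtFR0 := by
  intro C Ω _ _ _ _ _ E F δ j e f hE hF hc he hf h1 hj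
  obtain ⟨φ, p1, p2⟩ := exists_phi hE hF hc j
  obtain ⟨V, v1, v2, v3, v4, -⟩ := core (P := 0) hE hF hc
    (stab (fun a h => hE a h ▸ zero_mem _) hF) (fun _ _ => zero_mem _) (fun _ => by simp) φ
    (fun _ _ => map_zero φ) (π := ⟨e, inl he⟩ - ⟨f, inr hf⟩)
    (by rw [map_sub, p1 e he, p2 f hf, hj, sub_self]) (by simp [hE e he, h1])
  exact ⟨V, v1, v2, v3, fun a ha b hb h => v4 (⟨a, inl ha⟩ - ⟨b, inr hb⟩)
    (by rw [map_sub, p1 a ha, p2 b hb]; exact sub_ne_zero.2 h.symm)⟩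

theorem fr1 : StmtFR1 := by
  intro C Ω _ _ _ _ _ E F δ P j e f hE hF hc he hf h1 hj pE pF pe
  obtain ⟨φ, p1, p2⟩ := exists_phi hE hF hc j
  let π : AA E F := ⟨e, inl he⟩ - ⟨f, inr hf⟩
  have hP := stab pE fun a h => pF a h ▸ hF a h
  have := RingHom.ker_isPrime φ
  obtain ⟨p, hp, hle⟩ := Ideal.exists_minimalPrimes_le (I := Ideal.span {π}) (J := RingHom.ker φ)
    ((Ideal.span_singleton_le_iff_mem _).2 (by
      rw [RingHom.mem_ker, map_sub, p1 e he, p2 f hf, hj, sub_self]))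
  have := hp.1.1
  let _ : Algebra ℚ (AA E F) := ((algebraMap C _).comp (algebraMap ℚ C)).toAlgebra
  have hs := minp (res _ P hP).toLinearMap.toAddMonoidHom (res _ P hP).leibniz (fun a ha => by
    obtain ⟨c, rfl⟩ := Ideal.mem_span_singleton'.1 ha
    refine Ideal.mem_span_singleton'.2 ⟨res _ P hP c, Subtype.ext ?_⟩
    simp [π, pe, pF f hf, h1, mul_comm]) hp
  obtain ⟨V, v1, v2, v3, v4, -⟩ := core hE hF hc (stab (fun a h => hE a h ▸ zero_mem _) hF) hP
    (comm hE hF pE pF) (algebraMap _ p.ResidueField)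
    (fun a h => Ideal.algebraMap_residueField_eq_zero.2
      (hs a (Ideal.algebraMap_residueField_eq_zero.1 h))) (π := π)
    (Ideal.algebraMap_residueField_eq_zero.2 (hp.1.2 (Ideal.mem_span_singleton_self _)))
    (by simp [π, hE e he, h1])
  refine ⟨V, v1, v2, v3, fun a ha b hb h => v4 (⟨a, inl ha⟩ - ⟨b, inr hb⟩) fun h0 => ?_⟩
  have := hle (Ideal.algebraMap_residueField_eq_zero.1 h0)
  rw [RingHom.mem_ker, map_sub, p1 a ha, p2 b hb, sub_eq_zero] at this
  exact h this.symm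

theorem fr2 : StmtFR2 := by
  intro C Ω _ _ _ _ _ E F δ P j e f hE hF hc he hf h1 hj pE pF pj
  obtain ⟨φ, p1, p2⟩ := exists_phi hE hF hc j
  have hP := stab pE fun a h => pF a h ▸ hF a h
  have hA := stab (fun a h => hE a h ▸ zero_mem _) hF
  have hφ : ∀ a, φ (res _ P hP a) = P (φ a) := ind (fun a ha b hb => by
    have e1 : res _ P hP ⟨a, inl ha⟩ = ⟨P a, inl (pE a ha)⟩ := rfl
    have e2 : res _ P hP ⟨b, inr hb⟩ = ⟨δ b, inr (hF b hb)⟩ := Subtype.ext (pF b hb)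
    simp only [Derivation.leibniz, smul_eq_mul, map_add, map_mul, e1, e2, p1 a ha, p2 b hb,
      p1 _ (pE a ha), p2 _ (hF b hb), (pj b hb).2])
    fun x y h1 h2 => by simp only [map_add, h1, h2]
  obtain ⟨V, v1, v2, v3, -, v4⟩ := core hE hF hc hA hP (comm hE hF pE pF) φ
    (fun a h => by rw [hφ, h, map_zero]) (π := ⟨e, inl he⟩ - ⟨f, inr hf⟩)
    (by rw [map_sub, p1 e he, p2 f hf, hj, sub_self]) (by simp [hE e he, h1])
  refine ⟨V, v1, v2, v3, fun a ha n => ?_⟩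
  have hi : ∀ k, δ^[k] a ∈ F := fun k => (MapsTo.iterate (s := (F : Set Ω)) hF k) ha
  have hk : ∀ k : ℕ, (k.factorial : Ω)⁻¹ * j (δ^[k] a) ∈ E :=
    fun k => mul_mem (inv_mem (natCast_mem _ _)) (pj _ (hi k)).1
  have := v4 (⟨a, inr ha⟩ - ∑ k ∈ Finset.range n, ⟨_, inl (hk k)⟩ *
    (⟨f, inr hf⟩ - ⟨e, inl he⟩) ^ k) n (X_pow_dvd_iff.2 fun m hm => by
      have e1 := TT_X φ (res _ δ hA) (a := ⟨f, inr hf⟩ - ⟨e, inl he⟩)
        (Subtype.ext (by simp [hE e he, h1])) (by rw [map_sub, p1 e he, p2 f hf, hj, sub_self])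
      have e2 := fun k => TT_const φ (res _ δ hA) (a := ⟨_, inl (hk k)⟩)
        (Subtype.ext (hE _ (hk k)))
      have e3 : (res _ δ hA)^[m] ⟨a, inr ha⟩ = ⟨_, inr (hi m)⟩ := Subtype.ext (coe_iter ..)
      have e4 : φ (algebraMap C _ (m.factorial : C)⁻¹) = (m.factorial : Ω)⁻¹ :=
        (p1 _ (algebraMap_mem E _)).trans (by simp)
      simp only [map_sub, map_sum, map_mul, map_pow, e1, e2, fun k => p1 _ (hk k), coeff_TT, e3,
        Algebra.smul_def, p2 _ (hi m), e4]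
      simp [mul_assoc, coeff_C_mul, coeff_X_pow, hm])
  simpa using this

end Pool.Agent.MP_249f74_an.H17
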