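import Pool.Agent.MP_249f74_an.H17.Spec

/-!
Derivations and valuations on the algebraic closure of a discretely valued field.
-/

open Finset Polynomial

namespace Pool.Agent.MP_249f74_an.H17

open H88 (cl subset_cl)

namespace Fra

section Int

variable {R K : Type} [CommRing R] [Field K] [Algebra R K]

lemma int_of_val {x : K} (h : ∀ V : ValuationSubring K, (∀ r, algebraMap R K r ∈ V) → x ∈ V) :
    IsIntegral R x := by
  by_contra hx
  have : IsIntegrallyClosedIn (integralClosure R K).toSubring K :=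
    inferInstanceAs (IsIntegrallyClosedIn (integralClosure R K) K)
  obtain ⟨V, h1, h2⟩ := (integralClosure R K).toSubring
    |>.exists_le_valuationSubring_of_isIntegrallyClosedIn (x := x) hx
  exact h2 (h V fun r => h1 ((integralClosure R K).algebraMap_mem r))

lemma val_int (V : ValuationSubring K) (hR : ∀ r, algebraMap R K r ∈ V) {x : K}
    (hx : IsIntegral R x) : x ∈ V := by
  obtain ⟨y, hy⟩ := IsIntegrallyClosed.isIntegral_iff.1
    (hx.map_of_comp_eq (T := V) ((algebraMap R K).codRestrict V hR) (RingHom.id K) rfl)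
  exact (show (y : K) = x from hy) ▸ y.2

lemma aeval_val (V : ValuationSubring K) (hR : ∀ r, algebraMap R K r ∈ V) {x : K} (hx : x ∈ V)
    (P : R[X]) : aeval x P ∈ V := by
  rw [aeval_eq_sum_range]
  exact sum_mem fun i _ => by rw [Algebra.smul_def]; exact mul_mem (hR _) (pow_mem hx _)

lemma horner_eq (x : K) (P : R[X]) (j : ℕ) :
    aeval x (divX^[j] P) = aeval x (divX^[j + 1] P) * x + algebraMap R K (P.coeff j) := by
  have : ∀ j (P : R[X]), (divX^[j] P).coeff 0 = P.coeff j := fun j => by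
    induction j with
    | zero => exact fun _ => rfl
    | succ j ih => exact fun P => by rw [Function.iterate_succ_apply, ih, coeff_divX]
  conv_lhs => rw [← divX_mul_X_add (divX^[j] P)]
  rw [map_add, map_mul, aeval_X, aeval_C, this, Function.iterate_succ_apply']

lemma horner {x : K} {P : R[X]} (h : aeval x P = 0) (j : ℕ) :
    IsIntegral R (aeval x (divX^[j] P)) := by
  refine int_of_val fun V hV => (V.mem_or_inv_mem x).elim (fun hx => aeval_val V hV hx _)
    fun hx => ?_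
  by_cases x0 : x = 0
  · exact aeval_val V hV (x0 ▸ V.zero_mem) _
  induction j with
  | zero => exact h ▸ V.zero_mem
  | succ j ih =>
    have := mul_mem (sub_mem ih (hV (P.coeff j))) hx
    rwa [horner_eq, add_sub_cancel_right, mul_inv_cancel_right₀ x0] at this

lemma loc_val (V : ValuationSubring K) (hR : ∀ r, algebraMap R K r ∈ V) {x : K} (hx : x ∈ V)
    {P : R[X]} (h : aeval x P = 0) (hP : ∃ i, V.valuation (algebraMap R K (P.coeff i)) = 1) :
    ∃ Q : R[X], IsIntegral R (aeval x Q) ∧ IsIntegral R (aeval x Q * x) ∧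
      V.valuation (aeval x Q) = 1 := by
  have le := fun y (hy : y ∈ V) => (V.valuation_le_one_iff y).2 hy
  by_contra hn
  push Not at hn
  have h1 : ∀ j, V.valuation (aeval x (divX^[j] P)) < 1 := fun j => by
    rcases j with _ | j
    · simp [h]
    · refine (le _ (aeval_val V hR hx _)).lt_of_ne (hn _ (horner h _) ?_)
      have := (horner h j).sub (isIntegral_algebraMap (x := P.coeff j))
      rwa [horner_eq, add_sub_cancel_right] at this
  obtain ⟨i, hi⟩ := hP
  have h2 := V.valuation.map_sub_lt (h1 i) (map_mul V.valuation _ _ ▸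
    mul_lt_one_of_lt_of_le (h1 (i + 1)) (le x hx))
  rw [horner_eq, add_sub_cancel_left, hi] at h2
  exact lt_irrefl _ h2

end Int

variable {C Ω : Type} [Field C] [CharZero C] [Field Ω] [CharZero Ω] [Algebra C Ω]
  {V : ValuationSubring Ω}

omit [CharZero C] [CharZero Ω] in
lemma val_c (hC : ∀ c, algebraMap C Ω c ∈ V) {c : C} (hc : c ≠ 0) :
    V.valuation (algebraMap C Ω c) = 1 := by
  refine le_antisymm ((V.valuation_le_one_iff _).2 (hC c)) ?_
  have := (V.valuation_le_one_iff _).2 (hC c⁻¹)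
  rwa [map_inv₀, map_inv₀, inv_le_one₀ (by simpa [zero_lt_iff] using hc)] at this

omit [CharZero Ω] in
lemma val_z (hC : ∀ c, algebraMap C Ω c ∈ V) {n : ℤ} (hn : n ≠ 0) : V.valuation (n : Ω) = 1 := by
  rw [← map_intCast (algebraMap C Ω), val_c hC (Int.cast_ne_zero.2 hn)]

omit [CharZero Ω] in
lemma val_n (hC : ∀ c, algebraMap C Ω c ∈ V) {n : ℕ} (hn : n ≠ 0) : V.valuation (n : Ω) = 1 := by
  rw [← map_natCast (algebraMap C Ω), val_c hC (Nat.cast_ne_zero.2 hn)]

omit [CharZero Ω] in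
lemma res_kill (hC : ∀ c, algebraMap C Ω c ∈ V) (Z : Der C Ω) (T : Subring Ω) {b : Ω}
    (hT : b ∈ T) (hb : b ∈ V) (h1 : Z b ∈ V)
    (hm : ∀ g ∈ T, V.valuation g < 1 → V.valuation (Z g) < 1) (n : ℕ) :
    ∀ a : ℕ → Ω, (∀ i, a i ∈ T ∧ a i ∈ V ∧ V.valuation (Z (a i)) < 1) →
      (∃ i ≤ n, V.valuation (a i) = 1) →
      V.valuation (∑ i ∈ range (n + 1), a i * b ^ i) < 1 → V.valuation (Z b) < 1 := by
  have le := fun y (hy : y ∈ V) => (V.valuation_le_one_iff y).2 hy
  induction n with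
  | zero =>
    rintro a _ ⟨i, hi, h2⟩ h3
    obtain rfl := Nat.le_zero.1 hi
    simp [h2] at h3
  | succ n ih =>
    rintro a ha ⟨j, hj, h2⟩ h3
    by_cases h0 : V.valuation (a (n + 1)) = 1
    swap
    · have h4 : V.valuation (a (n + 1) * b ^ (n + 1)) < 1 := by
        rw [map_mul]
        exact mul_lt_one_of_lt_of_le ((le _ (ha _).2.1).lt_of_ne h0) (le _ (pow_mem hb _))
      have h5 := V.valuation.map_sub_lt h3 h4
      rw [sum_range_succ, add_sub_cancel_right] at h5
      refine ih a ha ⟨j, ?_, h2⟩ h5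
      rcases hj.lt_or_eq with h | h
      · omega
      · exact absurd (h ▸ h2) h0
    by_contra hn
    have h4 : V.valuation (Z b) = 1 := le_antisymm (le _ h1) (not_lt.1 hn)
    refine hn (ih (fun i => (i + 1 : ℕ) * a (i + 1)) (fun i =>
      ⟨mul_mem (natCast_mem _ _) (ha _).1, mul_mem (natCast_mem _ _) (ha _).2.1, ?_⟩)
      ⟨n, le_rfl, ?_⟩ ?_)
    · rw [Z.leibniz, Z.map_natCast, smul_zero, add_zero, smul_eq_mul, map_mul,
        val_n hC i.succ_ne_zero, one_mul]
      exact (ha _).2.2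
    · rw [map_mul, h0, val_n hC n.succ_ne_zero, one_mul]
    · have h5 := hm _ (sum_mem fun i _ => mul_mem (ha i).1 (pow_mem hT i)) h3
      have h6 : Z (∑ i ∈ range (n + 1 + 1), a i * b ^ i) =
          ∑ i ∈ range (n + 1 + 1), Z (a i) * b ^ i +
            (∑ i ∈ range (n + 1), (i + 1 : ℕ) * a (i + 1) * b ^ i) * Z b := by
        simp only [map_sum, Z.leibniz, Z.leibniz_pow, smul_eq_mul, nsmul_eq_mul,
          sum_add_distrib, sum_mul]
        rw [add_comm, sum_range_succ' (fun i => a i * (i * (b ^ (i - 1) * Z b)))]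
        simp only [Nat.cast_zero, zero_mul, mul_zero, add_zero, Nat.add_sub_cancel]
        congr 1 <;> exact sum_congr rfl fun i _ => by ring
      have h7 := V.valuation.map_sub_lt h5 (V.valuation.map_sum_lt (s := range (n + 1 + 1))
        (f := fun i => Z (a i) * b ^ i) one_ne_zero fun i _ => by
          rw [map_mul]; exact mul_lt_one_of_lt_of_le (ha i).2.2 (le _ (pow_mem hb i)))
      rwa [h6, add_sub_cancel_left, map_mul, h4, mul_one] at h7

/-- Values of algebraic elements are torsion modulo the values of the base field. -/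
lemma val_root (L : Type) [Field L] [Algebra L Ω] {g : Ω} (hg : IsAlgebraic L g) (g0 : g ≠ 0) :
    ∃ (e : ℕ) (r : L), e ≠ 0 ∧ V.valuation (g ^ e) = V.valuation (algebraMap L Ω r) := by
  obtain ⟨q, q1, q2⟩ := hg.isIntegral
  by_contra hn
  push Not at hn
  rw [eval₂_eq_sum_range] at q2
  obtain ⟨j, hj, hj'⟩ := (range (q.natDegree + 1)).exists_max_image
    (fun i => V.valuation (algebraMap L Ω (q.coeff i) * g ^ i)) ⟨0, by simp⟩
  have h0 : V.valuation (algebraMap L Ω (q.coeff j) * g ^ j) ≠ 0 := fun e => by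
    have := hj' q.natDegree (by simp)
    simp [e, q1.coeff_natDegree, g0] at this
  refine h0 ?_
  rw [← V.valuation.map_sum_eq_of_lt (f := fun i => algebraMap L Ω (q.coeff i) * g ^ i) hj, q2,
    map_zero]
  intro i hi
  obtain ⟨i1, i2⟩ := mem_sdiff.1 hi
  refine (hj' i i1).lt_of_ne fun e => ?_
  have h1 := h0
  rw [← e] at h1
  simp only [map_mul, map_pow, ne_eq, mul_eq_zero, not_or] at e h0 h1
  rcases lt_or_gt_of_ne (notMem_singleton.1 i2) with l | l
  · refine hn (j - i) (q.coeff i / q.coeff j) (by omega) ?_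
    rw [map_div₀, map_div₀, map_pow, pow_sub₀ _ (by simpa using g0) l.le, eq_div_iff h0.1,
      mul_right_comm, mul_inv_eq_iff_eq_mul₀ h1.2, e, mul_comm]
  · refine hn (i - j) (q.coeff j / q.coeff i) (by omega) ?_
    rw [map_div₀, map_div₀, map_pow, pow_sub₀ _ (by simpa using g0) l.le, eq_div_iff h1.1,
      mul_right_comm, mul_inv_eq_iff_eq_mul₀ h0.2, ← e, mul_comm]

omit [CharZero C] [CharZero Ω] in
lemma log_id (Z : Der C Ω) {g π : Ω} (g0 : g ≠ 0) (π0 : π ≠ 0) (e : ℕ) (k : ℤ) :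
    Z (g ^ e / π ^ k) / (g ^ e / π ^ k) = e * (Z g / g) - k * (Z π / π) := by
  have h1 : Z (g ^ e) = g ^ e * (e * (Z g / g)) := by
    rw [← zpow_natCast, Z.leibniz_zpow, zpow_sub_one₀ g0]
    simp only [smul_eq_mul, zsmul_eq_mul, Int.cast_natCast]
    field_simp
  have h2 : Z (π ^ k) = π ^ k * (k * (Z π / π)) := by
    rw [Z.leibniz_zpow, zpow_sub_one₀ π0]
    simp only [smul_eq_mul, zsmul_eq_mul]
    field_simp
  have h3 := zpow_ne_zero k π0
  rw [Z.leibniz_div, h1, h2]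
  simp only [smul_eq_mul]
  field_simp

variable {E : IntermediateField C Ω} {π : Ω} {δ P : Der C Ω}

/-- The valuation ring of the base field. -/
abbrev OO (V : ValuationSubring Ω) (E : IntermediateField C Ω) : ValuationSubring E :=
  V.comap (algebraMap E Ω)

omit [CharZero C] [CharZero Ω] in
lemma OO_mem (r : OO V E) : algebraMap (OO V E) Ω r ∈ E ∧ algebraMap (OO V E) Ω r ∈ V :=
  ⟨r.1.2, r.2⟩

omit [CharZero C] [CharZero Ω] in
lemma vπ_pos (h : Frame V E π δ P) : 0 < V.valuation π := by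
  simpa [zero_lt_iff] using h.π0

omit [CharZero C] in
lemma val_pow (h : Frame V E π δ P) {g : Ω} (hg : IsAlgebraic E g) (g0 : g ≠ 0) :
    ∃ (e : ℕ) (k : ℤ), e ≠ 0 ∧ V.valuation g ^ e = V.valuation π ^ k := by
  obtain ⟨e, r, he, hr⟩ := val_root (V := V) E hg g0
  obtain ⟨k, hk⟩ := h.disc r r.2 fun z => by
    have : algebraMap E Ω r = 0 := z
    simp [this, g0] at hr
  exact ⟨e, k, he, by rw [← map_pow, hr]; exact hk⟩

omit [CharZero C] [CharZero Ω] in
lemma noeth (h : Frame V E π δ P) : IsNoetherianRing (OO V E) := by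
  classical
  let p : OO V E := ⟨⟨π, h.πE⟩, (V.valuation_le_one_iff _).1 h.π1.le⟩
  have hd : ∀ x y : OO V E, V.valuation (x.1 : Ω) ≤ V.valuation (y.1 : Ω) → y ≠ 0 → y ∣ x := by
    intro x y hxy y0
    have y1 : y.1 ≠ 0 := fun e => y0 (Subtype.ext e)
    refine ⟨⟨x.1 / y.1, ?_⟩, Subtype.ext (mul_div_cancel₀ _ y1).symm⟩
    show ((x.1 / y.1 : E) : Ω) ∈ V
    rw [← V.valuation_le_one_iff]
    push_cast
    rw [map_div₀]
    exact div_le_one_of_le₀ hxy zero_le
  have hp : ∀ n : ℕ, V.valuation ((p ^ n).1 : Ω) = V.valuation π ^ n := fun n => by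
    rw [← map_pow]; rfl
  have p0 : ∀ n : ℕ, p ^ n ≠ 0 := fun n =>
    pow_ne_zero n fun e => h.π0 (congrArg (fun x : OO V E => (x.1 : Ω)) e)
  have hn : ∀ x : OO V E, x ≠ 0 → ∃ n : ℕ, x ∣ p ^ n ∧ p ^ n ∣ x := fun x x0 => by
    obtain ⟨m, hm⟩ := h.disc x.1 x.1.2 fun e => x0 (Subtype.ext (Subtype.ext e))
    have m0 : 0 ≤ m := by
      by_contra hneg
      have h1 := one_lt_zpow_of_neg₀ (vπ_pos h) h.π1 (not_le.1 hneg)
      exact absurd ((V.valuation_le_one_iff _).2 x.2) (not_le.2 (hm ▸ h1))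
    obtain ⟨n, rfl⟩ := Int.eq_ofNat_of_zero_le m0
    rw [zpow_natCast, ← hp] at hm
    exact ⟨n, hd _ _ hm.ge x0, hd _ _ hm.le (p0 n)⟩
  have : IsPrincipalIdealRing (OO V E) := ⟨fun I => by
    by_cases hI : ∃ n : ℕ, p ^ n ∈ I
    · refine ⟨p ^ Nat.find hI, le_antisymm (fun x hx => ?_)
        ((Ideal.span_singleton_le_iff_mem I).2 (Nat.find_spec hI))⟩
      by_cases x0 : x = 0
      · simp [x0]
      obtain ⟨n, h1, h2⟩ := hn x x0
      exact Ideal.mem_span_singleton.2 ((pow_dvd_pow p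
        (Nat.find_min' hI (I.mem_of_dvd h1 hx))).trans h2)
    · refine ⟨0, le_antisymm (fun x hx => ?_) (by simp)⟩
      by_cases x0 : x = 0
      · simp [x0]
      obtain ⟨n, h1, -⟩ := hn x x0
      exact absurd ⟨n, I.mem_of_dvd h1 hx⟩ hI⟩
  infer_instance

omit [CharZero C] [CharZero Ω] in
lemma prim_poly {g : Ω} (hg : IsAlgebraic E g) : ∃ Q : (OO V E)[X], aeval g Q = 0 ∧
    ∃ i, V.valuation (algebraMap (OO V E) Ω (Q.coeff i)) = 1 := by
  obtain ⟨q, q0, q1⟩ := hg
  obtain ⟨j, hj, hj'⟩ := q.support.exists_max_image (fun i => V.valuation (q.coeff i : Ω))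
    (support_nonempty.2 q0)
  have j0 : q.coeff j ≠ 0 := mem_support_iff.1 hj
  have j1 : (q.coeff j : Ω) ≠ 0 := fun e => j0 (Subtype.ext e)
  have hl : Polynomial.C (q.coeff j)⁻¹ * q ∈ lifts (algebraMap (OO V E) E) := by
    rw [lifts_iff_coeff_lifts]
    intro i
    refine ⟨⟨_, ?_⟩, rfl⟩
    show (((Polynomial.C (q.coeff j)⁻¹ * q).coeff i : E) : Ω) ∈ V
    rw [coeff_C_mul, ← V.valuation_le_one_iff]
    push_cast
    rw [map_mul, map_inv₀, inv_mul_le_iff₀ (by simpa [zero_lt_iff] using j0), mul_one]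
    by_cases hi : i ∈ q.support
    · exact hj' i hi
    · simp [notMem_support_iff.1 hi]
  obtain ⟨Q, hQ⟩ := (mem_lifts _).1 hl
  refine ⟨Q, by rw [← aeval_map_algebraMap E, hQ, map_mul, q1, mul_zero], j, ?_⟩
  have := congrArg (fun f => f.coeff j) hQ
  simp only [coeff_map, coeff_C_mul, inv_mul_cancel₀ j0] at this
  rw [IsScalarTower.algebraMap_apply (OO V E) E Ω, this, map_one, map_one]

omit [CharZero C] in
lemma fin_gen (h : Frame V E π δ P) (T : IntermediateField E Ω) [FiniteDimensional E T] :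
    ∃ s : Finset Ω, (∀ b ∈ s, b ∈ T ∧ IsIntegral (OO V E) b) ∧
      ∀ b ∈ T, IsIntegral (OO V E) b → b ∈ Submodule.span (OO V E) (s : Set Ω) := by
  classical
  have := noeth h
  have : CharZero E := RingHom.charZero_iff (algebraMap E Ω).injective |>.2 inferInstance
  obtain ⟨s, hs⟩ := (IsIntegralClosure.finite (OO V E) E T (integralClosure (OO V E) T)).fg_top
  let φ : integralClosure (OO V E) T →ₐ[OO V E] Ω :=
    (IsScalarTower.toAlgHom (OO V E) T Ω).comp (integralClosure (OO V E) T).val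
  refine ⟨s.image φ, fun b hb => ?_, fun b hb hi => ?_⟩
  · obtain ⟨c, -, rfl⟩ := mem_image.1 hb
    exact ⟨c.1.2, c.2.map (IsScalarTower.toAlgHom (OO V E) T Ω)⟩
  · have h1 : IsIntegral (OO V E) (⟨b, hb⟩ : T) :=
      (isIntegral_algebraMap_iff (algebraMap T Ω).injective).1 hi
    have h2 : (⟨_, h1⟩ : integralClosure (OO V E) T) ∈ Submodule.span (OO V E) (s : Set _) :=
      hs ▸ trivial
    have h3 := Submodule.mem_map_of_mem (f := φ.toLinearMap) h2
    rw [Submodule.map_span] at h3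
    rw [coe_image]
    exact h3

omit [CharZero C] [CharZero Ω] in
lemma unit_quot (h : Frame V E π δ P) {g : Ω} {e : ℕ} {k : ℤ}
    (hk : V.valuation g ^ e = V.valuation π ^ k) : V.valuation (g ^ e / π ^ k) = 1 := by
  rw [map_div₀, map_pow, map_zpow₀, hk, div_self (zpow_ne_zero _ (vπ_pos h).ne')]

lemma log_le (h : Frame V E π δ P) (T : IntermediateField E Ω) [Algebra.IsAlgebraic E T]
    (Z : Der C Ω) (hπ : V.valuation (Z π) ≤ V.valuation π) (hZ : ∀ g ∈ T, g ∈ V → Z g ∈ V) :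
    ∀ g ∈ T, V.valuation (Z g) ≤ V.valuation g := by
  intro g hg
  by_cases g0 : g = 0
  · simp [g0]
  have ha : IsAlgebraic E g :=
    (Algebra.IsAlgebraic.isAlgebraic (⟨g, hg⟩ : T)).algebraMap (A := Ω)
  obtain ⟨e, k, he, hk⟩ := val_pow h ha g0
  have h1 := unit_quot h hk
  have h2 : Z (g ^ e / π ^ k) / (g ^ e / π ^ k) ∈ V := by
    rw [← V.valuation_le_one_iff, map_div₀, h1, div_one, V.valuation_le_one_iff]
    exact hZ _ (div_mem (pow_mem hg e) (zpow_mem (T.algebraMap_mem ⟨π, h.πE⟩) k))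
      ((V.valuation_le_one_iff _).1 h1.le)
  have h3 : Z π / π ∈ V := by
    rw [← V.valuation_le_one_iff, map_div₀]
    exact div_le_one_of_le₀ hπ zero_le
  have h4 := add_mem h2 (mul_mem (intCast_mem V k) h3)
  rwa [log_id Z g0 h.π0, sub_add_cancel, ← V.valuation_le_one_iff, map_mul, val_n h.hC he,
    one_mul, map_div₀, div_le_one₀ (by simpa [zero_lt_iff] using g0)] at h4

theorem mon (h : Frame V E π δ P) (Z : Der C Ω) (hO : ∀ f ∈ E, f ∈ V → Z f ∈ V)
    (hπ : V.valuation (Z π) ≤ V.valuation π) {g : Ω} (hg : g ∈ cl C (E : Set Ω)) :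
    V.valuation (Z g) ≤ V.valuation g := by
  have le := fun y (hy : y ∈ V) => (V.valuation_le_one_iff y).2 hy
  have hR : ∀ r, algebraMap (OO V E) Ω r ∈ V := fun r => (OO_mem r).2
  have hE : ∀ r, Z (algebraMap (OO V E) Ω r) ∈ V := fun r => hO _ (OO_mem r).1 (OO_mem r).2
  let T := IntermediateField.adjoin E {g}
  have : FiniteDimensional E T :=
    IntermediateField.adjoin.finiteDimensional (mem_cl_iff.1 hg).isIntegral
  have hT : ∀ r, algebraMap (OO V E) Ω r ∈ T := fun r => T.algebraMap_mem r.1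
  refine log_le h T Z hπ ?_ g (IntermediateField.mem_adjoin_simple_self E g)
  obtain ⟨s, hs1, hs⟩ := fin_gen h T
  have key : ∀ c ∈ V, (∀ b ∈ s, c * Z b ∈ V) → ∀ x ∈ T, x ∈ V → c * Z x ∈ V := by
    intro c hc h0 x hxT hx
    have h1 : ∀ b ∈ Submodule.span (OO V E) (s : Set Ω), b ∈ V ∧ c * Z b ∈ V := fun b hb => by
      induction hb using Submodule.span_induction with
      | mem x hx => exact ⟨val_int V hR (hs1 x hx).2, h0 x hx⟩
      | zero => simp
      | add a b _ _ ha hb =>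
        rw [map_add, mul_add]; exact ⟨add_mem ha.1 hb.1, add_mem ha.2 hb.2⟩
      | smul r a _ ha =>
        rw [Algebra.smul_def, Z.leibniz, smul_eq_mul, smul_eq_mul, mul_add, mul_left_comm]
        exact ⟨mul_mem (hR r) ha.1,
          add_mem (mul_mem (hR r) ha.2) (mul_mem hc (mul_mem ha.1 (hE r)))⟩
    obtain ⟨Q, p1, p2⟩ := prim_poly (V := V)
      ((Algebra.IsAlgebraic.isAlgebraic (R := E) (⟨x, hxT⟩ : T)).algebraMap (A := Ω))
    obtain ⟨Q', t1, t2, t3⟩ := loc_val V hR hx p1 p2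
    have t0 : aeval x Q' ∈ T := by
      rw [aeval_eq_sum_range]
      exact sum_mem fun i _ => by
        rw [Algebra.smul_def]; exact mul_mem (hT _) (pow_mem hxT _)
    have h2 := sub_mem (h1 _ (hs _ (mul_mem t0 hxT) t2)).2 (mul_mem hx (h1 _ (hs _ t0 t1)).2)
    rw [Z.leibniz, smul_eq_mul, smul_eq_mul, mul_add, mul_left_comm c x, add_sub_cancel_right,
      mul_left_comm, ← V.valuation_le_one_iff, map_mul, t3, one_mul] at h2
    exact (V.valuation_le_one_iff _).1 h2
  by_cases h0 : ∀ b ∈ s, Z b ∈ V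
  · simpa using key 1 V.one_mem (by simpa using h0)
  push Not at h0
  obtain ⟨b1, b11, b12⟩ := h0
  obtain ⟨b, hb, hb'⟩ := s.exists_max_image (fun b => V.valuation (Z b)) ⟨b1, b11⟩
  have h1 : 1 < V.valuation (Z b) :=
    (not_le.1 fun e => b12 ((V.valuation_le_one_iff _).1 e)).trans_le (hb' b1 b11)
  have z0 : Z b ≠ 0 := fun e => by simp [e] at h1
  have h2 : V.valuation (Z b)⁻¹ < 1 := by rw [map_inv₀]; exact inv_lt_one_of_one_lt₀ h1
  have h3 := key _ ((V.valuation_le_one_iff _).1 h2.le) fun b' hb'' => by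
    rw [← V.valuation_le_one_iff, map_mul, map_inv₀, inv_mul_le_iff₀ (zero_lt_one.trans h1),
      mul_one]
    exact hb' b' hb''
  have h4 := log_le h T ((Z b)⁻¹ • Z) (by
    rw [Derivation.smul_apply, smul_eq_mul, map_mul]
    exact (mul_le_of_le_one_left' h2.le).trans hπ) h3
  obtain ⟨q, q1, q2⟩ := (hs1 b hb).2
  have bV := val_int V hR (hs1 b hb).2
  have := res_kill h.hC ((Z b)⁻¹ • Z) T.toSubring (hs1 b hb).1 bV (h3 _ (hs1 b hb).1 bV)
    (fun x hx hx1 => (h4 x hx).trans_lt hx1) q.natDegree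
    (fun i => algebraMap (OO V E) Ω (q.coeff i)) (fun i => ⟨hT _, hR _, by
      rw [Derivation.smul_apply, smul_eq_mul, map_mul]
      exact mul_lt_one_of_lt_of_le h2 (le _ (hE _))⟩)
    ⟨_, le_rfl, by simp [q1.coeff_natDegree]⟩ (by rw [← eval₂_eq_sum_range, q2]; simp)
  simp [z0] at this

theorem log (h : Frame V E π δ P) {g : Ω} (hg : g ∈ cl C (E : Set Ω)) (g0 : g ≠ 0) {e : ℕ} {k : ℤ}
    (hk : V.valuation g ^ e = V.valuation π ^ k) :
    V.valuation (e * (π * δ g / g) - k * δ π) < 1 := by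
  have le := fun y (hy : y ∈ V) => (V.valuation_le_one_iff y).2 hy
  have h0 : ∀ f ∈ E, f ∈ V → V.valuation ((π • δ) f) < 1 := fun f hf hV => by
    rw [Derivation.smul_apply, smul_eq_mul, map_mul]
    exact mul_lt_one_of_lt_of_le h.π1 (le _ (h.dO f hf hV))
  have h1 : ∀ x ∈ cl C (E : Set Ω), V.valuation ((π • δ) x) ≤ V.valuation x := fun x hx =>
    mon h _ (fun f hf hV => (V.valuation_le_one_iff _).1 (h0 f hf hV).le)
      (by rw [Derivation.smul_apply, smul_eq_mul, map_mul, h.dπ, mul_one]) hx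
  have h2 := unit_quot h hk
  have h3 : g ^ e / π ^ k ∈ cl C (E : Set Ω) :=
    div_mem (pow_mem hg e) (zpow_mem (subset_cl _ h.πE) k)
  obtain ⟨Q, p1, i, p2⟩ := prim_poly (V := V) (mem_cl_iff.1 h3)
  have h4 := res_kill h.hC (π • δ) (cl C (E : Set Ω)).toSubring h3
    ((V.valuation_le_one_iff _).1 h2.le) ((V.valuation_le_one_iff _).1 ((h1 _ h3).trans h2.le))
    (fun x hx hx1 => (h1 x hx).trans_lt hx1) Q.natDegree
    (fun i => algebraMap (OO V E) Ω (Q.coeff i))
    (fun i => ⟨subset_cl _ (OO_mem _).1, (OO_mem _).2, h0 _ (OO_mem _).1 (OO_mem _).2⟩)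
    ⟨i, le_natDegree_of_ne_zero fun z => by simp [z] at p2, p2⟩
    (by rw [← eval₂_eq_sum_range, ← aeval_def, p1]; simp)
  have h5 := log_id (π • δ) g0 h.π0 e k
  rw [show (π • δ) g = π * δ g from rfl, show (π • δ) π = π * δ π from rfl,
    mul_div_cancel_left₀ _ h.π0] at h5
  rwa [← h5, map_div₀, h2, div_one]

theorem unr_ring (h : Frame V E π δ P) {k : ℕ} {δ' : Der C Ω} {R : Subalgebra C Ω} (hk : k ≠ 0)
    (hδ : ∀ f, π ^ k * δ' f = π * δ f)
    (hR : ∀ g ∈ R, g ∈ V ∧ g ∈ cl C (E : Set Ω) ∧ δ' g ∈ R) {f : Ω} (hf : f ∈ R) (f0 : f ≠ 0) :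
    ∃ n : ℕ, V.valuation f = V.valuation π ^ ((k : ℤ) * n) := by
  obtain ⟨e, k0, he, h0⟩ := val_pow h (mem_cl_iff.1 (hR f hf).2.1) f0
  by_cases hn : ∃ n : ℕ, k0 = e * (k * n)
  · obtain ⟨n, rfl⟩ := hn
    refine ⟨n, (pow_left_inj₀ zero_le zero_le he).1 ?_⟩
    rw [h0, mul_comm (e : ℤ), zpow_mul, zpow_natCast]
  push Not at hn
  have h1 : ∀ n : ℕ, δ'^[n] f ∈ R := fun n => by
    induction n with
    | zero => exact hf
    | succ n ih => rw [Function.iterate_succ_apply']; exact (hR _ ih).2.2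
  have h2 : ∀ n : ℕ, V.valuation (π ^ (k * n) * δ'^[n] f) = V.valuation f := fun n => by
    induction n with
    | zero => simp
    | succ n ih =>
      have x0 : π ^ (k * n) * δ'^[n] f ≠ 0 := fun z => by
        rw [z, map_zero, eq_comm, map_eq_zero] at ih
        exact f0 ih
      have h3 := log h (mul_mem (pow_mem (subset_cl _ h.πE) _) (hR _ (h1 n)).2.1) x0
        (ih ▸ h0 : V.valuation (π ^ (k * n) * δ'^[n] f) ^ e = _)
      have h4 : V.valuation (((k0 - e * (k * n) : ℤ) : Ω) * δ π) = 1 := by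
        rw [map_mul, val_z h.hC (sub_ne_zero.2 (hn n)), h.dπ, one_mul]
      have h5 := V.valuation.map_add_eq_of_lt_right (h4 ▸ h3)
      have h6 : π * δ (π ^ (k * n) * δ'^[n] f) =
          π ^ (k * (n + 1)) * δ'^[n + 1] f + (k * n) * δ π * (π ^ (k * n) * δ'^[n] f) := by
        have h7 : π * δ (π ^ (k * n)) = (k * n) * δ π * π ^ (k * n) := by
          rw [← zpow_natCast, δ.leibniz_zpow, zpow_sub_one₀ h.π0]
          have := h.π0
          simp only [smul_eq_mul, zsmul_eq_mul]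
          push_cast
          field_simp
        rw [δ.leibniz, smul_eq_mul, smul_eq_mul, Function.iterate_succ_apply', mul_add,
          mul_left_comm π, mul_left_comm π, h7, ← hδ]
        ring
      have h8 : (e : Ω) * (π * δ (π ^ (k * n) * δ'^[n] f) / (π ^ (k * n) * δ'^[n] f)) - k0 * δ π +
          ((k0 - e * (k * n) : ℤ) : Ω) * δ π =
          e * (π ^ (k * (n + 1)) * δ'^[n + 1] f / (π ^ (k * n) * δ'^[n] f)) := by
        rw [h6, add_div, mul_div_cancel_right₀ _ x0]
        push_cast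
        ring
      rw [h8, h4, map_mul, val_n h.hC he, one_mul, map_div₀,
        div_eq_one_iff_eq (by simpa using x0)] at h5
      rw [h5, ih]
  have h3 : V.valuation f ≤ V.valuation π ^ (k * (k0.toNat + 1)) := by
    rw [← h2 (k0.toNat + 1), map_mul, map_pow]
    exact mul_le_of_le_one_right' ((V.valuation_le_one_iff _).2 (hR _ (h1 _)).1)
  have h4 := pow_le_pow_left₀ zero_le h3 e
  rw [h0, ← pow_mul, ← zpow_natCast, zpow_le_zpow_iff_right_of_lt_one₀ (vπ_pos h) h.π1] at h4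
  have h5 : k0.toNat + 1 ≤ k * (k0.toNat + 1) * e :=
    (Nat.le_mul_of_pos_left _ (Nat.pos_of_ne_zero hk)).trans
      (Nat.le_mul_of_pos_right _ (Nat.pos_of_ne_zero he))
  omega

end Fra

theorem mono : StmtMono := fun _ _ _ _ _ _ _ V _ _ _ P h _ hg =>
  Fra.mon h P (fun f hf hV => (V.valuation_le_one_iff _).1
    ((h.mon f hf).trans ((V.valuation_le_one_iff _).2 hV))) (h.mon _ h.πE) hg

theorem nt : StmtNT := by
  intro C Ω _ _ _ _ _ V E π δ P h S γ hS hγ hδ f hf
  by_cases f0 : f = 0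
  · rw [f0]; exact V.zero_mem
  obtain ⟨e, k, he, hk⟩ := Fra.val_pow h (mem_cl_iff.1 (hS hf)) f0
  have h1 := Fra.log h (hS hf) f0 hk
  have h2 : V.valuation ((e : Ω) * (π * δ f / f)) < 1 := by
    rw [map_mul, Fra.val_n h.hC he, one_mul, hδ f hf, mul_div_assoc, mul_div_assoc, map_mul,
      map_mul, map_div₀]
    exact mul_lt_one_of_lt_of_le h.π1 (mul_le_one' ((V.valuation_le_one_iff _).2 hγ)
      (div_le_one_of_le₀ (mono C Ω V E π δ P h f (hS hf)) zero_le))
  have h3 := V.valuation.map_sub_lt h2 h1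
  rw [sub_sub_cancel, map_mul, h.dπ, mul_one] at h3
  have k0 : k = 0 := by
    by_contra hne
    rw [Fra.val_z h.hC hne] at h3
    exact lt_irrefl _ h3
  rw [k0, zpow_zero] at hk
  rw [← V.valuation_le_one_iff]
  by_contra hn
  exact (one_lt_pow₀ (not_le.1 hn) he).ne' hk

theorem unr : StmtUnr := by
  intro C Ω _ _ _ _ _ V E π δ P h k δ' G hk hδ hG f hf f0
  have hR : ∀ g ∈ Algebra.adjoin C G,
      g ∈ V ∧ g ∈ cl C (E : Set Ω) ∧ δ' g ∈ Algebra.adjoin C G := fun g hg => by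
    induction hg using Algebra.adjoin_induction with
    | mem x hx => exact hG x hx
    | algebraMap c => exact ⟨h.hC c, IntermediateField.algebraMap_mem _ c, by simp⟩
    | add x y _ _ hx hy =>
      exact ⟨add_mem hx.1 hy.1, add_mem hx.2.1 hy.2.1, by
        rw [map_add]; exact add_mem hx.2.2 hy.2.2⟩
    | mul x y hx' hy' hx hy =>
      exact ⟨mul_mem hx.1 hy.1, mul_mem hx.2.1 hy.2.1, by
        rw [δ'.leibniz]; exact add_mem (mul_mem hx' hy.2.2) (mul_mem hy' hx.2.2)⟩
  obtain ⟨a, ha, b, hb, rfl⟩ := IntermediateField.mem_adjoin_iff_div.1 hf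
  obtain ⟨n, hn⟩ := Fra.unr_ring h hk hδ hR ha (div_ne_zero_iff.1 f0).1
  obtain ⟨m, hm⟩ := Fra.unr_ring h hk hδ hR hb (div_ne_zero_iff.1 f0).2
  exact ⟨n - m, by rw [map_div₀, hn, hm, mul_sub, zpow_sub₀ (Fra.vπ_pos h).ne']⟩

end Pool.Agent.MP_249f74_an.H17
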