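import Pool.Agent.MP_249f74_an.H17.Spec3

/-!
The third mirror of a bad triple is algebraic over the first two.
-/

open Set IntermediateField

namespace Pool.Agent.MP_249f74_an.H17

open H88 (rk cl subset_cl)

namespace Free

variable {C Ω : Type} [Field C] [Field Ω] [Algebra C Ω]

/-- Descent along the constants of a derivation. -/
lemma ldr {P : Der C Ω} {T N : IntermediateField C Ω} (hT : ∀ f ∈ T, P f ∈ T) (hN : N ≤ T)
    (hS : Kr P ⊓ T ≤ N) {z : Ω} (hz : z ∈ T) (h : z ∈ N ⊔ Kr P) : z ∈ N := by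
  classical
  rw [← adjoin_self C (Kr P), ← restrictScalars_adjoin_eq_sup, mem_restrictScalars,
    mem_adjoin_iff_div] at h
  obtain ⟨r, hr, s, hs, e⟩ := h
  obtain ⟨b, b1, b2, b3⟩ := exists_linearIndependent N (Kr P : Set Ω)
  have k : ∀ r ∈ Algebra.adjoin N (Kr P : Set Ω), ∃ a : b →₀ N,
      (a.sum fun i c => c • (i : Ω)) = r := fun r hr => by
    rw [← Finsupp.mem_span_range_iff_exists_finsupp, Subtype.range_coe, b2]
    exact (Algebra.adjoin_eq_span_of_subset N (s := (Kr P : Set Ω)) fun x hx =>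
      Submodule.subset_span ((Submonoid.closure_le (S := (Kr P).toSubmonoid)).2 subset_rfl hx)).le hr
  obtain ⟨p, rfl⟩ := k r hr
  obtain ⟨q, hq⟩ := k s hs
  rcases eq_or_ne s 0 with s0 | s0
  · rw [e, s0, div_zero]
    exact zero_mem _
  obtain ⟨i, hi⟩ : q.support.Nonempty := Finsupp.support_nonempty_iff.2 fun c => s0 (by
    rw [← hq, c, Finsupp.sum_zero_index])
  have h0 : (q i : Ω) ≠ 0 := fun c => Finsupp.mem_support_iff.1 hi (Subtype.ext c)
  by_contra n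
  obtain ⟨c, c1, ⟨j, hj, c2⟩, c3⟩ := simple hT {0} (by simp) (by simp) (fun i : b => (i : Ω))
    (fun i => b1 i.2) (p.support ∪ q.support) (fun i => p i - z * q i)
    (fun i => sub_mem (hN (p i).2) (mul_mem hz (hN (q i).2)))
    ⟨i, Finset.mem_union_right _ hi, fun c => n (by
      rw [← (div_eq_iff h0).2 (sub_eq_zero.1 c)]
      exact div_mem (p i).2 (q i).2)⟩ (by
      rw [eq_div_iff s0, ← hq, Finsupp.sum_of_support_subset p Finset.subset_union_left _ (by simp),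
        Finsupp.sum_of_support_subset q Finset.subset_union_right _ (by simp), Finset.mul_sum] at e
      simp only [mem_singleton_iff, sub_mul, Finset.sum_sub_distrib, mul_assoc]
      exact sub_eq_zero.2 e.symm)
  exact c2 (congrArg Subtype.val (linearIndependent_iff'.1 b3 _
    (fun i => (⟨c i, hS ⟨(c1 i).2, (c1 i).1⟩⟩ : N)) c3 j hj))

end Free

theorem free (hfr : StmtFR1) (huns : StmtUNS) (hphi : StmtPHI) : StmtFREE := by
  intro C Ω _ _ _ _ _ _ _ d m0 m1 m2 z0 l0 z1 l1 t b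
  obtain ⟨τ, t1, t2⟩ := hphi C Ω d _ _ _ _ _ _ _ t b
  have hA := Two.tn_nb (d := d) m0.y m1.x
  have hB := Two.tn_nb (d := d) m1.y m0.x
  have a0 := Two.nb_self (d := d) m0.y m1.x
  have b1 := Two.nb_self (d := d) m1.y m0.x
  have a1 := Two.nb_one t.e0.adjx
  have b0 := Two.nb_one t.e0.symm.adjx
  generalize d.nb m0.y m1.x = A at *
  generalize d.nb m1.y m0.x = B at *
  have k0 := m0.kill hA a0
  have k1 := m1.kill hB b1
  have s0 := m0.stabx hB le_rfl (b0 ▸ one_mem _)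
  have s1 := m1.stabx hA le_rfl (a1 ▸ one_mem _)
  have e1 : B m2.y ≠ 0 := hB.ne_zero b1 (b0 ▸ one_ne_zero) t.e1.adj
  have w0 := m1.w0
  have z0' := t.e0.z0
  have q1 : z1⁻¹ ^ 2 = z0 ^ 2 / m1.w ^ 2 := by rw [t.z1_eq]; field_simp
  have F0 : m0.F ≤ m0.F ⊔ m1.F := le_sup_left
  have F1 : m1.F ≤ m0.F ⊔ m1.F := le_sup_right
  have q0 := t.e0.sq_mem F0 F1
  have q2 : z1⁻¹ ^ 2 ∈ m0.F ⊔ m1.F := q1 ▸ div_mem q0 (pow_mem (F1 m1.wF) 2)
  have q3 : 1 - z1⁻¹ ^ 2 * m2.w ≠ 0 := fun h => t.e1.g1 (by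
    have := t.e1.z0
    field_simp at h
    linear_combination -h)
  have q4 := t.e1.swap.line
  simp only [Mir.swap_x, Mir.swap_y] at q4
  rw [sub_eq_iff_eq_add] at q4
  generalize z1⁻¹ ^ 2 = σ at q1 q2 q3 q4
  by_cases hx : m2.x ∈ cl C ((m0.F : Set Ω) ∪ m1.F)
  · have c := sup_le_cl m0.F m1.F
    refine m2.le_of hB e1 hx (q4 ▸ add_mem (mul_mem (c q2) (sub_mem hx (c (F1 m1.xF))))
      (c (F1 m1.yF))) fun f => stab_cl ?_
    rintro a (h | h)
    · exact c (F0 (s0 a h))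
    · rw [k1 a h]; exact zero_mem _
  exfalso
  obtain ⟨ε, ε0, ε1⟩ : ∃ ε : Der C Ω, (∀ a ∈ m0.F ⊔ m1.F, ε a = 0) ∧ ε m2.x = 1 := by
    have : CharZero (m0.F ⊔ m1.F : IntermediateField C Ω) := algebraRat.charZero _
    obtain ⟨ε, h⟩ := H97.der_exists_of_indep (algebraicIndependent_unique_type_iff.2 fun h =>
      hx (cl_le (sup_le_cl m0.F m1.F) (mem_cl_iff.2 h)) :
        AlgebraicIndependent (m0.F ⊔ m1.F : IntermediateField C Ω) fun _ : Unit => m2.x)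
      fun _ => (1 : Ω)
    exact ⟨ε.restrictScalars C, fun a ha => ε.map_algebraMap ⟨a, ha⟩, h ()⟩
  have k2 := m2.kill (hA.add (hB.smul (-(A m2.y / B m2.y)))) (by simp [e1])
  obtain ⟨A', B', l, a2, b2, a3, b3, b4, k2⟩ : ∃ (A' B' : Der C Ω) (l : Ω), A' m2.x = 0 ∧
      B' m2.x = 0 ∧ (∀ a ∈ m0.F ⊔ m1.F, A' a = A a) ∧ (∀ a ∈ m0.F ⊔ m1.F, B' a = B a) ∧
      B' m2.y ≠ 0 ∧ ∀ f ∈ m2.F, (A' + l • B') f = 0 := by
    refine ⟨A - A m2.x • ε, B - B m2.x • ε, -(A m2.y / B m2.y), by simp [ε1], by simp [ε1],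
      fun a h => by simp [ε0 a h], fun a h => by simp [ε0 a h], fun h => mul_ne_zero q3 e1 ?_,
      fun f hf => ?_⟩
    · have : ε m2.y = σ := by
        simp [q4, ε0 _ q2, ε1, ε0 _ (F1 m1.xF), ε0 _ (F1 m1.yF)]
      simp only [Derivation.sub_apply, Derivation.smul_apply, this, m2.dx hB, smul_eq_mul] at h
      linear_combination h
    · have h1 := k2 f hf
      have h2 := k2 _ m2.xF
      simp only [Derivation.sub_apply, Derivation.add_apply, Derivation.smul_apply,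
        smul_eq_mul] at h1 h2 ⊢
      linear_combination h1 - ε f * h2
  have a4 : A' m1.y = m1.w⁻¹ := (a3 _ (F1 m1.yF)).trans
    (eq_inv_of_mul_eq_one_left (by rw [← m1.dx hA, a1]))
  have cx := m1.constx hA (a1 ▸ one_ne_zero)
  rw [← a3 _ (F1 m1.xF)] at a1
  rw [← b3 _ (F0 m0.xF)] at b0
  replace k0 : ∀ a ∈ m0.F, A' a = 0 := fun a h => (a3 a (F0 h)).trans (k0 a h)
  replace k1 : ∀ a ∈ m1.F, B' a = 0 := fun a h => (b3 a (F1 h)).trans (k1 a h)
  replace s0 : ∀ a ∈ m0.F, B' a ∈ m0.F := fun a h => b3 a (F0 h) ▸ s0 a h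
  replace s1 : ∀ a ∈ m1.F, A' a ∈ m1.F := fun a h => a3 a (F1 h) ▸ s1 a h
  have hx2 := mem_adjoin_simple_self C m2.x
  have kE : m0.F ⊔ C⟮m2.x⟯ ≤ Kr A' := sup_le k0 (adjoin_simple_le_iff.2 a2)
  have sE : ∀ a ∈ m0.F ⊔ C⟮m2.x⟯, B' a ∈ m0.F ⊔ C⟮m2.x⟯ :=
    stab_sup (fun a h => SetLike.le_def.1 le_sup_left (s0 a h)) fun a h => by
      rw [mem_Kr.1 (adjoin_simple_le_iff.2 (mem_Kr.2 b2) h)]; exact zero_mem _
  obtain ⟨V, fr, h0, h1, hu⟩ := hfr C Ω (m0.F ⊔ C⟮m2.x⟯) m1.F A' (A' + B') τ m0.x m1.x kE s1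
    (fun a h e => cx a h ((a3 a (F1 h)).symm.trans e)) (SetLike.le_def.1 le_sup_left m0.xF) m1.xF
    a1 t1 (fun a h => by simpa [mem_Kr.1 (kE h)] using sE a h) (fun a h => by simp [k1 a h])
    (by simp [k0 _ m0.xF, b0])
  have hz := t.e0.val_sq (hu _ (SetLike.le_def.1 le_sup_left m0.yF) _ m1.yF t2)
  have vw : V.valuation m1.w⁻¹ = 1 := le_antisymm
    ((V.valuation_le_one_iff _).2 (h1 _ (inv_mem m1.wF))) (by
      rw [map_inv₀, one_le_inv₀ (zero_lt_iff.2 ((map_ne_zero V.valuation).2 w0))]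
      exact (V.valuation_le_one_iff _).2 (h1 _ m1.wF))
  have vσ : V.valuation σ < 1 := by
    rw [q1, div_eq_mul_inv, ← inv_pow, map_mul, hz, map_pow, vw, one_pow, mul_one]
    exact fr.π1
  have xV := h0 _ (SetLike.le_def.1 le_sup_right hx2)
  have cm : m0.F ⊔ C⟮m2.x⟯ ⊔ m1.F ≤ Kr ⁅A', B'⁆ :=
    sup_le (sup_le (fun a h => by simp [Derivation.commutator_apply, k0 a h, k0 _ (s0 a h)])
      (adjoin_simple_le_iff.2 (by simp [Derivation.commutator_apply, a2, b2])))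
      fun a h => by simp [Derivation.commutator_apply, k1 a h, k1 _ (s1 a h)]
  have sA : ∀ a ∈ m0.F ⊔ C⟮m2.x⟯ ⊔ m1.F, A' a ∈ m0.F ⊔ C⟮m2.x⟯ ⊔ m1.F :=
    stab_sup (fun a h => by rw [mem_Kr.1 (kE h)]; exact zero_mem _)
      fun a h => SetLike.le_def.1 le_sup_right (s1 a h)
  have sB : ∀ a ∈ m0.F ⊔ C⟮m2.x⟯ ⊔ m1.F, B' a ∈ m0.F ⊔ C⟮m2.x⟯ ⊔ m1.F :=
    stab_sup (fun a h => SetLike.le_def.1 le_sup_left (sE a h))
      fun a h => by rw [k1 a h]; exact zero_mem _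
  have kK : m0.F ⊔ m1.F ≤ m0.F ⊔ C⟮m2.x⟯ ⊔ m1.F := sup_le_sup_right le_sup_left _
  have xE : m2.x ∈ m0.F ⊔ C⟮m2.x⟯ ⊔ m1.F := SetLike.le_def.1 (le_sup_of_le_left le_sup_right) hx2
  generalize m0.F ⊔ C⟮m2.x⟯ ⊔ m1.F = E at fr cm sA sB kK xE
  have yE : m2.y ∈ E :=
    q4 ▸ add_mem (mul_mem (kK q2) (sub_mem xE (kK (F1 m1.xF)))) (kK (F1 m1.yF))
  have yV : m2.y ∈ V := q4 ▸ add_mem (mul_mem ((V.valuation_le_one_iff _).1 vσ.le)
    (sub_mem xV (h1 _ m1.xF))) (h1 _ m1.yF)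
  have ky : A' m2.y + l * B' m2.y = 0 := k2 _ m2.yF
  have hl : ¬V.valuation (l - 1) < 1 := fun hl => fr.out hl (kK q2) vσ vw (h1 _ m1.xF) (by
    rw [q4] at ky
    simp only [map_add, map_sub, Derivation.leibniz, smul_eq_mul, a1, a2, b2, a4, k1 _ m1.xF,
      k1 _ m1.yF, Derivation.add_apply] at ky ⊢
    linear_combination ky) xV
  have c : E ≤ cl C (E : Set Ω) := subset_cl _
  have tA : ∀ f ∈ cl C (E : Set Ω), A' f ∈ cl C (E : Set Ω) := fun f =>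
    stab_cl fun a h => c (sA a h)
  have tB : ∀ f ∈ cl C (E : Set Ω), B' f ∈ cl C (E : Set Ω) := fun f =>
    stab_cl fun a h => c (sB a h)
  have lE : l ∈ E := by
    rw [show l = -A' m2.y / B' m2.y by field_simp; linear_combination ky]
    exact div_mem (neg_mem (sA _ yE)) (sB _ yE)
  have zT : z0 ∈ cl C (E : Set Ω) := mem_cl_iff.2
    (IsAlgebraic.of_pow two_pos (isAlgebraic_algebraMap (⟨_, kK q0⟩ : E)))
  obtain ⟨n, hn⟩ := huns C Ω V E _ A' (A' + B') fr sA (Kr (A' + l • B') ⊓ cl C (E : Set Ω)) l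
    (A' m2.y) σ 0 0 (A' m2.y) 0 inf_le_right hl (fun f hf => by simpa using mem_Kr.1 hf.1) (kK q2)
    vσ (sA _ yE) (fr.dO _ yE yV) (zero_mem _) (zero_mem _) (zero_mem _) (zero_mem _) (by simp)
    (fun f hf => by
      have kf : A' f + l * B' f = 0 := hf.1
      obtain ⟨g, hg⟩ : ∃ g, B' f = B' m2.y * g := ⟨_, (mul_div_cancel₀ _ b4).symm⟩
      have hg' : A' f = A' m2.y * g := by linear_combination kf - g * ky - l * hg
      refine ⟨g, ⟨?_, ?_⟩, hg'⟩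
      · have c1 := kill_cl (δ := ⁅A', B'⁆) cm hf.2
        have c2 := mem_Kr.1 (cm yE)
        simp only [Derivation.commutator_apply, hg, hg', Derivation.leibniz, smul_eq_mul] at c1 c2
        refine mul_left_cancel₀ b4 (show B' m2.y * (A' g + l * B' g) = _ from ?_)
        linear_combination c1 - g * c2 + B' g * ky
      · rw [← mul_div_cancel_left₀ g b4, ← hg]
        exact div_mem (tB f hf.2) (c (sB _ yE))) z0
    (Free.ldr (fun f hf => add_mem (tA f hf) (mul_mem (c lE) (tB f hf))) (sup_le c inf_le_right)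
      le_sup_right zT (sup_le_sup (le_sup_of_le_left kK) k2 b)) z0'
  exact odd_val fr.π0 fr.π1 hz n hn

end Pool.Agent.MP_249f74_an.H17
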