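import Pool.Agent.MP_249f74_an.H17.Spec

/-!
Two foliations with many algebraic first integrals have proportional slopes.
-/

open Set PowerSeries

namespace Pool.Agent.MP_249f74_an.H17

open H88 (rk cl subset_cl rk_le rk_union)

namespace HexAux

section PS

variable {C R : Type} [Field C] [CommRing R] [Algebra C R]

/-- Coefficientwise extension of a derivation. -/
noncomputable def lift (D : Derivation C R R) : Derivation C R⟦X⟧ R⟦X⟧ :=
  Derivation.mk'
    { toFun := fun f => PowerSeries.mk fun n => D (coeff n f)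
      map_add' := fun f g => by ext n; simp
      map_smul' := fun c f => by
        ext n
        rw [coeff_mk, RingHom.id_apply, Algebra.smul_def, Algebra.smul_def,
          PowerSeries.algebraMap_apply, coeff_C_mul, coeff_C_mul, coeff_mk, ← Algebra.smul_def,
          ← Algebra.smul_def, D.map_smul] }
    fun f g => by
      ext n
      change coeff n (PowerSeries.mk fun n => D (coeff n (f * g))) =
        coeff n (f * (PowerSeries.mk fun n => D (coeff n g)) +
          g * (PowerSeries.mk fun n => D (coeff n f)))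
      rw [mul_comm g]
      simp only [coeff_mk, coeff_mul, map_sum, map_add, ← Finset.sum_add_distrib]
      refine Finset.sum_congr rfl fun p _ => ?_
      rw [D.leibniz, smul_eq_mul, smul_eq_mul, mul_comm (coeff p.2 g)]

lemma coeff_lift (D : Derivation C R R) (f : R⟦X⟧) (n : ℕ) :
    coeff n (lift D f) = D (coeff n f) :=
  coeff_mk n fun n => D (coeff n f)

/-- The derivative in the variable. -/
noncomputable def dX (C R : Type) [Field C] [CommRing R] [Algebra C R] :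
    Derivation C R⟦X⟧ R⟦X⟧ :=
  (PowerSeries.derivative R).restrictScalars C

lemma coeff_dX (f : R⟦X⟧) (n : ℕ) : coeff n (dX C R f) = coeff (n + 1) f * (n + 1) :=
  coeff_derivative f n

lemma dX_lift (D : Derivation C R R) (f : R⟦X⟧) : dX C R (lift D f) = lift D (dX C R f) := by
  ext n
  rw [coeff_dX, coeff_lift, coeff_lift, coeff_dX, D.leibniz, ← Nat.cast_succ, D.map_natCast,
    smul_zero, zero_add, smul_eq_mul, mul_comm]

/-- Constant series. -/
noncomputable def cst (C R : Type) [Field C] [CommRing R] [Algebra C R] : R →ₐ[C] R⟦X⟧ :=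
  IsScalarTower.toAlgHom C R R⟦X⟧

lemma cst_apply (a : R) : cst C R a = PowerSeries.C a := rfl

lemma lift_cst (D : Derivation C R R) (a : R) : lift D (cst C R a) = cst C R (D a) := by
  ext n
  rw [coeff_lift, cst_apply, cst_apply, coeff_C, coeff_C]
  split_ifs <;> simp

lemma dX_cst (a : R) : dX C R (cst C R a) = 0 := derivative_C

variable [CharZero C] {K : Type} [Field K] [Algebra C K]

/-- The Taylor map followed by a map on the coefficients. -/
noncomputable def jt (φ : K →ₐ[C] R) (P : Der C K) : K →ₐ[C] R⟦X⟧ :=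
  (PowerSeries.mapAlgHom φ).comp (tay P)

lemma coeff_jt (φ : K →ₐ[C] R) (P : Der C K) (f : K) (n : ℕ) :
    coeff n (jt φ P f) = φ (coeff n (tay P f)) := by
  rw [jt, AlgHom.comp_apply, mapAlgHom_apply, coeff_map]; rfl

lemma coeff_jt_zero (φ : K →ₐ[C] R) (P : Der C K) (f : K) : coeff 0 (jt φ P f) = φ f := by
  rw [coeff_jt, coeff_tay]; simp

lemma coeff_jt_one (φ : K →ₐ[C] R) (P : Der C K) (f : K) : coeff 1 (jt φ P f) = φ (P f) := by
  rw [coeff_jt, coeff_tay]; simp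

lemma dX_jt (φ : K →ₐ[C] R) (P : Der C K) (f : K) : dX C R (jt φ P f) = jt φ P (P f) := by
  ext n
  rw [coeff_dX, coeff_jt, coeff_jt, ← deriv_tay, coeff_derivative, map_mul, map_add, map_natCast,
    map_one]

lemma jt_const (φ : K →ₐ[C] R) (P : Der C K) {f : K} (h : P f = 0) :
    jt φ P f = cst C R (φ f) := by
  ext n
  rw [coeff_jt, tay_const P h, cst_apply, coeff_C, coeff_C]
  split_ifs <;> simp

lemma lift_tay {A B : Der C K} {S : IntermediateField C K} (hA : ∀ f ∈ S, A f = 0)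
    (hB : ∀ f ∈ S, B f ∈ S) {f : K} (hf : f ∈ S) : lift A (tay B f) = 0 := by
  ext n
  have : ∀ n : ℕ, B^[n] f ∈ S := fun n => by
    induction n with
    | zero => exact hf
    | succ n ih => rw [Function.iterate_succ_apply']; exact hB _ ih
  rw [coeff_lift, coeff_tay, A.map_smul, hA _ (this n), smul_zero, map_zero]

lemma jt_eq {A P P' : Der C K} {φ φ' : K →ₐ[C] R} {S : IntermediateField C K}
    (hA : ∀ f ∈ S, A f ∈ S) (hP : ∀ f ∈ S, P f = A f) (hP' : ∀ f ∈ S, P' f = A f)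
    (hφ : ∀ f ∈ S, φ f = φ' f) {f : K} (hf : f ∈ S) : jt φ P f = jt φ' P' f := by
  ext n
  have : ∀ n : ℕ, P^[n] f ∈ S ∧ P^[n] f = P'^[n] f := fun n => by
    induction n with
    | zero => exact ⟨hf, rfl⟩
    | succ n ih =>
      rw [Function.iterate_succ_apply', Function.iterate_succ_apply', ← ih.2, hP _ ih.1,
        hP' _ ih.1]
      exact ⟨hA _ ih.1, rfl⟩
  rw [coeff_jt, coeff_jt, coeff_tay, coeff_tay, map_smul, map_smul, ← (this n).2, hφ _ (this n).1]

lemma tang [IsDomain R] [CharZero R] (φ : K →ₐ[C] R) {B P : Der C K} {l x0 : K}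
    {S : IntermediateField C K} (hB : ∀ f ∈ S, B f ∈ S) (hP : ∀ f ∈ S, P f = l * B f)
    (hx : x0 ∈ S) (hx1 : B x0 = 1) {D : Derivation C R R} (hD : ∀ f ∈ S, D (φ f) = 0) :
    ∀ f ∈ S, lift D (jt φ P f) = lift D (jt φ P x0) * jt φ P (B f) := by
  have key : ∀ n : ℕ, ∀ f ∈ S, ∀ m, m < n + 1 →
      coeff m (lift D (jt φ P f) - lift D (jt φ P x0) * jt φ P (B f)) = 0 := by
    intro n
    induction n with
    | zero =>
      intro f hf m hm
      obtain rfl : m = 0 := by omega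
      rw [map_sub, coeff_zero_eq_constantCoeff, map_mul, ← coeff_zero_eq_constantCoeff,
        coeff_lift, coeff_lift, coeff_jt_zero, coeff_jt_zero, hD f hf, hD x0 hx, zero_mul, sub_zero]
    | succ n ih =>
      intro f hf m hm
      rcases Nat.lt_succ_iff_lt_or_eq.1 hm with h | rfl
      · exact ih f hf m h
      · have e : dX C R (lift D (jt φ P f) - lift D (jt φ P x0) * jt φ P (B f)) =
            jt φ P l * (lift D (jt φ P (B f)) - lift D (jt φ P x0) * jt φ P (B (B f))) := by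
          rw [map_sub, Derivation.leibniz, dX_lift, dX_lift, dX_jt, dX_jt, dX_jt, hP f hf,
            hP x0 hx, hP _ (hB f hf), hx1, mul_one, map_mul (jt φ P), map_mul (jt φ P),
            Derivation.leibniz]
          simp only [smul_eq_mul]
          ring
        have h1 := X_pow_dvd_iff.1 ((X_pow_dvd_iff.2 (ih (B f) (hB f hf))).mul_left (jt φ P l)) n
          (Nat.lt_succ_self n)
        rw [← e, coeff_dX] at h1
        exact (mul_eq_zero.1 h1).resolve_right (Nat.cast_add_one_ne_zero n)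
  intro f hf
  rw [← sub_eq_zero]
  ext n
  exact key n f hf n (Nat.lt_succ_self n)

end PS

section Core

variable {C K L : Type} [Field C] [Field K] [Field L] [Algebra C K] [Algebra C L]

lemma rk_step {X : IntermediateField C K} {B : Der C K} (hB : ∀ f ∈ X, B f ∈ X)
    (hc : ∀ f ∈ X, B f = 0 → f ∈ (⊥ : IntermediateField C K)) (j : K →ₐ[C] L) (Z : Der C L)
    {c : L} (c0 : c ≠ 0) (hZ : ∀ f ∈ X, Z (j f) = c * j (B f)) {S : Set L}
    (hS : ∀ s ∈ S, Z s = 0) : rk C (S ∪ j '' X) = rk C S + rk C (X : Set K) := by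
  rw [← rk_map j]
  have h1 : ∀ f ∈ X, (c⁻¹ • Z) (j f) = j (B f) := fun f hf => by
    rw [Derivation.smul_apply, hZ f hf, smul_eq_mul, inv_mul_cancel_left₀ c0]
  refine rk_add (δ := c⁻¹ • Z) (F := X.map j) ?_ ?_ (fun s hs => ?_) fun s hs => hs
  · rintro _ ⟨f, hf, rfl⟩
    exact ⟨B f, hB f hf, (h1 f hf).symm⟩
  · rintro _ ⟨f, hf, rfl⟩ h
    obtain ⟨a, rfl⟩ := IntermediateField.mem_bot.1
      (hc f hf (j.toRingHom.injective (((h1 f hf).symm.trans h).trans (map_zero j).symm)))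
    exact IntermediateField.mem_bot.2 ⟨a, (j.commutes a).symm⟩
  · rw [Derivation.smul_apply, hS s hs, smul_zero]

lemma img_cl (j : K →ₐ[C] L) {S T U : Set K} {V : Set L} (h : S ⊆ cl C (T ∪ U))
    (hT : j '' T ⊆ cl C V) (hU : j '' U ⊆ cl C V) : j '' S ⊆ cl C V := by
  rintro _ ⟨f, hf, rfl⟩
  refine cl_le ?_ (map_mem_cl j (h hf))
  rw [image_union]
  exact union_subset hT hU

lemma core [CharZero L] {X Y W W' : IntermediateField C K} {A B θ : Der C K}
    {l l' x0 y0 y1 : K} (hB : ∀ f ∈ X, B f ∈ X)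
    (hc : ∀ f ∈ X, B f = 0 → f ∈ (⊥ : IntermediateField C K))
    (hy0 : y0 ∈ Y) (hy1 : y1 ∈ Y) (hA : A y0 = 1) (hθ : θ y1 ≠ A y1 * θ y0) (hl' : l' ≠ 0)
    (h1 : X ≤ cl C ((Y : Set K) ∪ W)) (h2 : X ≤ cl C ((Y : Set K) ∪ W'))
    (h3 : W ≤ cl C ((X : Set K) ∪ Y)) (h4 : W' ≤ cl C ((X : Set K) ∪ Y))
    (h5 : rk C (X : Set K) ≠ ⊤) (h6 : rk C (Y : Set K) ≤ rk C (X : Set K))
    (j0 j1 k0 k1 : K →ₐ[C] L) (dg dh A' θ' : Der C L)
    (e1 : ∀ f ∈ Y, j1 f = j0 f) (e2 : ∀ f ∈ Y, k1 f = k0 f) (e3 : ∀ f ∈ W, k0 f = j0 f)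
    (e4 : ∀ f ∈ W', k1 f = j1 f)
    (g0 : ∀ f, dg (j0 f) = 0) (g1 : ∀ f, dg (j1 f) = j1 (B f))
    (d0 : ∀ f, dh (j0 f) = 0) (d1 : ∀ f, dh (j1 f) = 0)
    (d2 : ∀ f ∈ X, dh (k0 f) = k0 l * k0 (B f)) (d3 : ∀ f ∈ X, dh (k1 f) = k1 l' * k1 (B f))
    (a0 : ∀ f, A' (j0 f) = j0 (A f)) (a0' : ∀ f ∈ X, A f = 0) (a1 : ∀ f ∈ X, A' (j1 f) = 0)
    (a2 : ∀ f ∈ X, A' (k0 f) = A' (k0 x0) * k0 (B f))
    (a3 : ∀ f ∈ X, A' (k1 f) = A' (k1 x0) * k1 (B f))
    (t0 : ∀ f, θ' (j0 f) = j0 (θ f)) (t0' : ∀ f ∈ X, θ f = 0) (t1 : ∀ f ∈ X, θ' (j1 f) = 0)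
    (t2 : ∀ f ∈ X, θ' (k0 f) = θ' (k0 x0) * k0 (B f))
    (t3 : ∀ f ∈ X, θ' (k1 f) = θ' (k1 x0) * k1 (B f)) :
    A' (k0 x0) * k1 l' - A' (k1 x0) * k0 l = 0 := by
  by_contra hd
  have r1 := rk_step hB hc j1 dg one_ne_zero (fun f _ => by rw [g1, one_mul]) (S := j0 '' X)
    (by rintro _ ⟨f, -, rfl⟩; exact g0 f)
  have r2 := rk_step hB hc k1 dh ((map_ne_zero k1).2 hl') d3 (S := j0 '' X ∪ j1 '' X)
    (by rintro _ (⟨f, -, rfl⟩ | ⟨f, -, rfl⟩); exacts [d0 f, d1 f])
  have r3 := rk_step hB hc k0 (k1 l' • A' - A' (k1 x0) • dh) hd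
    (fun f hf => by
      rw [Derivation.sub_apply, Derivation.smul_apply, Derivation.smul_apply, a2 f hf, d2 f hf,
        smul_eq_mul, smul_eq_mul]
      ring) (S := j0 '' X ∪ j1 '' X ∪ k1 '' X)
    (by
      rintro _ ((⟨f, hf, rfl⟩ | ⟨f, hf, rfl⟩) | ⟨f, hf, rfl⟩) <;>
        rw [Derivation.sub_apply, Derivation.smul_apply, Derivation.smul_apply, smul_eq_mul,
          smul_eq_mul]
      · rw [a0, a0' f hf, d0, map_zero]; ring
      · rw [a1 f hf, d1]; ring
      · rw [a3 f hf, d3 f hf]; ring)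
  rw [r2, r1, rk_map] at r3
  have s0 : j0 '' X ⊆ cl C (j0 '' X ∪ j1 '' X ∪ j0 '' Y ∪ k0 '' Y) :=
    fun s hs => subset_cl _ (Or.inl (Or.inl (Or.inl hs)))
  have s1 : j1 '' X ⊆ cl C (j0 '' X ∪ j1 '' X ∪ j0 '' Y ∪ k0 '' Y) :=
    fun s hs => subset_cl _ (Or.inl (Or.inl (Or.inr hs)))
  have s2 : j0 '' Y ⊆ cl C (j0 '' X ∪ j1 '' X ∪ j0 '' Y ∪ k0 '' Y) :=
    fun s hs => subset_cl _ (Or.inl (Or.inr hs))
  have s3 : k0 '' Y ⊆ cl C (j0 '' X ∪ j1 '' X ∪ j0 '' Y ∪ k0 '' Y) :=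
    fun s hs => subset_cl _ (Or.inr hs)
  have s4 := img_cl k0 h1 s3 (by rw [image_congr e3]; exact img_cl j0 h3 s0 s2)
  have s5 := img_cl k1 h2 (by rw [image_congr e2]; exact s3)
    (by rw [image_congr e4]; exact img_cl j1 h4 s1 (by rw [image_congr e1]; exact s2))
  have s6 := mem_cl_of_rk (C := C) (S := j0 '' X ∪ j1 '' X ∪ k1 '' X ∪ k0 '' X)
    (T := j0 '' X ∪ j1 '' X ∪ j0 '' Y ∪ k0 '' Y)
    (by rw [r3]; simp [h5])
    (union_subset (union_subset (union_subset s0 s1) s5) s4) (by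
      rw [r3]
      refine (rk_union _ _).trans (add_le_add ((rk_union _ _).trans (add_le_add
        ((rk_union _ _).trans (add_le_add ?_ ?_)) ?_)) ?_) <;> rw [rk_map]
      exacts [h6, h6])
  obtain ⟨a, b, ha, hb⟩ : ∃ a b : L, θ' (k0 x0) = a * A' (k0 x0) + b * k0 l ∧
      θ' (k1 x0) = a * A' (k1 x0) + b * k1 l' :=
    ⟨(θ' (k0 x0) * k1 l' - θ' (k1 x0) * k0 l) / (A' (k0 x0) * k1 l' - A' (k1 x0) * k0 l),
      (A' (k0 x0) * θ' (k1 x0) - A' (k1 x0) * θ' (k0 x0)) /
        (A' (k0 x0) * k1 l' - A' (k1 x0) * k0 l),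
      by rw [div_mul_eq_mul_div, div_mul_eq_mul_div, ← add_div, eq_div_iff hd]; ring,
      by rw [div_mul_eq_mul_div, div_mul_eq_mul_div, ← add_div, eq_div_iff hd]; ring⟩
  have hk : ∀ y ∈ Y, θ' (j0 y) - a * A' (j0 y) - b * dh (j0 y) = 0 := fun y hy => by
    refine kill_cl (δ := θ' - a • A' - b • dh) ?_ (s6 (Or.inl (Or.inr ⟨y, hy, rfl⟩)))
    rintro _ (((⟨f, hf, rfl⟩ | ⟨f, hf, rfl⟩) | ⟨f, hf, rfl⟩) | ⟨f, hf, rfl⟩) <;>
      rw [Derivation.sub_apply, Derivation.sub_apply, Derivation.smul_apply,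
        Derivation.smul_apply, smul_eq_mul, smul_eq_mul]
    · rw [t0, t0' f hf, a0, a0' f hf, d0, map_zero]; ring
    · rw [t1 f hf, a1 f hf, d1]; ring
    · rw [t3 f hf, a3 f hf, d3 f hf, hb]; ring
    · rw [t2 f hf, a2 f hf, d2 f hf, ha]; ring
  have k0' := hk y0 hy0
  have k1' := hk y1 hy1
  rw [t0, a0, d0, hA, map_one] at k0'
  rw [t0, a0, d0] at k1'
  refine hθ (j0.toRingHom.injective ?_)
  change j0 (θ y1) = j0 (A y1 * θ y0)
  rw [map_mul]
  linear_combination k1' - j0 (A y1) * k0'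

end Core

lemma ext_frac {C T : Type} [Field C] [CommRing T] [IsDomain T] [CharZero T] [Algebra C T]
    (D : Derivation C T T) : ∃ D' : Der C (FractionRing T),
      ∀ a, D' (IsScalarTower.toAlgHom C T (FractionRing T) a) =
        IsScalarTower.toAlgHom C T (FractionRing T) (D a) := by
  refine ext_der (IsScalarTower.toAlgHom C T (FractionRing T))
    ((algebraMap T (FractionRing T)).toAddMonoidHom.comp D.toLinearMap.toAddMonoidHom)
    (fun a b => ?_) (fun a h => ?_) fun c => ?_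
  · change algebraMap T (FractionRing T) (D (a * b)) = algebraMap T (FractionRing T) a *
      algebraMap T (FractionRing T) (D b) + algebraMap T (FractionRing T) b *
        algebraMap T (FractionRing T) (D a)
    rw [D.leibniz, map_add, smul_eq_mul, smul_eq_mul, map_mul, map_mul]
  · obtain rfl : a = 0 := (IsFractionRing.to_map_eq_zero_iff (K := FractionRing T)).1 h
    exact map_zero _
  · change algebraMap T (FractionRing T) (D (algebraMap C T c)) = 0
    rw [D.map_algebraMap, map_zero]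

end HexAux

open HexAux

theorem hex : StmtHEX := by
  intro C K _ _ _ _ _ X Y W W' A B θ l l' x0 y0 y1 hAX hBY hBX hAY hc hx0 hx1 hy0 hy1 hA hθX hθ
    hW hW' _ hl' h1 h2 h3 h4 h5 h6
  have : CharZero K⟦X⟧ := algebraRat.charZero _
  have : CharZero K⟦X⟧⟦X⟧ := algebraRat.charZero _
  have hP : ∀ (m : K) f, (A + m • B) f = A f + m * B f := fun m f => rfl
  have hPX : ∀ (m : K), ∀ f ∈ X, (A + m • B) f = m * B f := fun m f hf => by
    rw [hP, hAX f hf, zero_add]
  have hPY : ∀ (m : K), ∀ f ∈ Y, (A + m • B) f = A f := fun m f hf => by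
    rw [hP, hBY f hf, mul_zero, add_zero]
  have hc0 : ∀ D : Der C K, (∀ f ∈ X, D f = 0) → ∀ f ∈ X, lift D (cst C K f) = 0 :=
    fun D h f hf => by rw [lift_cst, h f hf, map_zero]
  obtain ⟨dg, hg⟩ := ext_frac (lift (dX C K))
  obtain ⟨dh, hh⟩ := ext_frac (dX C K⟦X⟧)
  obtain ⟨A', hA'⟩ := ext_frac (lift (lift A))
  obtain ⟨θ', hθ'⟩ := ext_frac (lift (lift θ))
  set ι := IsScalarTower.toAlgHom C K⟦X⟧⟦X⟧ (FractionRing K⟦X⟧⟦X⟧) with hι
  have key := core hBX hc hy0 hy1 hA hθ hl' h1 h2 h3 h4 h5 h6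
    (ι.comp ((cst C K⟦X⟧).comp (cst C K))) (ι.comp ((cst C K⟦X⟧).comp (tay B)))
    (ι.comp (jt (cst C K) (A + l • B))) (ι.comp (jt (tay B) (A + l' • B))) dg dh A' θ'
    (l := l) (x0 := x0)
    (fun f hf => by
      simp only [AlgHom.comp_apply]; rw [tay_const B (hBY f hf)]; rfl)
    (fun f hf => congrArg ι (jt_eq hAY (hPY l') (hPY l) (fun f hf => tay_const B (hBY f hf)) hf))
    (fun f hf => congrArg ι (jt_const _ _ (hW f hf)))
    (fun f hf => congrArg ι (jt_const _ _ (hW' f hf)))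
    (fun f => by simp only [AlgHom.comp_apply]; rw [hg, lift_cst, dX_cst, map_zero, map_zero])
    (fun f => by
      simp only [AlgHom.comp_apply]
      rw [hg, lift_cst]
      exact congrArg _ (congrArg _ (deriv_tay B f)))
    (fun f => by simp only [AlgHom.comp_apply]; rw [hh, dX_cst, map_zero])
    (fun f => by simp only [AlgHom.comp_apply]; rw [hh, dX_cst, map_zero])
    (fun f hf => by simp only [AlgHom.comp_apply]; rw [hh, dX_jt, hPX l f hf, map_mul, map_mul])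
    (fun f hf => by simp only [AlgHom.comp_apply]; rw [hh, dX_jt, hPX l' f hf, map_mul, map_mul])
    (fun f => by simp only [AlgHom.comp_apply]; rw [hA', lift_cst, lift_cst]) hAX
    (fun f hf => by
      simp only [AlgHom.comp_apply]; rw [hA', lift_cst, lift_tay hAX hBX hf, map_zero, map_zero])
    (fun f hf => by
      simp only [AlgHom.comp_apply]
      rw [hA', hA', tang _ hBX (hPX l) hx0 hx1 (hc0 A hAX) f hf, map_mul])
    (fun f hf => by
      simp only [AlgHom.comp_apply]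
      rw [hA', hA', tang _ hBX (hPX l') hx0 hx1 (fun f hf => lift_tay hAX hBX hf) f hf, map_mul])
    (fun f => by simp only [AlgHom.comp_apply]; rw [hθ', lift_cst, lift_cst]) hθX
    (fun f hf => by
      simp only [AlgHom.comp_apply]; rw [hθ', lift_cst, lift_tay hθX hBX hf, map_zero, map_zero])
    (fun f hf => by
      simp only [AlgHom.comp_apply]
      rw [hθ', hθ', tang _ hBX (hPX l) hx0 hx1 (hc0 θ hθX) f hf, map_mul])
    (fun f hf => by
      simp only [AlgHom.comp_apply]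
      rw [hθ', hθ', tang _ hBX (hPX l') hx0 hx1 (fun f hf => lift_tay hθX hBX hf) f hf, map_mul])
  simp only [AlgHom.comp_apply] at key
  rw [hA', hA', ← map_mul, ← map_mul, ← map_sub] at key
  have k2 := congrArg (fun u => coeff 0 (coeff 1 u))
    ((IsFractionRing.to_map_eq_zero_iff (K := FractionRing K⟦X⟧⟦X⟧)).1 key)
  simp only [map_sub, map_zero, coeff_one_mul, ← coeff_zero_eq_constantCoeff_apply, coeff_lift,
    coeff_jt_zero, coeff_jt_one, hPX _ x0 hx0, hx1, mul_one, hc0 A hAX x0 hx0,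
    lift_tay hAX hBX hx0, mul_zero, add_zero] at k2
  simp only [coeff_zero_eq_constantCoeff_apply, map_mul] at k2
  simp only [← coeff_zero_eq_constantCoeff_apply, coeff_lift, cst_apply, coeff_zero_C, coeff_tay,
    Nat.factorial_zero, Nat.cast_one, inv_one, one_smul, Function.iterate_zero, id] at k2
  exact sub_eq_zero.1 k2

end Pool.Agent.MP_249f74_an.H17
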