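import Pool.Agent.MP_249f74_an.H17.Spec3

/-!
The third vertex of a bad triple at an isotropic chord.
-/

open Set IntermediateField

namespace Pool.Agent.MP_249f74_an.H17

open H88 (rk cl subset_cl)

theorem uns (hnt : StmtNT) (hunr : StmtUnr) : StmtUNS := by
  intro C Ω _ _ _ _ _ V E π δ P fr hE S l μ σ w x a b hS hl hP σE σ1 aE aV bE bV wS xS hμ hg f hf f0
  have l1 : 1 - l ≠ 0 := fun h => hl (by rw [← neg_sub, h]; simp)
  have hSV := hnt C Ω V E π δ P fr S (-l / (1 - l)) hS (by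
    rw [← V.valuation_le_one_iff, map_div₀, Valuation.map_neg, Valuation.map_sub_swap]
    refine div_le_one_of_le₀ ?_ zero_le
    simpa using V.valuation.map_add_le (x := l - 1) (y := 1) le_rfl (by simpa using not_lt.1 hl))
    fun f hf => by field_simp; linear_combination hP f hf
  have k1 : V.valuation (1 - σ * w) = 1 := V.valuation.map_one_sub_of_lt (by
    rw [map_mul]
    exact mul_lt_one_of_nonneg_of_lt_one_left zero_le σ1 ((V.valuation_le_one_iff _).2 (hSV w wS)))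
  have k0 : 1 - σ * w ≠ 0 := fun h => by simp [h] at k1
  have σV := (V.valuation_le_one_iff _).1 σ1.le
  let G : Set Ω := insert (1 - σ * w)⁻¹ ({f | f ∈ E ∧ f ∈ V} ∪ S)
  have g1 : (1 - σ * w)⁻¹ ∈ Algebra.adjoin C G := Algebra.subset_adjoin (mem_insert _ _)
  have g2 : ∀ f ∈ E, f ∈ V → f ∈ Algebra.adjoin C G := fun f h1 h2 =>
    Algebra.subset_adjoin (Or.inr (Or.inl ⟨h1, h2⟩))
  have g3 : ∀ f ∈ S, f ∈ Algebra.adjoin C G := fun f h => Algebra.subset_adjoin (Or.inr (Or.inr h))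
  have g4 : ∀ f ∈ S, δ f ∈ Algebra.adjoin C G := fun f h => by
    obtain ⟨g, h1, h2⟩ := hg f h
    rw [h2, (eq_mul_inv_iff_mul_eq₀ k0).2 hμ]
    exact mul_mem (mul_mem (add_mem (g2 a aE aV) (mul_mem (g3 x xS) (g2 b bE bV))) g1) (g3 g h1)
  have := hunr C Ω V E π δ P fr 1 δ G one_ne_zero (by simp) ?_ f ((sup_le ?_ ?_ : E ⊔ S ≤ _) hf) f0
  · simpa using this
  · rintro g (rfl | ⟨h1, h2⟩ | h)
    · refine ⟨by rw [← V.valuation_le_one_iff, map_inv₀, k1, inv_one],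
        inv_mem (sub_mem (one_mem _) (mul_mem (subset_cl _ σE) (hS wS))), ?_⟩
      rw [δ.leibniz_inv, map_sub, δ.map_one_eq_zero, δ.leibniz]
      exact mul_mem (neg_mem (pow_mem g1 2)) (sub_mem (zero_mem _) (add_mem
        (mul_mem (g2 σ σE σV) (g4 w wS)) (mul_mem (g3 w wS) (g2 _ (hE σ σE) (fr.dO σ σE σV)))))
    · exact ⟨h2, subset_cl _ h1, g2 _ (hE g h1) (fr.dO g h1 h2)⟩
    · exact ⟨hSV g h, hS h, g4 g h⟩
  · intro g h
    rcases V.mem_or_inv_mem g with h1 | h1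
    · exact subset_adjoin C G (Or.inr (Or.inl ⟨h, h1⟩))
    · exact inv_mem_iff.1 (subset_adjoin C G (Or.inr (Or.inl ⟨inv_mem h, h1⟩)))
  · exact fun g h => subset_adjoin C G (Or.inr (Or.inr h))

variable {C Ω : Type} [Field C] [CharZero C] [Field Ω] [CharZero Ω] [Algebra C Ω] {d : Two C Ω}

lemma val_one {V : ValuationSubring Ω} {F : IntermediateField C Ω} (h : ∀ a ∈ F, a ∈ V) {a : Ω}
    (ha : a ∈ F) (a0 : a ≠ 0) : V.valuation a = 1 := by
  refine le_antisymm ((V.valuation_le_one_iff _).2 (h a ha)) ?_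
  have := (V.valuation_le_one_iff _).2 (h _ (inv_mem ha))
  rwa [map_inv₀, inv_le_one₀ (zero_lt_iff.2 ((map_ne_zero V.valuation).2 a0))] at this

lemma side (huns : StmtUNS) {m0 m1 m2 : Mir d} {z0 l0 z1 l1 π : Ω} (t : Tri m0 m1 m2 z0 l0 z1 l1)
    (b : Bad m0 m1 m2 z0) (hF : m2.F ≤ cl C ((m0.F : Set Ω) ∪ m1.F)) {V : ValuationSubring Ω}
    {A B : Der C Ω} (hA : d.Tn A) (hB : d.Tn B) (a0 : A m0.y = 0) (a1 : A m1.x = 1)
    (b1 : B m1.y = 0) (b0 : B m0.x = 1) (fr : Frame V (m0.F ⊔ m1.F) π A (A + B))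
    (hz : V.valuation (z0 ^ 2) = V.valuation π) (h1 : ∀ a ∈ m1.F, a ∈ V) :
    m2.x ∉ V ∧ V.valuation (A m2.y / B m2.y + 1) < 1 := by
  have e1 : B m2.y ≠ 0 := hB.ne_zero b1 (b0 ▸ one_ne_zero) t.e1.adj
  have hP := hA.add (hB.smul (-(A m2.y / B m2.y)))
  have k2 := m2.kill hP (by simp [e1])
  have k1 := m1.kill hB b1
  have w0 := m1.w0
  have z0' := t.e0.z0
  have s1 : z1⁻¹ ^ 2 = z0 ^ 2 / m1.w ^ 2 := by rw [t.z1_eq]; field_simp
  have F1 : m1.F ≤ m0.F ⊔ m1.F := le_sup_right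
  have s2 : z1⁻¹ ^ 2 ∈ m0.F ⊔ m1.F :=
    s1 ▸ div_mem (t.e0.sq_mem le_sup_left F1) (pow_mem (F1 m1.wF) 2)
  have s3 : V.valuation (z1⁻¹ ^ 2) < 1 := by
    rw [s1, map_div₀, hz, map_pow, val_one h1 m1.wF w0, one_pow, div_one]; exact fr.π1
  have s4 := t.e1.swap.line
  simp only [Mir.swap_x, Mir.swap_y] at s4
  generalize z1⁻¹ ^ 2 = σ at s2 s3 s4
  have σV := (V.valuation_le_one_iff _).1 s3.le
  have hE := stab_sup (δ := A) (E := m0.F) (F := m1.F)
    (fun a ha => by rw [m0.kill hA a0 a ha]; exact zero_mem _) (m1.stabx hA F1 (a1 ▸ one_mem _))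
  have hl : V.valuation (-(A m2.y / B m2.y) - 1) < 1 := by
    by_contra hl
    have c1 := sub_mem (F1 m1.yF) (mul_mem s2 (F1 m1.xF))
    obtain ⟨n, hn⟩ := huns C Ω V _ π A (A + B) fr hE m2.F _ (A m2.y) σ m2.w m2.x
      (A (m1.y - σ * m1.x)) (A σ) (hF.trans (cl_mono (union_subset (le_sup_left (a := m0.F)) F1)))
      hl (fun f hf => by simpa using k2 f hf) s2 s3 (hE _ c1)
      (fr.dO _ c1 (sub_mem (h1 _ m1.yF) (mul_mem σV (h1 _ m1.xF)))) (hE _ s2) (fr.dO _ s2 σV)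
      m2.wF m2.xF (by
        have := congrArg A s4
        simp only [map_sub, Derivation.leibniz, smul_eq_mul, m2.dx hA] at this ⊢
        linear_combination this)
      (fun f hf => (m2.stab f hf).imp fun g hg => ⟨hg.1, hA.sl hg.2⟩) z0 b z0'
    exact odd_val fr.π0 fr.π1 hz n hn
  refine ⟨fr.out hl s2 s3 (val_one h1 (inv_mem m1.wF) (inv_ne_zero w0)) (h1 _ m1.xF) ?_, ?_⟩
  · have := congrArg (A + -(A m2.y / B m2.y) • B) s4
    rw [map_sub, Derivation.leibniz, map_sub, k2 _ m2.xF, k2 _ m2.yF] at this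
    have a2 : A m1.y = m1.w⁻¹ := eq_inv_of_mul_eq_one_left (by rw [← m1.dx hA, a1])
    simp only [Derivation.add_apply, Derivation.smul_apply, smul_eq_mul, k1 _ m1.xF, b1, a1,
      a2] at this ⊢
    linear_combination -this
  · rwa [← Valuation.map_neg, neg_add']

theorem iso (hfr : StmtFR1) (hnt : StmtNT) (huns : StmtUNS) (hfree : StmtFREE) : StmtISO := by
  intro C Ω _ _ _ _ _ _ _ d m0 m1 z0 l0 e ⟨τ, t1, t2⟩
  have hA := Two.tn_nb (d := d) m0.y m1.x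
  have hB := Two.tn_nb (d := d) m1.y m0.x
  have a0 := Two.nb_self (d := d) m0.y m1.x
  have b1 := Two.nb_self (d := d) m1.y m0.x
  have a1 := Two.nb_one e.adjx
  have b0 := Two.nb_one e.symm.adjx
  have aJ := Two.nb_apply (d := d) m0.y m1.x
  generalize d.nb m0.y m1.x = A at *
  generalize d.nb m1.y m0.x = B at *
  have k0 := m0.kill hA a0
  have k1 := m1.kill hB b1
  obtain ⟨V, fr, h0, h1, hu⟩ := hfr C Ω m0.F m1.F A (A + B) τ m0.x m1.x k0
    (m1.stabx hA le_rfl (a1 ▸ one_mem _)) (m1.constx hA (a1 ▸ one_ne_zero)) m0.xF m1.xF a1 t1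
    (m0.stabx (hA.add hB) le_rfl (by simp [k0 _ m0.xF, b0])) (fun a ha => by simp [k1 a ha])
    (by simp [k0 _ m0.xF, b0])
  have hz := e.val_sq (hu _ m0.yF _ m1.yF t2)
  refine ⟨V, h0, h1, hz ▸ fr.π1, fun k hk hJ => ?_, fun m2 z1 l1 t b => ?_, fun ma za la t b => ?_⟩
  · exact hnt C Ω V _ _ A _ fr (Kr A ⊓ cl C (m0.F ⊔ m1.F : IntermediateField C Ω)) 0 inf_le_right
      (zero_mem _) (fun f hf => by rw [zero_mul]; exact hf.1) k
      ⟨by rw [SetLike.mem_coe, mem_Kr, aJ, hJ, mul_zero],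
        cl_mono (union_subset (le_sup_left (a := m0.F)) (le_sup_right (b := m1.F))) hk⟩
  · exact side huns t b (hfree C Ω d _ _ _ _ _ _ _ t b) hA hB a0 a1 b1 b0 fr hz h1
  · have fr' : Frame V (m1.F ⊔ m0.F) (m0.x - m1.x) B (B + A) := by
      rw [sup_comm, add_comm]
      refine ⟨fr.hC, fr.πE, fr.π0, fr.π1, fr.disc, fun f hf h => ?_, ?_, fr.mon⟩
      · have := sub_mem ((V.valuation_le_one_iff _).1
          ((fr.mon f hf).trans ((V.valuation_le_one_iff _).2 h))) (fr.dO f hf h)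
        simpa using this
      · simp [b0, k1 _ m1.xF]
    have := (side huns t.rev (t.bad_rev b) (hfree C Ω d _ _ _ _ _ _ _ t.rev (t.bad_rev b))
      hB hA b1 b0 a0 a1 fr' (by rw [neg_sq, hz]) h0).2
    rw [← inv_div]
    generalize B ma.y / A ma.y = r at this
    have r1 : V.valuation r = 1 := by
      rw [← V.valuation.map_one_sub_of_lt this, ← Valuation.map_neg]; congr 1; ring
    have r0 : r ≠ 0 := fun h => by simp [h] at r1
    rwa [show r⁻¹ + 1 = (r + 1) / r by field_simp; ring, map_div₀, r1, div_one]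

theorem out (h : StmtISO) : StmtOUT := by
  intro C Ω _ _ _ _ _ _ _ d m0 m1 z0 l0 e p
  obtain ⟨V, h0, h1, h2, -, h3, -⟩ := h C Ω d m0 m1 z0 l0 e p
  exact ⟨V, h0, h1, h2, fun m2 z1 l1 t b => (h3 m2 z1 l1 t b).1⟩

end Pool.Agent.MP_249f74_an.H17
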