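import Pool.Agent.MP_249f74_an.H17.Spec3

/-!
Two consecutive bad triples have conjugate ends.
-/

open Set IntermediateField

namespace Pool.Agent.MP_249f74_an.H17

open H88 (rk cl subset_cl rk_le rk_union rk_insert)

namespace Key

variable {C Ω : Type} [Field C] [Field Ω] [Algebra C Ω] {d : Two C Ω}

lemma fin_cl {I S t : Set Ω} (hI : I.Finite) (h : I ⊆ cl C (S ∪ t)) :
    ∃ u ⊆ S, u.Finite ∧ I ⊆ cl C (u ∪ t) := by
  choose! T h1 h2 h3 using fun x (hx : x ∈ I) => exists_finite_cl (h hx)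
  refine ⟨(⋃ x ∈ I, T x) ∩ S, inter_subset_right, (hI.biUnion h2).inter_of_left _,
    fun x hx => cl_mono (fun a ha => ?_) (h3 x hx)⟩
  exact (h1 x hx ha).imp_left fun e => ⟨mem_biUnion hx ha, e⟩

lemma pair_add {m m' : Mir d} (hJ : d.J m.y m'.y ≠ 0) {S T : Set Ω} (hS : S ⊆ m.F)
    (hT : T ⊆ m'.F) : rk C (S ∪ T) = rk C S + rk C T :=
  rk_add (fun _ hf => (m'.sl_of (Two.tn_nb m.y m'.y) (Two.nb_one hJ) hf).1)
    (m'.const_of (Two.tn_nb m.y m'.y) (Two.nb_ne hJ hJ))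
    (fun e he => m.kill (Two.tn_nb _ _) (Two.nb_self _ _) e (hS he)) hT

lemma cancel {m m' : Mir d} (hJ : d.J m.y m'.y ≠ 0) {T t : Set Ω} (hT : T ⊆ m'.F)
    (h : T ⊆ cl C (m.F ∪ t)) : rk C T ≤ rk C t := by
  refine ENat.forall_natCast_le_iff_le.1 fun n hn => ?_
  obtain ⟨I, h1, h2, h3⟩ := Matroid.le_eRk_iff.1 hn
  obtain ⟨u, u1, u2, u3⟩ := fin_cl (finite_of_encard_eq_coe h3) (h1.trans h)
  have := (rk_le (union_subset (subset_union_left.trans (subset_cl _)) u3)).trans (rk_union u t)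
  rw [pair_add hJ u1 (h1.trans hT), ENat.add_le_add_iff_left (rk_finite u2)] at this
  exact (h3.symm.trans h2.eRk_eq_encard.symm).le.trans this

variable [CharZero Ω]

lemma stab_pair {m m' : Mir d} {Z : Der C Ω} (h : ∀ f ∈ m.F, Z f = 0) (h' : ∀ f ∈ m'.F, Z f ∈ m'.F)
    {u : Set Ω} (hu : u ⊆ m.F) : ∀ f ∈ cl C (u ∪ m'.F), Z f ∈ cl C (u ∪ m'.F) := fun f =>
  stab_cl (by
    rintro a (e | e)
    · rw [h a (hu e)]; exact zero_mem _
    · exact subset_cl _ (Or.inr (h' a e)))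

lemma ranks {m0 m1 m2 : Mir d} {z0 l0 z1 l1 : Ω} (t : Tri m0 m1 m2 z0 l0 z1 l1)
    (hJ : d.J m0.y m2.y ≠ 0) (h2 : m2.F ≤ cl C ((m0.F : Set Ω) ∪ m1.F))
    (h0 : m0.F ≤ cl C ((m2.F : Set Ω) ∪ m1.F)) :
    rk C (m0.F : Set Ω) ≤ rk C (m2.F : Set Ω) ∧ rk C (m2.F : Set Ω) ≤ rk C (m0.F : Set Ω) ∧
      rk C (m2.F : Set Ω) ≤ rk C (m1.F : Set Ω) ∧ rk C (m2.F : Set Ω) ≠ ⊤ := by
  refine ⟨cancel t.e0.symm.adj subset_rfl (union_comm _ _ ▸ h0),
    cancel t.e1.adj subset_rfl (union_comm _ _ ▸ h2), cancel hJ subset_rfl h2, ?_⟩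
  obtain ⟨u, u1, u2, u3⟩ := fin_cl (toFinite {m2.x, m2.y})
    (insert_subset (h2 m2.xF) (singleton_subset_iff.2 (h2 m2.yF)))
  have hZ := Two.tn_nb (d := d) m0.y m1.y
  have := m2.le_of hZ (Two.nb_ne t.e0.adj hJ) (u3 (Or.inl rfl)) (u3 (Or.inr rfl))
    (stab_pair (m0.kill hZ (Two.nb_self _ _))
      (fun _ hf => (m1.sl_of hZ (Two.nb_one t.e0.adj) hf).1) u1)
  exact ne_top_of_le_ne_top (rk_finite u2) (cancel t.e1.adj subset_rfl (union_comm _ _ ▸ this))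

lemma der_out {S : Set Ω} {y : Ω} (h : y ∉ cl C S) :
    ∃ θ : Der C Ω, (∀ a ∈ S, θ a = 0) ∧ θ y = 1 := by
  have : CharZero (cl C S) := algebraRat.charZero _
  obtain ⟨θ, e⟩ := H97.der_exists_of_indep (algebraicIndependent_unique_type_iff.2 fun e =>
    h (cl_le subset_rfl (mem_cl_iff.2 e)) : AlgebraicIndependent (cl C S) fun _ : Unit => y)
    fun _ => (1 : Ω)
  exact ⟨θ.restrictScalars C, fun a ha => θ.map_algebraMap ⟨a, subset_cl _ ha⟩, e ()⟩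

end Key

open Key in
theorem key (hex : StmtHEX) (conj : StmtCONJ) (phi : StmtPHI) (free : StmtFREE) (iso : StmtISO)
    (n1 : StmtN1) : StmtKEY := by
  intro C Ω _ _ _ _ _ _ _ d ma m0 m1 m2 za la z0 l0 z1 l1 t' t b' b
  have c2 := conj C Ω d _ _ _ _ _ _ _ t b
  have ca := Two.J_ne_symm (conj C Ω d _ _ _ _ _ _ _ t' b')
  have f2 := free C Ω d _ _ _ _ _ _ _ t b
  have f0 := free C Ω d _ _ _ _ _ _ _ t.rev (t.bad_rev b)
  have fa := free C Ω d _ _ _ _ _ _ _ t'.rev (t'.bad_rev b')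
  obtain ⟨r1, -, r3, r4⟩ := ranks t c2 f2 f0
  obtain ⟨r5, r6, r7, r8⟩ := ranks t' (Two.J_ne_symm ca) (free C Ω d _ _ _ _ _ _ _ t' b') fa
  rw [union_comm] at f0 fa
  have g0 : m0.F ≤ cl C ((m1.F : Set Ω) ∪ ma.F) := subset_union_left.trans
    (mem_cl_of_rk (T := (m0.F : Set Ω) ∪ m1.F)
      (by
        rw [pair_add ca subset_rfl subset_rfl]
        exact WithTop.add_ne_top.2 ⟨r8, ne_top_of_le_ne_top r8 r5⟩)
      (union_subset (subset_union_right.trans (subset_cl _)) fa) (by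
        rw [pair_add ca subset_rfl subset_rfl]
        exact (rk_union _ _).trans (add_le_add (r1.trans r3) r6)))
  obtain ⟨y, hy, hn⟩ : ∃ y ∈ m1.F, y ∉ cl C {m1.x} := by
    by_contra! h
    have : rk C (m1.F : Set Ω) ≤ 1 := (rk_le h).trans (Matroid.eRk_singleton_le _ _)
    exact n1 C Ω d _ _ _ _ _ _ _ t b ((r1.trans r3).trans this) this (r3.trans this)
  obtain ⟨θ, θ0, θ1⟩ := der_out (S := (m0.F : Set Ω) ∪ {m1.x}) (y := y) fun h => by
    have := cancel t.e0.adj (insert_subset hy (singleton_subset_iff.2 m1.xF))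
      (insert_subset h (subset_union_right.trans (subset_cl _)))
    rw [rk_insert hn] at this
    exact absurd this (not_le.2 ((ENat.lt_add_one_iff (rk_finite (finite_singleton _))).2 le_rfl))
  obtain ⟨V, -, -, -, hV, v2, va⟩ := iso C Ω d _ _ _ _ t.e0 (phi C Ω d _ _ _ _ _ _ _ t b)
  replace v2 := (v2 _ _ _ t b).2
  replace va := va _ _ _ t' b'
  replace hV : ∀ k ∈ cl C ((m0.F : Set Ω) ∪ m1.F), d.nb m0.y m1.x k = 0 → k ∈ V :=
    fun k hk e => hV k hk (by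
      rw [Two.nb_apply] at e
      exact (mul_eq_zero.1 e).resolve_left (inv_ne_zero t.e0.adjx))
  have hA := Two.tn_nb (d := d) m0.y m1.x
  have hB := Two.tn_nb (d := d) m1.y m0.x
  have a0 := Two.nb_self (d := d) m0.y m1.x
  have b1 := Two.nb_self (d := d) m1.y m0.x
  have a1 := Two.nb_one t.e0.adjx
  have b0 := Two.nb_one t.e0.symm.adjx
  have a2 := Two.nb_ne t.e0.adjx c2
  have b2 := Two.nb_ne t.e0.symm.adjx t.e1.adj
  have aa := Two.nb_ne t.e0.adjx t'.e0.symm.adj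
  have ba := Two.nb_ne t.e0.symm.adjx ca
  generalize d.nb m0.y m1.x = A at *
  generalize d.nb m1.y m0.x = B at *
  have k0 := m0.kill hA a0
  have k1 := m1.kill hB b1
  have s0 := m0.stabx hB le_rfl (b0 ▸ one_mem _)
  have s1 := m1.stabx hA le_rfl (a1 ▸ one_mem _)
  have sA := stab_pair k0 s1 subset_rfl
  have sB := stab_pair k1 s0 subset_rfl
  rw [union_comm] at sB
  have lam : ∀ m : Mir d, m.F ≤ cl C ((m0.F : Set Ω) ∪ m1.F) → A m.y ≠ 0 → B m.y ≠ 0 →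
      V.valuation (A m.y / B m.y + 1) < 1 → ∃ l ∈ cl C ((m0.F : Set Ω) ∪ m1.F), l ≠ 0 ∧
        V.valuation (l - 1) < 1 ∧ ∀ f ∈ m.F, A f + l * B f = 0 := fun m h e1 e2 v =>
    ⟨-(A m.y / B m.y), neg_mem (div_mem (sA _ (h m.yF)) (sB _ (h m.yF))),
      neg_ne_zero.2 (div_ne_zero e1 e2), by rwa [← neg_add', Valuation.map_neg],
      m.kill (hA.add (hB.smul _)) (by simp [e2])⟩
  obtain ⟨l, p1, p2, p3, p4⟩ := lam m2 f2 a2 b2 v2
  obtain ⟨l', q1, q2, q3, q4⟩ := lam ma fa aa ba va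
  have e := hex C Ω _ _ _ _ A B θ l l' _ _ y k0 k1 s0 s1 (m0.constx hB (b0 ▸ one_ne_zero)) m0.xF b0
    m1.xF hy a1 (fun f hf => θ0 f (Or.inl hf)) (by simp [θ1, θ0 _ (Or.inr rfl)]) p4 q4 p2 q2 f0 g0
    f2 fa (ne_top_of_le_ne_top r4 r1) r7
  obtain rfl : l = l' := by
    by_contra n
    have n' : l' - l ≠ 0 := sub_ne_zero.2 (Ne.symm n)
    have h1 := (V.valuation_le_one_iff _).2 (hV (l / (l' - l)) (div_mem p1 (sub_mem q1 p1)) (by
      rw [Derivation.leibniz_div, map_sub]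
      simp only [smul_eq_mul]
      linear_combination (l' - l)⁻¹ ^ 2 * e))
    have h2 := Valuation.map_sub_lt _ q3 p3
    rw [sub_sub_sub_cancel_right] at h2
    have h3 := mul_lt_one_of_nonneg_of_lt_one_right h1 zero_le h2
    rw [← map_mul, div_mul_cancel₀ _ n'] at h3
    have h4 := Valuation.map_sub_lt _ h3 p3
    rw [sub_sub_cancel, map_one] at h4
    exact lt_irrefl _ h4
  exact (hA.add (hB.smul l)).J_eq_zero (q4 _ ma.yF) (p4 _ m2.yF) (k := m1.x)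
    (by simp [a1, k1 _ m1.xF])

end Pool.Agent.MP_249f74_an.H17
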