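import Pool.Agent.MP_249f74_an.H17.Api

/-!
There is no bad triple of algebraic mirrors.
-/

open Set IntermediateField Polynomial

namespace Pool.Agent.MP_249f74_an.H17

open H88 (rk cl subset_cl rk_insert rk_union)

namespace N1

section Gal

variable {B Ω : Type} [Field B] [Field Ω] [Algebra B Ω]

/-- Two points of the orbit of `a` are exchanged by an automorphism with the property `P`. -/
def Sw (B : Type) [Field B] [Algebra B Ω] (a z : Ω) : Prop :=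
  ∀ g g' : Ω ≃ₐ[B] Ω, g a ≠ g' a → ∃ τ : Ω ≃ₐ[B] Ω, τ z = z ∧ τ (g a) = g' a ∧ τ (g' a) = g a ∧
    ∀ h : Ω ≃ₐ[B] Ω, h a ≠ g a → h a ≠ g' a → τ (h a) = h a

lemma fix_all {a z : Ω} (ha : IsAlgebraic B a) (hs : Sw B a z) (hz : ∃ g : Ω ≃ₐ[B] Ω, g z ≠ z) :
    ∃ n : Ω ≃ₐ[B] Ω, n z ≠ z ∧ ∀ h : Ω ≃ₐ[B] Ω, n (h a) = h a := by
  let U : (Ω ≃ₐ[B] Ω) → Set Ω := fun n => {u | (∃ h : Ω ≃ₐ[B] Ω, h a = u) ∧ n u ≠ u}
  have hU : ∀ n, (U n).Finite := fun n => ((minpoly B a).rootSet_finite Ω).subset (by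
    rintro _ ⟨⟨h, rfl⟩, -⟩
    exact mem_rootSet.2 ⟨minpoly.ne_zero ha.isIntegral, by
      rw [aeval_algHom_apply, minpoly.aeval, map_zero]⟩)
  obtain ⟨n, hn, hm⟩ := (InvImage.wf (fun n => (U n).ncard) Nat.lt_wfRel.wf).has_min
    {g : Ω ≃ₐ[B] Ω | g z ≠ z} hz
  refine ⟨n, hn, fun h => ?_⟩
  by_contra e
  obtain ⟨τ, t1, t2, t3, t4⟩ := hs (n * h) h e
  refine hm (τ * n) (fun e' => hn (τ.injective (e'.trans t1.symm)))
    (ncard_lt_ncard ⟨?_, fun hs => ?_⟩ (hU n))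
  · rintro _ ⟨⟨k, rfl⟩, hk⟩
    refine ⟨⟨k, rfl⟩, fun e' => hk ?_⟩
    have e1 : k a ≠ h a := fun e2 => e (by rw [← e2, e'])
    rw [AlgEquiv.mul_apply, e', t4 k (fun e2 => e1 (n.injective (e'.trans e2))) e1]
  · exact (hs ⟨⟨h, rfl⟩, e⟩).2 t2

lemma gal {a b z z' : Ω} (ha : IsAlgebraic B a) (hs : Sw B a z) (hs' : Sw B b z')
    (hz : ∃ g : Ω ≃ₐ[B] Ω, g z ≠ z) (hab : ∀ g : Ω ≃ₐ[B] Ω, g a = a → g b = b → g z = z)
    (g : Ω ≃ₐ[B] Ω) : ∃ n : Ω ≃ₐ[B] Ω, n a = a ∧ n b = g b := by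
  obtain ⟨n, hn, hf⟩ := fix_all ha hs hz
  have h1 : n a = a := hf 1
  have h2 : n b ≠ b := fun e => hn (hab n h1 e)
  by_cases e1 : g b = b
  · exact ⟨1, rfl, e1.symm⟩
  by_cases e2 : n b = g b
  · exact ⟨n, h1, e2⟩
  obtain ⟨τ, -, t2, -, t4⟩ := hs' n g e2
  have h3 : τ b = b := t4 1 h2.symm (Ne.symm e1)
  refine ⟨τ * n * τ.symm, ?_, ?_⟩
  · rw [AlgEquiv.mul_apply, AlgEquiv.mul_apply, hf, τ.apply_symm_apply]
  · rw [AlgEquiv.mul_apply, AlgEquiv.mul_apply, τ.symm_apply_eq.2 h3.symm, t2]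

end Gal

section Val

variable {C Ω : Type} [Field C] [Field Ω] [Algebra C Ω]

lemma val_poly {F : IntermediateField C Ω} {V : ValuationSubring Ω} (hF : ∀ a ∈ F, a ∈ V) {s : Ω}
    (hs : V.valuation s < 1) {p : F[X]} (hp : p ≠ 0) :
    V.valuation (aeval s p) = V.valuation s ^ p.rootMultiplicity 0 := by
  obtain ⟨q, h1, h2⟩ := exists_eq_pow_rootMultiplicity_mul_and_not_dvd p hp 0
  rw [C_0, sub_zero] at h1 h2
  have h3 : V.valuation (aeval s q) = 1 := by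
    have c0 : ((q.coeff 0 : F) : Ω) ≠ 0 := fun h => h2 (X_dvd_iff.2 (Subtype.ext h))
    have c1 : V.valuation (q.coeff 0 : F) = 1 := by
      refine le_antisymm ((V.valuation_le_one_iff _).2 (hF _ (q.coeff 0).2)) ?_
      have := (V.valuation_le_one_iff _).2 (hF _ (inv_mem (q.coeff 0).2))
      rwa [map_inv₀, inv_le_one₀ ((V.valuation.pos_iff).2 c0)] at this
    have c2 : aeval s q.divX ∈ V := by
      rw [aeval_eq_sum_range]
      exact sum_mem fun i _ => mul_mem (hF _ (q.divX.coeff i).2)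
        (pow_mem ((V.valuation_le_one_iff _).1 hs.le) _)
    rw [← q.divX_mul_X_add, map_add, map_mul, aeval_X, aeval_C, ← c1]
    refine V.valuation.map_add_eq_of_lt_right ?_
    rw [map_mul]
    exact (mul_lt_one_of_nonneg_of_lt_one_right ((V.valuation_le_one_iff _).2 c2) zero_le hs).trans_eq
      c1.symm
  conv_lhs => rw [h1, map_mul, map_pow, aeval_X, map_mul, map_pow, h3, mul_one]

lemma val_cmp {F : IntermediateField C Ω} {V V' : ValuationSubring Ω} (hF : ∀ a ∈ F, a ∈ V)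
    (hF' : ∀ a ∈ F, a ∈ V') {s : Ω} (s0 : s ≠ 0) (hs : V.valuation s < 1)
    (hs' : V'.valuation s < 1) {b : Ω} (hb : b ∈ F ⊔ C⟮s⟯) (h : V.valuation b < 1) :
    V'.valuation b < 1 := by
  rw [← restrictScalars_adjoin_eq_sup, mem_restrictScalars, mem_adjoin_simple_iff] at hb
  obtain ⟨p, q, rfl⟩ := hb
  rcases eq_or_ne p 0 with rfl | hp
  · simp
  rcases eq_or_ne q 0 with rfl | hq
  · simp
  have h0 := (V.valuation.pos_iff).2 s0
  have h0' := (V'.valuation.pos_iff).2 s0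
  rw [map_div₀, val_poly hF hs hp, val_poly hF hs hq, div_lt_one₀ (pow_pos h0 _),
    pow_lt_pow_iff_right_of_lt_one₀ h0 hs] at h
  rwa [map_div₀, val_poly hF' hs' hp, val_poly hF' hs' hq, div_lt_one₀ (pow_pos h0' _),
    pow_lt_pow_iff_right_of_lt_one₀ h0' hs']

lemma val_prod {V : ValuationSubring Ω} (R : Multiset Ω) (hR : ∀ r ∈ R, r ∉ V) :
    ∀ i, V.valuation ((R.map (X - Polynomial.C ·)).prod.coeff (i + 1)) <
      V.valuation ((R.map (X - Polynomial.C ·)).prod.coeff 0) := by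
  induction R using Multiset.induction_on with
  | empty => simp [coeff_one]
  | cons r R ih =>
    intro i
    have ih := ih fun a ha => hR a (Multiset.mem_cons_of_mem ha)
    have hr : 1 < V.valuation r :=
      not_le.1 fun h => hR r (Multiset.mem_cons_self _ _) ((V.valuation_le_one_iff _).1 h)
    rw [Multiset.map_cons, Multiset.prod_cons]
    generalize (R.map (X - Polynomial.C ·)).prod = p at ih ⊢
    have h0 : 0 < V.valuation (p.coeff 0) := zero_le.trans_lt (ih 0)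
    rw [sub_mul, coeff_sub, coeff_sub, coeff_X_mul, coeff_X_mul_zero, coeff_C_mul, coeff_C_mul,
      zero_sub, Valuation.map_neg, map_mul]
    refine V.valuation.map_sub_lt ?_ ?_
    · refine lt_of_le_of_lt ?_ (lt_mul_of_one_lt_left h0 hr)
      rcases i with _ | i
      · rfl
      · exact (ih i).le
    · rw [map_mul]
      exact mul_lt_mul_of_pos_left (ih i) (zero_lt_one.trans hr)

/-- If all conjugates of `x` are at infinity for `V`, then `x` is at infinity for `V'`. -/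
lemma val_end [IsAlgClosed Ω] {B : IntermediateField C Ω} {V V' : ValuationSubring Ω}
    (h : ∀ b ∈ B, V.valuation b < 1 → V'.valuation b < 1) {x : Ω} (hx : IsAlgebraic B x)
    (hr : ∀ r, aeval r (minpoly B x) = 0 → r ∉ V) : x ∉ V' := fun hV => by
  have hm := minpoly.monic hx.isIntegral
  have h1 := val_prod (V := V) ((minpoly B x).map (algebraMap B Ω)).roots fun r h =>
    hr r (by rw [aeval_def, ← eval_map]; exact isRoot_of_mem_roots h)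
  rw [← (IsAlgClosed.splits _).eq_prod_roots_of_monic (hm.map _)] at h1
  simp only [coeff_map] at h1
  have h2 := minpoly.aeval B x
  generalize minpoly B x = μ at h1 h2
  have h0 := zero_le.trans_lt (h1 0)
  have c0 := (V.valuation.pos_iff).1 h0
  rw [aeval_eq_sum_range, Finset.sum_range_succ'] at h2
  have h3 : V'.valuation (∑ i ∈ Finset.range μ.natDegree,
      algebraMap B Ω (μ.coeff (i + 1)) / algebraMap B Ω (μ.coeff 0) * x ^ (i + 1)) < 1 :=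
    V'.valuation.map_sum_lt one_ne_zero fun i _ => by
      rw [map_mul]
      refine mul_lt_one_of_nonneg_of_lt_one_left zero_le (h _ (div_mem (μ.coeff _).2 (μ.coeff _).2) ?_)
        ((V'.valuation_le_one_iff _).2 (pow_mem hV _))
      rw [map_div₀, div_lt_one₀ h0]
      exact h1 i
  have h4 := V'.valuation.map_one_add_of_lt h3
  simp only [div_mul_eq_mul_div, ← Finset.sum_div, ← Algebra.smul_def] at h4
  rw [eq_neg_of_add_eq_zero_left h2, pow_zero, Algebra.smul_def, mul_one, neg_div, div_self c0] at h4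
  simp at h4

end Val

section Geo

variable {C Ω : Type} [Field C] [Field Ω] [Algebra C Ω] [CharZero Ω] {d : Two C Ω}

lemma rk_one {Z : Der C Ω} {y : Ω} (h : Z y ≠ 0) : rk C ({y} : Set Ω) = 1 := by
  rw [← insert_empty_eq, rk_insert fun e => h (kill_cl (by simp) e), rk_empty, zero_add]

/-- The jets of an algebraic mirror are rational functions of the point. -/
lemma jets (m : Mir d) (h : rk C (m.F : Set Ω) ≤ 1) {Z : Der C Ω} (hZ : d.Tn Z) (h1 : Z m.y = 1) :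
    m.F ≤ adjoin C {m.x, m.y} := by
  have hy : m.y ∈ adjoin C {m.x, m.y} := subset_adjoin _ _ (by simp)
  have hx : m.x ∈ adjoin C {m.x, m.y} := subset_adjoin _ _ (by simp)
  have h2 : m.x ∈ cl C (C⟮m.y⟯ : Set Ω) := by
    rw [cl_adjoin]
    refine mem_cl_of_rk (rk_finite (finite_singleton _))
      (singleton_subset_iff.2 (subset_cl _ m.yF)) ?_ m.xF
    rwa [rk_one (Z := Z) (by simp [h1])]
  obtain ⟨p, -, p1, p2, p3⟩ := exists_simple h2
  have h3 : C⟮m.y⟯ ≤ St Z (adjoin C {m.x, m.y}) :=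
    adjoin_simple_le_iff.2 ⟨hy, by rw [h1]; exact one_mem _⟩
  have h4 := der_eval Z p m.x
  rw [p2, map_zero, eq_comm, add_comm, ← eq_neg_iff_add_eq_zero, mul_comm, ← eq_div_iff p3] at h4
  have h5 : Z m.x ∈ adjoin C {m.x, m.y} := by
    rw [h4]
    refine div_mem (neg_mem (sum_mem fun i _ => mul_mem (h3 (p1 i)).2 (pow_mem hx _))) ?_
    rw [eval_eq_sum_range]
    exact sum_mem fun i _ => mul_mem (by
      rw [coeff_derivative]; exact mul_mem (h3 (p1 _)).1 (add_mem (_root_.natCast_mem _ _) (one_mem _)))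
      (pow_mem hx _)
  have h6 : adjoin C {m.x, m.y} ≤ St Z (adjoin C {m.x, m.y}) := adjoin_le_iff.2 (by
    rintro _ (rfl | rfl)
    · exact ⟨hx, h5⟩
    · exact ⟨hy, by rw [h1]; exact one_mem _⟩)
  exact m.le_of hZ (by simp [h1]) hx hy fun f hf => (h6 hf).2

/-- The fixed field of an embedding. -/
def Fx (g : Ω →ₐ[C] Ω) : IntermediateField C Ω :=
  (AlgHom.equalizer g (AlgHom.id C Ω)).toIntermediateField fun x (hx : g x = x) =>
    show g x⁻¹ = x⁻¹ by rw [map_inv₀, hx]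

/-- An automorphism over `B` as an embedding over `C`. -/
def em {B : IntermediateField C Ω} (g : Ω ≃ₐ[B] Ω) : Ω →ₐ[C] Ω := g.restrictScalars C

variable {m1 m : Mir d} {z l : Ω} {B : IntermediateField C Ω}

omit [CharZero Ω] in
lemma fixB (g : Ω ≃ₐ[B] Ω) {a : Ω} (ha : a ∈ B) : g a = a := g.commutes ⟨a, ha⟩

lemma F_le (e : Edge m1 m z l) (hB : B = m1.F ⊔ C⟮z ^ 2⟯) (h1 : rk C (m1.F : Set Ω) ≤ 1)
    (h : rk C (m.F : Set Ω) ≤ 1) : (m.F : Set Ω) ⊆ cl C (B : Set Ω) := by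
  have h2 : rk C ({z ^ 2, m1.y} : Set Ω) = 1 + 1 := by
    rw [rk_insert (x := z ^ 2) (S := {m1.y}) fun e' => e.nds ((d.br_apply _ _).symm.trans
      (kill_cl (δ := d.br m1.y) (by simp [Two.J_self]) e')),
      rk_one (Z := d.br (z ^ 2)) (by simpa using Two.J_ne_symm e.nds)]
  have h3 := mem_cl_of_rk (C := C) (S := {z ^ 2, m1.y}) (T := (m1.F : Set Ω) ∪ m.F)
    (rk_finite (toFinite _)) (by
      rintro _ (rfl | rfl)
      · exact sup_le_cl _ _ (e.sq_mem le_sup_left le_sup_right)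
      · exact subset_cl _ (Or.inl m1.yF)) ((rk_union _ _).trans (h2 ▸ add_le_add h1 h))
  refine fun f hf => cl_mono ?_ (h3 (Or.inr hf))
  rw [hB]
  rintro _ (rfl | rfl)
  · exact (le_sup_right : C⟮z ^ 2⟯ ≤ _) (mem_adjoin_simple_self _ _)
  · exact (le_sup_left : m1.F ≤ _) m1.yF

lemma comp (e : Edge m1 m z l) (hB : B = m1.F ⊔ C⟮z ^ 2⟯) (g : Ω ≃ₐ[B] Ω) :
    Comp d d (em g) (cl C (B : Set Ω)) := by
  have hF : m1.F ≤ B := hB ▸ le_sup_left
  have hs : z ^ 2 ∈ B := hB ▸ (le_sup_right : C⟮z ^ 2⟯ ≤ _) (mem_adjoin_simple_self _ _)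
  have key : ∀ Z : Der C Ω, d.Tn Z → Z m1.y ∈ B → Z (z ^ 2) ∈ B → ∀ a ∈ B, Z a ∈ B :=
    fun Z hZ h1 h2 a ha => ((hB.le.trans (sup_le (fun f hf => ⟨hF hf, m1.stab_of hZ hF h1 f hf⟩)
      (adjoin_simple_le_iff.2 ⟨hs, h2⟩)) : B ≤ St Z B) ha).2
  have n1 := Two.nb_one (Two.J_ne_symm e.nds)
  have n2 := Two.nb_one e.nds
  refine Comp.of_dual (Two.tn_nb (z ^ 2) m1.y) (Two.tn_nb m1.y (z ^ 2)) n1 (Two.nb_self _ _) n2
    fun f hf => ⟨?_, ?_⟩
  · exact comm_cl (g.restrictScalars C) (fun a => fixB g) (key _ (Two.tn_nb _ _)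
      (n1 ▸ one_mem _) (by rw [Two.nb_self]; exact zero_mem _)) hf
  · exact comm_cl (g.restrictScalars C) (fun a => fixB g) (key _ (Two.tn_nb _ _)
      (by rw [Two.nb_self]; exact zero_mem _) (n2 ▸ one_mem _)) hf

omit [CharZero Ω] in
lemma map_x (e : Edge m1 m z l) (hB : B = m1.F ⊔ C⟮z ^ 2⟯) (g : Ω ≃ₐ[B] Ω) :
    g m.x = m1.x - z ^ 2 * m1.y + z ^ 2 * g m.y := by
  have hF : m1.F ≤ B := hB ▸ le_sup_left
  have hs : z ^ 2 ∈ B := hB ▸ (le_sup_right : C⟮z ^ 2⟯ ≤ _) (mem_adjoin_simple_self _ _)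
  have := congrArg g e.line
  rw [map_sub, map_mul, map_sub, fixB g hs, fixB g (hF m1.xF), fixB g (hF m1.yF)] at this
  linear_combination this

lemma fixF (e : Edge m1 m z l) (hB : B = m1.F ⊔ C⟮z ^ 2⟯) (h : rk C (m.F : Set Ω) ≤ 1)
    {g : Ω ≃ₐ[B] Ω} (hg : g m.y = m.y) : m.F ≤ Fx (em g) := by
  refine (jets m h (Two.tn_nb _ _) (Two.nb_one (Two.J_ne_symm e.nds'))).trans (adjoin_le_iff.2 ?_)
  rintro _ (rfl | rfl)
  · exact (map_x e hB g).trans (show _ = m.x by rw [hg]; linear_combination -e.line)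
  · exact hg

variable [CharZero C] [IsAlgClosed C] [IsAlgClosed Ω]

lemma swp (hTR : StmtTR) (e : Edge m1 m z l) (hB : B = m1.F ⊔ C⟮z ^ 2⟯)
    (h1 : rk C (m1.F : Set Ω) ≤ 1) (h : rk C (m.F : Set Ω) ≤ 1) : Sw B m.y z := by
  intro g g' hg
  have hF : m1.F ≤ B := hB ▸ le_sup_left
  have hs : z ^ 2 ∈ B := hB ▸ (le_sup_right : C⟮z ^ 2⟯ ≤ _) (mem_adjoin_simple_self _ _)
  let u : (Ω ≃ₐ[B] Ω) → Mir d := fun k => m.map (comp e hB k) (F_le e hB h1 h)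
  have uL : ∀ k, OnL (u k) (z ^ 2) (m1.x - z ^ 2 * m1.y) := fun k =>
    ⟨map_x e hB k, fun e' => e.g1 (k.injective (e'.trans (fixB k hs).symm))⟩
  have uR : ∀ k, rk C ((u k).F : Set Ω) ≤ 1 := fun k => (Mir.rk_map _ _).trans_le h
  have uy : ∀ k : Ω ≃ₐ[B] Ω, m1.y ≠ k m.y := fun k e' =>
    e.yne (sub_eq_zero.2 (k.injective (e'.symm.trans (fixB k (hF m1.yF)).symm)))
  have hψ : ∀ a, em (g * g'.symm) (em g' a) = em g a := fun a =>
    congrArg g (g'.symm_apply_apply a)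
  have h2 := hTR C Ω d (u g) (u g') (z ^ 2) _ z (em (g * g'.symm))
    (insert m1 (u '' {k | k m.y ≠ g m.y ∧ k m.y ≠ g' m.y})) e.Jsc rfl (uL g) (uL g') hg (uR g)
    (uR g') (hψ _) (hψ _) ?_ ?_
  · obtain ⟨τ, t1, t2⟩ := aut_move h2
    have t3 : ∀ q ∈ insert m1 (u '' {k | k m.y ≠ g m.y ∧ k m.y ≠ g' m.y}), ∀ a ∈ q.F, τ a = a :=
      fun q hq a ha => t1 a (subset_adjoin _ _ (Or.inr (mem_biUnion hq ha)))
    have t4 : τ z = z := t1 z (subset_adjoin _ _ (Or.inl rfl))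
    have t5 : B ≤ Fx τ := hB.le.trans (sup_le (t3 m1 (Or.inl rfl))
      (adjoin_simple_le_iff.2 (show τ (z ^ 2) = z ^ 2 by rw [map_pow, t4])))
    let σ : Ω ≃ₐ[B] Ω := { τ with commutes' := fun a => t5 a.2 }
    have t6 : ∀ k : Ω ≃ₐ[B] Ω, k m.y ≠ g m.y → k m.y ≠ g' m.y → σ (k m.y) = k m.y :=
      fun k k1 k2 => t3 (u k) (Or.inr ⟨k, ⟨k1, k2⟩, rfl⟩) _ (u k).yF
    have t7 : σ (g m.y) - σ (g' m.y) ≠ g m.y - g' m.y := fun e' => t2 ((map_sub τ _ _).trans e')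
    have a1 : σ (g m.y) = g m.y ∨ σ (g m.y) = g' m.y := by
      by_contra! e'
      exact e'.1 (σ.injective (t6 (σ * g) e'.1 e'.2))
    have a2 : σ (g' m.y) = g m.y ∨ σ (g' m.y) = g' m.y := by
      by_contra! e'
      exact e'.2 (σ.injective (t6 (σ * g') e'.1 e'.2))
    rcases a1 with a1 | a1 <;> rcases a2 with a2 | a2
    · exact absurd (σ.injective (a1.trans a2.symm)) hg
    · exact absurd (by rw [a1, a2]) t7
    · exact ⟨σ, t4, a1, a2, t6⟩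
    · exact absurd (σ.injective (a1.trans a2.symm)) hg
  · rintro _ ⟨f, hf, rfl⟩
    refine ⟨⟨f, hf, (hψ f).symm⟩, ?_⟩
    rintro _ ⟨k, -, rfl⟩ hk
    obtain ⟨k', -, hk'⟩ := m.stab f hf
    have hS := F_le e hB h1 h
    rw [(u g').sl_unique hk ((comp e hB g').sl (hS m.yF) (hS hf) hk')]
    exact (hψ f).symm ▸ (hψ k').symm ▸ (comp e hB g).sl (hS m.yF) (hS hf) hk'
  · rintro _ (rfl | ⟨k, hk, rfl⟩)
    · exact ⟨⟨by ring, e.g0⟩, h1, uy g, uy g'⟩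
    · exact ⟨uL k, uR k, hk⟩

end Geo

end N1

open N1 in
theorem n1 (hTR : StmtTR) (hL : StmtL2V) (hP : StmtPHI) (hO : StmtOUT) : StmtN1 := by
  intro C Ω _ _ _ _ _ _ _ d m0 m1 m2 z0 l0 z1 l1 t b r0 r1 r2
  obtain ⟨B, hB⟩ : ∃ B, B = m1.F ⊔ C⟮z0 ^ 2⟯ := ⟨_, rfl⟩
  have hF : m1.F ≤ B := hB ▸ le_sup_left
  have hs : z0 ^ 2 ∈ B := hB ▸ (le_sup_right : C⟮z0 ^ 2⟯ ≤ _) (mem_adjoin_simple_self _ _)
  have hB0 : B = m1.F ⊔ C⟮(-z0) ^ 2⟯ := by rw [neg_sq, hB]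
  have z00 := t.e0.z0
  have z10 := t.e1.z0
  have q1 : z1 ^ 2 = m1.w ^ 2 / z0 ^ 2 := by rw [← t.r]; field_simp
  have q0 : z0 ^ 2 = m1.w ^ 2 / z1 ^ 2 := by rw [← t.r]; field_simp
  have hs1 : z1 ^ 2 ∈ B := q1 ▸ div_mem (pow_mem (hF m1.wF) _) hs
  have hB2 : B = m1.F ⊔ C⟮z1 ^ 2⟯ := le_antisymm (hB.le.trans (sup_le le_sup_left
    (adjoin_simple_le_iff.2 (q0 ▸ div_mem (pow_mem ((le_sup_left : m1.F ≤ _) m1.wF) _)
      ((le_sup_right : C⟮z1 ^ 2⟯ ≤ _) (mem_adjoin_simple_self _ _))))))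
    (sup_le hF (adjoin_simple_le_iff.2 hs1))
  have S0 := F_le t.e0.symm hB0 r1 r0
  have S2 := F_le t.e1 hB2 r1 r2
  have f1 : ∀ g : Ω ≃ₐ[B] Ω, m1.F ≤ Fx (em g) := fun g a ha => fixB g (hF ha)
  have hz : z0 ∉ B := fun h => hL C Ω d m0 m1 z0 l0 t.e0 ((hB.le.trans (sup_le le_sup_right
    (adjoin_simple_le_iff.2 (t.e0.sq_mem (le_sup_left.trans' fun a ha =>
      m0.kill (Two.tn_br _) (by simp [Two.J_self]) a ha) le_sup_right)))) h)
  obtain ⟨τ, t1, t2⟩ := aut_move hz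
  have G := gal (mem_cl_iff.1 (S0 m0.yF)) (swp hTR t.e0.symm hB0 r1 r0) (swp hTR t.e1 hB2 r1 r2)
    ⟨{ τ with commutes' := fun a => t1 a a.2 }, fun h => t2 (by
      have : τ (-z0) = -z0 := h
      rwa [map_neg, neg_inj] at this)⟩
    fun g g0 g2 => (sup_le (sup_le (fixF t.e0.symm hB0 r0 g0) (f1 g)) (fixF t.e1 hB2 r2 g2) :
      _ ≤ Fx (em g)) (neg_mem b)
  obtain ⟨V, v0, v1, vs, hV⟩ := hO C Ω d m0 m1 z0 l0 t.e0 (hP C Ω d m0 m1 m2 z0 l0 z1 l1 t b)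
  obtain ⟨V', v2', v1', vs', -⟩ := hO C Ω d _ _ _ _ t.rev.swap.e0
    (hP C Ω d _ _ _ _ _ _ _ t.rev.swap (Tri.bad_swap (t.bad_rev b)))
  have vs'' : V'.valuation (z0 ^ 2) < 1 := by
    rw [show z0 ^ 2 = (-z1)⁻¹ ^ 2 * m1.w ^ 2 by rw [q0]; field_simp, map_mul]
    exact mul_lt_one_of_nonneg_of_lt_one_left zero_le vs'
      ((V'.valuation_le_one_iff _).2 (pow_mem (v1' _ m1.wF) _))
  refine val_end (V := V) (B := B) (fun a ha => val_cmp v1 v1' (pow_ne_zero 2 z00) vs vs'' (hB ▸ ha))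
    (mem_cl_iff.1 (S2 m2.xF)) (fun r hr => ?_) (v2' _ m2.xF)
  obtain ⟨g, rfl⟩ := aut_root (mem_cl_iff.1 (S2 m2.xF)) hr
  obtain ⟨n, n0, n2⟩ := G g
  rw [map_x t.e1 hB2 g, ← n2, ← map_x t.e1 hB2 n]
  have y1 : n m2.y - m1.y ≠ 0 := fun h =>
    t.e1.yne (n.injective (by rw [map_sub, fixB n (hF m1.yF), h, map_zero]))
  refine hV (m2.map (comp t.e1 hB2 n) S2) z1 ((n m2.y - m1.y) * z1) ⟨t.e0, ⟨?_, rfl, z10,
    mul_ne_zero y1 z10, t.e1.g0, fun h => t.e1.g1 (n.injective (h.trans (fixB n hs1).symm)),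
    t.e1.nd⟩, t.r⟩ ?_
  · change n m2.x - _ = _
    rw [map_x t.e1 hB2 n]; ring
  · have h : n z0 ∈ m0.F ⊔ m1.F ⊔ m2.F.map (em n) :=
      (sup_le (sup_le (fun a ha => ?_) fun a ha => ?_) fun a ha => ?_ :
        _ ≤ (m0.F ⊔ m1.F ⊔ m2.F.map (em n)).comap (em n)) b
    · rcases sq_eq_sq_iff_eq_or_eq_neg.1 ((map_pow n z0 2).symm.trans (fixB n hs)) with e | e
      · rwa [e] at h
      · rwa [e, neg_mem_iff] at h
    · exact (le_sup_left.trans le_sup_left : m0.F ≤ _)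
        ((fixF t.e0.symm hB0 r0 n0 ha : em n a = a).symm ▸ ha : em n a ∈ m0.F)
    · exact (le_sup_right.trans le_sup_left : m1.F ≤ _)
        ((f1 n ha : em n a = a).symm ▸ ha : em n a ∈ m1.F)
    · exact (le_sup_right : m2.F.map (em n) ≤ _) ⟨a, ha, rfl⟩

end Pool.Agent.MP_249f74_an.H17
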