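import Pool.Agent.MP_249f74_an.H17.Api

/-!
Closed chains with four and five vertices have length zero.
-/

open Set IntermediateField

namespace Pool.Agent.MP_249f74_an.H17

namespace P45

variable {C Ω : Type} [Field C] [Field Ω] [Algebra C Ω] {d : Two C Ω}

lemma le0 (E F G : IntermediateField C Ω) : E ≤ E ⊔ F ⊔ G := le_sup_left.trans le_sup_left

lemma le1 (E F G : IntermediateField C Ω) : F ≤ E ⊔ F ⊔ G := le_sup_right.trans le_sup_left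

lemma le2 (E F G : IntermediateField C Ω) : G ≤ E ⊔ F ⊔ G := le_sup_right

/-- A closed chain of four vertices with a good triple. -/
lemma p4_good [CharZero Ω] {m0 m1 m2 m3 : Mir d} {z0 l0 z1 l1 z2 l2 z3 l3 : Ω}
    (t0 : Tri m3 m0 m1 z3 l3 z0 l0) (t1 : Tri m0 m1 m2 z0 l0 z1 l1)
    (t2 : Tri m1 m2 m3 z1 l1 z2 l2) (t3 : Tri m2 m3 m0 z2 l2 z3 l3)
    (hg : ¬ Bad m0 m1 m2 z0) (hL : l0 + l1 + l2 + l3 ∈ (⊥ : IntermediateField C Ω)) :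
    l0 + l1 + l2 + l3 = 0 := by
  by_contra h0
  apply hg
  unfold Bad
  have k0 := le0 m0.F m1.F m2.F
  have k1 := le1 m0.F m1.F m2.F
  have k2 := le2 m0.F m1.F m2.F
  generalize m0.F ⊔ m1.F ⊔ m2.F = K at k0 k1 k2
  have z00 := t1.e0.z0
  have z10 := t1.e1.z0
  have s0 : z0 ^ 2 ∈ K := t1.e0.sq_mem k0 k1
  have a0 : z0 * z0 ∈ K := by rwa [← sq]
  have a1 : z1 * z0 ∈ K := by rw [mul_comm, t1.r]; exact k1 m1.wF
  have a3 : z3 * z0 ∈ K := by rw [t0.r]; exact k0 m0.wF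
  have a2 : z2 * z0 ∈ K := by
    have : z2 * z0 = m2.w * z0 ^ 2 / (z1 * z0) := by rw [← t2.r]; field_simp
    rw [this]
    exact div_mem (mul_mem (k2 m2.wF) s0) a1
  have sq : ∀ z, z * z0 ∈ K → z ^ 2 ∈ K := fun z hz => by
    have : z ^ 2 = (z * z0) ^ 2 / z0 ^ 2 := by field_simp
    rw [this]
    exact div_mem (pow_mem hz 2) s0
  have hne := sub_ne_zero.2 t3.sq_ne
  have y3 : m3.y ∈ K := by
    have : m3.y = (m0.x - m2.x + z2 ^ 2 * m2.y - z3 ^ 2 * m0.y) / (z2 ^ 2 - z3 ^ 2) := by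
      rw [eq_div_iff hne]
      linear_combination -t3.e0.line - t3.e1.line
    rw [this]
    exact div_mem (sub_mem (add_mem (sub_mem (k0 m0.xF) (k2 m2.xF))
      (mul_mem (sq _ a2) (k2 m2.yF))) (mul_mem (sq _ a3) (k0 m0.yF))) (sub_mem (sq _ a2) (sq _ a3))
  have y0 := k0 m0.yF
  have y1 := k1 m1.yF
  have y2 := k2 m2.yF
  have hK : (l0 + l1 + l2 + l3) * z0 ∈ K := by
    have : (l0 + l1 + l2 + l3) * z0 = (m1.y - m0.y) * (z0 * z0) + (m2.y - m1.y) * (z1 * z0) +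
        (m3.y - m2.y) * (z2 * z0) + (m0.y - m3.y) * (z3 * z0) := by
      rw [← t1.e0.ey, ← t1.e1.ey, ← t3.e0.ey, ← t3.e1.ey]; ring
    rw [this]
    exact add_mem (add_mem (add_mem (mul_mem (sub_mem y1 y0) a0) (mul_mem (sub_mem y2 y1) a1))
      (mul_mem (sub_mem y3 y2) a2)) (mul_mem (sub_mem y0 y3) a3)
  have := div_mem hK ((bot_le : ⊥ ≤ K) hL)
  rwa [mul_div_cancel_left₀ _ h0] at this

/-- A closed chain of four vertices. -/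
lemma p4 (hK : StmtKEY) [CharZero C] [IsAlgClosed C] [CharZero Ω] [IsAlgClosed Ω]
    {m0 m1 m2 m3 : Mir d} {z0 l0 z1 l1 z2 l2 z3 l3 : Ω}
    (t0 : Tri m3 m0 m1 z3 l3 z0 l0) (t1 : Tri m0 m1 m2 z0 l0 z1 l1)
    (t2 : Tri m1 m2 m3 z1 l1 z2 l2) (t3 : Tri m2 m3 m0 z2 l2 z3 l3)
    (hL : l0 + l1 + l2 + l3 ∈ (⊥ : IntermediateField C Ω)) : l0 + l1 + l2 + l3 = 0 := by
  by_cases b1 : Bad m0 m1 m2 z0
  · by_cases b0 : Bad m3 m0 m1 z3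
    · exact absurd (hK C Ω d _ _ _ _ _ _ _ _ _ _ t0 t1 b0 b1) (Two.J_ne_symm t3.e0.adj)
    · have e : l0 + l1 + l2 + l3 = l3 + l0 + l1 + l2 := by ring
      rw [e] at hL ⊢
      exact p4_good t3 t0 t1 t2 b0 hL
  · exact p4_good t0 t1 t2 t3 b1 hL

/-- Two collinear segments form a segment. -/
lemma glue {a b b' c : Mir d} {z l l' : Ω} (e : Edge a b z l) (e' : Edge b' c z l')
    (hx : b'.x = b.x) (hy : b'.y = b.y) (h : l + l' ≠ 0) : Edge a c z (l + l') where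
  ex := by linear_combination e.ex + e'.ex + hx
  ey := by linear_combination e.ey + e'.ey + z * hy
  z0 := e.z0
  l0 := h
  g0 := e.g0
  g1 := e'.g1
  nd := e.nd

/-- The degenerate case of the doubled chain. -/
lemma deg [CharZero Ω] {a2 a3 a4 a0 b2 b3 b4 b0 : Mir d} {z2 l2 z3 l3 z4 l4 u2 k2 u3 k3 u4 k4 : Ω}
    (ta : Tri a2 a3 a4 z2 l2 z3 l3) (ta' : Tri a3 a4 a0 z3 l3 z4 l4)
    (tb : Tri b2 b3 b4 u2 k2 u3 k3) (tb' : Tri b3 b4 b0 u3 k3 u4 k4)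
    (x2 : b2.x = a2.x) (y2 : b2.y = a2.y) (x0 : b0.x = a0.x) (y0 : b0.y = a0.y)
    (h2 : u2 = -z2) (h4 : u4 = -z4) (h : l4 + k4 = 0) : l2 + k2 + (l3 + k3) + (l4 + k4) = 0 := by
  subst h2 h4
  have z40 := ta'.e1.z0
  have x4 : b4.x = a4.x := by
    linear_combination ta'.e1.ex - tb'.e1.ex + x0 + z4 * h
  have y4 : b4.y = a4.y := by
    refine sub_eq_zero.1 (mul_right_cancel₀ z40 ?_)
    linear_combination ta'.e1.ey + tb'.e1.ey + z4 * y0 + h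
  have w4 := Mir.w_eq _ x4 y4
  have h3 : u3 = -z3 := by
    refine mul_right_cancel₀ z40 ?_
    linear_combination -tb'.r - w4 - ta'.r + 2 * ta'.r
  subst h3
  have y3 : b3.y = a3.y := by
    refine sub_eq_zero.1 (mul_left_cancel₀ (sub_ne_zero.2 ta.sq_ne) ?_)
    linear_combination ta.e0.line - tb.e0.line + ta.e1.line - tb.e1.line + x4 - x2 -
      z3 ^ 2 * y4 + z2 ^ 2 * y2
  rw [h, ← ta.e0.ey, ← tb.e0.ey, ← ta.e1.ey, ← tb.e1.ey, y2, y3, y4]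
  ring

/-- The doubled chain. -/
lemma dbl (hK : StmtKEY) [CharZero C] [IsAlgClosed C] [CharZero Ω] [IsAlgClosed Ω]
    {a2 a3 a4 a0 b2 b3 b4 b0 : Mir d} {z2 l2 z3 l3 z4 l4 u2 k2 u3 k3 u4 k4 : Ω}
    (ta : Tri a2 a3 a4 z2 l2 z3 l3) (ta' : Tri a3 a4 a0 z3 l3 z4 l4)
    (tb : Tri b2 b3 b4 u2 k2 u3 k3) (tb' : Tri b3 b4 b0 u3 k3 u4 k4)
    (x2 : b2.x = a2.x) (y2 : b2.y = a2.y) (x0 : b0.x = a0.x) (y0 : b0.y = a0.y)
    (h2 : u2 = -z2) (h4 : u4 = -z4)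
    (hL : l2 + k2 + (l3 + k3) + (l4 + k4) ∈ (⊥ : IntermediateField C Ω)) :
    l2 + k2 + (l3 + k3) + (l4 + k4) = 0 := by
  by_cases h : l4 + k4 = 0
  · exact deg ta ta' tb tb' x2 y2 x0 y0 h2 h4 h
  by_cases h' : l2 + k2 = 0
  · have := deg ta'.rev ta.rev tb'.rev tb.rev x0 y0 x2 y2 (by rw [h4]) (by rw [h2]) h'
    linear_combination this
  subst h2 h4
  have eA := ta.e1
  have eB : Edge a4 b4 z4 (l4 + k4) :=
    glue ta'.e1 (by simpa using tb'.e1.symm) x0 y0 h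
  have eC : Edge b4 b3 (-u3) k3 := tb.e1.symm
  have eD : Edge b3 a3 z2 (k2 + l2) :=
    glue (by simpa using tb.e0.symm) ta.e0 x2.symm y2.symm (by rwa [add_comm])
  have e : l2 + k2 + (l3 + k3) + (l4 + k4) = l3 + (l4 + k4) + k3 + (k2 + l2) := by ring
  rw [e] at hL ⊢
  exact p4 hK ⟨eD, eA, ta.r⟩ ⟨eA, eB, ta'.r⟩ ⟨eB, eC, by linear_combination tb'.r⟩
    ⟨eC, eD, by linear_combination tb.r⟩ hL

/-- A tangent derivation that maps the first two parameters into the field of a triple preserves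
this field. -/
lemma stab3 {m0 m1 m2 : Mir d} {z0 l0 z1 l1 : Ω} (t : Tri m0 m1 m2 z0 l0 z1 l1) {Z : Der C Ω}
    (hZ : d.Tn Z) (h0 : Z m0.y ∈ m0.F ⊔ m1.F ⊔ m2.F) (h1 : Z m1.y ∈ m0.F ⊔ m1.F ⊔ m2.F) :
    ∀ f ∈ m0.F ⊔ m1.F ⊔ m2.F, Z f ∈ m0.F ⊔ m1.F ⊔ m2.F := by
  have k0 := le0 m0.F m1.F m2.F
  have k1 := le1 m0.F m1.F m2.F
  have k2 := le2 m0.F m1.F m2.F
  have s0 : m0.F ≤ St Z (m0.F ⊔ m1.F ⊔ m2.F) := fun f hf =>
    mem_St.2 ⟨k0 hf, m0.stab_of hZ k0 h0 f hf⟩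
  have s1 : m1.F ≤ St Z (m0.F ⊔ m1.F ⊔ m2.F) := fun f hf =>
    mem_St.2 ⟨k1 hf, m1.stab_of hZ k1 h1 f hf⟩
  have hz : z1 ^ 2 ∈ St Z (m0.F ⊔ m1.F ⊔ m2.F) := by
    rw [t.z1_eq, div_pow]
    exact div_mem (pow_mem (s1 m1.wF) 2) (t.e0.sq_mem s0 s1)
  obtain ⟨hz1, hz2⟩ := mem_St.1 hz
  have h2 : Z m2.y ∈ m0.F ⊔ m1.F ⊔ m2.F := by
    have := t.e1.dline hZ
    rw [mul_comm, ← eq_div_iff (sub_ne_zero.2 t.e1.g1)] at this
    rw [this]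
    exact div_mem (add_mem (mul_mem (sub_mem (k1 m1.wF) hz1) h1)
      (mul_mem (sub_mem (k2 m2.yF) (k1 m1.yF)) hz2)) (sub_mem (k2 m2.wF) hz1)
  have s2 : m2.F ≤ St Z (m0.F ⊔ m1.F ⊔ m2.F) := fun f hf =>
    mem_St.2 ⟨k2 hf, m2.stab_of hZ k2 h2 f hf⟩
  exact fun f hf => (mem_St.1 ((sup_le (sup_le s0 s1) s2 :
    m0.F ⊔ m1.F ⊔ m2.F ≤ St Z (m0.F ⊔ m1.F ⊔ m2.F)) hf)).2

/-- An embedding which commutes with the dual basis is compatible. -/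
lemma comp_nb {Ω' : Type} [Field Ω'] [Algebra C Ω'] {d' : Two C Ω'} {ι : Ω →ₐ[C] Ω'} {a b : Ω}
    (hJ : d.J a b ≠ 0) (h0 : ∀ f, d'.d0 (ι f) = ι (d.nb b a f))
    (h1 : ∀ f, d'.d1 (ι f) = ι (d.nb a b f)) : Comp d d' ι univ := by
  have hJ' := Two.J_ne_symm hJ
  refine ⟨ι (-((d.J b a)⁻¹ * d.d1 b)), ι ((d.J b a)⁻¹ * d.d0 b), ι (-((d.J a b)⁻¹ * d.d1 a)),
    ι ((d.J a b)⁻¹ * d.d0 a), ?_, fun f _ => ⟨?_, ?_⟩⟩
  · rw [← map_mul, ← map_mul, ← map_sub, _root_.map_ne_zero]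
    have : -((d.J b a)⁻¹ * d.d1 b) * ((d.J a b)⁻¹ * d.d0 a) -
        (d.J b a)⁻¹ * d.d0 b * -((d.J a b)⁻¹ * d.d1 a) = (d.J b a)⁻¹ * (d.J a b)⁻¹ * d.J b a := by
      rw [show d.J b a = d.d0 b * d.d1 a - d.d1 b * d.d0 a from rfl]; ring
    rw [this]
    exact mul_ne_zero (mul_ne_zero (inv_ne_zero hJ') (inv_ne_zero hJ)) hJ'
  · rw [h0, Two.nb_apply, ← map_mul, ← map_mul, ← map_add]
    congr 1
    rw [show d.J b f = d.d0 b * d.d1 f - d.d1 b * d.d0 f from rfl]; ring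
  · rw [h1, Two.nb_apply, ← map_mul, ← map_mul, ← map_add]
    congr 1
    rw [show d.J a f = d.d0 a * d.d1 f - d.d1 a * d.d0 f from rfl]; ring

/-- Transport of a triple. -/
lemma tri_map {Ω' : Type} [Field Ω'] [Algebra C Ω'] {d' : Two C Ω'} {ι : Ω →ₐ[C] Ω'}
    (h : Comp d d' ι univ) {m0 m1 m2 : Mir d} {z0 l0 z1 l1 : Ω}
    (t : Tri m0 m1 m2 z0 l0 z1 l1) :
    Tri (m0.map h (subset_univ _)) (m1.map h (subset_univ _)) (m2.map h (subset_univ _))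
      (ι z0) (ι l0) (ι z1) (ι l1) :=
  ⟨t.e0.map h _ _ (mem_univ _), t.e1.map h _ _ (mem_univ _), by
    rw [← map_mul, t.r, Mir.map_w]⟩

/-- A closed chain of five vertices with a good triple. -/
lemma p5_good (hA : StmtAM) (hK : StmtKEY) [CharZero C] [IsAlgClosed C] [CharZero Ω]
    [IsAlgClosed Ω] {m0 m1 m2 m3 m4 : Mir d} {z0 l0 z1 l1 z2 l2 z3 l3 z4 l4 : Ω}
    (t0 : Tri m4 m0 m1 z4 l4 z0 l0) (t1 : Tri m0 m1 m2 z0 l0 z1 l1)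
    (t2 : Tri m1 m2 m3 z1 l1 z2 l2) (t3 : Tri m2 m3 m4 z2 l2 z3 l3)
    (t4 : Tri m3 m4 m0 z3 l3 z4 l4) (hg : ¬ Bad m0 m1 m2 z0)
    (hL : l0 + l1 + l2 + l3 + l4 ∈ (⊥ : IntermediateField C Ω)) :
    l0 + l1 + l2 + l3 + l4 = 0 := by
  have k0 := le0 m0.F m1.F m2.F
  have k1 := le1 m0.F m1.F m2.F
  have k2 := le2 m0.F m1.F m2.F
  have hJ := t1.e0.adj
  obtain ⟨Ω', _, _, _, _, d', i, j, i0, i1, j0, j1, hij, hz⟩ := hA C Ω
    ⟨d.nb m1.y m0.y, d.nb m0.y m1.y⟩ (m0.F ⊔ m1.F ⊔ m2.F) z0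
    (stab3 t1 (Two.tn_nb _ _) (by rw [Two.nb_one (Two.J_ne_symm hJ)]; exact one_mem _)
      (by rw [Two.nb_self]; exact zero_mem _))
    (stab3 t1 (Two.tn_nb _ _) (by rw [Two.nb_self]; exact zero_mem _)
      (by rw [Two.nb_one hJ]; exact one_mem _))
    (t1.e0.sq_mem k0 k1) hg
  have ci : Comp d d' i univ := comp_nb hJ i0 i1
  have cj : Comp d d' j univ := comp_nb hJ j0 j1
  have h1 : j z1 = -i z1 := by
    rw [t1.z1_eq, map_div₀, map_div₀, hz, hij _ (k1 m1.wF), div_neg]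
  have h2 : j z2 = -i z2 := by
    rw [t2.z1_eq, map_div₀, map_div₀, h1, hij _ (k2 m2.wF), div_neg]
  have h4 : j z4 = -i z4 := by
    have : z4 = m0.w / z0 := by rw [← t0.r, mul_div_cancel_right₀ _ t1.e0.z0]
    rw [this, map_div₀, map_div₀, hz, hij _ (k0 m0.wF), div_neg]
  have g0 : j l0 = -i l0 := by
    rw [← t1.e0.ey, map_mul, map_mul, hz, hij _ (sub_mem (k1 m1.yF) (k0 m0.yF)), mul_neg]
  have g1 : j l1 = -i l1 := by
    rw [← t1.e1.ey, map_mul, map_mul, h1, hij _ (sub_mem (k2 m2.yF) (k1 m1.yF)), mul_neg]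
  have gL := hij _ ((bot_le : ⊥ ≤ m0.F ⊔ m1.F ⊔ m2.F) hL)
  have e : i l2 + j l2 + (i l3 + j l3) + (i l4 + j l4) = 2 * i (l0 + l1 + l2 + l3 + l4) := by
    simp only [map_add] at gL ⊢
    linear_combination gL - g0 - g1
  have := dbl hK (tri_map ci t3) (tri_map ci t4) (tri_map cj t3) (tri_map cj t4)
    (hij _ (k2 m2.xF)) (hij _ (k2 m2.yF)) (hij _ (k0 m0.xF)) (hij _ (k0 m0.yF)) h2 h4 (by
      obtain ⟨c, hc⟩ := IntermediateField.mem_bot.1 hL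
      rw [e, ← hc, AlgHom.commutes]
      exact mul_mem (ofNat_mem _ 2) (IntermediateField.algebraMap_mem _ c))
  rw [e, mul_eq_zero, _root_.map_eq_zero] at this
  exact this.resolve_left two_ne_zero

end P45

open P45 in
/-- A closed family with five reflections has length zero. -/
theorem p5 (hA : StmtAM) (hC : StmtCONJ) (hK : StmtKEY) : StmtP 4 := by
  intro C Ω _ _ _ _ _ _ _ d m z l he hr hL
  have t : ∀ i, Tri (m i) (m (i + 1)) (m (i + 1 + 1)) (z i) (l i) (z (i + 1)) (l (i + 1)) :=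
    fun i => ⟨he i, he (i + 1), hr i⟩
  have t0 : Tri (m 4) (m 0) (m 1) (z 4) (l 4) (z 0) (l 0) := t 4
  have t1 : Tri (m 0) (m 1) (m 2) (z 0) (l 0) (z 1) (l 1) := t 0
  have t2 : Tri (m 1) (m 2) (m 3) (z 1) (l 1) (z 2) (l 2) := t 1
  have t3 : Tri (m 2) (m 3) (m 4) (z 2) (l 2) (z 3) (l 3) := t 2
  have t4 : Tri (m 3) (m 4) (m 0) (z 3) (l 3) (z 4) (l 4) := t 3
  rw [show ∑ i, l i = l 0 + l 1 + l 2 + l 3 + l 4 from Fin.sum_univ_five l] at hL ⊢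
  by_cases b1 : Bad (m 0) (m 1) (m 2) (z 0)
  · by_cases b0 : Bad (m 4) (m 0) (m 1) (z 4)
    · by_cases b3 : Bad (m 2) (m 3) (m 4) (z 2)
      · exact absurd (hK C Ω d _ _ _ _ _ _ _ _ _ _ t0 t1 b0 b1)
          (Two.J_ne_symm (hC C Ω d _ _ _ _ _ _ _ t3 b3))
      · have e : l 0 + l 1 + l 2 + l 3 + l 4 = l 2 + l 3 + l 4 + l 0 + l 1 := by ring
        rw [e] at hL ⊢
        exact p5_good hA hK t2 t3 t4 t0 t1 b3 hL
    · have e : l 0 + l 1 + l 2 + l 3 + l 4 = l 4 + l 0 + l 1 + l 2 + l 3 := by ring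
      rw [e] at hL ⊢
      exact p5_good hA hK t4 t0 t1 t2 t3 b0 hL
  · exact p5_good hA hK t0 t1 t2 t3 t4 b1 hL

end Pool.Agent.MP_249f74_an.H17
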