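import Pool.Agent.MP_249f74_an.H17.Api

/-!
Isotropic chords, and the exceptional case of two points on one circle.
-/

open Set IntermediateField Polynomial

namespace Pool.Agent.MP_249f74_an.H17

open H88 (rk cl subset_cl)

variable {C Ω : Type} [Field C] [Field Ω] [Algebra C Ω] {d : Two C Ω}

lemma odd_val {V : ValuationSubring Ω} {π z : Ω} (h0 : π ≠ 0) (h1 : V.valuation π < 1)
    (hz : V.valuation (z ^ 2) = V.valuation π) (n : ℤ) :
    V.valuation z ≠ V.valuation π ^ n := fun h => by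
  rw [map_pow, h, ← zpow_natCast, ← zpow_mul] at hz
  have := zpow_right_injective₀ (zero_lt_iff.2 ((_root_.map_ne_zero V.valuation).2 h0)) h1.ne
    (hz.trans (zpow_one _).symm)
  omega

lemma Edge.val_sq {m0 m1 : Mir d} {z l : Ω} (e : Edge m0 m1 z l) {V : ValuationSubring Ω}
    (h : V.valuation (m0.y - m1.y) = 1) :
    V.valuation (z ^ 2) = V.valuation (m0.x - m1.x) := by
  rw [Valuation.map_sub_swap, e.line, map_mul, Valuation.map_sub_swap, h, mul_one]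

lemma stab_simple {Z : Der C Ω} {x : Ω} (h : Z x ∈ C⟮x⟯) : ∀ f ∈ C⟮x⟯, Z f ∈ C⟮x⟯ := fun _ hf =>
  ((adjoin_simple_le_iff.2 ⟨mem_adjoin_simple_self C x, h⟩ : C⟮x⟯ ≤ St Z C⟮x⟯) hf).2

lemma mobius {x y : Ω} (hx : Transcendental C x) (h1 : y ∈ C⟮x⟯) (h2 : x ∈ C⟮y⟯) :
    ∃ a b c e : C, algebraMap C Ω c * x + algebraMap C Ω e ≠ 0 ∧
      y * (algebraMap C Ω c * x + algebraMap C Ω e) = algebraMap C Ω a * x + algebraMap C Ω b := by
  let φ : RatFunc C →ₐ[C] Ω :=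
    (C⟮x⟯.val).comp (RatFunc.algEquivOfTranscendental x hx).toAlgHom
  have φ1 : ∀ u, φ u = aeval x u.num / aeval x u.denom :=
    RatFunc.algEquivOfTranscendental_apply x hx
  obtain ⟨f, hf⟩ := (RatFunc.algEquivOfTranscendental x hx).surjective ⟨y, h1⟩
  have φ2 : φ f = y := congrArg Subtype.val hf
  have h3 : C⟮f⟯ = ⊤ := by
    rw [← φ2, ← Set.image_singleton, ← adjoin_map] at h2
    obtain ⟨g, g1, g2⟩ := h2
    obtain rfl : g = RatFunc.X := φ.toRingHom.injective (g2.trans (by simp [φ1]))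
    rw [eq_top_iff, ← RatFunc.adjoin_X]
    exact adjoin_simple_le_iff.2 g1
  have h4 := f.finrank_eq_max_natDegree
  rw [finrank_eq_one_iff_eq_top.2 h3] at h4
  have e1 := eq_X_add_C_of_natDegree_le_one (p := f.num) (by omega)
  have e2 := eq_X_add_C_of_natDegree_le_one (p := f.denom) (by omega)
  have h5 : aeval x f.denom ≠ 0 := fun h => hx ⟨_, f.denom_ne_zero, h⟩
  rw [φ1, div_eq_iff h5] at φ2
  rw [e2] at h5
  rw [e1, e2] at φ2
  exact ⟨_, _, _, _, by simpa using h5, by simpa using φ2.symm⟩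

variable [CharZero C] [CharZero Ω]

lemma trans_of {K : IntermediateField C Ω} {Z : Der C Ω} (hK : ∀ a ∈ K, Z a = 0) {t : Ω}
    (ht : Z t ≠ 0) : Transcendental K t := fun h => ht (kill_cl hK (mem_cl_iff.2 h))

lemma nsq' {K : IntermediateField C Ω} {Z : Der C Ω} (hK : ∀ a ∈ K, Z a = 0) {t z e : Ω}
    (ht : Z t ≠ 0) (he : e ∈ K) (e0 : e ≠ 0) (hz : z ^ 2 = e * t) : z ∉ K ⊔ C⟮t⟯ := by
  rw [← restrictScalars_adjoin_eq_sup, mem_restrictScalars]
  exact nsq (M := K) (e := (⟨e, he⟩ : K)) (trans_of hK ht)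
    (fun h => e0 (congrArg Subtype.val h)) hz

/-- Both vertices lie on one circle. -/
def SM (m0 m1 : Mir d) (z : Ω) : Prop :=
  m0.F ≤ C⟮m0.x⟯ ∧ m1.F ≤ C⟮m1.x⟯ ∧ ∃ a b : C, a ≠ 0 ∧
    z ^ 2 = algebraMap C Ω a * (m0.x + algebraMap C Ω b) * (m1.x + algebraMap C Ω b)

variable {m0 m1 m2 : Mir d} {z l z0 l0 z1 l1 : Ω}

lemma Edge.le_x (e : Edge m0 m1 z l) (h : m1.y ∈ C⟮m1.x⟯) : m1.F ≤ C⟮m1.x⟯ :=
  m1.swap.le_of (Two.tn_nb m0.y m1.x) (by simp [Two.nb_one e.adjx]) h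
    (mem_adjoin_simple_self C _) (stab_simple (by rw [Two.nb_one e.adjx]; exact one_mem _))

variable [IsAlgClosed Ω]

lemma Edge.exch (e : Edge m0 m1 z l) : ∃ τ : Ω ≃ₐ[C] Ω, τ m1.x = m0.x := by
  have h1 : d.br (m0.x + m1.x) (m0.x - m1.x) ≠ 0 := by
    have : d.J m0.x m1.x ≠ 0 := by rw [m0.Jx]; exact mul_ne_zero m0.w0 e.adjx
    intro h
    simp only [Two.br_apply, Two.J, map_add, map_sub] at h this
    exact this (by linear_combination -h / 2)
  have h0 : m0.x - m1.x ≠ 0 := fun h => h1 (by rw [h, map_zero])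
  have h2 : m0.x - m1.x ∉ C⟮m0.x + m1.x⟯ ⊔ C⟮(m0.x - m1.x) ^ 2⟯ :=
    nsq' (Z := d.br (m0.x + m1.x)) (e := 1)
      (fun _ ha => (adjoin_simple_le_iff (K := Kr _).2 (d.J_self _)) ha)
      (by rw [Derivation.leibniz_pow]; simpa [h0] using h1) (one_mem _) one_ne_zero (by simp)
  obtain ⟨τ, t1, t2⟩ := aut_move h2
  have t3 := t1 _ (SetLike.le_def.1 le_sup_left (mem_adjoin_simple_self C _))
  have t4 := t1 _ (SetLike.le_def.1 le_sup_right (mem_adjoin_simple_self C _))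
  rw [map_pow] at t4
  have t5 := (sq_eq_sq_iff_eq_or_eq_neg.1 t4).resolve_left t2
  rw [map_add] at t3
  rw [map_sub] at t5
  exact ⟨τ, by linear_combination (t3 - t5) / 2⟩

lemma Edge.phi_or (e : Edge m0 m1 z l) : Phi m0 m1 ∨ SM m0 m1 z := by
  obtain ⟨τ, t1⟩ := e.exch
  by_cases t2 : τ m1.y = m0.y
  swap
  · exact Or.inl ⟨τ, t1, t2⟩
  by_cases h : m1.y ∈ C⟮m1.x⟯
  swap
  · obtain ⟨ρ, r1, r2⟩ := aut_move h
    refine Or.inl ⟨(ρ.trans τ : Ω ≃ₐ[C] Ω), ?_, ?_⟩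
    · simp [r1 _ (mem_adjoin_simple_self C _), t1]
    · simpa [← t2] using r2
  right
  have hx : Transcendental C m1.x := fun h => Two.nb_ne e.adjx e.adjx
    (kill_cl (S := ∅) (by simp) (by
      obtain ⟨p, p0, hp⟩ := h
      exact H88.mem_cl_of_root ((Polynomial.map_ne_zero_iff (algebraMap C Ω).injective).2 p0)
        (fun i => by rw [coeff_map]; exact IntermediateField.algebraMap_mem _ _)
        (by rwa [eval_map_algebraMap])))
  obtain ⟨a, b, c, k, h1, h2⟩ := mobius hx h (m1.real.1 h)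
  have h3 := (_root_.map_ne_zero τ).2 h1
  have h4 := congrArg τ h2
  simp only [map_add, map_mul, AlgEquiv.commutes, t1, t2] at h3 h4
  have h5 : (algebraMap C Ω c * m0.x + algebraMap C Ω k) * (algebraMap C Ω c * m1.x +
      algebraMap C Ω k) = algebraMap C Ω (a * k - b * c) * z ^ 2 := by
    refine mul_left_cancel₀ e.yne ?_
    simp only [map_sub, map_mul]
    linear_combination (algebraMap C Ω c * m0.x + algebraMap C Ω k) * h2 -
      (algebraMap C Ω c * m1.x + algebraMap C Ω k) * h4 +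
      (algebraMap C Ω a * algebraMap C Ω k - algebraMap C Ω b * algebraMap C Ω c) * e.line
  have h6 : algebraMap C Ω (a * k - b * c) ≠ 0 := left_ne_zero_of_mul (h5 ▸ mul_ne_zero h3 h1)
  have h7 : algebraMap C Ω c ≠ 0 := fun h => by
    have := congrArg (d.br m0.y) h5
    simp only [h, zero_mul, zero_add, ← map_mul, Derivation.map_algebraMap, ← Algebra.smul_def,
      Derivation.map_smul, Two.br_apply] at this
    rw [Algebra.smul_def] at this
    exact mul_ne_zero h6 e.nds this.symm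
  refine ⟨e.symm.le_x ?_, e.le_x h, c ^ 2 / (a * k - b * c), k / c, ?_, ?_⟩
  · rw [← eq_div_iff h3] at h4
    rw [h4]
    have := mem_adjoin_simple_self C m0.x
    exact div_mem (add_mem (mul_mem (_root_.algebraMap_mem _ _) this) (_root_.algebraMap_mem _ _))
      (add_mem (mul_mem (_root_.algebraMap_mem _ _) this) (_root_.algebraMap_mem _ _))
  · exact div_ne_zero (pow_ne_zero _ ((_root_.map_ne_zero _).1 h7)) ((_root_.map_ne_zero _).1 h6)
  · rw [map_div₀, map_div₀, map_pow]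
    field_simp
    linear_combination -h5

theorem l2v (hfr : StmtFR0) : StmtL2V := by
  intro C Ω _ _ _ _ _ _ _ d m0 m1 z l e hz
  have k0 : ∀ a ∈ m0.F, a ∈ Kr (d.br m0.y) := m0.kill (Two.tn_br _) (d.J_self _)
  have hK : ∀ a ∈ Kr (d.br m0.y), d.nb m0.y m1.x a = 0 := fun a ha => by
    rw [Two.nb_apply, ← Two.br_apply d m0.y a, mem_Kr.1 ha, mul_zero]
  have h1 := Two.nb_one e.adjx
  rcases e.phi_or with ⟨τ, t1, t2⟩ | ⟨-, s1, a, b, a0, s2⟩
  · obtain ⟨V, fr, -, -, hu⟩ := hfr C Ω (Kr (d.br m0.y)) m1.F (d.nb m0.y m1.x) τ m0.x m1.x hK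
      (m1.stabx (Two.tn_nb _ _) le_rfl (h1 ▸ one_mem _))
      (m1.constx (Two.tn_nb _ _) (h1 ▸ one_ne_zero)) (k0 _ m0.xF) m1.xF h1 t1
    obtain ⟨n, hn⟩ := fr.disc z hz e.z0
    exact odd_val fr.π0 fr.π1 (e.val_sq (hu _ (k0 _ m0.yF) _ m1.yF t2)) n hn
  · refine nsq' (t := m1.x + algebraMap C Ω b) hK (by simp [h1])
      (mul_mem (_root_.algebraMap_mem _ a) (add_mem (k0 _ m0.xF) (_root_.algebraMap_mem _ b)))
      (left_ne_zero_of_mul (s2 ▸ pow_ne_zero 2 e.z0)) s2 (sup_le_sup_left (s1.trans ?_) _ hz)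
    refine adjoin_simple_le_iff.2 ?_
    simpa using sub_mem (mem_adjoin_simple_self C (m1.x + algebraMap C Ω b)) (_root_.algebraMap_mem _ b)

theorem conj (h : StmtL2V) : StmtCONJ := by
  intro C Ω _ _ _ _ _ _ _ d m0 m1 m2 z0 l0 z1 l1 t b hJ
  refine h C Ω d _ _ _ _ t.e0 ((sup_le (sup_le_sup_right ?_ _) (le_sup_of_le_left ?_) :
    m0.F ⊔ m1.F ⊔ m2.F ≤ _) b)
  · exact m0.kill (Two.tn_br _) (d.J_self _)
  · exact m2.kill (Two.tn_br _) hJ

theorem phi (h : StmtL2V) : StmtPHI := by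
  intro C Ω _ _ _ _ _ _ _ d m0 m1 m2 z0 l0 z1 l1 t b
  refine t.e0.phi_or.resolve_right fun ⟨s0, _, a, c, a0, s2⟩ => ?_
  have k1 : m1.F ≤ Kr (d.br m1.y) ⊔ m2.F :=
    le_sup_of_le_left (m1.kill (Two.tn_br _) (d.J_self _))
  refine h C Ω d _ _ _ _ t.e1 ((sup_le (sup_le (s0.trans (adjoin_simple_le_iff.2 ?_)) k1)
    le_sup_right : m0.F ⊔ m1.F ⊔ m2.F ≤ _) (t.bad1 b))
  have h1 : m1.x + algebraMap C Ω c ≠ 0 := right_ne_zero_of_mul (s2 ▸ pow_ne_zero 2 t.e0.z0)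
  have h2 := (_root_.map_ne_zero (algebraMap C Ω)).2 a0
  have h3 := t.e1.z0
  have : m0.x = m1.w ^ 2 / z1 ^ 2 / (algebraMap C Ω a * (m1.x + algebraMap C Ω c)) -
      algebraMap C Ω c := by
    rw [← t.r, mul_pow, s2]; field_simp; ring
  rw [this]
  exact sub_mem (div_mem (div_mem (pow_mem (k1 m1.wF) 2) (t.e1.sq_mem k1 le_sup_right))
    (mul_mem (_root_.algebraMap_mem _ _) (add_mem (k1 m1.xF) (_root_.algebraMap_mem _ _)))) (_root_.algebraMap_mem _ _)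

end Pool.Agent.MP_249f74_an.H17
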