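import Pool.Agent.MP_249f74_an.H17.Defs

/-!
Statements of the modules.
-/

open Set IntermediateField

namespace Pool.Agent.MP_249f74_an.H17

open H88 (rk cl)

/-- The tangent derivation does not decrease the order on the algebraic closure. -/
def StmtMono : Prop :=
  ∀ (C Ω : Type) [Field C] [CharZero C] [Field Ω] [CharZero Ω] [Algebra C Ω]
    (V : ValuationSubring Ω) (E : IntermediateField C Ω) (π : Ω) (δ P : Der C Ω),
    Frame V E π δ P → ∀ g ∈ cl C (E : Set Ω), V.valuation (P g) ≤ V.valuation g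

/-- A field on which the transversal derivation is bounded by the tangent one consists of units. -/
def StmtNT : Prop :=
  ∀ (C Ω : Type) [Field C] [CharZero C] [Field Ω] [CharZero Ω] [Algebra C Ω]
    (V : ValuationSubring Ω) (E : IntermediateField C Ω) (π : Ω) (δ P : Der C Ω),
    Frame V E π δ P → ∀ (S : IntermediateField C Ω) (γ : Ω), S ≤ cl C (E : Set Ω) → γ ∈ V →
      (∀ f ∈ S, δ f = γ * P f) → ∀ f ∈ S, f ∈ V

/-- Orders in the field generated by a set of regular elements. -/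
def StmtUnr : Prop :=
  ∀ (C Ω : Type) [Field C] [CharZero C] [Field Ω] [CharZero Ω] [Algebra C Ω]
    (V : ValuationSubring Ω) (E : IntermediateField C Ω) (π : Ω) (δ P : Der C Ω),
    Frame V E π δ P → ∀ (k : ℕ) (δ' : Der C Ω) (G : Set Ω), k ≠ 0 →
      (∀ f, π ^ k * δ' f = π * δ f) →
      (∀ g ∈ G, g ∈ V ∧ g ∈ cl C (E : Set Ω) ∧ δ' g ∈ Algebra.adjoin C G) →
      ∀ f ∈ adjoin C G, f ≠ 0 → ∃ n : ℤ, V.valuation f = V.valuation π ^ ((k : ℤ) * n)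

/-- The order along a divisor of a product, without a tangent derivation. -/
def StmtFR0 : Prop :=
  ∀ (C Ω : Type) [Field C] [CharZero C] [Field Ω] [CharZero Ω] [Algebra C Ω]
    (E F : IntermediateField C Ω) (δ : Der C Ω) (j : Ω →ₐ[C] Ω) (e f : Ω),
    (∀ a ∈ E, δ a = 0) → (∀ a ∈ F, δ a ∈ F) →
    (∀ a ∈ F, δ a = 0 → a ∈ (⊥ : IntermediateField C Ω)) → e ∈ E → f ∈ F → δ f = 1 → j f = e →
    ∃ V : ValuationSubring Ω, Frame V (E ⊔ F) (e - f) δ 0 ∧ (∀ a ∈ E, a ∈ V) ∧ (∀ a ∈ F, a ∈ V) ∧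
      ∀ a ∈ E, ∀ b ∈ F, j b ≠ a → V.valuation (a - b) = 1

/-- The order along a divisor of a product, with a tangent derivation. -/
def StmtFR1 : Prop :=
  ∀ (C Ω : Type) [Field C] [CharZero C] [Field Ω] [CharZero Ω] [Algebra C Ω]
    (E F : IntermediateField C Ω) (δ P : Der C Ω) (j : Ω →ₐ[C] Ω) (e f : Ω),
    (∀ a ∈ E, δ a = 0) → (∀ a ∈ F, δ a ∈ F) →
    (∀ a ∈ F, δ a = 0 → a ∈ (⊥ : IntermediateField C Ω)) → e ∈ E → f ∈ F → δ f = 1 → j f = e →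
    (∀ a ∈ E, P a ∈ E) → (∀ a ∈ F, P a = δ a) → P e = 1 →
    ∃ V : ValuationSubring Ω, Frame V (E ⊔ F) (e - f) δ P ∧ (∀ a ∈ E, a ∈ V) ∧ (∀ a ∈ F, a ∈ V) ∧
      ∀ a ∈ E, ∀ b ∈ F, j b ≠ a → V.valuation (a - b) = 1

/-- The order along the diagonal, with the Taylor formula. -/
def StmtFR2 : Prop :=
  ∀ (C Ω : Type) [Field C] [CharZero C] [Field Ω] [CharZero Ω] [Algebra C Ω]
    (E F : IntermediateField C Ω) (δ P : Der C Ω) (j : Ω →ₐ[C] Ω) (e f : Ω),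
    (∀ a ∈ E, δ a = 0) → (∀ a ∈ F, δ a ∈ F) →
    (∀ a ∈ F, δ a = 0 → a ∈ (⊥ : IntermediateField C Ω)) → e ∈ E → f ∈ F → δ f = 1 → j f = e →
    (∀ a ∈ E, P a ∈ E) → (∀ a ∈ F, P a = δ a) → (∀ a ∈ F, j a ∈ E ∧ j (δ a) = P (j a)) →
    ∃ V : ValuationSubring Ω, Frame V (E ⊔ F) (e - f) δ P ∧ (∀ a ∈ E, a ∈ V) ∧ (∀ a ∈ F, a ∈ V) ∧
      ∀ a ∈ F, ∀ n : ℕ,
        V.valuation (a - ∑ k ∈ Finset.range n, (k.factorial : Ω)⁻¹ * j (δ^[k] a) * (f - e) ^ k) ≤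
          V.valuation (e - f) ^ n

/-- Two foliations with many algebraic first integrals have proportional slopes. -/
def StmtHEX : Prop :=
  ∀ (C K : Type) [Field C] [CharZero C] [Field K] [CharZero K] [Algebra C K]
    (X Y W W' : IntermediateField C K) (A B θ : Der C K) (l l' x0 y0 y1 : K),
    (∀ f ∈ X, A f = 0) → (∀ f ∈ Y, B f = 0) → (∀ f ∈ X, B f ∈ X) → (∀ f ∈ Y, A f ∈ Y) →
    (∀ f ∈ X, B f = 0 → f ∈ (⊥ : IntermediateField C K)) →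
    x0 ∈ X → B x0 = 1 → y0 ∈ Y → y1 ∈ Y → A y0 = 1 → (∀ f ∈ X, θ f = 0) → θ y1 ≠ A y1 * θ y0 →
    (∀ f ∈ W, A f + l * B f = 0) → (∀ f ∈ W', A f + l' * B f = 0) → l ≠ 0 → l' ≠ 0 →
    X ≤ cl C ((Y : Set K) ∪ W) → X ≤ cl C ((Y : Set K) ∪ W') →
    W ≤ cl C ((X : Set K) ∪ Y) → W' ≤ cl C ((X : Set K) ∪ Y) →
    rk C (X : Set K) ≠ ⊤ → rk C (Y : Set K) ≤ rk C (X : Set K) → A l * l' = A l' * l

/-- Amalgamation of a differential field with its conjugate. -/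
def StmtAM : Prop :=
  ∀ (C Ω : Type) [Field C] [CharZero C] [Field Ω] [CharZero Ω] [IsAlgClosed Ω] [Algebra C Ω]
    (d : Two C Ω) (K : IntermediateField C Ω) (z : Ω),
    (∀ f ∈ K, d.d0 f ∈ K) → (∀ f ∈ K, d.d1 f ∈ K) → z ^ 2 ∈ K → z ∉ K →
    ∃ (Ω' : Type) (_ : Field Ω') (_ : CharZero Ω') (_ : IsAlgClosed Ω') (_ : Algebra C Ω')
      (d' : Two C Ω') (i j : Ω →ₐ[C] Ω'),
      (∀ f, d'.d0 (i f) = i (d.d0 f)) ∧ (∀ f, d'.d1 (i f) = i (d.d1 f)) ∧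
      (∀ f, d'.d0 (j f) = j (d.d0 f)) ∧ (∀ f, d'.d1 (j f) = j (d.d1 f)) ∧
      (∀ f ∈ K, j f = i f) ∧ j z = -i z

/-- Two points of an algebraic mirror on a generic line are not separated by the orientation and
the other points of algebraic mirrors on that line. -/
def StmtTR : Prop :=
  ∀ (C Ω : Type) [Field C] [CharZero C] [IsAlgClosed C] [Field Ω] [CharZero Ω] [IsAlgClosed Ω]
    [Algebra C Ω] (d : Two C Ω) (u u' : Mir d) (s c z : Ω) (ψ : Ω →ₐ[C] Ω) (Q : Set (Mir d)),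
    d.J s c ≠ 0 → z ^ 2 = s → OnL u s c → OnL u' s c → u.y ≠ u'.y →
    rk C (u.F : Set Ω) ≤ 1 → rk C (u'.F : Set Ω) ≤ 1 → ψ u'.x = u.x → ψ u'.y = u.y →
    (∀ f ∈ u'.F, ψ f ∈ u.F ∧ ∀ g ∈ u'.F, d.Sl u'.y f g → d.Sl u.y (ψ f) (ψ g)) →
    (∀ q ∈ Q, OnL q s c ∧ rk C (q.F : Set Ω) ≤ 1 ∧ q.y ≠ u.y ∧ q.y ≠ u'.y) →
    u.y - u'.y ∉ adjoin C (insert z (⋃ q ∈ Q, (q.F : Set Ω)))

/-- A closed family with `n + 1` reflections has length zero. -/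
def StmtP (n : ℕ) : Prop :=
  ∀ (C Ω : Type) [Field C] [CharZero C] [IsAlgClosed C] [Field Ω] [CharZero Ω] [IsAlgClosed Ω]
    [Algebra C Ω] (d : Two C Ω) (m : Fin (n + 1) → Mir d) (z l : Fin (n + 1) → Ω),
    (∀ i, Edge (m i) (m (i + 1)) (z i) (l i)) → (∀ i, z i * z (i + 1) = (m (i + 1)).w) →
    ∑ i, l i ∈ (⊥ : IntermediateField C Ω) → ∑ i, l i = 0

/-- The set of periodic points of period `n` has dimension at most one. -/
def Final (n : ℕ) : Prop :=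
  ∀ f : EuclideanSpace ℝ (Fin 2) → ℝ, ContDiff ℝ ((⊤ : ℕ∞) : WithTop ℕ∞) f →
    dimH {q : EuclideanSpace ℝ (Fin 2) × EuclideanSpace ℝ (Fin 2) |
      ∃ p u : ℕ → EuclideanSpace ℝ (Fin 2),
        p 0 = q.1 ∧ u 0 = q.2 ∧ p n = q.1 ∧ u n = q.2 ∧
        ∀ k < n, f (p k) = 0 ∧ ‖u k‖ = 1 ∧ inner ℝ (u k) (gradient f (p k)) < 0 ∧
          (∃ t : ℝ, 0 < t ∧ p (k + 1) = p k + t • u k) ∧
          u (k + 1) = u k - (2 * inner ℝ (u k) (gradient f (p (k + 1))) /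
              ‖gradient f (p (k + 1))‖ ^ 2) • gradient f (p (k + 1))} ≤ 1

/-- From analysis to differential algebra. -/
def StmtAN : Prop := ∀ n : ℕ, StmtP n → Final (n + 1)

end Pool.Agent.MP_249f74_an.H17
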