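import Pool.Agent.MP_249f74_an.H17.Phi

/-!
Statements of the last modules.
-/

open Set IntermediateField

namespace Pool.Agent.MP_249f74_an.H17

open H88 (rk cl)

/-- A field of first integrals of a transversal pencil is unramified. -/
def StmtUNS : Prop :=
  ∀ (C Ω : Type) [Field C] [CharZero C] [Field Ω] [CharZero Ω] [Algebra C Ω]
    (V : ValuationSubring Ω) (E : IntermediateField C Ω) (π : Ω) (δ P : Der C Ω),
    Frame V E π δ P → (∀ f ∈ E, δ f ∈ E) →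
    ∀ (S : IntermediateField C Ω) (l μ σ w x a b : Ω), S ≤ cl C (E : Set Ω) →
      ¬ V.valuation (l - 1) < 1 → (∀ f ∈ S, δ f + l * (P f - δ f) = 0) →
      σ ∈ E → V.valuation σ < 1 → a ∈ E → a ∈ V → b ∈ E → b ∈ V → w ∈ S → x ∈ S →
      μ * (1 - σ * w) = a + x * b → (∀ f ∈ S, ∃ g ∈ S, δ f = μ * g) →
      ∀ f ∈ E ⊔ S, f ≠ 0 → ∃ n : ℤ, V.valuation f = V.valuation π ^ n

/-- The third mirror of a bad triple is algebraic over the first two. -/
def StmtFREE : Prop :=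
  ∀ (C Ω : Type) [Field C] [CharZero C] [IsAlgClosed C] [Field Ω] [CharZero Ω] [IsAlgClosed Ω]
    [Algebra C Ω] (d : Two C Ω) (m0 m1 m2 : Mir d) (z0 l0 z1 l1 : Ω),
    Tri m0 m1 m2 z0 l0 z1 l1 → Bad m0 m1 m2 z0 → m2.F ≤ cl C ((m0.F : Set Ω) ∪ m1.F)

/-- At an isotropic chord the pencils of both neighbours are tangent to the divisor. -/
def StmtISO : Prop :=
  ∀ (C Ω : Type) [Field C] [CharZero C] [IsAlgClosed C] [Field Ω] [CharZero Ω] [IsAlgClosed Ω]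
    [Algebra C Ω] (d : Two C Ω) (m0 m1 : Mir d) (z0 l0 : Ω), Edge m0 m1 z0 l0 → Phi m0 m1 →
    ∃ V : ValuationSubring Ω, (∀ a ∈ m0.F, a ∈ V) ∧ (∀ a ∈ m1.F, a ∈ V) ∧
      V.valuation (z0 ^ 2) < 1 ∧
      (∀ k ∈ cl C ((m0.F : Set Ω) ∪ m1.F), d.J m0.y k = 0 → k ∈ V) ∧
      (∀ (m2 : Mir d) (z1 l1 : Ω), Tri m0 m1 m2 z0 l0 z1 l1 → Bad m0 m1 m2 z0 → m2.x ∉ V ∧
        V.valuation (d.nb m0.y m1.x m2.y / d.nb m1.y m0.x m2.y + 1) < 1) ∧
      ∀ (ma : Mir d) (za la : Ω), Tri ma m0 m1 za la z0 l0 → Bad ma m0 m1 za →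
        V.valuation (d.nb m0.y m1.x ma.y / d.nb m1.y m0.x ma.y + 1) < 1

variable {C Ω : Type} [Field C] [Field Ω] [Algebra C Ω]

/-- A pencil tangent to the divisor has its centre at infinity. -/
lemma Frame.out {V : ValuationSubring Ω} {E : IntermediateField C Ω} {π : Ω} {δ P : Der C Ω}
    (fr : Frame V E π δ P) {l σ u x1 x2 : Ω} (hl : V.valuation (l - 1) < 1) (hσ : σ ∈ E)
    (h1 : V.valuation σ < 1) (hu : V.valuation u = 1) (hx : x1 ∈ V)
    (h : (x2 - x1) * (δ σ + l * (P σ - δ σ)) = σ - u) : x2 ∉ V := fun h2 => by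
  have a1 : V.valuation (P σ) < 1 := (fr.mon σ hσ).trans_lt h1
  have a2 : V.valuation (δ σ) ≤ 1 :=
    (V.valuation_le_one_iff _).2 (fr.dO σ hσ ((V.valuation_le_one_iff _).1 h1.le))
  have a3 : V.valuation (δ σ + l * (P σ - δ σ)) < 1 := by
    rw [show δ σ + l * (P σ - δ σ) = P σ + (l - 1) * (P σ - δ σ) by ring]
    refine Valuation.map_add_lt _ a1 ?_
    rw [map_mul]
    exact mul_lt_one_of_nonneg_of_lt_one_left zero_le hl (Valuation.map_sub_le _ a1.le a2)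
  have a4 : V.valuation (σ - u) < 1 := by
    rw [← h, map_mul]
    exact mul_lt_one_of_nonneg_of_lt_one_right
      ((V.valuation_le_one_iff _).2 (sub_mem h2 hx)) zero_le a3
  have a5 := Valuation.map_sub_lt _ h1 a4
  rw [sub_sub_cancel, hu] at a5
  exact lt_irrefl _ a5

end Pool.Agent.MP_249f74_an.H17
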