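import Pool.Agent.MP_249f74_an.H17.Spec

/-!
Two points of an algebraic mirror on a generic line.
-/

open Set IntermediateField Polynomial

namespace Pool.Agent.MP_249f74_an.H17

open H88 (rk cl mem_cl subset_cl rk_insert rk_insert_le mem_cl_of_root)

namespace TransAux

section Poly

variable {C A B : Type} [CommRing C] [CommRing A] [CommRing B] [Algebra C A] [Algebra C B]

lemma nat (φ : A →ₐ[C] B) (a b : A) (f : C[X][X]) :
    φ (aevalAeval a b f) = aevalAeval (φ a) (φ b) f :=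
  DFunLike.congr_fun (show φ.comp (aevalAeval a b) = aevalAeval (φ a) (φ b) from
    algHom_ext' (by ext; simp) (by simp)) f

lemma ev_mon (a b : A) (n : ℕ) (p : C[X]) :
    aevalAeval a b (monomial n p) = aeval a p * b ^ n := by
  rw [← C_mul_X_pow_eq_monomial, map_mul, map_pow, aevalAeval_C, aevalAeval_Y]

lemma chain (D : Derivation C A A) {a : A} (b : A) (h : D a = 0) (f : C[X][X]) :
    D (aevalAeval a b f) = aevalAeval a b (derivative f) * D b := by
  induction f using Polynomial.induction_on' with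
  | add p q hp hq => simp only [map_add, hp, hq, add_mul]
  | monomial n p =>
    rw [derivative_monomial, ev_mon, ev_mon, D.leibniz, D.map_aeval, h, D.leibniz_pow]
    simp only [smul_eq_mul, mul_zero, add_zero, map_mul, map_natCast, nsmul_eq_mul]
    ring

lemma three [IsDomain A] (φ : A →+* B) {g : A[X]} {t1 t2 : A} (h0 : g.eval 0 = 0)
    (h1 : g.eval t1 = 0) (h2 : g.eval t2 = 0) (n1 : t1 ≠ 0) (n2 : t2 ≠ 0) (n3 : t2 ≠ t1)
    (e1 : φ t1 = 0) (e2 : φ t2 = 0) : φ (g.coeff 1) = 0 ∧ φ (g.coeff 2) = 0 := by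
  obtain ⟨g1, rfl⟩ := dvd_iff_isRoot.2 h0
  obtain ⟨g2, rfl⟩ := dvd_iff_isRoot.2 (show g1.IsRoot t1 by simpa [n1] using h1)
  obtain ⟨g3, rfl⟩ := dvd_iff_isRoot.2 (show g2.IsRoot t2 by simpa [n2, sub_eq_zero, n3] using h2)
  rw [← coeff_map, ← coeff_map]
  have : ((X - Polynomial.C 0) * ((X - Polynomial.C t1) * ((X - Polynomial.C t2) * g3))).map φ
      = X ^ 3 * g3.map φ := by
    simp only [Polynomial.map_mul, Polynomial.map_sub, map_X, map_C, e1, e2, map_zero, sub_zero]
    ring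
  rw [this, coeff_X_pow_mul', coeff_X_pow_mul']
  simp

end Poly

variable {C Ω : Type} [Field C] [Field Ω] [Algebra C Ω]

/-- The coefficientwise derivation minus the derivative. -/
noncomputable def cD (Z : Der C Ω) : Derivation C (Polynomial Ω) (Polynomial Ω) :=
  PolynomialModule.equivPolynomialSelf.compDer Z.mapCoeffs - derivative'.restrictScalars C

lemma coeff_cD (Z : Der C Ω) (p : Polynomial Ω) (i : ℕ) :
    (cD Z p).coeff i = Z (p.coeff i) - p.coeff (i + 1) * (i + 1) := by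
  rw [← coeff_derivative, cD, Derivation.sub_apply, coeff_sub]
  rfl

lemma second {Z : Der C Ω} {x y w : Ω} (hy : Z y = 1) (hx : Z x = w) (f : C[X][X])
    (h1 : (aevalAeval (Polynomial.C y + X) (Polynomial.C x + Polynomial.C w * X) f).coeff 1 = 0)
    (h2 : (aevalAeval (Polynomial.C y + X) (Polynomial.C x + Polynomial.C w * X) f).coeff 2 = 0) :
    aevalAeval y x (derivative f) * Z w = 0 := by
  have e1 : cD Z (Polynomial.C y + X) = 0 := by
    ext i
    rw [coeff_cD]
    rcases i with _ | i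
    · simp [hy]
    · simp [coeff_X, apply_ite Z]
  have e2 : cD Z (Polynomial.C x + Polynomial.C w * X) = Polynomial.C (Z w) * X := by
    ext i
    rw [coeff_cD]
    rcases i with _ | _ | i
    · simp [hx]
    · simp
    · simp
  have := congrArg (fun p => p.coeff 1) (chain (cD Z) (Polynomial.C x + Polynomial.C w * X) e1 f)
  simp only [coeff_cD] at this
  have e3 := nat ((aeval (0 : Ω) : Polynomial Ω →ₐ[Ω] Ω).restrictScalars C)
    (Polynomial.C y + X) (Polynomial.C x + Polynomial.C w * X) (derivative f)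
  rw [AlgHom.restrictScalars_apply] at e3
  rw [h1, h2, e2, ← mul_assoc, coeff_mul_X, coeff_mul_C, coeff_zero_eq_aeval_zero, e3] at this
  simpa using this.symm

lemma exists_f [CharZero C] {x y : Ω} (hy : Transcendental C y) (hx : x ∈ cl C {y}) :
    ∃ f : C[X][X], aevalAeval y x f = 0 ∧ aevalAeval y x (derivative f) ≠ 0 := by
  classical
  have hex : ∃ n, ∃ f : C[X][X], f ≠ 0 ∧ aevalAeval y x f = 0 ∧ f.natDegree = n := by
    obtain ⟨p, p0, hp⟩ := mem_cl.1 hx
    have hs : Function.Surjective (((aeval y : C[X] →ₐ[C] Ω).codRestrict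
        (Algebra.adjoin C {y}) fun p => aeval_mem_adjoin_singleton C y).toRingHom) := by
      rintro ⟨a, ha⟩
      rw [Algebra.adjoin_singleton_eq_range_aeval] at ha
      obtain ⟨q, hq⟩ := ha
      exact ⟨q, Subtype.ext hq⟩
    obtain ⟨f, rfl⟩ := map_surjective _ hs p
    refine ⟨_, f, by rintro rfl; simp at p0, ?_, rfl⟩
    rw [← hp]
    clear hp p0
    induction f using Polynomial.induction_on' with
    | add p q hp hq => simp only [map_add, hp, hq, Polynomial.map_add]
    | monomial n p => rw [ev_mon, Polynomial.map_monomial, aeval_monomial]; rfl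
  obtain ⟨f, f0, hf, hn⟩ := Nat.find_spec hex
  refine ⟨f, hf, fun h => ?_⟩
  have h1 : f.natDegree ≠ 0 := fun h1 => by
    rw [eq_C_of_natDegree_eq_zero h1, aevalAeval_C] at hf
    refine f0 ?_
    rw [eq_C_of_natDegree_eq_zero h1, transcendental_iff.1 hy _ hf, map_zero]
  exact Nat.find_min hex (hn ▸ natDegree_derivative_lt h1)
    ⟨_, fun h2 => h1 (derivative_eq_zero.1 h2), h, rfl⟩

section Val

variable {V : ValuationSubring Ω}

lemma vunit {K : IntermediateField C Ω} (hK : ∀ a ∈ K, a ∈ V) {a : Ω} (ha : a ∈ K) (h0 : a ≠ 0) :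
    V.valuation a = 1 := by
  have h1 := (V.valuation_le_one_iff _).2 (hK _ (inv_mem ha))
  rw [map_inv₀, inv_le_one₀ ((Valuation.pos_iff _).2 h0)] at h1
  exact le_antisymm ((V.valuation_le_one_iff _).2 (hK _ ha)) h1

lemma zero_of {K : IntermediateField C Ω} (hK : ∀ a ∈ K, a ∈ V) {a : Ω} (ha : a ∈ K)
    (h : V.valuation a < 1) : a = 0 := by
  by_contra h0
  exact h.ne (vunit hK ha h0)

/-- The valuation ring as a subalgebra. -/
def OO (hC : ∀ c, algebraMap C Ω c ∈ V) : Subalgebra C Ω :=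
  { V.toSubring with algebraMap_mem' := hC }

/-- The maximal ideal. -/
def mm (hC : ∀ c, algebraMap C Ω c ∈ V) : Ideal (OO hC) where
  carrier := {a | V.valuation (a : Ω) < 1}
  add_mem' := fun ha hb => V.valuation.map_add_lt ha hb
  zero_mem' := by simp
  smul_mem' := fun c a (ha : V.valuation (a : Ω) < 1) => by
    change V.valuation ((c : Ω) * a) < 1
    rw [map_mul]
    exact mul_lt_one_of_nonneg_of_lt_one_right ((V.valuation_le_one_iff _).2 c.2) zero_le ha

lemma res_eq (hC : ∀ c, algebraMap C Ω c ∈ V) {a b : OO hC} :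
    Ideal.Quotient.mkₐ C (mm hC) a = Ideal.Quotient.mkₐ C (mm hC) b ↔
      V.valuation ((a : Ω) - b) < 1 :=
  Ideal.Quotient.eq

lemma cong (hC : ∀ c, algebraMap C Ω c ∈ V) {a b a' b' : Ω} (ha : a ∈ V) (hb : b ∈ V)
    (ha' : a' ∈ V) (hb' : b' ∈ V) (h1 : V.valuation (a - a') < 1) (h2 : V.valuation (b - b') < 1)
    (f : C[X][X]) : V.valuation (aevalAeval a b f - aevalAeval a' b' f) < 1 := by
  have e1 := nat (OO hC).val ⟨a, ha⟩ ⟨b, hb⟩ f
  have e2 := nat (OO hC).val ⟨a', ha'⟩ ⟨b', hb'⟩ f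
  simp only [Subalgebra.coe_val] at e1 e2
  rw [← e1, ← e2, ← res_eq, nat, nat, (res_eq hC (a := ⟨a, ha⟩) (b := ⟨a', ha'⟩)).2 h1,
    (res_eq hC (a := ⟨b, hb⟩) (b := ⟨b', hb'⟩)).2 h2]

lemma ev_mem {K : IntermediateField C Ω} {a b : Ω} (ha : a ∈ K) (hb : b ∈ K) (f : C[X][X]) :
    aevalAeval a b f ∈ K := by
  have := nat K.val ⟨a, ha⟩ ⟨b, hb⟩ f
  simp only [IntermediateField.coe_val] at this
  rw [← this]
  exact SetLike.coe_mem _

lemma val_int {K : IntermediateField C Ω} (hK : ∀ a ∈ K, a ∈ V) {x : Ω}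
    (hx : x ∈ cl C (K : Set Ω)) : x ∈ V := by
  obtain ⟨y, hy⟩ := IsIntegrallyClosed.isIntegral_iff.1
    ((mem_cl_iff.1 hx).isIntegral.map_of_comp_eq (T := V)
      ((algebraMap K Ω).codRestrict V fun r => hK r r.2) (RingHom.id Ω) rfl)
  exact (show (y : Ω) = x from hy) ▸ y.2

lemma near (hC : ∀ c, algebraMap C Ω c ∈ V) {K : IntermediateField C Ω} (hK : ∀ a ∈ K, a ∈ V)
    {y η : Ω} (hy : y ∈ K) (ht : Transcendental C y) (h : V.valuation (η - y) < 1) :
    ∀ a ∈ cl C {η}, a ∈ V := by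
  have hη : η ∈ V := by
    have := add_mem ((V.valuation_le_one_iff _).1 h.le) (hK y hy)
    rwa [sub_add_cancel] at this
  have hp : ∀ p : C[X], p ≠ 0 → V.valuation (aeval η p) = 1 := fun p p0 => by
    have h1 := cong hC hη V.zero_mem (hK y hy) V.zero_mem h (by simp) (Polynomial.C p)
    rw [aevalAeval_C, aevalAeval_C] at h1
    have h2 : V.valuation (aeval y p) = 1 :=
      vunit hK (by simpa using ev_mem hy K.zero_mem (Polynomial.C p))
        fun h3 => p0 (transcendental_iff.1 ht _ h3)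
    rw [← h2] at h1 ⊢
    exact V.valuation.map_eq_of_sub_lt h1
  intro a ha
  rw [← cl_adjoin] at ha
  refine val_int (fun b hb => ?_) ha
  obtain ⟨r, s, rfl⟩ := (mem_adjoin_simple_iff C b).1 hb
  by_cases r0 : r = 0
  · simp [r0]
  by_cases s0 : s = 0
  · simp [s0]
  rw [← V.valuation_le_one_iff, map_div₀, hp r r0, hp s s0, div_one]

lemma claim (hC : ∀ c, algebraMap C Ω c ∈ V) {K : IntermediateField C Ω} (hK : ∀ a ∈ K, a ∈ V)
    {Z : Der C Ω} {x y w s t1 t2 : Ω} (xK : x ∈ K) (yK : y ∈ K) (wK : w ∈ K) (hy : Z y = 1)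
    (hx : Z x = w) (hs : V.valuation (s - w) < 1) (v1 : V.valuation t1 < 1)
    (v2 : V.valuation t2 < 1) (n1 : t1 ≠ 0) (n2 : t2 ≠ 0) (n3 : t2 ≠ t1) {f : C[X][X]}
    (f0 : aevalAeval y x f = 0) (f1 : aevalAeval (y + t1) (x + s * t1) f = 0)
    (f2 : aevalAeval (y + t2) (x + s * t2) f = 0) :
    aevalAeval y x (derivative f) * Z w = 0 := by
  have sV : s ∈ V := by
    have := add_mem ((V.valuation_le_one_iff _).1 hs.le) (hK w wK)
    rwa [sub_add_cancel] at this
  let ι : K →ₐ[C] OO hC := K.val.codRestrict _ fun a => hK a a.2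
  let π := Ideal.Quotient.mkₐ C (mm hC)
  let s' : OO hC := ⟨s, sV⟩
  let g : Polynomial (OO hC) := aevalAeval (Polynomial.C (ι ⟨y, yK⟩) + X)
    (Polynomial.C (ι ⟨x, xK⟩) + Polynomial.C s' * X) f
  let G : Polynomial K := aevalAeval (Polynomial.C ⟨y, yK⟩ + X)
    (Polynomial.C ⟨x, xK⟩ + Polynomial.C ⟨w, wK⟩ * X) f
  have hg : ∀ t : OO hC, aevalAeval (y + t) (x + s * t) f = 0 → g.eval t = 0 := fun t ht => by
    have e := nat ((OO hC).val.comp ((aeval t : Polynomial (OO hC) →ₐ[OO hC] OO hC).restrictScalars C))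
      (Polynomial.C (ι ⟨y, yK⟩) + X) (Polynomial.C (ι ⟨x, xK⟩) + Polynomial.C s' * X) f
    apply Subtype.ext
    refine Eq.trans e (Eq.trans ?_ ht)
    congr 1 <;> simp [ι, s']
  have h3 := three π.toRingHom (g := g) (t1 := ⟨t1, (V.valuation_le_one_iff _).1 v1.le⟩)
    (t2 := ⟨t2, (V.valuation_le_one_iff _).1 v2.le⟩) (hg 0 (by simpa using f0)) (hg _ f1) (hg _ f2)
    (fun h => n1 (congrArg Subtype.val h)) (fun h => n2 (congrArg Subtype.val h))
    (fun h => n3 (congrArg Subtype.val h)) (Ideal.Quotient.eq_zero_iff_mem.2 v1)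
    (Ideal.Quotient.eq_zero_iff_mem.2 v2)
  have h4 : mapAlgHom π g = mapAlgHom (π.comp ι) G := by
    refine (nat (mapAlgHom π) _ _ f).trans (Eq.trans ?_ (nat (A := Polynomial K)
      (B := Polynomial (OO hC ⧸ mm hC)) (mapAlgHom (π.comp ι)) _ _ f).symm)
    have : π s' = π (ι ⟨w, wK⟩) := (res_eq hC).2 hs
    simp [this]
  have h5 : ∀ i, π (g.coeff i) = 0 → G.coeff i = 0 := fun i hi => by
    have e := congrArg (fun p => p.coeff i) h4
    simp only [coe_mapAlgHom, coeff_map, RingHom.coe_coe] at e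
    rw [hi] at e
    exact Subtype.ext (zero_of hK (G.coeff i).2 (Ideal.Quotient.eq_zero_iff_mem.1 e.symm))
  have h6 : mapAlgHom K.val G =
      aevalAeval (Polynomial.C y + X) (Polynomial.C x + Polynomial.C w * X) f := by
    refine (nat (mapAlgHom K.val) _ _ f).trans ?_
    simp
  refine second hy hx f ?_ ?_
  · rw [← h6, coe_mapAlgHom, coeff_map, h5 1 h3.1, map_zero]
  · rw [← h6, coe_mapAlgHom, coeff_map, h5 2 h3.2, map_zero]

end Val

variable {d : Two C Ω}

lemma line {q : Mir d} {s c : Ω} (h : OnL q s c) {Z : Der C Ω} (hZ : d.Tn Z) :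
    Z q.y * (q.w - s) = Z c + q.y * Z s := by
  have h1 := hZ.sl q.tan
  rw [h.1, map_add, Z.leibniz, smul_eq_mul, smul_eq_mul] at h1
  linear_combination -h1

lemma transc [CharZero Ω] {Z : Der C Ω} {y : Ω} (h : Z y ≠ 0) : y ∉ cl C (∅ : Set Ω) :=
  fun hy => h (kill_cl (by simp) hy)

lemma transc' [CharZero Ω] {Z : Der C Ω} {y : Ω} (h : Z y ≠ 0) : Transcendental C y :=
  fun ⟨p, p0, hp⟩ => transc h (mem_cl_of_root (p := p.map (algebraMap C Ω))
    ((Polynomial.map_ne_zero_iff (algebraMap C Ω).injective).2 p0)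
    (fun i => by rw [coeff_map]; exact IntermediateField.algebraMap_mem _ _)
    (by rwa [eval_map, ← aeval_def]))

lemma rk_one [CharZero Ω] {Z : Der C Ω} {y : Ω} (h : Z y ≠ 0) : rk C ({y} : Set Ω) = 1 := by
  have := rk_insert (transc h)
  rwa [rk_empty, zero_add, insert_empty_eq] at this

lemma le_cl [CharZero Ω] {Z : Der C Ω} {y : Ω} (h : Z y ≠ 0) {K : IntermediateField C Ω}
    (hy : y ∈ K) (hK : rk C (K : Set Ω) ≤ 1) : (K : Set Ω) ⊆ cl C {y} :=
  mem_cl_of_rk (by rw [rk_one h]; simp) (singleton_subset_iff.2 (subset_cl _ hy))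
    (by rwa [rk_one h])

end TransAux

open TransAux

theorem tr : StmtMono → StmtNT → StmtUnr → StmtFR2 → StmtTR := by
  intro mono nt unr fr2 C Ω _ _ _ _ _ _ _ d u u' s c z ψ Q hJ hz hu hu' hy r1 r2 px py hψ hQ hmem
  obtain ⟨ds, Ts, ds1, ds0⟩ : ∃ ds : Der C Ω, d.Tn ds ∧ ds s = 1 ∧ ds c = 0 :=
    ⟨(-(d.J s c)⁻¹) • d.br c, (Two.tn_br c).smul _, by
      rw [Derivation.smul_apply, Two.br_apply, d.J_symm c s, smul_eq_mul]
      field_simp, by simp [d.J_self]⟩
  obtain ⟨dc, Tc, dc0, dc1⟩ : ∃ dc : Der C Ω, d.Tn dc ∧ dc s = 0 ∧ dc c = 1 :=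
    ⟨(d.J s c)⁻¹ • d.br s, (Two.tn_br s).smul _, by simp [d.J_self], by simp [hJ]⟩
  obtain ⟨y, ey⟩ : ∃ y, y = u.y - u'.y := ⟨_, rfl⟩
  have y0 : y ≠ 0 := ey ▸ sub_ne_zero.2 hy
  have w0 : u.w - s ≠ 0 := sub_ne_zero.2 hu.2
  have w0' : u'.w - s ≠ 0 := sub_ne_zero.2 hu'.2
  obtain ⟨a, ea⟩ : ∃ a, a * y = u.w - s := ⟨_, div_mul_cancel₀ _ y0⟩
  obtain ⟨a', ea'⟩ : ∃ a', a' * y = s - u'.w := ⟨_, div_mul_cancel₀ _ y0⟩
  obtain ⟨A, eA⟩ : ∃ A : Der C Ω, A = a' • (ds - u.y • dc) := ⟨_, rfl⟩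
  obtain ⟨B, eB⟩ : ∃ B : Der C Ω, B = a • (ds - u'.y • dc) := ⟨_, rfl⟩
  have TA : d.Tn A := eA ▸ (Ts.sub (Tc.smul _)).smul _
  have TB : d.Tn B := eB ▸ (Ts.sub (Tc.smul _)).smul _
  have hA : ∀ f, A f = a' * (ds f - u.y * dc f) := fun f => by simp [eA]
  have hB : ∀ f, B f = a * (ds f - u'.y * dc f) := fun f => by simp [eB]
  have A0 : A u.y = 0 := mul_right_cancel₀ w0 (by
    rw [line hu TA, hA, hA, ds0, ds1, dc0, dc1]; ring)
  have A1 : A u'.y = 1 := mul_right_cancel₀ w0' (by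
    rw [line hu' TA, hA, hA, ds0, ds1, dc0, dc1]; linear_combination -ea' + a' * ey)
  have B0 : B u'.y = 0 := mul_right_cancel₀ w0' (by
    rw [line hu' TB, hB, hB, ds0, ds1, dc0, dc1]; ring)
  have B1 : B u.y = 1 := mul_right_cancel₀ w0 (by
    rw [line hu TB, hB, hB, ds0, ds1, dc0, dc1]; linear_combination ea - a * ey)
  have kA := u.kill TA A0
  have kB := u'.kill TB B0
  have hc : ∀ f ∈ u'.F, ψ (A f) = B (ψ f) := fun f hf =>
    u.sl_unique ((hψ f hf).2 _ (u'.sl_of TA A1 hf).1 (u'.sl_of TA A1 hf).2)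
      (u.sl_of TB B1 (hψ f hf).1).2
  have Ax : A u'.x = u'.w := by rw [TA.sl u'.tan, A1, one_mul]
  have Bx : B u.x = u.w := by rw [TB.sl u.tan, B1, one_mul]
  have pw : ψ u'.w = u.w := by rw [← Ax, hc _ u'.xF, px, Bx]
  have sy : s * y = u.x - u'.x := by rw [hu.1, hu'.1, ey]; ring
  have w1F : B u.w ∈ u.F := (u.sl_of TB B1 u.wF).1
  have w1 : B u.w ≠ 0 := fun h => by
    obtain ⟨k, hk⟩ := IntermediateField.mem_bot.1
      (u.const_of TB (by rw [B1]; exact one_ne_zero) _ u.wF h)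
    obtain ⟨b, hb⟩ := IntermediateField.mem_bot.1
      (u.const_of TB (by rw [B1]; exact one_ne_zero) _ (sub_mem u.xF (mul_mem u.wF u.yF)) (by
        rw [map_sub, B.leibniz, Bx, B1, h]; simp))
    have h1 : u'.w = u.w := ψ.toRingHom.injective (by
      change ψ _ = ψ _
      rw [pw, ← hk, ψ.commutes])
    have h2 : u'.x - u'.w * u'.y = u.x - u.w * u.y := ψ.toRingHom.injective (by
      change ψ _ = ψ _
      rw [map_sub, map_mul, px, py, pw, ← hb, ψ.commutes])
    refine mul_ne_zero w0 y0 ?_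
    rw [h1] at h2
    linear_combination h2 - sy + u.w * ey
  obtain ⟨V, fr, EV, FV, tay⟩ := fr2 C Ω u.F u'.F A (A + B) ψ u.y u'.y kA
    (fun f hf => (u'.sl_of TA A1 hf).1) (u'.const_of TA (by rw [A1]; exact one_ne_zero)) u.yF u'.yF
    A1 py (fun f hf => by
      rw [Derivation.add_apply, kA f hf, zero_add]; exact (u.sl_of TB B1 hf).1)
    (fun f hf => by rw [Derivation.add_apply, kB f hf, add_zero])
    (fun f hf => ⟨(hψ f hf).1, by rw [Derivation.add_apply, kA _ (hψ f hf).1, zero_add, hc f hf]⟩)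
  rw [← ey] at fr tay
  have vy := fr.π1
  have vy0 : 0 < V.valuation y := (Valuation.pos_iff _).2 y0
  have t1 : V.valuation (a - B u.w / 2) < 1 := by
    have := tay _ u'.xF 3
    simp only [Finset.sum_range_succ, Finset.range_zero, Finset.sum_empty, Function.iterate_succ_apply',
      Function.iterate_zero_apply, Ax, hc _ u'.wF, px, pw] at this
    rw [show u'.x - _ = y ^ 2 * (a - B u.w / 2) by
      simp only [Nat.factorial]
      push_cast
      rw [show u'.y - u.y = -y by rw [ey]; ring]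
      linear_combination sy - y * ea, map_mul, map_pow, pow_succ _ 2] at this
    exact (le_of_mul_le_mul_left this (pow_pos vy0 2)).trans_lt vy
  have t2 : V.valuation (a + a' - B u.w) < 1 := by
    have := tay _ u'.wF 2
    simp only [Finset.sum_range_succ, Finset.range_zero, Finset.sum_empty, Function.iterate_succ_apply',
      Function.iterate_zero_apply, hc _ u'.wF, pw] at this
    rw [show u'.w - _ = -(y * (a + a' - B u.w)) by
      simp only [Nat.factorial]
      push_cast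
      rw [show u'.y - u.y = -y by rw [ey]; ring]
      linear_combination ea + ea', Valuation.map_neg, map_mul, sq] at this
    exact (le_of_mul_le_mul_left this vy0).trans_lt vy
  have t3 : V.valuation (a' - B u.w / 2) < 1 := by
    have := V.valuation.map_sub_lt t2 t1
    rwa [show a + a' - B u.w - (a - B u.w / 2) = a' - B u.w / 2 by ring] at this
  have u1 : V.valuation (B u.w) = 1 := vunit EV w1F w1
  have u2 : V.valuation (B u.w / 2) = 1 :=
    vunit EV (div_mem w1F (_root_.natCast_mem _ 2)) (div_ne_zero w1 two_ne_zero)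
  have va : V.valuation a = 1 := u2 ▸ V.valuation.map_eq_of_sub_lt (u2.symm ▸ t1)
  have va' : V.valuation a' = 1 := u2 ▸ V.valuation.map_eq_of_sub_lt (u2.symm ▸ t3)
  have vaa : V.valuation (a + a') = 1 := u1 ▸ V.valuation.map_eq_of_sub_lt (u1.symm ▸ t2)
  have a0 : a ≠ 0 := fun h => by simp [h] at va
  have a0' : a' ≠ 0 := fun h => by simp [h] at va'
  have vsw : V.valuation (s - u.w) < 1 := by
    rw [V.valuation.map_sub_swap, ← ea, map_mul, va, one_mul]; exact vy
  have vw : V.valuation u.w = 1 := vunit EV u.wF u.w0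
  have vs : V.valuation s = 1 := vw ▸ V.valuation.map_eq_of_sub_lt (vw.symm ▸ vsw)
  have zV : z ∈ V := by
    rw [← V.valuation_le_one_iff, ← pow_le_one_iff_of_nonneg zero_le two_ne_zero, ← map_pow, hz, vs]
  have dcy : ∀ q : Mir d, OnL q s c → dc q.y = (q.w - s)⁻¹ := fun q hq =>
    eq_inv_of_mul_eq_one_left (by rw [line hq Tc, dc0, dc1]; ring)
  have fr' : Frame V (u.F ⊔ u'.F) y (y • dc) (A + B) :=
    { fr with
      dO := fun f hf fV => by
        have h1 : (A + B) f ∈ V :=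
          (V.valuation_le_one_iff _).1 ((fr.mon f hf).trans ((V.valuation_le_one_iff _).2 fV))
        have h2 := fr.dO f hf fV
        have h3 : a⁻¹ ∈ V := by rw [← V.valuation_le_one_iff, map_inv₀, va, inv_one]
        have h4 : a'⁻¹ ∈ V := by rw [← V.valuation_le_one_iff, map_inv₀, va', inv_one]
        have := sub_mem (mul_mem h3 (sub_mem h1 h2)) (mul_mem h4 h2)
        convert this using 1
        rw [Derivation.add_apply, Derivation.smul_apply, add_sub_cancel_left, hA, hB, smul_eq_mul, ey]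
        field_simp
        ring
      dπ := by
        have : (y • dc) y = (a + a') / (a * a') := by
          rw [Derivation.smul_apply, smul_eq_mul]
          nth_rw 2 [ey]
          rw [map_sub, dcy u hu, dcy u' hu', ← ea, ← neg_sub s, ← ea']
          field_simp
          ring
        rw [this, map_div₀, map_mul, va, va', vaa]
        simp }
  have l1 : u.F ≤ u.F ⊔ u'.F := le_sup_left
  have l2 : u'.F ≤ u.F ⊔ u'.F := le_sup_right
  have sE : s ∈ u.F ⊔ u'.F := by
    rw [eq_div_of_mul_eq y0 sy]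
    exact div_mem (sub_mem (l1 u.xF) (l2 u'.xF)) fr.πE
  have cE : c ∈ u.F ⊔ u'.F := by
    rw [eq_sub_of_add_eq hu.1.symm]
    exact sub_mem (l1 u.xF) (mul_mem sE (l1 u.yF))
  have sC := subset_cl (k := C) _ sE
  have zC : z ∈ cl C ((u.F ⊔ u'.F : IntermediateField C Ω) : Set Ω) :=
    mem_cl_iff.2 (IsAlgebraic.of_pow two_pos (hz ▸ isAlgebraic_algebraMap (⟨s, sE⟩ : ↥(u.F ⊔ u'.F))))
  have rsc : rk C ({c, s} : Set Ω) = 1 + 1 := by
    rw [rk_insert fun h => by simpa [dc1] using kill_cl (δ := dc) (by simpa using dc0) h,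
      rk_one (Z := ds) (by rw [ds1]; exact one_ne_zero)]
  have qC : ∀ q ∈ Q, q.F ≤ cl C ((u.F ⊔ u'.F : IntermediateField C Ω) : Set Ω) := fun q hq f hf => by
    have h1 : insert s (q.F : Set Ω) ⊆ cl C {c, s} := by
      refine mem_cl_of_rk (by rw [rsc]; simp) ?_ ?_
      · have h2 : s ∈ cl C (insert s (q.F : Set Ω)) := subset_cl _ (mem_insert _ _)
        refine insert_subset ?_ (singleton_subset_iff.2 h2)
        rw [eq_sub_of_add_eq (hQ q hq).1.1.symm]
        exact sub_mem (subset_cl _ (mem_insert_of_mem _ q.xF))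
          (mul_mem h2 (subset_cl _ (mem_insert_of_mem _ q.yF)))
      · rw [rsc]
        exact (rk_insert_le _ _).trans (by gcongr; exact (hQ q hq).2.1)
    exact cl_mono (insert_subset cE (singleton_subset_iff.2 sE)) (h1 (mem_insert_of_mem _ hf))
  obtain ⟨f, f0, f1⟩ := exists_f (transc' (Z := B) (by rw [B1]; exact one_ne_zero))
    (le_cl (Z := B) (by rw [B1]; exact one_ne_zero) u.yF r1 u.xF)
  have far : ∀ q ∈ Q, 1 ≤ V.valuation (q.y - u.y) := fun q hq => by
    by_contra h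
    push Not at h
    obtain ⟨hl, hr, n1, n2⟩ := hQ q hq
    have qV : ∀ g ∈ q.F, g ∈ V := fun g hg =>
      near fr.hC EV u.yF (transc' (Z := B) (by rw [B1]; exact one_ne_zero)) h g
        (le_cl (Z := dc) (by rw [dcy q hl]; exact inv_ne_zero (sub_ne_zero.2 hl.2)) q.yF hr hg)
    have ex : q.x = u.x + s * (q.y - u.y) := by rw [hl.1, hu.1]; ring
    refine mul_ne_zero f1 w1 (claim fr.hC EV u.xF u.yF u.wF B1 Bx vsw (t1 := -y) (t2 := q.y - u.y)
      (by rwa [Valuation.map_neg]) h (neg_ne_zero.2 y0) (sub_ne_zero.2 n1)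
      (fun e => n2 (by linear_combination e - ey)) f0 ?_ ?_)
    · rw [show u.y + -y = u'.y by rw [ey]; ring, show u.x + s * -y = u'.x by linear_combination -sy]
      refine ψ.toRingHom.injective ?_
      change ψ _ = ψ _
      rw [nat, px, py, f0, map_zero]
    · rw [add_sub_cancel, ← ex]
      refine zero_of qV (ev_mem q.yF q.xF f) ?_
      have := cong fr.hC (qV _ q.yF) (qV _ q.xF) (EV _ u.yF) (EV _ u.xF) h (by
        rw [ex, add_sub_cancel_left, map_mul, vs, one_mul]; exact h) f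
      rwa [f0, sub_zero] at this
  have qV : ∀ q ∈ Q, (∀ g ∈ q.F, g ∈ V) ∧ (q.w - s)⁻¹ ∈ V := fun q hq => by
    have hl := (hQ q hq).1
    obtain ⟨ε, eε⟩ : ∃ ε, ε = (a + a') * (q.y - u.y) + a * y := ⟨_, rfl⟩
    have vε : 1 ≤ V.valuation ε := by
      have h1 : 1 ≤ V.valuation ((a + a') * (q.y - u.y)) := by
        rw [map_mul, vaa, one_mul]; exact far q hq
      rw [eε, V.valuation.map_add_eq_of_lt_left
        (lt_of_lt_of_le (by rw [map_mul, va, one_mul]; exact vy) h1)]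
      exact h1
    have ε0 : ε ≠ 0 := fun h => by simp [h] at vε
    have εV : ε⁻¹ ∈ V := by
      rw [← V.valuation_le_one_iff, map_inv₀]
      exact inv_le_one_of_one_le₀ vε
    have hP : (A + B) q.y = ε * (q.w - s)⁻¹ := by
      rw [← div_eq_mul_inv, eq_div_iff (sub_ne_zero.2 hl.2), line hl (TA.add TB)]
      simp only [Derivation.add_apply, hA, hB, ds0, ds1, dc0, dc1, eε, ey]
      ring
    have h1 := nt C Ω V _ y _ _ fr' q.F (y * ε⁻¹) (qC q hq)
      (mul_mem ((V.valuation_le_one_iff _).1 vy.le) εV) fun g hg => by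
        obtain ⟨k, -, hk⟩ := q.stab g hg
        rw [(Tc.smul y).sl hk, (TA.add TB).sl hk, hP, Derivation.smul_apply, dcy q hl, smul_eq_mul]
        field_simp
    refine ⟨h1, ?_⟩
    have h2 : (A + B) q.y ∈ V := (V.valuation_le_one_iff _).1
      ((mono C Ω V _ y _ _ fr _ (qC q hq q.yF)).trans ((V.valuation_le_one_iff _).2 (h1 _ q.yF)))
    have := mul_mem εV h2
    rwa [hP, inv_mul_cancel_left₀ ε0] at this
  obtain ⟨n, hn⟩ := unr C Ω V _ y _ _ fr' 2 dc
    (insert z (⋃ q ∈ Q, insert (q.w - s)⁻¹ (q.F : Set Ω))) two_ne_zero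
    (fun g => by rw [Derivation.smul_apply, smul_eq_mul]; ring) (by
      rintro g (rfl | hg)
      · refine ⟨zV, zC, ?_⟩
        have h1 : dc (g ^ 2) = 0 := hz ▸ dc0
        have h2 : g ≠ 0 := fun h => by simp [← hz, h] at vs
        rw [show dc g = 0 by simpa [dc.leibniz_pow, h2] using h1]
        exact zero_mem _
      · obtain ⟨q, hq, hg⟩ := mem_iUnion₂.1 hg
        have m1 : ∀ k ∈ insert (q.w - s)⁻¹ (q.F : Set Ω), k ∈ Algebra.adjoin C
            (insert z (⋃ q ∈ Q, insert (q.w - s)⁻¹ (q.F : Set Ω))) := fun k hk =>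
          Algebra.subset_adjoin (mem_insert_of_mem _ (mem_iUnion₂.2 ⟨q, hq, hk⟩))
        have m2 : ∀ k ∈ q.F, dc k ∈ Algebra.adjoin C
            (insert z (⋃ q ∈ Q, insert (q.w - s)⁻¹ (q.F : Set Ω))) := fun k hk => by
          obtain ⟨l, l1, hl⟩ := q.stab k hk
          rw [Tc.sl hl, dcy q (hQ q hq).1]
          exact mul_mem (m1 _ (mem_insert _ _)) (m1 _ (mem_insert_of_mem _ l1))
        rcases hg with rfl | hg
        · refine ⟨(qV q hq).2, inv_mem (sub_mem (qC q hq q.wF) sC), ?_⟩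
          rw [dc.leibniz_inv, map_sub, dc0, sub_zero, smul_eq_mul]
          exact mul_mem (neg_mem (pow_mem (m1 _ (mem_insert _ _)) _)) (m2 _ q.wF)
        · exact ⟨(qV q hq).1 g hg, qC q hq hg, m2 g hg⟩) y
    (ey ▸ adjoin.mono _ _ _ (insert_subset_insert (iUnion₂_mono fun q _ => subset_insert _ _)) hmem)
    y0
  have := zpow_right_injective₀ vy0 vy.ne ((zpow_one _).trans hn)
  omega

end Pool.Agent.MP_249f74_an.H17
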